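import Pool.Agent.Work.MP_6c38a7_ag.Support

/-!
# Plane arcs in adapted coordinates (module F)
-/

namespace Pool.Agent.MNJ

open MvPolynomial

universe u

section Adapt

variable {k : Type u} [Field k] {K : Type*} [Field K] [Algebra k K]

/-! ### the coefficient of the initial form -/

theorem exists_shift {y : PowerSeries K} {p : ℕ} (hy : (p : ℕ∞) ≤ y.order) :
    ∃ y₀ : PowerSeries K, y = PowerSeries.X ^ p * y₀ ∧
      PowerSeries.constantCoeff y₀ = PowerSeries.coeff p y := by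
  obtain ⟨y₀, h⟩ : (PowerSeries.X ^ p : PowerSeries K) ∣ y := by
    rw [PowerSeries.X_pow_dvd_iff]
    intro m hm
    exact PowerSeries.coeff_of_lt_order m (lt_of_lt_of_le (by exact_mod_cast hm) hy)
  refine ⟨y₀, h, ?_⟩
  rw [h, PowerSeries.coeff_X_pow_mul', if_pos le_rfl, Nat.sub_self,
    PowerSeries.coeff_zero_eq_constantCoeff_apply]

theorem coeff_lead {y z : PowerSeries K} {p q : ℕ} (hy : (p : ℕ∞) ≤ y.order)
    (hz : (q : ℕ∞) ≤ z.order) (g : MvPolynomial (Fin 2) k) (w : ℕ)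
    (hw : ∀ d ∈ g.support, w ≤ p * d 0 + q * d 1) :
    PowerSeries.coeff w (aeval ![y, z] g : PowerSeries K) =
      ∑ d ∈ g.support with p * d 0 + q * d 1 = w, algebraMap k K (g.coeff d) *
        (PowerSeries.coeff p y ^ d 0 * PowerSeries.coeff q z ^ d 1) := by
  obtain ⟨y₀, hy1, hy2⟩ := exists_shift hy
  obtain ⟨z₀, hz1, hz2⟩ := exists_shift hz
  rw [aeval_def, eval₂_eq', map_sum, Finset.sum_filter]
  refine Finset.sum_congr rfl fun d hd => ?_
  rw [Fin.prod_univ_two]
  simp only [Matrix.cons_val_zero, Matrix.cons_val_one]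
  have e1 : (algebraMap k (PowerSeries K)) (coeff d g) * (y ^ d 0 * z ^ d 1) =
      PowerSeries.X ^ (p * d 0 + q * d 1) *
        (PowerSeries.C (algebraMap k K (coeff d g)) * (y₀ ^ d 0 * z₀ ^ d 1)) := by
    have e2 : (algebraMap k (PowerSeries K)) (coeff d g) =
        PowerSeries.C (algebraMap k K (coeff d g)) := PowerSeries.algebraMap_apply
    rw [e2]
    nth_rewrite 1 [hy1]
    nth_rewrite 1 [hz1]
    rw [mul_pow, mul_pow, ← pow_mul, ← pow_mul, pow_add]
    ring
  rw [e1, PowerSeries.coeff_X_pow_mul']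
  have h1 := hw d hd
  by_cases h2 : p * d 0 + q * d 1 = w
  · rw [if_pos h2.le, if_pos h2, h2, Nat.sub_self, PowerSeries.coeff_zero_eq_constantCoeff_apply,
      map_mul, map_mul, map_pow, map_pow, PowerSeries.constantCoeff_C, hy2, hz2]
  · rw [if_neg (by omega), if_neg h2]

theorem RB_of_lead {y z : PowerSeries K} {p q : ℕ} (n : ℕ) (hy : (p : ℕ∞) ≤ y.order)
    (hz : (q : ℕ∞) ≤ z.order)
    (h : ∀ g : MvPolynomial (Fin 2) k, ∀ w ≤ n, (∀ d ∈ g.support, w ≤ p * d 0 + q * d 1) →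
      (∃ d ∈ g.support, p * d 0 + q * d 1 = w) →
      ∑ d ∈ g.support with p * d 0 + q * d 1 = w, algebraMap k K (g.coeff d) *
        (PowerSeries.coeff p y ^ d 0 * PowerSeries.coeff q z ^ d 1) ≠ 0) :
    RB k n y z p q 1 1 := by
  intro g v hv hord d hd
  obtain ⟨d₀, hd₀, hmin⟩ := Finset.exists_min_image g.support (fun d => p * d 0 + q * d 1) ⟨d, hd⟩
  have h1 := hmin d hd
  rw [one_mul, one_mul]
  refine le_trans ?_ h1
  by_contra hcon
  push Not at hcon
  have h2 := h g (p * d₀ 0 + q * d₀ 1) (by omega) (fun d' hd' => hmin d' hd') ⟨d₀, hd₀, rfl⟩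
  rw [← coeff_lead hy hz g _ (fun d' hd' => hmin d' hd')] at h2
  refine h2 (PowerSeries.coeff_of_lt_order _ (lt_of_lt_of_le ?_ hord))
  exact_mod_cast hcon

/-! ### rank -/

theorem rk_cs_le {y z : PowerSeries K} {p q n : ℕ} (hp : p ≤ n + 1) (hq : q ≤ n + 1)
    (hy : (p : ℕ∞) ≤ y.order) (hz : (q : ℕ∞) ≤ z.order) :
    rk k (cs n ![y, z]) + ((p + q : ℕ) : ℕ∞) ≤ ((2 * (n + 1) : ℕ) : ℕ∞) := by
  classical
  set T : Finset K := (Finset.Icc p n).image (fun j => PowerSeries.coeff j y) ∪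
    (Finset.Icc q n).image (fun j => PowerSeries.coeff j z) with hT
  have h1 : rk k (cs n ![y, z]) ≤ rk k (T : Set K) := by
    refine rk_le_of_alg ?_
    rintro a ⟨i, j, hj, rfl⟩
    have hsub : ∀ x ∈ T, IsAlgebraic (IntermediateField.adjoin k (T : Set K)) x := fun x hx =>
      isAlgebraic_algebraMap (⟨x, IntermediateField.subset_adjoin k (T : Set K) hx⟩ :
        IntermediateField.adjoin k (T : Set K))
    fin_cases i
    · change IsAlgebraic _ (PowerSeries.coeff j y)
      by_cases hjp : p ≤ j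
      · apply hsub
        rw [hT, Finset.mem_union]
        exact Or.inl (Finset.mem_image_of_mem _ (Finset.mem_Icc.2 ⟨hjp, hj⟩))
      · rw [PowerSeries.coeff_of_lt_order j (lt_of_lt_of_le (by exact_mod_cast (not_le.1 hjp)) hy)]
        exact isAlgebraic_zero
    · change IsAlgebraic _ (PowerSeries.coeff j z)
      by_cases hjp : q ≤ j
      · apply hsub
        rw [hT, Finset.mem_union]
        exact Or.inr (Finset.mem_image_of_mem _ (Finset.mem_Icc.2 ⟨hjp, hj⟩))
      · rw [PowerSeries.coeff_of_lt_order j (lt_of_lt_of_le (by exact_mod_cast (not_le.1 hjp)) hz)]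
        exact isAlgebraic_zero
  have h2 : rk k (T : Set K) ≤ ((T.card : ℕ) : ℕ∞) := by
    refine (rk_le_encard9 (k := k) (T : Set K)).trans ?_
    rw [Set.encard_coe_eq_coe_finsetCard]
  have h3 : T.card ≤ (n + 1 - p) + (n + 1 - q) := by
    refine (Finset.card_union_le _ _).trans (add_le_add ?_ ?_)
    · exact Finset.card_image_le.trans (by rw [Nat.card_Icc])
    · exact Finset.card_image_le.trans (by rw [Nat.card_Icc])
  have h4 : rk k (cs n ![y, z]) ≤ (((n + 1 - p) + (n + 1 - q) : ℕ) : ℕ∞) :=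
    (h1.trans h2).trans (by exact_mod_cast h3)
  refine (add_le_add h4 le_rfl).trans ?_
  rw [← Nat.cast_add]
  exact_mod_cast (by omega)

/-! ### the three cases -/

/-- `y = 0` up to level `n` -/
theorem RB_axis {y z : PowerSeries K} {q n : ℕ} (hq : 1 ≤ q) (hy : ((n + 1 : ℕ) : ℕ∞) ≤ y.order)
    (hz : (q : ℕ∞) ≤ z.order) (hz' : PowerSeries.coeff q z ≠ 0 ∨ q = n + 1) :
    RB k n y z (n + 1) q 1 1 := by
  refine RB_of_lead n hy hz ?_
  rintro g w hw hmin ⟨d₀, hd₀, hdw⟩
  have hd0 : d₀ 0 = 0 := by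
    by_contra hne
    have h1 : 1 ≤ d₀ 0 := Nat.one_le_iff_ne_zero.2 hne
    have h2 : (n + 1) * 1 ≤ (n + 1) * d₀ 0 := Nat.mul_le_mul_left _ h1
    have : n + 1 ≤ w := by rw [← hdw]; omega
    omega
  have huniq : ∀ d : Fin 2 →₀ ℕ, (n + 1) * d 0 + q * d 1 = w → d = d₀ := by
    intro d hd
    have hd0' : d 0 = 0 := by
      by_contra hne
      have h1 : 1 ≤ d 0 := Nat.one_le_iff_ne_zero.2 hne
      have h2 : (n + 1) * 1 ≤ (n + 1) * d 0 := Nat.mul_le_mul_left _ h1
      have : n + 1 ≤ w := by rw [← hd]; omega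
      omega
    have h1 : q * d 1 = q * d₀ 1 := by
      rw [hd0'] at hd
      rw [hd0] at hdw
      omega
    have h2 : d 1 = d₀ 1 := Nat.eq_of_mul_eq_mul_left hq h1
    ext i
    fin_cases i
    · exact hd0'.trans hd0.symm
    · exact h2
  rw [Finset.sum_eq_single d₀]
  · rw [hd0, pow_zero, one_mul]
    refine mul_ne_zero ?_ ?_
    · rw [Ne, FaithfulSMul.algebraMap_eq_zero_iff]
      exact mem_support_iff.1 hd₀
    · rcases hz' with h | h
      · exact pow_ne_zero _ h
      · have : d₀ 1 = 0 := by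
          by_contra hne
          have h1 : 1 ≤ d₀ 1 := Nat.one_le_iff_ne_zero.2 hne
          have h2 : q * 1 ≤ q * d₀ 1 := Nat.mul_le_mul_left _ h1
          have : n + 1 ≤ w := by rw [← hdw]; omega
          omega
        rw [this, pow_zero]
        exact one_ne_zero
  · intro d hd hne
    rw [Finset.mem_filter] at hd
    exact absurd (huniq d hd.2) hne
  · intro hne
    exact absurd (Finset.mem_filter.2 ⟨hd₀, hdw⟩) hne

/-- the leading coefficients are independent enough -/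
theorem RB_trans {y z : PowerSeries K} {g p' q' n : ℕ} (hg : 1 ≤ g) (_hp' : 1 ≤ p') (hq' : 1 ≤ q')
    (hco : Nat.Coprime p' q') (hy : ((g * p' : ℕ) : ℕ∞) ≤ y.order)
    (hz : ((g * q' : ℕ) : ℕ∞) ≤ z.order) (hy0 : PowerSeries.coeff (g * p') y ≠ 0)
    (hz0 : PowerSeries.coeff (g * q') z ≠ 0)
    (htr : Transcendental k (PowerSeries.coeff (g * p') y ^ q' / PowerSeries.coeff (g * q') z ^ p')) :
    RB k n y z (g * p') (g * q') 1 1 := by
  classical
  refine RB_of_lead n hy hz ?_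
  intro G w hw hmin hex
  set a := PowerSeries.coeff (g * p') y with ha
  set b := PowerSeries.coeff (g * q') z with hb
  set τ := a ^ q' / b ^ p' with hτ
  set S := G.support.filter (fun d => g * p' * d 0 + g * q' * d 1 = w) with hS
  have hSne : S.Nonempty := by
    obtain ⟨d, hd, hdw⟩ := hex
    exact ⟨d, Finset.mem_filter.2 ⟨hd, hdw⟩⟩
  obtain ⟨d₀, hd₀, hd₀min⟩ := Finset.exists_min_image S (fun d => d 0) hSne
  have hw₀ : g * p' * d₀ 0 + g * q' * d₀ 1 = w := (Finset.mem_filter.1 hd₀).2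
  have hrel : ∀ d ∈ S, ∃ m, d 0 = d₀ 0 + q' * m ∧ d₀ 1 = d 1 + p' * m := by
    intro d hd
    have hdw : g * p' * d 0 + g * q' * d 1 = w := (Finset.mem_filter.1 hd).2
    have h1 : p' * d 0 + q' * d 1 = p' * d₀ 0 + q' * d₀ 1 := by
      have h2 : g * (p' * d 0 + q' * d 1) = g * (p' * d₀ 0 + q' * d₀ 1) := by
        rw [mul_add, mul_add, ← mul_assoc, ← mul_assoc, ← mul_assoc, ← mul_assoc, hdw, hw₀]
      exact Nat.eq_of_mul_eq_mul_left hg h2
    obtain ⟨t, ht⟩ := Nat.exists_eq_add_of_le (hd₀min d hd)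
    have ht' : d 0 = d₀ 0 + t := ht
    rw [ht'] at h1
    have h3 : p' * t + q' * d 1 = q' * d₀ 1 := by
      rw [mul_add] at h1
      omega
    have h4 : q' ∣ p' * t := by
      have h5 : q' ∣ p' * t + q' * d 1 := by rw [h3]; exact dvd_mul_right _ _
      exact (Nat.dvd_add_left (dvd_mul_right q' (d 1))).1 h5
    obtain ⟨m, hm⟩ := (Nat.Coprime.dvd_mul_left hco.symm).1 h4
    refine ⟨m, by rw [ht', hm], ?_⟩
    rw [hm] at h3
    have h6 : q' * (d 1 + p' * m) = q' * d₀ 1 := by rw [← h3]; ring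
    exact (Nat.eq_of_mul_eq_mul_left hq' h6).symm
  have hbne : b ^ p' ≠ 0 := pow_ne_zero _ hz0
  have hterm : ∀ d ∈ S, a ^ d 0 * b ^ d 1 = (a ^ d₀ 0 * b ^ d₀ 1) * τ ^ ((d 0 - d₀ 0) / q') := by
    intro d hd
    obtain ⟨m, h1, h2⟩ := hrel d hd
    have h3 : (d 0 - d₀ 0) / q' = m := by
      rw [h1, Nat.add_sub_cancel_left, Nat.mul_div_cancel_left _ hq']
    rw [h3, h1, h2, hτ, div_pow, pow_add, pow_add, pow_mul, pow_mul, mul_div_assoc']
    rw [eq_div_iff (pow_ne_zero _ hbne)]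
    ring
  set H : Polynomial k := ∑ d ∈ S, Polynomial.monomial ((d 0 - d₀ 0) / q') (G.coeff d) with hH
  have hHne : H ≠ 0 := by
    intro h0
    have h1 : H.coeff 0 = G.coeff d₀ := by
      rw [hH, Polynomial.finsetSum_coeff, Finset.sum_eq_single d₀]
      · rw [Nat.sub_self, Nat.zero_div, Polynomial.coeff_monomial, if_pos rfl]
      · intro d hd hne
        rw [Polynomial.coeff_monomial, if_neg]
        intro h2
        obtain ⟨m, h3, h4⟩ := hrel d hd
        have h5 : (d 0 - d₀ 0) / q' = m := by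
          rw [h3, Nat.add_sub_cancel_left, Nat.mul_div_cancel_left _ hq']
        rw [h5] at h2
        apply hne
        ext i
        fin_cases i
        · change d 0 = d₀ 0
          rw [h3, h2, mul_zero, add_zero]
        · change d 1 = d₀ 1
          rw [h4, h2, mul_zero, add_zero]
      · intro h2; exact absurd hd₀ h2
    rw [h0, Polynomial.coeff_zero] at h1
    exact (mem_support_iff.1 (Finset.mem_filter.1 hd₀).1) h1.symm
  have hsum : ∑ d ∈ S, algebraMap k K (G.coeff d) * (a ^ d 0 * b ^ d 1) =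
      (a ^ d₀ 0 * b ^ d₀ 1) * Polynomial.aeval τ H := by
    rw [hH, map_sum, Finset.mul_sum]
    refine Finset.sum_congr rfl fun d hd => ?_
    rw [hterm d hd, Polynomial.aeval_monomial]
    ring
  rw [hsum]
  refine mul_ne_zero (mul_ne_zero (pow_ne_zero _ hy0) (pow_ne_zero _ hz0)) ?_
  intro h0
  exact hHne ((transcendental_iff.1 htr) H h0)

theorem mem_range_of_isAlgebraic [IsAlgClosed k] {τ : K} (h : IsAlgebraic k τ) :
    ∃ t : k, algebraMap k K t = τ := by
  have h1 : IsIntegral k τ := h.isIntegral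
  have h2 := IsAlgClosed.degree_eq_one_of_irreducible k (minpoly.irreducible h1)
  exact minpoly.mem_range_of_degree_eq_one k τ h2

theorem adapt_aux [IsAlgClosed k] (y z : PowerSeries K) (hz : PowerSeries.constantCoeff z = 0)
    (n : ℕ) (hyz : z.order ≤ y.order) :
    ∃ ζ : Polynomial k, ζ.coeff 0 = 0 ∧
      ((∃ p q : ℕ, 1 ≤ p ∧ 1 ≤ q ∧
          (rk k (cs n ![y - Polynomial.aeval z ζ, z]) + ((p + q : ℕ) : ℕ∞) ≤ ((2 * (n + 1) : ℕ) : ℕ∞)) ∧
          RB k n (y - Polynomial.aeval z ζ) z p q 1 1) ∨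
       (∃ g p' q' : ℕ, 1 ≤ g ∧ 2 ≤ q' ∧ q' < p' ∧ Nat.Coprime p' q' ∧ g * p' ≤ n ∧
          (y - Polynomial.aeval z ζ).order = ((g * p' : ℕ) : ℕ∞) ∧ z.order = ((g * q' : ℕ) : ℕ∞) ∧
          ∃ τ : k, PowerSeries.coeff (g * p') (y - Polynomial.aeval z ζ) ^ q' =
            algebraMap k K τ * PowerSeries.coeff (g * q') z ^ p')) := by
  classical
  have hz1 : (1 : ℕ∞) ≤ z.order := by
    have := PowerSeries.nat_le_order z 1 (fun i hi => by
      rw [Nat.lt_one_iff] at hi
      rw [hi, PowerSeries.coeff_zero_eq_constantCoeff_apply, hz])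
    exact_mod_cast this
  by_cases hA : ((n + 1 : ℕ) : ℕ∞) ≤ z.order
  · refine ⟨0, Polynomial.coeff_zero 0, Or.inl ⟨n + 1, n + 1, by omega, by omega, ?_, ?_⟩⟩
    · rw [map_zero, sub_zero]
      exact rk_cs_le le_rfl le_rfl (hA.trans hyz) hA
    · rw [map_zero, sub_zero]
      exact RB_axis (by omega) (hA.trans hyz) hA (Or.inr rfl)
  -- the order of `z`
  push Not at hA
  obtain ⟨q, hq⟩ : ∃ q : ℕ, z.order = q := by
    rcases h : z.order with _ | q
    · rw [h] at hA
      exact absurd hA (not_lt.2 le_top)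
    · exact ⟨q, rfl⟩
  have hq1 : 1 ≤ q := by rw [hq] at hz1; exact_mod_cast hz1
  have hqn : q ≤ n := by
    rw [hq] at hA
    have : q < n + 1 := by exact_mod_cast hA
    omega
  have hzq : PowerSeries.coeff q z ≠ 0 := (PowerSeries.order_eq_nat.1 hq).1
  -- the best `ζ`
  set P : ℕ → Prop := fun p => ∃ ζ : Polynomial k, ζ.coeff 0 = 0 ∧
    (p : ℕ∞) ≤ (y - Polynomial.aeval z ζ).order with hP
  set p := Nat.findGreatest P (n + 1) with hp
  have hPq : P q := ⟨0, Polynomial.coeff_zero 0, by rw [map_zero, sub_zero, ← hq]; exact hyz⟩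
  have hpq : q ≤ p := Nat.le_findGreatest (by omega) hPq
  have hPp : P p := Nat.findGreatest_spec (m := q) (by omega) hPq
  have hpn : p ≤ n + 1 := Nat.findGreatest_le (n + 1)
  obtain ⟨ζ, hζ, hζp⟩ := hPp
  refine ⟨ζ, hζ, ?_⟩
  set Y := y - Polynomial.aeval z ζ with hY
  by_cases hB : p = n + 1
  · rw [hB] at hζp
    exact Or.inl ⟨n + 1, q, by omega, hq1, rk_cs_le le_rfl (by omega) hζp hq.ge,
      RB_axis hq1 hζp hq.ge (Or.inl hzq)⟩
  have hpn' : p ≤ n := by omega
  have hYord : Y.order = p := by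
    refine le_antisymm ?_ hζp
    by_contra hcon
    push Not at hcon
    have h1 : P (p + 1) := ⟨ζ, hζ, by
      rw [← hY]
      have := Order.add_one_le_of_lt hcon
      exact_mod_cast this⟩
    have h2 := Nat.le_findGreatest (P := P) (n := n + 1) (by omega) h1
    omega
  have hYp : PowerSeries.coeff p Y ≠ 0 := (PowerSeries.order_eq_nat.1 hYord).1
  -- the gcd
  obtain ⟨g, p', q', hg, hco, hp', hq'⟩ : ∃ g p' q', 1 ≤ g ∧ Nat.Coprime p' q' ∧ p = g * p' ∧
      q = g * q' := by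
    have hgpos : 0 < Nat.gcd p q := Nat.gcd_pos_of_pos_right _ hq1
    refine ⟨Nat.gcd p q, p / Nat.gcd p q, q / Nat.gcd p q, hgpos,
      Nat.coprime_div_gcd_div_gcd hgpos, ?_, ?_⟩
    · exact (Nat.mul_div_cancel' (Nat.gcd_dvd_left p q)).symm
    · exact (Nat.mul_div_cancel' (Nat.gcd_dvd_right p q)).symm
  have hp'1 : 1 ≤ p' := by
    rcases Nat.eq_zero_or_pos p' with h | h
    · rw [h, mul_zero] at hp'; omega
    · exact h
  have hq'1 : 1 ≤ q' := by
    rcases Nat.eq_zero_or_pos q' with h | h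
    · rw [h, mul_zero] at hq'; omega
    · exact h
  rw [hp'] at hYord hYp
  rw [hq'] at hq hzq
  by_cases htr : Transcendental k
      (PowerSeries.coeff (g * p') Y ^ q' / PowerSeries.coeff (g * q') z ^ p')
  · refine Or.inl ⟨g * p', g * q', by omega, by omega, rk_cs_le (by omega) (by omega) hYord.ge hq.ge,
      RB_trans hg hp'1 hq'1 hco hYord.ge hq.ge hYp hzq htr⟩
  -- the algebraic case
  obtain ⟨τ, hτ⟩ := mem_range_of_isAlgebraic (not_not.1 htr)
  have hτ' : PowerSeries.coeff (g * p') Y ^ q' = algebraMap k K τ * PowerSeries.coeff (g * q') z ^ p' := by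
    rw [hτ, div_mul_cancel₀ _ (pow_ne_zero _ hzq)]
  have hq'2 : 2 ≤ q' := by
    by_contra hcon
    have hq'1' : q' = 1 := by omega
    rw [hq'1', pow_one, mul_one] at hτ'
    rw [hq'1', mul_one] at hq hzq hq'
    -- a better `ζ`
    have h1 : P (p + 1) := by
      refine ⟨ζ + Polynomial.monomial p' τ, ?_, ?_⟩
      · rw [Polynomial.coeff_add, hζ, Polynomial.coeff_monomial, if_neg (by omega), add_zero]
      · have e1 : y - Polynomial.aeval z (ζ + Polynomial.monomial p' τ) =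
            Y - PowerSeries.C (algebraMap k K τ) * z ^ p' := by
          rw [map_add, Polynomial.aeval_monomial, hY]
          have : algebraMap k (PowerSeries K) τ = PowerSeries.C (algebraMap k K τ) :=
            PowerSeries.algebraMap_apply
          rw [this]
          ring
        rw [e1]
        obtain ⟨z₀, hz₁, hz₂⟩ := exists_shift (p := g) hq.ge
        have e2 : z ^ p' = PowerSeries.X ^ (g * p') * z₀ ^ p' := by
          rw [pow_mul, ← mul_pow, ← hz₁]
        refine PowerSeries.nat_le_order _ _ fun i hi => ?_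
        rw [map_sub, PowerSeries.coeff_C_mul, e2, PowerSeries.coeff_X_pow_mul']
        rcases Nat.lt_or_ge i (g * p') with h2 | h2
        · rw [if_neg (by omega), mul_zero, sub_zero]
          refine PowerSeries.coeff_of_lt_order _ ?_
          rw [hYord]
          exact_mod_cast h2
        · have h3 : i = g * p' := by omega
          rw [if_pos h2, h3, Nat.sub_self, PowerSeries.coeff_zero_eq_constantCoeff_apply, map_pow,
            hz₂, hτ', sub_self]
    have h2 := Nat.le_findGreatest (P := P) (n := n + 1) (by omega) h1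
    omega
  refine Or.inr ⟨g, p', q', hg, hq'2, ?_, hco, by omega, hYord, hq, τ, hτ'⟩
  have h1 : q' ≤ p' := by
    have : g * q' ≤ g * p' := by omega
    exact Nat.le_of_mul_le_mul_left this hg
  rcases h1.lt_or_eq with h2 | h2
  · exact h2
  · exfalso
    rw [h2, Nat.coprime_self] at hco
    omega

/-- F1.  After a coordinate change `y ↦ y - ζ(z)` (or the same with `y, z` exchanged) over `k`, a plane arc is
monomial up to level `n`, or it is tangent to a cusp. -/
theorem adapt [IsAlgClosed k]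
    (y z : PowerSeries K) (hy : PowerSeries.constantCoeff y = 0) (hz : PowerSeries.constantCoeff z = 0)
    (n : ℕ) :
    ∃ (y₁ z₁ : PowerSeries K) (ζ : Polynomial k), ((y₁ = y ∧ z₁ = z) ∨ (y₁ = z ∧ z₁ = y)) ∧
      ζ.coeff 0 = 0 ∧
      ((∃ p q : ℕ, 1 ≤ p ∧ 1 ≤ q ∧
          (rk k (cs n ![y₁ - Polynomial.aeval z₁ ζ, z₁]) + ((p + q : ℕ) : ℕ∞) ≤ ((2 * (n + 1) : ℕ) : ℕ∞)) ∧
          RB k n (y₁ - Polynomial.aeval z₁ ζ) z₁ p q 1 1) ∨
       (∃ g p' q' : ℕ, 1 ≤ g ∧ 2 ≤ q' ∧ q' < p' ∧ Nat.Coprime p' q' ∧ g * p' ≤ n ∧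
          (y₁ - Polynomial.aeval z₁ ζ).order = ((g * p' : ℕ) : ℕ∞) ∧ z₁.order = ((g * q' : ℕ) : ℕ∞) ∧
          ∃ τ : k, PowerSeries.coeff (g * p') (y₁ - Polynomial.aeval z₁ ζ) ^ q' =
            algebraMap k K τ * PowerSeries.coeff (g * q') z₁ ^ p')) := by
  rcases le_total z.order y.order with h | h
  · obtain ⟨ζ, h1, h2⟩ := adapt_aux (k := k) y z hz n h
    exact ⟨y, z, ζ, Or.inl ⟨rfl, rfl⟩, h1, h2⟩
  · obtain ⟨ζ, h1, h2⟩ := adapt_aux (k := k) z y hy n h
    exact ⟨z, y, ζ, Or.inr ⟨rfl, rfl⟩, h1, h2⟩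

end Adapt

end Pool.Agent.MNJ

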