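import Pool.Agent.Work.MP_6c38a7_ag.Defs

/-!
# Domination of cuspidal arcs by monomial weights: the inequalities
-/

namespace Pool.Agent.MNJ

/-! ### The minimum of a weight -/

/-- the minimum of the weight `(a, b, c)` on `Γ` -/
noncomputable def mn (Γ : Set (Fin 3 → ℕ)) (a b c : ℕ) : ℕ :=
  sInf {v | ∃ d ∈ Γ, v = a * d 0 + b * d 1 + c * d 2}

section Mn

variable {Γ : Set (Fin 3 → ℕ)}

lemma mn_le {d : Fin 3 → ℕ} (hd : d ∈ Γ) (a b c : ℕ) :
    mn Γ a b c ≤ a * d 0 + b * d 1 + c * d 2 := Nat.sInf_le ⟨d, hd, rfl⟩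

lemma mn_mem (hne : Γ.Nonempty) (a b c : ℕ) :
    ∃ d ∈ Γ, mn Γ a b c = a * d 0 + b * d 1 + c * d 2 := by
  obtain ⟨d, hd⟩ := hne
  exact Nat.sInf_mem (s := {v | ∃ d ∈ Γ, v = a * d 0 + b * d 1 + c * d 2}) ⟨_, d, hd, rfl⟩

lemma mn_mul (hne : Γ.Nonempty) (t a b c : ℕ) :
    mn Γ (t * a) (t * b) (t * c) = t * mn Γ a b c := by
  apply le_antisymm
  · obtain ⟨d, hd, h⟩ := mn_mem hne a b c
    rw [h]
    exact (mn_le hd _ _ _).trans (le_of_eq (by ring))
  · obtain ⟨d, hd, h⟩ := mn_mem hne (t * a) (t * b) (t * c)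
    rw [h]
    calc t * mn Γ a b c ≤ t * (a * d 0 + b * d 1 + c * d 2) :=
          Nat.mul_le_mul_left _ (mn_le hd _ _ _)
      _ = _ := by ring

variable {μ : ℕ} (hp : ![μ, 0, 0] ∈ Γ) (hdeg : ∀ d ∈ Γ, μ ≤ d 0 + d 1 + d 2)

include hp in
lemma mn_ne : Γ.Nonempty := ⟨_, hp⟩

include hp in
lemma mn_le_pure (a b c : ℕ) : mn Γ a b c ≤ a * μ := by
  have h := mn_le hp a b c
  simpa using h

include hp hdeg in
lemma mn_small {a b c : ℕ} (hb : a ≤ b) (hc : a ≤ c) : mn Γ a b c = a * μ := by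
  apply le_antisymm (mn_le_pure hp a b c)
  obtain ⟨d, hd, h⟩ := mn_mem (mn_ne hp) a b c
  rw [h]
  calc a * μ ≤ a * (d 0 + d 1 + d 2) := Nat.mul_le_mul_left _ (hdeg d hd)
    _ = a * d 0 + a * d 1 + a * d 2 := by ring
    _ ≤ a * d 0 + b * d 1 + c * d 2 :=
        Nat.add_le_add (Nat.add_le_add le_rfl (Nat.mul_le_mul_right _ hb))
          (Nat.mul_le_mul_right _ hc)

include hp in
lemma min_d0 {a b c : ℕ} (ha : 1 ≤ a) {d : Fin 3 → ℕ}
    (h : mn Γ a b c = a * d 0 + b * d 1 + c * d 2) : d 0 ≤ μ := by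
  have h1 := mn_le_pure hp a b c
  rw [h] at h1
  have h2 : a * d 0 ≤ a * μ := by omega
  exact Nat.le_of_mul_le_mul_left h2 ha

include hp in
/-- growth in the first weight -/
lemma mn_grow {a b c : ℕ} (ha : 1 ≤ a) (t r : ℕ) :
    mn Γ (t * a + r) (t * b) (t * c) ≤ t * mn Γ a b c + r * μ := by
  obtain ⟨d, hd, h⟩ := mn_mem (mn_ne hp) a b c
  have h1 := min_d0 hp ha h
  rw [h]
  refine (mn_le hd _ _ _).trans ?_
  have h2 : r * d 0 ≤ r * μ := Nat.mul_le_mul_left _ h1
  calc (t * a + r) * d 0 + t * b * d 1 + t * c * d 2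
      = t * (a * d 0 + b * d 1 + c * d 2) + r * d 0 := by ring
    _ ≤ _ := by omega

/-- monotonicity in the first weight -/
lemma mn_mono (hne : Γ.Nonempty) {a a' b c t : ℕ} (h : a' ≤ t * a) :
    mn Γ a' (t * b) (t * c) ≤ t * mn Γ a b c := by
  obtain ⟨d, hd, h1⟩ := mn_mem hne a b c
  rw [h1]
  refine (mn_le hd _ _ _).trans ?_
  have h2 : a' * d 0 ≤ t * a * d 0 := Nat.mul_le_mul_right _ h
  calc a' * d 0 + t * b * d 1 + t * c * d 2 ≤ t * a * d 0 + t * b * d 1 + t * c * d 2 := by omega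
    _ = _ := by ring

include hp in
/-- a common minimiser -/
lemma mn_common {B M a p q : ℕ} (hM : μ ≤ M) (hB : ∀ δ, 1 ≤ δ → δ ≤ M → δ ∣ B) (ha : 1 ≤ a) :
    ∃ d ∈ Γ, mn Γ a (B * p) (B * q) = a * d 0 + B * p * d 1 + B * q * d 2 ∧
      mn Γ (a + 1) (B * p) (B * q) = (a + 1) * d 0 + B * p * d 1 + B * q * d 2 := by
  have hne := mn_ne hp
  obtain ⟨d, hd, hdm⟩ := mn_mem hne (2 * a + 1) (2 * (B * p)) (2 * (B * q))
  have hd0 := min_d0 hp (by omega) hdm
  -- the key arithmetic fact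
  have key : ∀ (δ : ℕ) (ω : ℤ), 1 ≤ δ → δ ≤ M → (a : ℤ) * δ < B * ω → (B : ℤ) * ω < (a + 1) * δ →
      False := by
    intro δ ω h1 h2 h3 h4
    obtain ⟨t, ht⟩ := hB δ h1 h2
    have hδ : (0 : ℤ) < δ := by exact_mod_cast h1
    have hBt : (B : ℤ) = δ * t := by exact_mod_cast ht
    rw [hBt] at h3 h4
    have h5 : (a : ℤ) < t * ω := by
      by_contra hc
      push Not at hc
      nlinarith
    have h6 : (t : ℤ) * ω < a + 1 := by
      by_contra hc
      push Not at hc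
      nlinarith
    omega
  refine ⟨d, hd, le_antisymm (mn_le hd _ _ _) ?_, le_antisymm (mn_le hd _ _ _) ?_⟩
  · by_contra hcon
    push Not at hcon
    obtain ⟨d', hd', h'⟩ := mn_mem hne a (B * p) (B * q)
    have hd0' := min_d0 hp ha h'
    have hs := mn_le hd' (2 * a + 1) (2 * (B * p)) (2 * (B * q))
    rw [hdm] at hs
    rw [h'] at hcon
    zify at hs hcon
    have hδ : d 0 < d' 0 := by
      zify
      nlinarith
    refine key (d' 0 - d 0) ((p * d 1 + q * d 2 : ℤ) - (p * d' 1 + q * d' 2)) (by omega)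
      (by omega) ?_ ?_
    · rw [Nat.cast_sub hδ.le]
      nlinarith
    · rw [Nat.cast_sub hδ.le]
      nlinarith
  · by_contra hcon
    push Not at hcon
    obtain ⟨d', hd', h'⟩ := mn_mem hne (a + 1) (B * p) (B * q)
    have hs := mn_le hd' (2 * a + 1) (2 * (B * p)) (2 * (B * q))
    rw [hdm] at hs
    rw [h'] at hcon
    zify at hs hcon
    have hδ : d' 0 < d 0 := by
      zify
      nlinarith
    refine key (d 0 - d' 0) ((p * d' 1 + q * d' 2 : ℤ) - (p * d 1 + q * d 2)) (by omega)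
      (by omega) ?_ ?_
    · rw [Nat.cast_sub hδ.le]
      nlinarith
    · rw [Nat.cast_sub hδ.le]
      nlinarith

end Mn

/-! ### The functional -/

/-- the functional, for three weights -/
noncomputable def FF {s : ℕ} (e : Fin s → ℝ) (Γ : Fin s → Set (Fin 3 → ℕ)) (a b c : ℕ) : ℝ :=
  (a + b + c : ℝ) - ∑ i, e i * (mn (Γ i) a b c : ℝ)

lemma Fw_eq {s : ℕ} (e : Fin s → ℝ) (Γ : Fin s → Set (Fin 3 → ℕ)) (a b c : ℕ) :
    Fw e Γ ![a, b, c] = FF e Γ a b c := by
  unfold Fw FF mn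
  simp [Fin.sum_univ_three]

/-- the data -/
structure Dat {s : ℕ} (e : Fin s → ℝ) (Γ : Fin s → Set (Fin 3 → ℕ)) (μ : Fin s → ℕ) : Prop where
  he : ∀ i, 0 < e i
  pure : ∀ i, ![μ i, 0, 0] ∈ Γ i
  deg : ∀ i, ∀ d ∈ Γ i, μ i ≤ d 0 + d 1 + d 2

section FF

variable {s : ℕ} {e : Fin s → ℝ} {Γ : Fin s → Set (Fin 3 → ℕ)} {μ : Fin s → ℕ}

lemma FF_mul (h : Dat e Γ μ) (t a b c : ℕ) : FF e Γ (t * a) (t * b) (t * c) = t * FF e Γ a b c := by
  unfold FF
  rw [mul_sub, Finset.mul_sum]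
  congr 1
  · push_cast
    ring
  · refine Finset.sum_congr rfl fun i _ => ?_
    rw [mn_mul (mn_ne (h.pure i))]
    push_cast
    ring

lemma FF_small (h : Dat e Γ μ) {a b c : ℕ} (hb : a ≤ b) (hc : a ≤ c) :
    FF e Γ a b c = (b + c : ℝ) - a * (∑ i, e i * (μ i : ℝ) - 1) := by
  unfold FF
  have h1 : ∑ i, e i * (mn (Γ i) a b c : ℝ) = a * ∑ i, e i * (μ i : ℝ) := by
    rw [Finset.mul_sum]
    refine Finset.sum_congr rfl fun i _ => ?_
    rw [mn_small (h.pure i) (h.deg i) hb hc]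
    push_cast
    ring
  rw [h1]
  ring

/-- comparison of two values of the functional, up to a factor and up to an error -/
lemma FF_comp (h : Dat e Γ μ) {a b c a' b' c' : ℕ} {t r : ℝ}
    (hle : ∀ i, (mn (Γ i) a b c : ℝ) ≤ t * (mn (Γ i) a' b' c' : ℝ) + r * (μ i : ℝ)) :
    (a + b + c : ℝ) - t * (a' + b' + c') + t * FF e Γ a' b' c' - r * ∑ i, e i * (μ i : ℝ)
      ≤ FF e Γ a b c := by
  unfold FF
  have h1 : ∑ i, e i * (mn (Γ i) a b c : ℝ)
      ≤ t * ∑ i, e i * (mn (Γ i) a' b' c' : ℝ) + r * ∑ i, e i * (μ i : ℝ) := by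
    rw [Finset.mul_sum, Finset.mul_sum, ← Finset.sum_add_distrib]
    refine Finset.sum_le_sum fun i _ => ?_
    have := mul_le_mul_of_nonneg_left (hle i) (h.he i).le
    linarith
  linarith

/-- floor -/
lemma FF_floor (h : Dat e Γ μ) {a b c : ℕ} (ha : 1 ≤ a) (t r : ℕ) :
    t * FF e Γ a b c - r * (∑ i, e i * (μ i : ℝ) - 1) ≤ FF e Γ (t * a + r) (t * b) (t * c) := by
  have h1 := FF_comp h (a := t * a + r) (b := t * b) (c := t * c) (a' := a) (b' := b) (c' := c)
    (t := t) (r := r) (fun i => by exact_mod_cast mn_grow (h.pure i) ha t r)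
  push_cast at h1
  linarith

/-- ceiling -/
lemma FF_ceil (h : Dat e Γ μ) {a b c t a' : ℕ} (ha : a' ≤ t * a) :
    t * FF e Γ a b c - (t * a - a') ≤ FF e Γ a' (t * b) (t * c) := by
  have h1 := FF_comp h (a := a') (b := t * b) (c := t * c) (a' := a) (b' := b) (c' := c)
    (t := t) (r := 0) (fun i => by
      have := mn_mono (mn_ne (h.pure i)) (b := b) (c := c) ha
      have h2 : ((mn (Γ i) a' (t * b) (t * c) : ℕ) : ℝ) ≤ ((t * mn (Γ i) a b c : ℕ) : ℝ) := by
        exact_mod_cast this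
      push_cast at h2
      linarith)
  push_cast at h1
  linarith

/-- interpolation between neighbours -/
lemma FF_inter (h : Dat e Γ μ) {B M a p q : ℕ} (hM : ∀ i, μ i ≤ M)
    (hB : ∀ δ, 1 ≤ δ → δ ≤ M → δ ∣ B) (ha : 1 ≤ a) (t r : ℕ) (_hr : r ≤ t) :
    (t - r : ℝ) * FF e Γ a (B * p) (B * q) + r * FF e Γ (a + 1) (B * p) (B * q)
      ≤ FF e Γ (t * a + r) (t * (B * p)) (t * (B * q)) := by
  have h1 : ∀ i, (mn (Γ i) (t * a + r) (t * (B * p)) (t * (B * q)) : ℝ)
      ≤ (t - r) * mn (Γ i) a (B * p) (B * q) + r * mn (Γ i) (a + 1) (B * p) (B * q) := by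
    intro i
    obtain ⟨d, hd, h2, h3⟩ := mn_common (p := p) (q := q) (h.pure i) (hM i) hB ha
    have h4 := mn_le hd (t * a + r) (t * (B * p)) (t * (B * q))
    have h5 : (mn (Γ i) (t * a + r) (t * (B * p)) (t * (B * q)) : ℝ)
        ≤ ((t * a + r) * d 0 + t * (B * p) * d 1 + t * (B * q) * d 2 : ℕ) := by exact_mod_cast h4
    rw [h2, h3]
    push_cast at h5 ⊢
    linarith
  have h2 : ∑ i, e i * (mn (Γ i) (t * a + r) (t * (B * p)) (t * (B * q)) : ℝ)
      ≤ (t - r) * ∑ i, e i * (mn (Γ i) a (B * p) (B * q) : ℝ)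
        + r * ∑ i, e i * (mn (Γ i) (a + 1) (B * p) (B * q) : ℝ) := by
    rw [Finset.mul_sum, Finset.mul_sum, ← Finset.sum_add_distrib]
    refine Finset.sum_le_sum fun i _ => ?_
    have := mul_le_mul_of_nonneg_left (h1 i) (h.he i).le
    linarith
  unfold FF
  push_cast
  linarith

/-- comparison of two values of the functional, with individual errors -/
lemma FF_comp' (h : Dat e Γ μ) {a b c a' b' c' : ℕ} {t : ℝ} (ρ : Fin s → ℝ)
    (hle : ∀ i, (mn (Γ i) a b c : ℝ) ≤ t * (mn (Γ i) a' b' c' : ℝ) + ρ i) :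
    (a + b + c : ℝ) - t * (a' + b' + c') + t * FF e Γ a' b' c' - ∑ i, e i * ρ i
      ≤ FF e Γ a b c := by
  unfold FF
  have h1 : ∑ i, e i * (mn (Γ i) a b c : ℝ)
      ≤ t * ∑ i, e i * (mn (Γ i) a' b' c' : ℝ) + ∑ i, e i * ρ i := by
    rw [Finset.mul_sum, ← Finset.sum_add_distrib]
    refine Finset.sum_le_sum fun i _ => ?_
    have := mul_le_mul_of_nonneg_left (hle i) (h.he i).le
    linarith
  linarith

/-- some value is at most the average plus `x / (1 + x)` -/
lemma step_i (h : Dat e Γ μ) (hx : 0 ≤ ∑ i, e i * (μ i : ℝ) - 1) {u D b c : ℕ}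
    (hD : 1 ≤ D) (hb : 1 ≤ b) (hc : 1 ≤ c) :
    ∃ a, 1 ≤ a ∧ D * FF e Γ a b c ≤ FF e Γ u (D * b) (D * c)
      + D * ((∑ i, e i * (μ i : ℝ) - 1) / (1 + (∑ i, e i * (μ i : ℝ) - 1))) := by
  set x : ℝ := ∑ i, e i * (μ i : ℝ) - 1 with hxdef
  have hDR : (1 : ℝ) ≤ D := by exact_mod_cast hD
  have hx1 : 0 ≤ x / (1 + x) := by positivity
  rcases le_or_gt u D with huD | huD
  · refine ⟨1, le_rfl, ?_⟩
    have h1 := FF_small h (a := 1) (b := b) (c := c) hb hc
    have h2 := FF_small h (a := u) (b := D * b) (c := D * c)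
      (huD.trans (Nat.le_mul_of_pos_right _ hb)) (huD.trans (Nat.le_mul_of_pos_right _ hc))
    rw [h1, h2, ← hxdef]
    push_cast
    have h3 : (u : ℝ) ≤ D := by exact_mod_cast huD
    nlinarith
  · have hdm := Nat.div_add_mod u D
    set a := u / D with ha
    set r := u % D with hr
    have hrD : r < D := Nat.mod_lt _ (by omega)
    have ha1 : 1 ≤ a := (Nat.le_div_iff_mul_le (by omega)).2 (by omega)
    have h1 := FF_floor h (b := b) (c := c) ha1 D r
    rw [hdm, ← hxdef] at h1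
    have h2 := FF_ceil h (a := a + 1) (b := b) (c := c) (t := D) (a' := u) (by
      rw [Nat.mul_add]
      omega)
    have hu' : (u : ℝ) = D * a + r := by exact_mod_cast hdm.symm
    rw [hu'] at h2
    push_cast at h2
    have hx2 : 0 < 1 + x := by linarith
    rcases le_or_gt ((r : ℝ) * (1 + x)) D with h3 | h3
    · refine ⟨a, ha1, ?_⟩
      have h4 : (r : ℝ) * x ≤ D * (x / (1 + x)) := by
        rw [← mul_div_assoc, le_div_iff₀ hx2]
        nlinarith
      linarith
    · refine ⟨a + 1, by omega, ?_⟩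
      have h4 : (D : ℝ) - r ≤ D * (x / (1 + x)) := by
        rw [← mul_div_assoc, le_div_iff₀ hx2]
        nlinarith
      linarith

/-- for large `g` some value is at most the average -/
lemma step_ii (h : Dat e Γ μ) (hx : 0 ≤ ∑ i, e i * (μ i : ℝ) - 1) {B M g v D p q : ℕ}
    (hM : ∀ i, μ i ≤ M) (hB : ∀ δ, 1 ≤ δ → δ ≤ M → δ ∣ B) (hB1 : 1 ≤ B) (hg : B ≤ g)
    (hD : 1 ≤ D) (hp : 1 ≤ p) (hq : 1 ≤ q)
    (hZ : 0 ≤ FF e Γ (g * v) (g * (D * p)) (g * (D * q))) :
    ∃ a, 1 ≤ a ∧ D * FF e Γ a (B * p) (B * q)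
      ≤ FF e Γ (g * v) (g * (D * p)) (g * (D * q)) := by
  have hDR : (1 : ℝ) ≤ D := by exact_mod_cast hD
  have hBR : (1 : ℝ) ≤ B := by exact_mod_cast hB1
  have hgR : (B : ℝ) ≤ g := by exact_mod_cast hg
  rw [FF_mul h] at hZ ⊢
  set Y := FF e Γ v (D * p) (D * q) with hY
  have hY0 : 0 ≤ Y := by
    by_contra hc
    push Not at hc
    nlinarith
  have hYB : FF e Γ (B * v) (D * (B * p)) (D * (B * q)) = B * Y := by
    rw [hY, ← FF_mul h]
    congr 1 <;> ring
  have hBY : (B : ℝ) * Y ≤ g * Y := mul_le_mul_of_nonneg_right hgR hY0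
  rcases Nat.lt_or_ge (B * v) D with hlt | hge
  · refine ⟨1, le_rfl, le_trans ?_ hBY⟩
    have hBp : 1 ≤ B * p := Nat.mul_pos hB1 hp
    have hBq : 1 ≤ B * q := Nat.mul_pos hB1 hq
    have h1 := FF_small h (a := 1) (b := B * p) (c := B * q) hBp hBq
    have h2 := FF_small h (a := B * v) (b := D * (B * p)) (c := D * (B * q))
      (hlt.le.trans (Nat.le_mul_of_pos_right _ hBp))
      (hlt.le.trans (Nat.le_mul_of_pos_right _ hBq))
    rw [hYB] at h2
    rw [h1, h2]
    push_cast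
    have h3 : ((B * v : ℕ) : ℝ) ≤ D := by exact_mod_cast hlt.le
    push_cast at h3
    nlinarith
  · have hdm := Nat.div_add_mod (B * v) D
    set a := (B * v) / D with ha
    set r := (B * v) % D with hr
    have hrD : r < D := Nat.mod_lt _ (by omega)
    have ha1 : 1 ≤ a := (Nat.le_div_iff_mul_le (by omega)).2 (by omega)
    have h1 := FF_inter h (p := p) (q := q) hM hB ha1 D r hrD.le
    rw [hdm, hYB] at h1
    have hrR : (0 : ℝ) ≤ r := Nat.cast_nonneg _
    have hrR' : (r : ℝ) ≤ D := by exact_mod_cast hrD.le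
    rcases le_or_gt (FF e Γ a (B * p) (B * q)) (FF e Γ (a + 1) (B * p) (B * q)) with h3 | h3
    · refine ⟨a, ha1, le_trans ?_ hBY⟩
      nlinarith
    · refine ⟨a + 1, by omega, le_trans ?_ hBY⟩
      nlinarith

/-- the case `μ i₀ = 1` -/
lemma step_iv (h : Dat e Γ μ) {i₀ : Fin s} (hμ : μ i₀ = 1) (he1 : 1 ≤ e i₀)
    (hsum : ∑ i, e i * (μ i : ℝ) ≤ 1 + e i₀) {u D b c : ℕ} (hu : 1 ≤ u) (hD : 1 ≤ D)
    (hb : 1 ≤ b) (hc : 1 ≤ c) :
    ∃ a, 1 ≤ a ∧ D * FF e Γ a b c ≤ FF e Γ u (D * b) (D * c) := by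
  classical
  have hDR : (1 : ℝ) ≤ D := by exact_mod_cast hD
  by_cases hW : ∃ d ∈ Γ i₀, d 0 = 0 ∧ D * (b * d 1 + c * d 2) < u
  · -- the minimal weight `W`
    have hne : {v | ∃ d ∈ Γ i₀, d 0 = 0 ∧ v = b * d 1 + c * d 2}.Nonempty := by
      obtain ⟨d, hd, hd0, _⟩ := hW
      exact ⟨_, d, hd, hd0, rfl⟩
    obtain ⟨ds, hds, hds0, hWd⟩ := Nat.sInf_mem hne
    set W := sInf {v | ∃ d ∈ Γ i₀, d 0 = 0 ∧ v = b * d 1 + c * d 2} with hWdef
    have hWu : D * W < u := by
      obtain ⟨d, hd, hd0, hlt⟩ := hW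
      have h1 : W ≤ b * d 1 + c * d 2 := Nat.sInf_le ⟨d, hd, hd0, rfl⟩
      exact lt_of_le_of_lt (Nat.mul_le_mul_left _ h1) hlt
    have hW1 : 1 ≤ W := by
      have h1 := h.deg i₀ ds hds
      rw [hμ, hds0] at h1
      rw [hWd]
      have h2 : ds 1 ≤ b * ds 1 := Nat.le_mul_of_pos_left _ hb
      have h3 : ds 2 ≤ c * ds 2 := Nat.le_mul_of_pos_left _ hc
      omega
    have hWmn : W ≤ mn (Γ i₀) W b c := by
      obtain ⟨d, hd, hdm⟩ := mn_mem (mn_ne (h.pure i₀)) W b c
      rw [hdm]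
      rcases Nat.eq_zero_or_pos (d 0) with hd0 | hd0
      · have h1 : W ≤ b * d 1 + c * d 2 := Nat.sInf_le ⟨d, hd, hd0, rfl⟩
        omega
      · have h1 : W ≤ W * d 0 := Nat.le_mul_of_pos_right _ hd0
        omega
    refine ⟨W, hW1, ?_⟩
    obtain ⟨r, hr⟩ : ∃ r, u = D * W + r := ⟨u - D * W, by omega⟩
    have h1 := FF_comp' h (a := u) (b := D * b) (c := D * c) (a' := W) (b' := b) (c' := c)
      (t := D) (fun i => if i = i₀ then 0 else (r : ℝ) * μ i) (by
        intro i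
        by_cases hi : i = i₀
        · subst hi
          rw [if_pos rfl]
          have h2 := mn_le hds u (D * b) (D * c)
          rw [hds0] at h2
          have h3 : mn (Γ i) u (D * b) (D * c) ≤ D * mn (Γ i) W b c := by
            calc mn (Γ i) u (D * b) (D * c) ≤ D * W := by
                  rw [hWd]
                  refine h2.trans (le_of_eq ?_)
                  ring
              _ ≤ _ := Nat.mul_le_mul_left _ hWmn
          have h4 : ((mn (Γ i) u (D * b) (D * c) : ℕ) : ℝ) ≤ ((D * mn (Γ i) W b c : ℕ) : ℝ) := by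
            exact_mod_cast h3
          push_cast at h4
          linarith
        · rw [if_neg hi, hr]
          exact_mod_cast mn_grow (h.pure i) hW1 D r)
    have h2 : ∑ i, e i * (if i = i₀ then 0 else (r : ℝ) * μ i) ≤ r := by
      have h3 : ∑ i, e i * (if i = i₀ then 0 else (r : ℝ) * μ i)
          = r * (∑ i, e i * (μ i : ℝ) - e i₀) := by
        have h4 : e i₀ = ∑ i, e i * (if i = i₀ then (μ i : ℝ) else 0) := by
          rw [Finset.sum_eq_single i₀]
          · rw [if_pos rfl, hμ]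
            simp
          · intro i _ hi
            rw [if_neg hi, mul_zero]
          · intro hi
            exact absurd (Finset.mem_univ _) hi
        rw [h4, ← Finset.sum_sub_distrib, Finset.mul_sum]
        refine Finset.sum_congr rfl fun i _ => ?_
        by_cases hi : i = i₀
        · rw [if_pos hi, if_pos hi]
          ring
        · rw [if_neg hi, if_neg hi]
          ring
      rw [h3]
      have h5 : (0 : ℝ) ≤ r := Nat.cast_nonneg _
      nlinarith
    rw [hr] at h1 ⊢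
    push_cast at h1
    linarith
  · push Not at hW
    obtain ⟨a, ha1, ha2⟩ : ∃ a, u ≤ D * a ∧ D * a < u + D := by
      refine ⟨(u + D - 1) / D, ?_, ?_⟩
      · have h1 := Nat.div_add_mod (u + D - 1) D
        have h2 := Nat.mod_lt (u + D - 1) (by omega : D > 0)
        omega
      · have h1 := Nat.div_add_mod (u + D - 1) D
        omega
    have ha : 1 ≤ a := by
      rcases Nat.eq_zero_or_pos a with h0 | h0
      · subst h0
        omega
      · exact h0
    have hmn : a ≤ mn (Γ i₀) a b c := by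
      obtain ⟨d, hd, hdm⟩ := mn_mem (mn_ne (h.pure i₀)) a b c
      rw [hdm]
      rcases Nat.eq_zero_or_pos (d 0) with hd0 | hd0
      · have h1 := hW d hd hd0
        have h2 : a ≤ b * d 1 + c * d 2 := by
          by_contra hcon
          push Not at hcon
          have h3 : D * (b * d 1 + c * d 2 + 1) ≤ D * a := Nat.mul_le_mul_left _ hcon
          rw [Nat.mul_add, Nat.mul_one] at h3
          omega
        omega
      · have h1 : a ≤ a * d 0 := Nat.le_mul_of_pos_right _ hd0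
        omega
    refine ⟨a, ha, ?_⟩
    have h1 := FF_comp' h (a := u) (b := D * b) (c := D * c) (a' := a) (b' := b) (c' := c)
      (t := D) (fun i => if i = i₀ then (u : ℝ) - D * a else 0) (by
        intro i
        by_cases hi : i = i₀
        · subst hi
          rw [if_pos rfl]
          have h2 := mn_le_pure (h.pure i) u (D * b) (D * c)
          rw [hμ] at h2
          have h3 : (mn (Γ i) u (D * b) (D * c) : ℝ) ≤ u := by
            exact_mod_cast h2.trans (le_of_eq (Nat.mul_one u))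
          have h4 : (a : ℝ) ≤ mn (Γ i) a b c := by exact_mod_cast hmn
          nlinarith
        · rw [if_neg hi]
          have h2 := mn_mono (mn_ne (h.pure i)) (b := b) (c := c) ha1
          have h3 : ((mn (Γ i) u (D * b) (D * c) : ℕ) : ℝ) ≤ ((D * mn (Γ i) a b c : ℕ) : ℝ) := by
            exact_mod_cast h2
          push_cast at h3
          linarith)
    have h2 : ∑ i, e i * (if i = i₀ then (u : ℝ) - D * a else 0) = e i₀ * (u - D * a) := by
      rw [Finset.sum_eq_single i₀]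
      · rw [if_pos rfl]
      · intro i _ hi
        rw [if_neg hi, mul_zero]
      · intro hi
        exact absurd (Finset.mem_univ _) hi
    rw [h2] at h1
    have h3 : (u : ℝ) ≤ D * a := by exact_mod_cast ha1
    push_cast at h1
    nlinarith

end FF

/-- J1 -/
theorem arith {s : ℕ} (e : Fin s → ℝ) (he : ∀ i, 0 < e i) :
    ∃ C : ℕ, ∀ (Γ : Fin s → Set (Fin 3 → ℕ)) (μ : Fin s → ℕ) (i₀ : Fin s), 1 ≤ μ i₀ →
      ∑ i, e i * (μ i : ℝ) ≤ 1 + e i₀ → (∀ i, ![μ i, 0, 0] ∈ Γ i) →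
      (∀ i, ∀ d ∈ Γ i, μ i ≤ d 0 + d 1 + d 2) →
      (∀ w : Fin 3 → ℕ, (∀ j, 1 ≤ w j) → 0 ≤ Fw e Γ w) →
      ∀ (g p q j c κ : ℕ) (m : Fin s → ℕ), 1 ≤ g → 2 ≤ q → q < p → 1 ≤ j → 1 ≤ c →
        g * (p + q) + j ≤ κ →
        (∀ i, ∀ d ∈ Γ i, g * p * q * m i ≤ g * p * q * c * d 0 +
          (g * p * q + j) * (g * p * d 1 + g * q * d 2)) →
        (∃ w : Fin 3 → ℕ, (∀ j, 1 ≤ w j) ∧ Fw e Γ w ≤ (κ : ℝ) + c - ∑ i, e i * (m i : ℝ)) ∨
        (g ≤ C ∧ p ≤ C ∧ j ≤ C ∧ 0 ≤ (g * (p + q) + j : ℝ) + c - ∑ i, e i * (m i : ℝ)) := by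
  classical
  set Mx : ℕ := ⌈∑ i, ∑ l, (1 + e i) / e l⌉₊ with hMx
  set X : (Fin s → Fin (Mx + 1)) → ℝ := fun ν => ∑ i, e i * ((ν i : ℕ) : ℝ) - 1 with hX
  set Pb : ℕ := ∑ ν : Fin s → Fin (Mx + 1), ⌈2 * (1 + X ν) / (1 - X ν)⌉₊ with hPb
  refine ⟨Mx.factorial + 2 + Pb, ?_⟩
  intro Γ μ i₀ hμ0 hsum hpure hdeg hpos g p q j c κ m hg hq hpq hj hc hκ hm
  have h : Dat e Γ μ := ⟨he, hpure, hdeg⟩
  have hμM : ∀ i, μ i ≤ Mx := by
    intro i
    have h1 : e i * (μ i : ℝ) ≤ 1 + e i₀ :=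
      (Finset.single_le_sum (f := fun i => e i * (μ i : ℝ))
        (fun l _ => mul_nonneg (he l).le (Nat.cast_nonneg _)) (Finset.mem_univ i)).trans hsum
    have h2 : (μ i : ℝ) ≤ (1 + e i₀) / e i := by
      rw [le_div_iff₀ (he i)]
      linarith
    have hnn : ∀ a b, 0 ≤ (1 + e a) / e b := fun a b =>
      div_nonneg (by have := he a; linarith) (he b).le
    have h3 : (1 + e i₀) / e i ≤ ∑ i, ∑ l, (1 + e i) / e l :=
      (Finset.single_le_sum (f := fun l => (1 + e i₀) / e l) (fun l _ => hnn i₀ l)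
        (Finset.mem_univ i)).trans
      (Finset.single_le_sum (f := fun a => ∑ l, (1 + e a) / e l)
        (fun a _ => Finset.sum_nonneg fun l _ => hnn a l) (Finset.mem_univ i₀))
    have h4 : (μ i : ℝ) ≤ (Mx : ℝ) := (h2.trans h3).trans (Nat.le_ceil _)
    exact_mod_cast h4
  set x : ℝ := ∑ i, e i * (μ i : ℝ) - 1 with hx
  set Em : ℝ := ∑ i, e i * (m i : ℝ) with hEm
  set V : ℝ := (g * (p + q) + j : ℝ) + c - Em with hV
  have hκV : V ≤ (κ : ℝ) + c - Em := by
    have h1 : ((g * (p + q) + j : ℕ) : ℝ) ≤ κ := by exact_mod_cast hκ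
    push_cast at h1
    linarith
  -- values of the functional
  have ok : ∀ a b d : ℕ, 1 ≤ a → 1 ≤ b → 1 ≤ d → FF e Γ a b d ≤ V →
      ∃ w : Fin 3 → ℕ, (∀ j, 1 ≤ w j) ∧ Fw e Γ w ≤ (κ : ℝ) + c - Em := by
    intro a b d ha hb hd hle
    refine ⟨![a, b, d], ?_, ?_⟩
    · intro l
      fin_cases l
      · exact ha
      · exact hb
      · exact hd
    · rw [Fw_eq]
      exact hle.trans hκV
  have hFpos : ∀ a b d : ℕ, 1 ≤ a → 1 ≤ b → 1 ≤ d → 0 ≤ FF e Γ a b d := by
    intro a b d ha hb hd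
    rw [← Fw_eq]
    apply hpos
    intro l
    fin_cases l
    · exact ha
    · exact hb
    · exact hd
  have hpos_p : 1 ≤ p := by omega
  have hpos_q : 1 ≤ q := by omega
  have hgp : 1 ≤ g * p := Nat.mul_pos hg hpos_p
  have hgq : 1 ≤ g * q := Nat.mul_pos hg hpos_q
  set E : ℕ := g * p * q with hE
  have hE1 : 1 ≤ E := Nat.mul_pos hgp hpos_q
  set D : ℕ := E + j with hD
  have hD1 : 1 ≤ D := by omega
  have hEc : 1 ≤ E * c := Nat.mul_pos hE1 hc
  set Z : ℝ := FF e Γ (E * c) (D * (g * p)) (D * (g * q)) with hZ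
  have hZ0 : 0 ≤ Z := hFpos _ _ _ hEc (Nat.mul_pos hD1 hgp) (Nat.mul_pos hD1 hgq)
  have hER : (1 : ℝ) ≤ E := by exact_mod_cast hE1
  have hDR : (D : ℝ) = E + j := by
    rw [hD]
    push_cast
    ring
  have hjR : (1 : ℝ) ≤ j := by exact_mod_cast hj
  have hERv : (E : ℝ) = g * p * q := by
    rw [hE]
    push_cast
    ring
  have hgR : (1 : ℝ) ≤ g := by exact_mod_cast hg
  have hqR : (2 : ℝ) ≤ q := by exact_mod_cast hq
  have hpR : (3 : ℝ) ≤ p := by exact_mod_cast (by omega : 3 ≤ p)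
  -- the lower bound for `V`
  have hVE : Z + j * (E - g * (p + q)) ≤ E * V := by
    have h1 : ∀ i, (E : ℝ) * m i ≤ mn (Γ i) (E * c) (D * (g * p)) (D * (g * q)) := by
      intro i
      obtain ⟨d, hd, hdm⟩ := mn_mem (mn_ne (hpure i)) (E * c) (D * (g * p)) (D * (g * q))
      rw [hdm]
      have h2 := hm i d hd
      have h3 : E * m i ≤ E * c * d 0 + D * (g * p) * d 1 + D * (g * q) * d 2 := by
        refine h2.trans (le_of_eq ?_)
        rw [hD, hE]
        ring
      exact_mod_cast h3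
    have h2 : (E : ℝ) * Em ≤ ∑ i, e i * (mn (Γ i) (E * c) (D * (g * p)) (D * (g * q)) : ℝ) := by
      rw [hEm, Finset.mul_sum]
      refine Finset.sum_le_sum fun i _ => ?_
      have := mul_le_mul_of_nonneg_left (h1 i) (he i).le
      linarith
    have h3 : Z = ((E * c : ℕ) + (D * (g * p) : ℕ) + (D * (g * q) : ℕ) : ℝ)
        - ∑ i, e i * (mn (Γ i) (E * c) (D * (g * p)) (D * (g * q)) : ℝ) := rfl
    push_cast at h3
    rw [hDR] at h3
    have h4 : (E : ℝ) * V = E * (g * (p + q) + j) + E * c - E * Em := by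
      rw [hV]
      ring
    rw [h4]
    nlinarith
  -- `g (p + q) ≤ (5/6) E`
  have hEs : (E : ℝ) / 6 ≤ E - g * (p + q) := by
    rw [hERv]
    have h1 : (p + q : ℝ) ≤ 5 / 6 * (p * q) := by nlinarith
    nlinarith
  have hV0 : 0 < V := by
    have h1 : 0 < (E : ℝ) * V := by
      refine lt_of_lt_of_le ?_ hVE
      nlinarith
    by_contra hcon
    push Not at hcon
    nlinarith
  have fin : ∀ a b d : ℕ, 1 ≤ a → 1 ≤ b → 1 ≤ d → D * FF e Γ a b d ≤ Z →
      ∃ w : Fin 3 → ℕ, (∀ j, 1 ≤ w j) ∧ Fw e Γ w ≤ (κ : ℝ) + c - Em := by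
    intro a b d ha hb hd hle
    apply ok a b d ha hb hd
    have h1 := hFpos a b d ha hb hd
    have h2 : (E : ℝ) * FF e Γ a b d ≤ E * V := by
      rw [hDR] at hle
      nlinarith
    exact le_of_mul_le_mul_left h2 (by linarith)
  by_cases hcon : ∃ w : Fin 3 → ℕ, (∀ j, 1 ≤ w j) ∧ Fw e Γ w ≤ (κ : ℝ) + c - Em
  · exact Or.inl hcon
  right
  -- `x` is nonnegative
  have hx0 : 0 ≤ x := by
    by_contra hneg
    push Not at hneg
    apply hcon
    apply ok 1 1 1 le_rfl le_rfl le_rfl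
    have h1 := FF_small h (a := 1) (b := 1) (c := 1) le_rfl le_rfl
    rw [h1, ← hx]
    have h2 : ∀ i, (m i : ℝ) ≤ c * μ i := by
      intro i
      have h3 := hm i _ (hpure i)
      have h4 : E * m i ≤ E * (c * μ i) := by
        refine h3.trans (le_of_eq ?_)
        simp only [Matrix.cons_val_zero, Matrix.cons_val_one, Matrix.cons_val]
        rw [hE]
        ring
      have h5 := Nat.le_of_mul_le_mul_left h4 hE1
      exact_mod_cast h5
    have h3 : Em ≤ c * ∑ i, e i * (μ i : ℝ) := by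
      rw [hEm, Finset.mul_sum]
      refine Finset.sum_le_sum fun i _ => ?_
      have := mul_le_mul_of_nonneg_left (h2 i) (he i).le
      linarith
    have h4 : Em ≤ c * (1 + x) := by
      refine h3.trans (le_of_eq ?_)
      rw [hx]
      ring
    have hcR : (1 : ℝ) ≤ c := by exact_mod_cast hc
    rw [hV]
    push_cast
    nlinarith
  -- `x` is less than one
  have hx1 : x < 1 := by
    by_contra hge
    push Not at hge
    apply hcon
    have he0 : 1 ≤ e i₀ := by linarith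
    have hμe : e i₀ * (μ i₀ : ℝ) ≤ 1 + e i₀ :=
      (Finset.single_le_sum (f := fun i => e i * (μ i : ℝ))
        (fun l _ => mul_nonneg (he l).le (Nat.cast_nonneg _)) (Finset.mem_univ i₀)).trans hsum
    rcases Nat.lt_or_ge (μ i₀) 2 with hlt | hge2
    · have hμ1 : μ i₀ = 1 := by omega
      obtain ⟨a, ha, hle⟩ := step_iv h hμ1 he0 hsum (u := E * c) (D := D) (b := g * p)
        (c := g * q) hEc hD1 hgp hgq
      exact fin a _ _ ha hgp hgq hle
    · have hμR : (2 : ℝ) ≤ μ i₀ := by exact_mod_cast hge2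
      have he1 : e i₀ = 1 := by
        apply le_antisymm _ he0
        nlinarith
      have hμ2 : (μ i₀ : ℝ) ≤ 2 := by
        rw [he1] at hμe
        linarith
      have hμ2' : (μ i₀ : ℝ) = 2 := le_antisymm hμ2 hμR
      have hrest : ∀ i, i ≠ i₀ → μ i = 0 := by
        intro i hi
        have h1 : e i * (μ i : ℝ) + e i₀ * (μ i₀ : ℝ) ≤ ∑ i, e i * (μ i : ℝ) := by
          rw [← Finset.sum_pair hi (f := fun i => e i * (μ i : ℝ))]
          exact Finset.sum_le_sum_of_subset_of_nonneg (Finset.subset_univ _)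
            fun l _ _ => mul_nonneg (he l).le (Nat.cast_nonneg _)
        rw [he1, hμ2'] at h1
        rw [he1] at hsum
        have h2 : e i * (μ i : ℝ) ≤ 0 := by linarith
        have h3 : (μ i : ℝ) ≤ 0 := by
          by_contra hc2
          push Not at hc2
          have := mul_pos (he i) hc2
          linarith
        exact_mod_cast le_antisymm (by exact_mod_cast h3) (Nat.zero_le _)
      have hm0 : ∀ i, i ≠ i₀ → m i = 0 := by
        intro i hi
        have h3 := hm i _ (hpure i)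
        rw [hrest i hi] at h3
        simp only [Matrix.cons_val_zero, Matrix.cons_val_one, Matrix.cons_val, mul_zero,
          add_zero, Nat.le_zero, mul_eq_zero] at h3
        rcases h3 with h3 | h3
        · omega
        · exact h3
      have hEm' : Em = m i₀ := by
        rw [hEm, Finset.sum_eq_single i₀]
        · rw [he1, one_mul]
        · intro i _ hi
          rw [hm0 i hi]
          simp
        · intro hi
          exact absurd (Finset.mem_univ _) hi
      have hV1 : 1 ≤ V := by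
        rw [hV, hEm'] at hV0 ⊢
        have h1 : (m i₀ : ℝ) < ((g * (p + q) + j + c : ℕ) : ℝ) := by
          push_cast
          linarith
        have h2 : m i₀ + 1 ≤ g * (p + q) + j + c := by exact_mod_cast h1
        have h3 : ((m i₀ + 1 : ℕ) : ℝ) ≤ ((g * (p + q) + j + c : ℕ) : ℝ) := by exact_mod_cast h2
        push_cast at h3
        linarith
      apply ok 1 1 1 le_rfl le_rfl le_rfl
      rw [FF_small h (a := 1) (b := 1) (c := 1) le_rfl le_rfl, ← hx]
      push_cast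
      linarith
  -- the main estimate
  have hno : ∀ a b d : ℕ, 1 ≤ a → 1 ≤ b → 1 ≤ d → V < FF e Γ a b d := by
    intro a b d ha hb hd
    by_contra hle
    push Not at hle
    exact hcon (ok a b d ha hb hd hle)
  have hx1' : (0 : ℝ) < 1 + x := by linarith
  have hmain : (j : ℝ) * (E - g * (p + q)) < E * (x / (1 + x)) := by
    obtain ⟨a, ha, hle⟩ := step_i h hx0 (u := E * c) (D := D) (b := g * p) (c := g * q)
      hD1 hgp hgq
    rw [← hx, ← hZ] at hle
    have h1 := hno a _ _ ha hgp hgq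
    have hD0 : (0 : ℝ) < D := by
      rw [hDR]
      linarith
    have h2 : (D : ℝ) * V < Z + D * (x / (1 + x)) := by nlinarith
    have h3 : (E : ℝ) * (D * V) < E * (Z + D * (x / (1 + x))) :=
      mul_lt_mul_of_pos_left h2 (by linarith)
    have h4 : (D : ℝ) * (Z + j * (E - g * (p + q))) ≤ D * (E * V) :=
      mul_le_mul_of_nonneg_left hVE hD0.le
    have h5 : (E : ℝ) * Z ≤ D * Z := by
      rw [hDR]
      nlinarith
    have h6 : (D : ℝ) * (j * (E - g * (p + q))) < D * (E * (x / (1 + x))) := by nlinarith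
    exact lt_of_mul_lt_mul_left h6 hD0.le
  have hxx : x / (1 + x) < 1 / 2 := by
    rw [div_lt_iff₀ hx1']
    linarith
  refine ⟨?_, ?_, ?_, hV0.le⟩
  · -- `g`
    by_contra hgb
    push Not at hgb
    apply hcon
    have hdiv : ∀ δ, 1 ≤ δ → δ ≤ Mx → δ ∣ Mx.factorial := fun δ h1 h2 =>
      Nat.dvd_factorial (by omega) h2
    have eqZ : Z = FF e Γ (g * (p * q * c)) (g * (D * p)) (g * (D * q)) := by
      rw [hZ, hE]
      congr 1 <;> ring
    obtain ⟨a, ha, hle⟩ := step_ii h hx0 (B := Mx.factorial) (M := Mx) (g := g)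
      (v := p * q * c) (D := D) (p := p) (q := q) hμM hdiv (Nat.factorial_pos _) (by omega)
      hD1 hpos_p hpos_q (by rw [← eqZ]; exact hZ0)
    rw [← eqZ] at hle
    exact fin a _ _ ha (Nat.mul_pos (Nat.factorial_pos _) hpos_p)
      (Nat.mul_pos (Nat.factorial_pos _) hpos_q) hle
  · -- `p`
    have h1 : (E : ℝ) - g * (p + q) < E * (x / (1 + x)) := by
      refine lt_of_le_of_lt ?_ hmain
      have h2 : 0 ≤ (E : ℝ) - g * (p + q) := by linarith
      nlinarith
    have h2 : ((p : ℝ) * q - (p + q)) < p * q * (x / (1 + x)) := by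
      rw [hERv] at h1
      have h3 : (g : ℝ) * (p * q - (p + q)) < g * (p * q * (x / (1 + x))) := by
        calc (g : ℝ) * (p * q - (p + q)) = g * p * q - g * (p + q) := by ring
          _ < g * p * q * (x / (1 + x)) := h1
          _ = _ := by ring
      exact lt_of_mul_lt_mul_left h3 (by linarith)
    have h3 : ((p : ℝ) * q - (p + q)) * (1 + x) < p * q * x := by
      have h4 := mul_lt_mul_of_pos_right h2 hx1'
      have h5 : (p : ℝ) * q * (x / (1 + x)) * (1 + x) = p * q * x := by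
        field_simp
      linarith
    have h4 : (p : ℝ) * (1 - x) < 2 * (1 + x) := by
      have h5 : (p : ℝ) * (q - 1 - x) < (1 + x) * q := by nlinarith
      have h6 : (1 - x) * q / 2 ≤ q - 1 - x := by nlinarith
      have h7 : (p : ℝ) * ((1 - x) * q / 2) ≤ p * (q - 1 - x) :=
        mul_le_mul_of_nonneg_left h6 (by linarith)
      have h8 : (q : ℝ) * (p * (1 - x)) < q * (2 * (1 + x)) := by nlinarith
      exact lt_of_mul_lt_mul_left h8 (by linarith)
    have h5 : (p : ℝ) ≤ 2 * (1 + x) / (1 - x) := by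
      rw [le_div_iff₀ (by linarith)]
      exact h4.le
    have h6 : p ≤ Pb := by
      set ν : Fin s → Fin (Mx + 1) := fun i => ⟨μ i, by have := hμM i; omega⟩ with hν
      have hXν : X ν = x := rfl
      have h7 : ⌈2 * (1 + X ν) / (1 - X ν)⌉₊ ≤ Pb :=
        Finset.single_le_sum (f := fun ν => ⌈2 * (1 + X ν) / (1 - X ν)⌉₊)
          (fun _ _ => Nat.zero_le _) (Finset.mem_univ ν)
      rw [hXν] at h7
      have h8 : (p : ℝ) ≤ (⌈2 * (1 + x) / (1 - x)⌉₊ : ℝ) := h5.trans (Nat.le_ceil _)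
      have h9 : p ≤ ⌈2 * (1 + x) / (1 - x)⌉₊ := by exact_mod_cast h8
      exact h9.trans h7
    omega
  · -- `j`
    have h1 : (j : ℝ) * (E / 6) < E * (1 / 2) := by
      calc (j : ℝ) * (E / 6) ≤ j * (E - g * (p + q)) :=
            mul_le_mul_of_nonneg_left hEs (by linarith)
        _ < E * (x / (1 + x)) := hmain
        _ ≤ E * (1 / 2) := mul_le_mul_of_nonneg_left hxx.le (by linarith)
    have h2 : (j : ℝ) < 3 := by
      by_contra hc3
      push Not at hc3
      nlinarith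
    have h3 : j < 3 := by exact_mod_cast h2
    omega

end Pool.Agent.MNJ
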