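import Pool.Agent.Work.MP_6c38a7_ag.Arith

/-!
# Domination of cuspidal arcs by monomial weights: a set of distinguished indices
-/

namespace Pool.Agent.MNJ

/-- the first coordinates of the minimisers for two consecutive first weights -/
structure Ex (Γ : Set (Fin 3 → ℕ)) (a b c ν ν' : ℕ) : Prop where
  le : ν' ≤ ν
  ne : ν ≠ ν' + 1
  ex : ∃ d ∈ Γ, d 0 = ν ∧ mn Γ a b c = a * d 0 + b * d 1 + c * d 2
  min : ∀ d ∈ Γ, mn Γ a b c = a * d 0 + b * d 1 + c * d 2 → ν ≤ d 0
  ex' : ∃ d ∈ Γ, d 0 = ν' ∧ mn Γ (a + 1) b c = (a + 1) * d 0 + b * d 1 + c * d 2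
  max : ∀ d ∈ Γ, mn Γ (a + 1) b c = (a + 1) * d 0 + b * d 1 + c * d 2 → d 0 ≤ ν'

lemma exch {Γ : Set (Fin 3 → ℕ)} {μ : ℕ} (hp : ![μ, 0, 0] ∈ Γ) {a : ℕ} (b c : ℕ) (ha : 1 ≤ a) :
    ∃ ν ν' : ℕ, Ex Γ a b c ν ν' ∧ ν ≤ μ := by
  classical
  obtain ⟨d₁, hd₁, h₁⟩ := mn_mem (mn_ne hp) a b c
  obtain ⟨d₂, hd₂, h₂⟩ := mn_mem (mn_ne hp) (a + 1) b c
  let P : ℕ → Prop := fun v => ∃ d ∈ Γ, d 0 = v ∧ mn Γ a b c = a * d 0 + b * d 1 + c * d 2
  let Q : ℕ → Prop := fun v => ∃ d ∈ Γ, d 0 = v ∧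
    mn Γ (a + 1) b c = (a + 1) * d 0 + b * d 1 + c * d 2
  have hPe : ∃ v, P v := ⟨_, d₁, hd₁, rfl, h₁⟩
  have hQ2 : Q (d₂ 0) := ⟨d₂, hd₂, rfl, h₂⟩
  have hs1 : P (Nat.find hPe) := Nat.find_spec hPe
  have hs2 : Q (Nat.findGreatest Q μ) :=
    Nat.findGreatest_spec (min_d0 hp (by omega) h₂) hQ2
  have hmin : ∀ d ∈ Γ, mn Γ a b c = a * d 0 + b * d 1 + c * d 2 → Nat.find hPe ≤ d 0 :=
    fun d hd h => Nat.find_min' hPe ⟨d, hd, rfl, h⟩
  have hmax : ∀ d ∈ Γ, mn Γ (a + 1) b c = (a + 1) * d 0 + b * d 1 + c * d 2 →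
      d 0 ≤ Nat.findGreatest Q μ :=
    fun d hd h => Nat.le_findGreatest (min_d0 hp (by omega) h) ⟨d, hd, rfl, h⟩
  generalize Nat.find hPe = ν at hs1 hmin
  generalize Nat.findGreatest Q μ = ν' at hs2 hmax
  have hs1' := hs1
  have hs2' := hs2
  obtain ⟨d, hd, hd0, hdm⟩ := hs1
  obtain ⟨d', hd', hd0', hdm'⟩ := hs2
  have i1 := mn_le hd (a + 1) b c
  have i2 := mn_le hd' a b c
  have e1 : (a + 1) * d 0 = a * d 0 + d 0 := by ring
  have e2 : (a + 1) * d' 0 = a * d' 0 + d' 0 := by ring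
  have k1 : mn Γ (a + 1) b c ≤ mn Γ a b c + ν := by omega
  have k2 : mn Γ a b c + ν' ≤ mn Γ (a + 1) b c := by omega
  refine ⟨ν, ν', ⟨by omega, ?_, hs1', hmin, hs2', hmax⟩, hd0 ▸ min_d0 hp ha hdm⟩
  intro hne
  rcases Nat.lt_or_ge (mn Γ (a + 1) b c) (mn Γ a b c + ν) with h | h
  · have := hmin d' hd' (by omega)
    omega
  · have := hmax d hd (by omega)
    omega

/-- the critical case -/
lemma crit {s : ℕ} {e : Fin s → ℝ} {Γ : Fin s → Set (Fin 3 → ℕ)} {μ : Fin s → ℕ}
    (h : Dat e Γ μ) {g p n c E : ℕ} (hg : 1 ≤ g) (hp : 3 ≤ p) (hE : E = g * p * 2)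
    (hpe : ∀ i, 1 < p * e i) (hn : 1 ≤ n) {ν : Fin s → ℕ}
    (hEx : ∀ i, Ex (Γ i) n (g * p) (g * 2) (ν i) 0)
    (htri : ∀ i, (μ i = 0 ∧ ν i = 0) ∨ (μ i = 1 ∧ ν i = 0) ∨ (μ i = 2 ∧ ν i = 2))
    (hs : ∑ i, e i * (ν i : ℝ) = 2)
    (hF : 0 ≤ FF e Γ (2 * n + 1) (2 * (g * p)) (2 * (g * 2)))
    (h1 : (E + 1) * n ≤ E * c) (h2 : E * c < (E + 1) * (n + 1)) {m : Fin s → ℕ}
    (hm : ∀ i, ∀ d ∈ Γ i, E * m i ≤ E * c * d 0 + (E + 1) * (g * p * d 1 + g * 2 * d 2)) :
    FF e Γ (n + 1) (g * p) (g * 2) ≤ (g * (p + 2) + 1 : ℝ) + c - ∑ i, e i * (m i : ℝ) := by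
  classical
  set B : Fin s → ℕ := fun i => mn (Γ i) (n + 1) (g * p) (g * 2) with hB
  have hgp : 1 ≤ g * p := Nat.mul_pos hg (by omega)
  have hE1 : 1 ≤ E := by
    rw [hE]
    omega
  -- facts on `B`
  have hB0 : ∀ i, μ i = 0 → B i = 0 := by
    intro i hi
    have := mn_le_pure (h.pure i) (n + 1) (g * p) (g * 2)
    rw [hi] at this
    simpa [hB] using this
  have hBz : ∀ i, ∃ d ∈ Γ i, d 0 = 0 ∧ B i = g * p * d 1 + g * 2 * d 2 := by
    intro i
    obtain ⟨d, hd, hd0, hdm⟩ := (hEx i).ex'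
    refine ⟨d, hd, hd0, ?_⟩
    simp only [hB]
    rw [hdm, hd0]
    ring
  have hB2 : ∀ i, μ i = 2 → ν i = 2 → B i = 2 * n + 1 := by
    intro i hi hν
    obtain ⟨d, hd, hd0, hBd⟩ := hBz i
    obtain ⟨d₁, hd₁, hd0₁, hdm₁⟩ := (hEx i).ex
    have hA1 := mn_le_pure (h.pure i) n (g * p) (g * 2)
    rw [hi] at hA1
    rw [hν] at hd0₁
    rw [hd0₁] at hdm₁
    have hA : mn (Γ i) n (g * p) (g * 2) = n * 2 := by omega
    have hA2 := mn_le hd n (g * p) (g * 2)
    rw [hd0] at hA2
    have hBp := mn_le_pure (h.pure i) (n + 1) (g * p) (g * 2)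
    rw [hi] at hBp
    change B i ≤ _ at hBp
    have hlow : n * 2 < B i := by
      by_contra hcon
      have h3 := (hEx i).min d hd (by rw [hd0]; omega)
      omega
    have hupp : B i < (n + 1) * 2 := by
      by_contra hcon
      have h3 := (hEx i).max _ (h.pure i) (by
        rw [hi]
        simp only [Matrix.cons_val_zero, Matrix.cons_val_one, Matrix.cons_val]
        change B i = _
        omega)
      rw [hi] at h3
      simp at h3
    omega
  have hBmn : ∀ i, 2 * B i ≤ mn (Γ i) (2 * n + 1) (2 * (g * p)) (2 * (g * 2)) := by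
    intro i
    rcases htri i with ⟨h3, _⟩ | ⟨h3, h4⟩ | ⟨h3, h4⟩
    · rw [hB0 i h3]
      omega
    · obtain ⟨d, hd, hdm⟩ := mn_mem (mn_ne (h.pure i)) (2 * n + 1) (2 * (g * p)) (2 * (g * 2))
      have i1 := mn_le hd n (g * p) (g * 2)
      have i2 := mn_le hd (n + 1) (g * p) (g * 2)
      change B i ≤ _ at i2
      -- `B = A`
      obtain ⟨d₁, hd₁, hd0₁, hdm₁⟩ := (hEx i).ex
      rw [h4] at hd0₁
      have i3 := mn_le hd₁ (n + 1) (g * p) (g * 2)
      change B i ≤ _ at i3
      rw [hd0₁] at i3 hdm₁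
      rw [hdm]
      have e1 : (2 * n + 1) * d 0 + 2 * (g * p) * d 1 + 2 * (g * 2) * d 2
          = (n * d 0 + g * p * d 1 + g * 2 * d 2) + ((n + 1) * d 0 + g * p * d 1 + g * 2 * d 2) := by
        ring
      rw [e1]
      omega
    · have hBi := hB2 i h3 h4
      obtain ⟨d, hd, hdm⟩ := mn_mem (mn_ne (h.pure i)) (2 * n + 1) (2 * (g * p)) (2 * (g * 2))
      rw [hdm, hBi]
      have e1 : (2 * n + 1) * d 0 + 2 * (g * p) * d 1 + 2 * (g * 2) * d 2
          = (2 * n + 1) * d 0 + 2 * (g * p * d 1 + g * 2 * d 2) := by ring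
      rw [e1]
      rcases Nat.lt_or_ge (d 0) 2 with h5 | h5
      · rcases Nat.eq_zero_or_pos (d 0) with h6 | h6
        · have i2 := mn_le hd (n + 1) (g * p) (g * 2)
          change B i ≤ _ at i2
          rw [h6] at i2
          omega
        · have h7 : d 0 = 1 := by omega
          obtain ⟨d₁, hd₁, hd0₁, hdm₁⟩ := (hEx i).ex
          rw [h4] at hd0₁
          rw [hd0₁] at hdm₁
          have i1 := mn_le hd n (g * p) (g * 2)
          have i4 : n * d 0 + g * p * d 1 + g * 2 * d 2 ≠ mn (Γ i) n (g * p) (g * 2) := by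
            intro hcon
            have := (hEx i).min d hd hcon.symm
            omega
          rw [h7] at i1 i4 ⊢
          omega
      · have h6 : (2 * n + 1) * 2 ≤ (2 * n + 1) * d 0 := Nat.mul_le_mul_left _ h5
        omega
  -- the sums
  set SB : ℝ := ∑ i, e i * (B i : ℝ) with hSB
  have hFF : FF e Γ (n + 1) (g * p) (g * 2) = ((n + 1 : ℕ) + (g * p : ℕ) + (g * 2 : ℕ) : ℝ) - SB :=
    rfl
  have hSB1 : 2 * SB ≤ 2 * n + 1 + 2 * (g * p) + 2 * (g * 2) := by
    have h3 : 2 * SB ≤ ∑ i, e i * (mn (Γ i) (2 * n + 1) (2 * (g * p)) (2 * (g * 2)) : ℝ) := by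
      rw [hSB, Finset.mul_sum]
      refine Finset.sum_le_sum fun i _ => ?_
      have h4 : (2 : ℝ) * B i ≤ mn (Γ i) (2 * n + 1) (2 * (g * p)) (2 * (g * 2)) := by
        exact_mod_cast hBmn i
      have := mul_le_mul_of_nonneg_left h4 (h.he i).le
      linarith
    unfold FF at hF
    push_cast at hF
    linarith
  -- the part of `SB` outside the double points
  have hσ : ∀ i, 0 ≤ (B i : ℝ) - (2 * n + 1) * (ν i : ℝ) / 2 := by
    intro i
    rcases htri i with ⟨h3, h4⟩ | ⟨h3, h4⟩ | ⟨h3, h4⟩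
    · rw [h4]
      have : (0 : ℝ) ≤ B i := Nat.cast_nonneg _
      push_cast
      linarith
    · rw [h4]
      have : (0 : ℝ) ≤ B i := Nat.cast_nonneg _
      push_cast
      linarith
    · rw [h4, hB2 i h3 h4]
      push_cast
      linarith
  set S : ℝ := ∑ i, e i * ((B i : ℝ) - (2 * n + 1) * (ν i : ℝ) / 2) with hS
  have hSSB : S = SB - (2 * n + 1) := by
    have h3 : S = SB - (2 * n + 1) / 2 * ∑ i, e i * (ν i : ℝ) := by
      rw [hS, hSB, Finset.mul_sum, ← Finset.sum_sub_distrib]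
      refine Finset.sum_congr rfl fun i _ => ?_
      ring
    rw [h3, hs]
    ring
  have hS0 : 0 ≤ S := Finset.sum_nonneg fun i _ => mul_nonneg (h.he i).le (hσ i)
  have hS1 : n + S ≤ g * p + g * 2 - 1 / 2 := by
    rw [hSSB]
    linarith
  -- `c = n + 1`
  have hgR : (1 : ℝ) ≤ g := by exact_mod_cast hg
  have hpR : (3 : ℝ) ≤ p := by exact_mod_cast hp
  have hER : (E : ℝ) = g * p * 2 := by
    rw [hE]
    push_cast
    ring
  have hE1R : (1 : ℝ) ≤ E := by exact_mod_cast hE1
  have hnE : n < E := by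
    have h3 : (n : ℝ) < E := by
      rw [hER]
      nlinarith
    exact_mod_cast h3
  have hc : c = n + 1 := by
    apply le_antisymm
    · by_contra hcon
      push Not at hcon
      have h3 : E * (n + 2) ≤ E * c := Nat.mul_le_mul_left _ (by omega)
      have h4 : E * (n + 2) < (E + 1) * (n + 1) := lt_of_le_of_lt h3 h2
      have h5 : E * (n + 2) = E * (n + 1) + E := by ring
      have h6 : (E + 1) * (n + 1) = E * (n + 1) + (n + 1) := by ring
      omega
    · by_contra hcon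
      push Not at hcon
      have h3 : E * c ≤ E * n := Nat.mul_le_mul_left _ (by omega)
      have h4 : (E + 1) * n = E * n + n := by ring
      omega
  -- the bound for `m`
  have hm1 : ∀ i, E * m i ≤ (E + 1) * B i := by
    intro i
    obtain ⟨d, hd, hd0, hBd⟩ := hBz i
    have := hm i d hd
    rw [hd0, Nat.mul_zero, Nat.zero_add, ← hBd] at this
    exact this
  have hm2 : ∀ i, m i ≤ c * μ i := by
    intro i
    have h3 := hm i _ (h.pure i)
    simp only [Matrix.cons_val_zero, Matrix.cons_val_one, Matrix.cons_val, mul_zero,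
      add_zero] at h3
    rw [Nat.mul_assoc] at h3
    exact Nat.le_of_mul_le_mul_left h3 hE1
  have key : ∑ i, e i * (m i : ℝ) ≤ SB + 1 := by
    rcases Nat.lt_or_ge (2 * n + 1) E with hcase | hcase
    · -- `m ≤ B + σ / E`
      have h3 : ∀ i, (m i : ℝ) ≤ B i + ((B i : ℝ) - (2 * n + 1) * (ν i : ℝ) / 2) / E := by
        intro i
        have h4 : (E : ℝ) * m i ≤ (E + 1) * B i := by exact_mod_cast hm1 i
        rcases htri i with ⟨h5, h6⟩ | ⟨h5, h6⟩ | ⟨h5, h6⟩
        · rw [h6, hB0 i h5]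
          have h7 := hm2 i
          rw [h5] at h7
          have h8 : m i = 0 := by omega
          rw [h8]
          simp
        · rw [h6]
          have h7 : (m i : ℝ) ≤ (E + 1) * B i / E := by
            rw [le_div_iff₀ (by linarith)]
            linarith
          refine h7.trans (le_of_eq ?_)
          have : (E : ℝ) ≠ 0 := by linarith
          push_cast
          field_simp
          ring
        · have h7 := hm1 i
          rw [h6, hB2 i h5 h6]
          rw [hB2 i h5 h6] at h7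
          have h8 : m i ≤ 2 * n + 1 := by
            by_contra hcon
            push Not at hcon
            have h9 : E * (2 * n + 2) ≤ E * m i := Nat.mul_le_mul_left _ (by omega)
            have h10 : E * (2 * n + 2) = E * (2 * n + 1) + E := by ring
            have h11 : (E + 1) * (2 * n + 1) = E * (2 * n + 1) + (2 * n + 1) := by ring
            omega
          have h9 : (m i : ℝ) ≤ ((2 * n + 1 : ℕ) : ℝ) := by exact_mod_cast h8
          push_cast at h9 ⊢
          have h10 : ((2 * (n : ℝ) + 1) - (2 * n + 1) * 2 / 2) / E = 0 := by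
            rw [div_eq_zero_iff]
            left
            ring
          rw [h10]
          linarith
      have h4 : ∑ i, e i * (m i : ℝ) ≤ SB + S / E := by
        rw [hSB, hS, Finset.sum_div, ← Finset.sum_add_distrib]
        refine Finset.sum_le_sum fun i _ => ?_
        have := mul_le_mul_of_nonneg_left (h3 i) (h.he i).le
        refine this.trans (le_of_eq ?_)
        ring
      have h5 : S / E ≤ 1 := by
        rw [div_le_one (by linarith), hER]
        have : (0 : ℝ) ≤ n := Nat.cast_nonneg _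
        nlinarith
      linarith
    · have h3 : ∀ i, (m i : ℝ) ≤ B i + (ν i : ℝ) / 2 := by
        intro i
        rcases htri i with ⟨h5, h6⟩ | ⟨h5, h6⟩ | ⟨h5, h6⟩
        · rw [h6, hB0 i h5]
          have h7 := hm2 i
          rw [h5] at h7
          have h8 : m i = 0 := by omega
          rw [h8]
          simp
        · rw [h6]
          have h7 := hm1 i
          have h8 : e i * ((B i : ℝ) - (2 * n + 1) * (ν i : ℝ) / 2) ≤ S :=
            Finset.single_le_sum (f := fun i => e i * ((B i : ℝ) - (2 * n + 1) * (ν i : ℝ) / 2))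
              (fun l _ => mul_nonneg (h.he l).le (hσ l)) (Finset.mem_univ i)
          rw [h6] at h8
          push_cast at h8
          have h9 : (E : ℝ) ≤ 2 * n + 1 := by exact_mod_cast hcase
          have h10 : e i * (B i : ℝ) ≤ 2 * g := by
            have : e i * (B i : ℝ) ≤ S := by
              refine le_trans (le_of_eq ?_) h8
              ring
            rw [hER] at h9
            linarith
          have h11 : (B i : ℝ) < E := by
            have h12 : (2 : ℝ) * g < 2 * g * (p * e i) := by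
              have := hpe i
              nlinarith
            have h13 : e i * (B i : ℝ) < e i * E := by
              rw [hER]
              calc e i * (B i : ℝ) ≤ 2 * g := h10
                _ < 2 * g * (p * e i) := h12
                _ = _ := by ring
            exact lt_of_mul_lt_mul_left h13 (h.he i).le
          have h12 : B i < E := by exact_mod_cast h11
          have h13 : m i ≤ B i := by
            by_contra hcon
            push Not at hcon
            have h9 : E * (B i + 1) ≤ E * m i := Nat.mul_le_mul_left _ (by omega)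
            have h10 : E * (B i + 1) = E * B i + E := by ring
            have h11 : (E + 1) * B i = E * B i + B i := by ring
            omega
          have h14 : (m i : ℝ) ≤ B i := by exact_mod_cast h13
          push_cast
          linarith
        · have h7 := hm2 i
          rw [h5, hc] at h7
          rw [h6, hB2 i h5 h6]
          have h8 : (m i : ℝ) ≤ (((n + 1) * 2 : ℕ) : ℝ) := by exact_mod_cast h7
          push_cast at h8 ⊢
          linarith
      have h4 : ∑ i, e i * (m i : ℝ) ≤ SB + (∑ i, e i * (ν i : ℝ)) / 2 := by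
        rw [hSB, Finset.sum_div, ← Finset.sum_add_distrib]
        refine Finset.sum_le_sum fun i _ => ?_
        have := mul_le_mul_of_nonneg_left (h3 i) (h.he i).le
        refine this.trans (le_of_eq ?_)
        ring
      rw [hs] at h4
      linarith
  rw [hFF, hc]
  push_cast
  linarith

section Real

lemma ra1 {p q : ℝ} (hp : 3 ≤ p) (hq : 2 ≤ q) : p + q ≤ 5 / 6 * (p * q) := by
  nlinarith [mul_nonneg (sub_nonneg.2 hp) (sub_nonneg.2 hq)]

lemma ra2 {g p q : ℝ} (hg : 1 ≤ g) (h : p + q ≤ 5 / 6 * (p * q)) :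
    g * p * q / 6 ≤ g * p * q - g * (p + q) := by
  have := mul_le_mul_of_nonneg_left h (by linarith : (0 : ℝ) ≤ g)
  linarith

lemma ra3 {E V Z j w : ℝ} (hE : 1 ≤ E) (hZ : 0 ≤ Z) (hj : 1 ≤ j) (hw : E / 6 ≤ E - w)
    (h : Z + j * (E - w) ≤ E * V) : 0 < V := by
  have h1 : 0 < j * (E - w) := mul_pos (by linarith) (by linarith)
  exact (mul_pos_iff_of_pos_left (by linarith : (0 : ℝ) < E)).1 (by linarith)

lemma ra4 {E V Z j w F : ℝ} (hE : 1 ≤ E) (hj : 1 ≤ j) (hw : E / 6 ≤ E - w) (hF : 0 ≤ F)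
    (h : Z + j * (E - w) ≤ E * V) (hle : (E + j) * F ≤ Z) : E * F ≤ E * V := by
  have h1 : 0 ≤ j * (E - w) := mul_nonneg (by linarith) (by linarith)
  have h2 : 0 ≤ j * F := mul_nonneg (by linarith) hF
  linarith

lemma ra5 {Em x c w j : ℝ} (h4 : Em ≤ c * (1 + x)) (hx : x < 0) (hc : 1 ≤ c)
    (hw : 1 ≤ w) (hj : 1 ≤ j) : 1 + 1 - 1 * x ≤ w + j + c - Em := by
  have h1 : 0 ≤ (c - 1) * (-x) := mul_nonneg (by linarith) (by linarith)
  linarith

lemma ra6 {D Ec b b' x : ℝ} (hx : 0 ≤ x) (h : Ec ≤ D) :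
    D * (b + b' - 1 * x) ≤ D * b + D * b' - Ec * x := by
  have := mul_le_mul_of_nonneg_right h hx
  linarith

lemma ra7 {A B X Z : ℝ} (h : A - B * X ≤ Z) (hB : 0 ≤ B) (hX : X ≤ 0) : A ≤ Z := by
  have := mul_nonneg hB (neg_nonneg.2 hX)
  linarith

lemma ra8 {E j Z w D V lam : ℝ} (hD : 0 < D) (h3 : E * (D * V) < E * (Z + D * lam))
    (h4 : D * (Z + j * (E - w)) ≤ D * (E * V)) (h5 : E * Z ≤ D * Z) :
    D * (j * (E - w)) < D * (E * lam) := by
  have e1 : E * (D * V) = D * (E * V) := by ring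
  have e2 : E * (Z + D * lam) = E * Z + D * (E * lam) := by ring
  have e3 : D * (Z + j * (E - w)) = D * Z + D * (j * (E - w)) := by ring
  rw [e1, e2] at h3
  rw [e3] at h4
  linarith

lemma ra9 {j E : ℝ} (hE : 1 ≤ E) (h : j * (E / 6) < E * (1 / 2)) : j < 3 := by
  by_contra hc
  push Not at hc
  have := mul_nonneg (sub_nonneg.2 hc) (by linarith : (0 : ℝ) ≤ E)
  linarith

lemma ra10 {p q lam j : ℝ} (hp : 3 ≤ p) (hq : 2 ≤ q) (hj : 1 ≤ j)
    (h : j * (p * q - (p + q)) < p * q * lam) : p * q - (p + q) < p * q * lam := by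
  have h1 := ra1 hp hq
  have h0 : 0 ≤ p * q := mul_nonneg (by linarith) (by linarith)
  have h2 : 0 ≤ (j - 1) * (p * q - (p + q)) := mul_nonneg (by linarith) (by linarith)
  linarith

lemma ra11 {p q lam : ℝ} (hp : 0 ≤ p) (hq : 2 ≤ q)
    (h1 : p * q - (p + q) < p * q * lam) : p * (1 - 2 * lam) < 2 := by
  have h6 : (1 - 2 * lam) * q / 2 ≤ q * (1 - lam) - 1 := by linarith
  have h7 : p * ((1 - 2 * lam) * q / 2) ≤ p * (q * (1 - lam) - 1) :=
    mul_le_mul_of_nonneg_left h6 hp
  have h8 : q * (p * (1 - 2 * lam)) < q * 2 := by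
    have e1 : q * (p * (1 - 2 * lam)) = 2 * (p * ((1 - 2 * lam) * q / 2)) := by ring
    have e2 : p * (q * (1 - lam) - 1) = p * q - p - p * q * lam := by ring
    rw [e1]
    linarith
  exact lt_of_mul_lt_mul_left h8 (by linarith)

lemma ra12 {p q : ℝ} (hp : 6 ≤ p) (hq : 2 ≤ q)
    (h : 2 * (p * q - (p + q)) < p * q * (1 / 2)) : False := by
  nlinarith [mul_nonneg (sub_nonneg.2 hp) (sub_nonneg.2 hq)]

lemma ra13 {p q : ℝ} (hp : 6 ≤ p) (hq : 3 ≤ q)
    (h : 1 * (p * q - (p + q)) < p * q * (1 / 2)) : False := by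
  nlinarith [mul_nonneg (sub_nonneg.2 hp) (sub_nonneg.2 hq)]

lemma ra14 {X Y : ℝ} (h : X + Y = 2) (h' : X * Y = 1) : X = 1 := by
  have hY : Y = 2 - X := by linarith
  rw [hY] at h'
  have h1 : (X - 1) ^ 2 = 0 := by ring_nf; linarith
  have := pow_eq_zero_iff (n := 2) (by norm_num) |>.1 h1
  linarith

lemma ra15 {X Y : ℝ} (h : 0 < X + Y) : X * Y / (X + Y) ≤ (X + Y) / 4 := by
  rw [div_le_iff₀ h]
  nlinarith [sq_nonneg (X - Y)]

end Real

/-- J1 with a set of distinguished indices -/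
theorem arith2 {s : ℕ} (e : Fin s → ℝ) (he : ∀ i, 0 < e i) :
    ∃ C : ℕ, ∀ (Γ : Fin s → Set (Fin 3 → ℕ)) (μ : Fin s → ℕ) (T : Finset (Fin s)),
      (∀ i ∈ T, 1 ≤ μ i) →
      ∑ i, e i * (μ i : ℝ) ≤ 1 + ∑ i ∈ T, e i → (∀ i, ![μ i, 0, 0] ∈ Γ i) →
      (∀ i, ∀ d ∈ Γ i, μ i ≤ d 0 + d 1 + d 2) →
      (∀ w : Fin 3 → ℕ, (∀ j, 1 ≤ w j) → 0 ≤ Fw e Γ w) →
      ∀ (g p q j c κ : ℕ) (m : Fin s → ℕ), 1 ≤ g → 2 ≤ q → q < p → 1 ≤ j → 1 ≤ c →
        g * (p + q) + j ≤ κ →
        (∀ i, ∀ d ∈ Γ i, g * p * q * m i ≤ g * p * q * c * d 0 +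
          (g * p * q + j) * (g * p * d 1 + g * q * d 2)) →
        (∃ w : Fin 3 → ℕ, (∀ j, 1 ≤ w j) ∧ Fw e Γ w ≤ (κ : ℝ) + c - ∑ i, e i * (m i : ℝ)) ∨
        (g ≤ C ∧ p ≤ C ∧ j ≤ C ∧ 0 ≤ (g * (p + q) + j : ℝ) + c - ∑ i, e i * (m i : ℝ)) := by
  classical
  set Mx : ℕ := ⌈∑ i, (1 + ∑ l, e l) / e i⌉₊ with hMx
  let X : (Fin s → Fin (Mx + 1)) → ℝ := fun ν => ∑ i, e i * ((ν i : ℕ) : ℝ) - 1
  let Y : (Fin s → Fin (Mx + 1)) → ℝ := fun ν => 1 - ∑ i, e i * ((ν i : ℕ) : ℝ)
  let L : (Fin s → Fin (Mx + 1)) × (Fin s → Fin (Mx + 1)) → ℝ :=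
    fun ν => X ν.1 * Y ν.2 / (X ν.1 + Y ν.2)
  set Pb : ℕ := ∑ ν : (Fin s → Fin (Mx + 1)) × (Fin s → Fin (Mx + 1)),
    ⌈2 / (1 - 2 * L ν)⌉₊ with hPb
  set P1 : ℕ := ∑ i, ⌈1 / e i⌉₊ with hP1
  refine ⟨Mx.factorial + 5 + Pb + P1, ?_⟩
  intro Γ μ T hμT hsum hpure hdeg hpos g p q j c κ m hg hq hpq hj hc hκ hm
  have h : Dat e Γ μ := ⟨he, hpure, hdeg⟩
  have hTe : ∑ i ∈ T, e i ≤ ∑ i, e i :=
    Finset.sum_le_sum_of_subset_of_nonneg (Finset.subset_univ _) fun l _ _ => (he l).le
  have hμM : ∀ i, μ i ≤ Mx := by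
    intro i
    have h1 : e i * (μ i : ℝ) ≤ 1 + ∑ l, e l :=
      (Finset.single_le_sum (f := fun i => e i * (μ i : ℝ))
        (fun l _ => mul_nonneg (he l).le (Nat.cast_nonneg _)) (Finset.mem_univ i)).trans
        (by linarith)
    have h2 : (μ i : ℝ) ≤ (1 + ∑ l, e l) / e i := by
      rw [le_div_iff₀ (he i)]
      linarith
    have hse : 0 ≤ ∑ l, e l := Finset.sum_nonneg fun l _ => (he l).le
    have h3 : (1 + ∑ l, e l) / e i ≤ ∑ i, (1 + ∑ l, e l) / e i :=
      Finset.single_le_sum (f := fun i => (1 + ∑ l, e l) / e i)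
        (fun l _ => div_nonneg (by linarith) (he l).le) (Finset.mem_univ i)
    have h4 : (μ i : ℝ) ≤ (Mx : ℝ) := (h2.trans h3).trans (Nat.le_ceil _)
    exact_mod_cast h4
  set x : ℝ := ∑ i, e i * (μ i : ℝ) - 1 with hx
  set Em : ℝ := ∑ i, e i * (m i : ℝ) with hEm
  set V : ℝ := (g * (p + q) + j : ℝ) + c - Em with hV
  have hκV : V ≤ (κ : ℝ) + c - Em := by
    have h1 : ((g * (p + q) + j : ℕ) : ℝ) ≤ κ := by exact_mod_cast hκ
    push_cast at h1
    linarith
  -- values of the functional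
  have ok : ∀ a b d : ℕ, 1 ≤ a → 1 ≤ b → 1 ≤ d → FF e Γ a b d ≤ V →
      ∃ w : Fin 3 → ℕ, (∀ j, 1 ≤ w j) ∧ Fw e Γ w ≤ (κ : ℝ) + c - Em := by
    intro a b d ha hb hd hle
    refine ⟨![a, b, d], ?_, ?_⟩
    · intro l
      fin_cases l
      · exact ha
      · exact hb
      · exact hd
    · rw [Fw_eq]
      exact hle.trans hκV
  have hFpos : ∀ a b d : ℕ, 1 ≤ a → 1 ≤ b → 1 ≤ d → 0 ≤ FF e Γ a b d := by
    intro a b d ha hb hd
    rw [← Fw_eq]
    apply hpos
    intro l
    fin_cases l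
    · exact ha
    · exact hb
    · exact hd
  have hpos_p : 1 ≤ p := by omega
  have hpos_q : 1 ≤ q := by omega
  have hgp : 1 ≤ g * p := Nat.mul_pos hg hpos_p
  have hgq : 1 ≤ g * q := Nat.mul_pos hg hpos_q
  set E : ℕ := g * p * q with hE
  have hE1 : 1 ≤ E := Nat.mul_pos hgp hpos_q
  set D : ℕ := E + j with hD
  have hD1 : 1 ≤ D := by omega
  have hEc : 1 ≤ E * c := Nat.mul_pos hE1 hc
  set Z : ℝ := FF e Γ (E * c) (D * (g * p)) (D * (g * q)) with hZ
  have hZ0 : 0 ≤ Z := hFpos _ _ _ hEc (Nat.mul_pos hD1 hgp) (Nat.mul_pos hD1 hgq)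
  have hER : (1 : ℝ) ≤ E := by exact_mod_cast hE1
  have hDR : (D : ℝ) = E + j := by
    rw [hD]
    push_cast
    ring
  have hjR : (1 : ℝ) ≤ j := by exact_mod_cast hj
  have hERv : (E : ℝ) = g * p * q := by
    rw [hE]
    push_cast
    ring
  have hgR : (1 : ℝ) ≤ g := by exact_mod_cast hg
  have hqR : (2 : ℝ) ≤ q := by exact_mod_cast hq
  have hpR : (3 : ℝ) ≤ p := by exact_mod_cast (by omega : 3 ≤ p)
  have hpqR : (q : ℝ) + 1 ≤ p := by exact_mod_cast hpq
  -- the lower bound for `V`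
  have hVE : Z + j * (E - g * (p + q)) ≤ E * V := by
    have h1 : ∀ i, (E : ℝ) * m i ≤ mn (Γ i) (E * c) (D * (g * p)) (D * (g * q)) := by
      intro i
      obtain ⟨d, hd, hdm⟩ := mn_mem (mn_ne (hpure i)) (E * c) (D * (g * p)) (D * (g * q))
      rw [hdm]
      have h2 := hm i d hd
      have h3 : E * m i ≤ E * c * d 0 + D * (g * p) * d 1 + D * (g * q) * d 2 := by
        refine h2.trans (le_of_eq ?_)
        rw [hD, hE]
        ring
      exact_mod_cast h3
    have h2 : (E : ℝ) * Em ≤ ∑ i, e i * (mn (Γ i) (E * c) (D * (g * p)) (D * (g * q)) : ℝ) := by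
      rw [hEm, Finset.mul_sum]
      refine Finset.sum_le_sum fun i _ => ?_
      have := mul_le_mul_of_nonneg_left (h1 i) (he i).le
      linarith
    have h3 : Z = ((E * c : ℕ) + (D * (g * p) : ℕ) + (D * (g * q) : ℕ) : ℝ)
        - ∑ i, e i * (mn (Γ i) (E * c) (D * (g * p)) (D * (g * q)) : ℝ) := rfl
    push_cast at h3
    rw [hDR] at h3
    have h4 : (E : ℝ) * V = E * (g * (p + q) + j) + E * c - E * Em := by
      rw [hV]
      ring
    have h5 : Z + j * (E - g * (p + q)) = E * (g * (p + q) + j) + E * c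
        - ∑ i, e i * (mn (Γ i) (E * c) (D * (g * p)) (D * (g * q)) : ℝ) := by
      rw [h3]
      ring
    rw [h4, h5]
    linarith only [h2]
  -- `g (p + q) ≤ (5/6) E`
  have hEs : (E : ℝ) / 6 ≤ E - g * (p + q) := by
    rw [hERv]
    exact ra2 hgR (ra1 hpR hqR)
  have hV0 : 0 < V := ra3 hER hZ0 hjR hEs hVE
  have fin : ∀ a b d : ℕ, 1 ≤ a → 1 ≤ b → 1 ≤ d → D * FF e Γ a b d ≤ Z →
      ∃ w : Fin 3 → ℕ, (∀ j, 1 ≤ w j) ∧ Fw e Γ w ≤ (κ : ℝ) + c - Em := by
    intro a b d ha hb hd hle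
    apply ok a b d ha hb hd
    have h1 := hFpos a b d ha hb hd
    have h2 : (E : ℝ) * FF e Γ a b d ≤ E * V := by
      rw [hDR] at hle
      exact ra4 hER hjR hEs h1 hVE hle
    exact le_of_mul_le_mul_left h2 (by linarith)
  by_cases hcon : ∃ w : Fin 3 → ℕ, (∀ j, 1 ≤ w j) ∧ Fw e Γ w ≤ (κ : ℝ) + c - Em
  · exact Or.inl hcon
  right
  have hno : ∀ a b d : ℕ, 1 ≤ a → 1 ≤ b → 1 ≤ d → V < FF e Γ a b d := by
    intro a b d ha hb hd
    by_contra hle
    push Not at hle
    exact hcon (ok a b d ha hb hd hle)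
  have hm0 : ∀ i, m i ≤ c * μ i := by
    intro i
    have h3 := hm i _ (hpure i)
    have h4 : E * m i ≤ E * (c * μ i) := by
      refine h3.trans (le_of_eq ?_)
      simp only [Matrix.cons_val_zero, Matrix.cons_val_one, Matrix.cons_val]
      rw [hE]
      ring
    exact Nat.le_of_mul_le_mul_left h4 hE1
  -- `x` is nonnegative
  have hx0 : 0 ≤ x := by
    by_contra hneg
    push Not at hneg
    apply hcon
    apply ok 1 1 1 le_rfl le_rfl le_rfl
    have h1 := FF_small h (a := 1) (b := 1) (c := 1) le_rfl le_rfl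
    rw [h1, ← hx]
    have h2 : ∀ i, (m i : ℝ) ≤ c * μ i := fun i => by exact_mod_cast hm0 i
    have h3 : Em ≤ c * ∑ i, e i * (μ i : ℝ) := by
      rw [hEm, Finset.mul_sum]
      refine Finset.sum_le_sum fun i _ => ?_
      have := mul_le_mul_of_nonneg_left (h2 i) (he i).le
      linarith
    have h4 : Em ≤ c * (1 + x) := by
      refine h3.trans (le_of_eq ?_)
      rw [hx]
      ring
    have hcR : (1 : ℝ) ≤ c := by exact_mod_cast hc
    rw [hV]
    push_cast
    refine ra5 h4 hneg hcR ?_ hjR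
    have h5 : (0 : ℝ) ≤ (g - 1) * (p + q) := mul_nonneg (by linarith only [hgR])
      (by linarith only [hpR, hqR])
    linarith only [h5, hpR, hqR]
  -- division
  have hcase0 : D ≤ E * c := by
    by_contra hlt
    push Not at hlt
    apply hcon
    apply fin 1 _ _ le_rfl hgp hgq
    have h1 := FF_small h (a := 1) (b := g * p) (c := g * q) hgp hgq
    have h2 := FF_small h (a := E * c) (b := D * (g * p)) (c := D * (g * q))
      (hlt.le.trans (Nat.le_mul_of_pos_right _ hgp))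
      (hlt.le.trans (Nat.le_mul_of_pos_right _ hgq))
    rw [h1, hZ, h2, ← hx]
    have h3 : ((E * c : ℕ) : ℝ) ≤ D := by exact_mod_cast hlt.le
    push_cast at h3 ⊢
    exact ra6 hx0 h3
  have hdm := Nat.div_add_mod (E * c) D
  set n := E * c / D with hn
  set r := E * c % D with hr
  have hrD : r < D := Nat.mod_lt _ (by omega)
  have hn1 : 1 ≤ n := (Nat.le_div_iff_mul_le (by omega)).2 (by omega)
  have hdmR : (E : ℝ) * c = D * n + r := by exact_mod_cast hdm.symm
  choose ν ν' hEx hνμ using fun i => exch (hpure i) (g * p) (g * q) hn1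
  -- the two comparisons
  set Xv : ℝ := ∑ i, e i * (ν i : ℝ) - 1 with hXv
  set Yv : ℝ := 1 - ∑ i, e i * (ν' i : ℝ) with hYv
  have hZX : (D : ℝ) * FF e Γ n (g * p) (g * q) - r * Xv ≤ Z := by
    have h1 := FF_comp' h (a := E * c) (b := D * (g * p)) (c := D * (g * q)) (a' := n)
      (b' := g * p) (c' := g * q) (t := D) (fun i => (r : ℝ) * ν i) (by
        intro i
        obtain ⟨d, hd, hd0, hdm1⟩ := (hEx i).ex
        have h2 := mn_le hd (E * c) (D * (g * p)) (D * (g * q))
        have h3 : (mn (Γ i) (E * c) (D * (g * p)) (D * (g * q)) : ℝ)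
            ≤ ((E * c * d 0 + D * (g * p) * d 1 + D * (g * q) * d 2 : ℕ) : ℝ) := by
          exact_mod_cast h2
        refine h3.trans (le_of_eq ?_)
        rw [hdm1, ← hd0]
        push_cast
        rw [hdmR]
        ring)
    have h2 : ∑ i, e i * ((r : ℝ) * ν i) = r * (Xv + 1) := by
      rw [hXv, sub_add_cancel, Finset.mul_sum]
      refine Finset.sum_congr rfl fun i _ => ?_
      ring
    rw [h2, ← hZ] at h1
    push_cast at h1
    rw [hdmR] at h1
    linarith
  have hZY : (D : ℝ) * FF e Γ (n + 1) (g * p) (g * q) - (D - r) * Yv ≤ Z := by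
    have h1 := FF_comp' h (a := E * c) (b := D * (g * p)) (c := D * (g * q)) (a' := n + 1)
      (b' := g * p) (c' := g * q) (t := D) (fun i => -((D - r : ℝ) * ν' i)) (by
        intro i
        obtain ⟨d, hd, hd0, hdm1⟩ := (hEx i).ex'
        have h2 := mn_le hd (E * c) (D * (g * p)) (D * (g * q))
        have h3 : (mn (Γ i) (E * c) (D * (g * p)) (D * (g * q)) : ℝ)
            ≤ ((E * c * d 0 + D * (g * p) * d 1 + D * (g * q) * d 2 : ℕ) : ℝ) := by
          exact_mod_cast h2
        refine h3.trans (le_of_eq ?_)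
        rw [hdm1, ← hd0]
        push_cast
        rw [hdmR]
        ring)
    have h2 : ∑ i, e i * (-((D - r : ℝ) * ν' i)) = -((D - r) * (1 - Yv)) := by
      rw [hYv, sub_sub_cancel, Finset.mul_sum, ← Finset.sum_neg_distrib]
      refine Finset.sum_congr rfl fun i _ => ?_
      ring
    rw [h2, ← hZ] at h1
    push_cast at h1
    rw [hdmR] at h1
    linarith
  have hrR : (0 : ℝ) ≤ r := Nat.cast_nonneg _
  have hrR' : (r : ℝ) ≤ D := by exact_mod_cast hrD.le
  have hXp : 0 < Xv := by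
    by_contra hneg
    push Not at hneg
    exact hcon (fin n _ _ hn1 hgp hgq (ra7 hZX hrR hneg))
  have hYp : 0 < Yv := by
    by_contra hneg
    push Not at hneg
    exact hcon (fin (n + 1) _ _ (by omega) hgp hgq
      (ra7 hZY (sub_nonneg.2 hrR') hneg))
  -- `X + Y ≤ 2`
  set τ : Fin s → ℝ := fun i => (μ i : ℝ) - if i ∈ T then 1 else 0 with hτ
  have hτ1 : ∑ i, e i * τ i ≤ 1 := by
    have h1 : ∑ i, e i * τ i = ∑ i, e i * (μ i : ℝ) - ∑ i ∈ T, e i := by
      have h2 : ∑ i ∈ T, e i = ∑ i, e i * (if i ∈ T then 1 else 0 : ℝ) := by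
        simp [Finset.sum_ite_mem]
      rw [h2, ← Finset.sum_sub_distrib]
      refine Finset.sum_congr rfl fun i _ => ?_
      simp only [hτ]
      ring
    linarith
  have hντ : ∀ i, (ν i : ℝ) - ν' i ≤ 2 * τ i := by
    intro i
    have h1 := (hEx i).le
    have h2 := (hEx i).ne
    have h3 := hνμ i
    simp only [hτ]
    by_cases hi : i ∈ T
    · rw [if_pos hi]
      have h4 := hμT i hi
      have h5 : ν i + 2 ≤ 2 * μ i + ν' i := by omega
      have h6 : (ν i : ℝ) + 2 ≤ 2 * μ i + ν' i := by exact_mod_cast h5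
      linarith
    · rw [if_neg hi]
      have h5 : ν i ≤ 2 * μ i + ν' i := by omega
      have h6 : (ν i : ℝ) ≤ 2 * μ i + ν' i := by exact_mod_cast h5
      linarith
  have hXY : Xv + Yv = ∑ i, e i * ((ν i : ℝ) - ν' i) := by
    have : ∑ i, e i * ((ν i : ℝ) - ν' i) = ∑ i, e i * (ν i : ℝ) - ∑ i, e i * (ν' i : ℝ) := by
      rw [← Finset.sum_sub_distrib]
      refine Finset.sum_congr rfl fun i _ => ?_
      ring
    rw [this, hXv, hYv]
    ring
  have hXY2τ : Xv + Yv ≤ 2 * ∑ i, e i * τ i := by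
    rw [hXY, Finset.mul_sum]
    refine Finset.sum_le_sum fun i _ => ?_
    have := mul_le_mul_of_nonneg_left (hντ i) (he i).le
    linarith
  have hXY2 : Xv + Yv ≤ 2 := by linarith
  have hXY0 : 0 < Xv + Yv := by linarith
  set lam : ℝ := Xv * Yv / (Xv + Yv) with hlam
  have hlamXY : lam * (Xv + Yv) = Xv * Yv := by
    rw [hlam]
    field_simp
  have hlam4 : lam ≤ (Xv + Yv) / 4 := ra15 hXY0
  have hlam2 : lam ≤ 1 / 2 := by linarith
  have hD0 : (0 : ℝ) < D := by
    rw [hDR]
    linarith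
  have hmain : (j : ℝ) * (E - g * (p + q)) < E * lam := by
    have h2 : (D : ℝ) * V < Z + D * lam := by
      rcases le_or_gt ((r : ℝ) * (Xv + Yv)) (D * Yv) with h3 | h3
      · have h4 : (r : ℝ) * Xv ≤ D * lam := by
          have h5 : (r : ℝ) * Xv * (Xv + Yv) ≤ D * lam * (Xv + Yv) := by
            calc (r : ℝ) * Xv * (Xv + Yv) = Xv * (r * (Xv + Yv)) := by ring
              _ ≤ Xv * (D * Yv) := mul_le_mul_of_nonneg_left h3 hXp.le
              _ = D * (Xv * Yv) := by ring
              _ = D * lam * (Xv + Yv) := by rw [← hlamXY]; ring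
          exact le_of_mul_le_mul_right h5 hXY0
        have h6 := mul_lt_mul_of_pos_left (hno n _ _ hn1 hgp hgq) hD0
        linarith
      · have h4 : ((D : ℝ) - r) * Yv ≤ D * lam := by
          have h5 : ((D : ℝ) - r) * Yv * (Xv + Yv) ≤ D * lam * (Xv + Yv) := by
            calc ((D : ℝ) - r) * Yv * (Xv + Yv) = Yv * (D * (Xv + Yv) - r * (Xv + Yv)) := by ring
              _ ≤ Yv * (D * (Xv + Yv) - D * Yv) :=
                  mul_le_mul_of_nonneg_left (by linarith) hYp.le
              _ = D * (Xv * Yv) := by ring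
              _ = D * lam * (Xv + Yv) := by rw [← hlamXY]; ring
          exact le_of_mul_le_mul_right h5 hXY0
        have h6 := mul_lt_mul_of_pos_left (hno (n + 1) _ _ (by omega) hgp hgq) hD0
        linarith
    have h3 : (E : ℝ) * (D * V) < E * (Z + D * lam) :=
      mul_lt_mul_of_pos_left h2 (by linarith)
    have h4 : (D : ℝ) * (Z + j * (E - g * (p + q))) ≤ D * (E * V) :=
      mul_le_mul_of_nonneg_left hVE hD0.le
    have h5 : (E : ℝ) * Z ≤ D * Z :=
      mul_le_mul_of_nonneg_right (by linarith only [hDR, hjR]) hZ0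
    have h6 : (D : ℝ) * (j * (E - g * (p + q))) < D * (E * lam) := ra8 hD0 h3 h4 h5
    exact lt_of_mul_lt_mul_left h6 hD0.le
  -- `j`
  have hj3 : j < 3 := by
    have h1 : (j : ℝ) * (E / 6) < E * (1 / 2) := by
      calc (j : ℝ) * (E / 6) ≤ j * (E - g * (p + q)) :=
            mul_le_mul_of_nonneg_left hEs (by linarith)
        _ < E * lam := hmain
        _ ≤ E * (1 / 2) := mul_le_mul_of_nonneg_left hlam2 (by linarith)
    have h2 : (j : ℝ) < 3 := ra9 hER h1
    exact_mod_cast h2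
  -- divide by `g`
  have hpq2 : (j : ℝ) * (p * q - (p + q)) < p * q * lam := by
    rw [hERv] at hmain
    have h3 : (g : ℝ) * (j * (p * q - (p + q))) < g * (p * q * lam) := by
      calc (g : ℝ) * (j * (p * q - (p + q))) = j * (g * p * q - g * (p + q)) := by ring
        _ < g * p * q * lam := hmain
        _ = _ := by ring
    exact lt_of_mul_lt_mul_left h3 (by linarith)
  refine ⟨?_, ?_, by omega, hV0.le⟩
  · -- `g`
    by_contra hgb
    push Not at hgb
    apply hcon
    have hdiv : ∀ δ, 1 ≤ δ → δ ≤ Mx → δ ∣ Mx.factorial := fun δ h1 h2 =>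
      Nat.dvd_factorial (by omega) h2
    have eqZ : Z = FF e Γ (g * (p * q * c)) (g * (D * p)) (g * (D * q)) := by
      rw [hZ, hE]
      congr 1 <;> ring
    obtain ⟨a, ha, hle⟩ := step_ii h hx0 (B := Mx.factorial) (M := Mx) (g := g)
      (v := p * q * c) (D := D) (p := p) (q := q) hμM hdiv (Nat.factorial_pos _) (by omega)
      hD1 hpos_p hpos_q (by rw [← eqZ]; exact hZ0)
    rw [← eqZ] at hle
    exact fin a _ _ ha (Nat.mul_pos (Nat.factorial_pos _) hpos_p)
      (Nat.mul_pos (Nat.factorial_pos _) hpos_q) hle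
  · -- `p`
    by_contra hpb
    push Not at hpb
    rcases lt_or_eq_of_le hlam2 with hlt | heq
    · -- not critical
      have h4 : (p : ℝ) * (1 - 2 * lam) < 2 :=
        ra11 (by linarith only [hpR]) hqR (ra10 hpR hqR hjR hpq2)
      have h5 : (p : ℝ) ≤ 2 / (1 - 2 * lam) := by
        rw [le_div_iff₀ (by linarith)]
        exact h4.le
      have h6 : p ≤ Pb := by
        have hν'M : ∀ i, ν' i ≤ Mx := fun i => ((hEx i).le.trans (hνμ i)).trans (hμM i)
        let nn : (Fin s → Fin (Mx + 1)) × (Fin s → Fin (Mx + 1)) :=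
          (fun i => ⟨ν i, by have := (hνμ i).trans (hμM i); omega⟩,
            fun i => ⟨ν' i, by have := hν'M i; omega⟩)
        have hL : L nn = lam := rfl
        have h7 : ⌈2 / (1 - 2 * L nn)⌉₊ ≤ Pb :=
          Finset.single_le_sum (f := fun ν => ⌈2 / (1 - 2 * L ν)⌉₊)
            (fun _ _ => Nat.zero_le _) (Finset.mem_univ nn)
        rw [hL] at h7
        have h8 : (p : ℝ) ≤ (⌈2 / (1 - 2 * lam)⌉₊ : ℝ) := h5.trans (Nat.le_ceil _)
        have h9 : p ≤ ⌈2 / (1 - 2 * lam)⌉₊ := by exact_mod_cast h8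
        exact h9.trans h7
      omega
    · -- critical
      have hp6 : (6 : ℝ) ≤ p := by exact_mod_cast (by omega : 6 ≤ p)
      have hj1 : j = 1 := by
        by_contra hj1
        have hj2 : (j : ℝ) = 2 := by exact_mod_cast (by omega : j = 2)
        rw [hj2, heq] at hpq2
        exact ra12 hp6 hqR hpq2
      have hq2 : q = 2 := by
        by_contra hq2
        have hq3 : (3 : ℝ) ≤ q := by exact_mod_cast (by omega : 3 ≤ q)
        rw [hj1, heq] at hpq2
        push_cast at hpq2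
        exact ra13 hp6 hq3 hpq2
      have hsum2 : Xv + Yv = 2 := by
        rw [heq] at hlam4
        linarith
      have hprod : Xv * Yv = 1 := by
        rw [← hlamXY, heq, hsum2]
        norm_num
      have hX1 : Xv = 1 := ra14 hsum2 hprod
      have hY1 : Yv = 1 := by linarith
      have hsν' : ∑ i, e i * (ν' i : ℝ) = 0 := by
        rw [hYv] at hY1
        linarith
      have hν'0 : ∀ i, ν' i = 0 := by
        intro i
        have h1 := (Finset.sum_eq_zero_iff_of_nonneg (fun i _ =>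
          mul_nonneg (he i).le (Nat.cast_nonneg (ν' i)))).1 hsν' i (Finset.mem_univ i)
        rcases mul_eq_zero.1 h1 with h2 | h2
        · exact absurd h2 (he i).ne'
        · exact_mod_cast h2
      have hντe : ∀ i, (ν i : ℝ) = 2 * τ i := by
        intro i
        have h1 : ∑ i, (2 * (e i * τ i) - e i * ((ν i : ℝ) - ν' i)) = 0 := by
          apply le_antisymm
          · rw [Finset.sum_sub_distrib, ← hXY, ← Finset.mul_sum]
            linarith
          · refine Finset.sum_nonneg fun i _ => ?_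
            have := mul_le_mul_of_nonneg_left (hντ i) (he i).le
            linarith
        have h2 := (Finset.sum_eq_zero_iff_of_nonneg (fun i _ => by
          have := mul_le_mul_of_nonneg_left (hντ i) (he i).le
          linarith)).1 h1 i (Finset.mem_univ i)
        rw [hν'0 i] at h2
        have h3 : e i * (2 * τ i - ν i) = 0 := by
          push_cast at h2
          linarith
        rcases mul_eq_zero.1 h3 with h4 | h4
        · exact absurd h4 (he i).ne'
        · linarith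
      have htri : ∀ i, (μ i = 0 ∧ ν i = 0) ∨ (μ i = 1 ∧ ν i = 0) ∨ (μ i = 2 ∧ ν i = 2) := by
        intro i
        have h1 := hντe i
        have h2 := hνμ i
        simp only [hτ] at h1
        by_cases hi : i ∈ T
        · rw [if_pos hi] at h1
          have h3 : ν i + 2 = 2 * μ i := by
            have : (ν i : ℝ) + 2 = 2 * μ i := by linarith
            exact_mod_cast this
          omega
        · rw [if_neg hi] at h1
          have h3 : ν i = 2 * μ i := by
            have : (ν i : ℝ) = 2 * μ i := by linarith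
            exact_mod_cast this
          omega
      subst hj1
      subst hq2
      have hpe : ∀ i, 1 < p * e i := by
        intro i
        have h1 : ⌈1 / e i⌉₊ ≤ P1 :=
          Finset.single_le_sum (f := fun i => ⌈1 / e i⌉₊) (fun _ _ => Nat.zero_le _)
            (Finset.mem_univ i)
        have h2 : 1 / e i < p := by
          refine lt_of_le_of_lt (Nat.le_ceil _) ?_
          exact_mod_cast (by omega : ⌈1 / e i⌉₊ < p)
        rw [div_lt_iff₀ (he i)] at h2
        exact h2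
      have hcr := crit h (g := g) (p := p) (n := n) (c := c) (E := E) hg (by omega) hE hpe hn1
        (ν := ν) (fun i => by have := hEx i; rw [hν'0 i] at this; exact this) htri
        (by rw [hXv] at hX1; linarith)
        (hFpos _ _ _ (by omega) (by omega) (by omega))
        (by rw [← hD]; omega)
        (by
          rw [← hD, Nat.mul_add]
          omega)
        (m := m) (by
          intro i d hd
          have := hm i d hd
          exact this)
      refine absurd hcr (not_le.2 ?_)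
      refine lt_of_le_of_lt (le_of_eq ?_) (hno (n + 1) (g * p) (g * 2) (by omega) hgp hgq)
      rw [hV, hEm]
      push_cast
      ring

end Pool.Agent.MNJ
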