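import Pool.Agent.Work.MP_6c38a7_ag.Support

/-!
# Cell MN, stronger form: notions for arcs in good coordinates
-/

namespace Pool.Agent.MNJ

open MvPolynomial

universe u

/-- some element of `I` has a monomial of degree `μ` one of whose exponents is nonzero in `k` (for an ideal of
order `μ` at the origin and `k` perfect: its leading form of degree `μ` is not a `p`-th power) -/
def GoodLead {k : Type u} [Field k] (I : Ideal (MvPolynomial (Fin 3) k)) (μ : ℕ) : Prop :=
  ∃ f ∈ I, ∃ d ∈ f.support, d.degree = μ ∧ ∃ j, ((d j : ℕ) : k) ≠ 0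

/-- orders and pure powers of `X_0` -/
structure Prep2 {k : Type u} [Field k] {s : ℕ} (a : Fin s → Ideal (MvPolynomial (Fin 3) k))
    (μ : Fin s → ℕ) : Prop where
  deg : ∀ i, ∀ f ∈ a i, ∀ d ∈ f.support, μ i ≤ d 0 + d 1 + d 2
  pure : ∀ i, ∃ f ∈ a i, f.coeff (Finsupp.single 0 (μ i)) ≠ 0

/-- the contact inequalities for an arc, with the first index `M` such that the coefficient of `t ^ M` in the
first coordinate is transcendental over the coefficients of the other two -/
def CI (k : Type*) {K : Type*} [Field k] [Field K] [Algebra k K] {s : ℕ} (n : ℕ) (T : Finset (Fin s))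
    (μ m : Fin s → ℕ) (γ : Fin 3 → PowerSeries K) : Prop :=
  ∃ M : ℕ, 1 ≤ M ∧ M ≤ n + 1 ∧
    (∀ j < M, PowerSeries.coeff j (γ 0) ∈
      (AlgebraicIndependent.matroid k K).closure (cs n ![γ 1, γ 2])) ∧
    (M ≤ n → PowerSeries.coeff M (γ 0) ∉
      (AlgebraicIndependent.matroid k K).closure (cs n ![γ 1, γ 2])) ∧
    ∀ i ∈ T, ∀ h : ℕ, (γ 0).order = h → h < M → m i ≤ h + (μ i - 1) * M

section

variable {k K : Type*} [Field k] [Field K] [Algebra k K]

theorem coeff_mem_closure {σ : Type*} (γ : σ → PowerSeries K) (n : ℕ) (g : MvPolynomial σ k) {j : ℕ}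
    (hj : j ≤ n) : PowerSeries.coeff j (aeval γ g : PowerSeries K) ∈
      (AlgebraicIndependent.matroid k K).closure (cs n γ) := by
  rw [mem_closure_iff]
  set L := IntermediateField.adjoin k (cs n γ) with hL
  rw [coeff_aeval_congr γ (fun i => tr n (γ i)) n (fun i j hj => (coeff_tr_of_le hj _).symm) g j hj]
  refine isAlgebraic_algebraMap (⟨_, coeff_aeval_mem L (fun i => tr n (γ i)) (fun i j => ?_) g j⟩ : L)
  rw [coeff_tr]
  split_ifs with h
  · exact IntermediateField.subset_adjoin k (cs n γ) ⟨i, j, h, rfl⟩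
  · exact L.zero_mem

theorem closure_sub {S : Set K} {a b : K} (ha : a ∈ (AlgebraicIndependent.matroid k K).closure S)
    (hb : b ∈ (AlgebraicIndependent.matroid k K).closure S) :
    a - b ∈ (AlgebraicIndependent.matroid k K).closure S := by
  rw [mem_closure_iff] at *
  exact ha.sub hb

theorem closure_add {S : Set K} {a b : K} (ha : a ∈ (AlgebraicIndependent.matroid k K).closure S)
    (hb : b ∈ (AlgebraicIndependent.matroid k K).closure S) :
    a + b ∈ (AlgebraicIndependent.matroid k K).closure S := by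
  rw [mem_closure_iff] at *
  exact ha.add hb

theorem closure_mono' {S T : Set K} (h : S ⊆ (AlgebraicIndependent.matroid k K).closure T) :
    (AlgebraicIndependent.matroid k K).closure S ⊆ (AlgebraicIndependent.matroid k K).closure T :=
  Matroid.closure_subset_closure_of_subset_closure h

theorem cs_subset_closure {σ τ : Type*} (γ : σ → PowerSeries K) (γ' : τ → PowerSeries K) (n : ℕ)
    (h : ∀ i, ∃ g : MvPolynomial σ k, γ' i = aeval γ g) :
    cs n γ' ⊆ (AlgebraicIndependent.matroid k K).closure (cs n γ) := by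
  rintro _ ⟨i, j, hj, rfl⟩
  obtain ⟨g, hg⟩ := h i
  rw [hg]
  exact coeff_mem_closure γ n g hj

theorem CI.congr {s n : ℕ} {T : Finset (Fin s)} {μ m : Fin s → ℕ} {γ γ' : Fin 3 → PowerSeries K}
    (h : CI k n T μ m γ) (h0 : γ' 0 = γ 0)
    (h1 : ∀ i, ∃ g : MvPolynomial (Fin 2) k, (![γ' 1, γ' 2] : Fin 2 → PowerSeries K) i =
      aeval ![γ 1, γ 2] g)
    (h2 : ∀ i, ∃ g : MvPolynomial (Fin 2) k, (![γ 1, γ 2] : Fin 2 → PowerSeries K) i =
      aeval ![γ' 1, γ' 2] g) : CI k n T μ m γ' := by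
  obtain ⟨M, hM1, hMn, hlow, htr, hci⟩ := h
  have e1 := closure_mono' (cs_subset_closure ![γ 1, γ 2] ![γ' 1, γ' 2] n h1)
  have e2 := closure_mono' (cs_subset_closure ![γ' 1, γ' 2] ![γ 1, γ 2] n h2)
  refine ⟨M, hM1, hMn, fun j hj => ?_, fun h hc => ?_, fun i hi h hh hM => ?_⟩
  · rw [h0]; exact e2 (hlow j hj)
  · rw [h0] at hc; exact htr h (e1 hc)
  · rw [h0] at hh; exact hci i hi h hh hM

end

end Pool.Agent.MNJ
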