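import Pool.Agent.Work.MP_6c38a7_ag.Defs

/-!
# Cell MN, module D: the first transcendental coefficient
-/

namespace Pool.Agent.MNJ

open MvPolynomial

namespace Gauss

open PowerSeries in
/-- `u = trunc M u + t ^ M * V` -/
theorem split {K : Type*} [Field K] (u : PowerSeries K) (M : ℕ) :
    ∃ V : PowerSeries K, u = ((PowerSeries.trunc M u : Polynomial K) : PowerSeries K) +
      PowerSeries.X ^ M * V ∧ PowerSeries.constantCoeff V = PowerSeries.coeff M u := by
  refine ⟨PowerSeries.mk fun j => PowerSeries.coeff (j + M) u, ?_, ?_⟩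
  · ext j
    rw [map_add, PowerSeries.coeff_X_pow_mul', Polynomial.coeff_coe, PowerSeries.coeff_trunc]
    by_cases h : j < M
    · rw [if_pos h, if_neg (not_le.2 h), add_zero]
    · rw [if_neg h, if_pos (not_lt.1 h), zero_add, PowerSeries.coeff_mk,
        Nat.sub_add_cancel (not_lt.1 h)]
  · rw [← PowerSeries.coeff_zero_eq_constantCoeff_apply, PowerSeries.coeff_mk, zero_add]

/-- Taylor expansion of `P` at `Ξ`, evaluated at `Ξ + h`. -/
theorem eval_add {R : Type*} [CommRing R] (P : Polynomial R) (Ξ h : R) :
    P.eval (Ξ + h) = ∑ l ∈ Finset.range (P.natDegree + 1), (Polynomial.hasseDeriv l P).eval Ξ * h ^ l := by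
  rw [add_comm, ← Polynomial.taylor_eval, Polynomial.eval_eq_sum_range, Polynomial.natDegree_taylor]
  refine Finset.sum_congr rfl fun l _ => ?_
  rw [Polynomial.taylor_coeff]

end Gauss

open Gauss

/-- D1 -/
theorem gauss {L K : Type*} [Field L] [Field K] [Algebra L K] (u : PowerSeries K) (n M : ℕ)
    (hM : M ≤ n + 1) (hlow : ∀ j < M, IsAlgebraic L (PowerSeries.coeff j u))
    (htr : M ≤ n → Transcendental L (PowerSeries.coeff M u)) (P : Polynomial (PowerSeries K))
    (hP : ∀ l j, IsAlgebraic L (PowerSeries.coeff j (P.coeff l))) (v : ℕ) (hv : v ≤ n + 1)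
    (hord : (v : ℕ∞) ≤ (P.eval u).order) (l : ℕ) :
    (v : ℕ∞) ≤ ((Polynomial.hasseDeriv l P).eval ((PowerSeries.trunc M u : Polynomial K) :
      PowerSeries K)).order + ((l * M : ℕ) : ℕ∞) := by
  obtain ⟨V, hu, hV⟩ := split u M
  set Ξ : PowerSeries K := ((PowerSeries.trunc M u : Polynomial K) : PowerSeries K) with hΞ
  have hexp : P.eval u = ∑ l ∈ Finset.range (P.natDegree + 1),
      (Polynomial.hasseDeriv l P).eval Ξ * (PowerSeries.X ^ M * V) ^ l := by
    conv_lhs => rw [hu]
    exact eval_add P Ξ _
  by_cases hMn : M ≤ n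
  · -- the generic case
    by_contra hcon
    push Not at hcon
    have htr' := htr hMn
    -- lift to the algebraic closure of `L` in `K`
    set A := algebraicClosure L K with hA
    let f : PowerSeries A →+* PowerSeries K := PowerSeries.map (algebraMap A K)
    have hlift : ∀ w : PowerSeries K, (∀ j, IsAlgebraic L (PowerSeries.coeff j w)) →
        ∃ w' : PowerSeries A, f w' = w := by
      intro w hw
      refine ⟨PowerSeries.mk fun j => ⟨PowerSeries.coeff j w, mem_algebraicClosure_iff.2 (hw j)⟩, ?_⟩
      ext j
      simp only [f, PowerSeries.coeff_map, PowerSeries.coeff_mk]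
      rfl
    have hPl : P ∈ Polynomial.lifts f :=
      (Polynomial.lifts_iff_coeff_lifts P).2 fun l => hlift _ (hP l)
    obtain ⟨P', hP'⟩ := (Polynomial.mem_lifts P).1 hPl
    obtain ⟨Ξ', hΞ'⟩ := hlift Ξ (by
      intro j
      rw [hΞ, Polynomial.coeff_coe, PowerSeries.coeff_trunc]
      split_ifs with h
      · exact hlow j h
      · exact isAlgebraic_zero)
    have hQ : ∀ l, (Polynomial.hasseDeriv l P).eval Ξ = f ((Polynomial.taylor Ξ' P').coeff l) := by
      intro l
      rw [← Polynomial.taylor_coeff, ← hP', ← hΞ', ← Polynomial.map_taylor, Polynomial.coeff_map]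
    -- the minimum
    let S : Set ℕ := {b | ∃ l, PowerSeries.coeff b ((Polynomial.hasseDeriv l P).eval Ξ *
      PowerSeries.X ^ (l * M)) ≠ 0}
    have hS : S.Nonempty := by
      have hne : (Polynomial.hasseDeriv l P).eval Ξ ≠ 0 := by
        intro h0
        rw [h0, PowerSeries.order_zero, top_add] at hcon
        exact absurd hcon (not_lt.2 le_top)
      obtain ⟨b, hb⟩ := PowerSeries.exists_coeff_ne_zero_iff_ne_zero.2 hne
      refine ⟨b + l * M, l, ?_⟩
      rwa [PowerSeries.coeff_mul_X_pow]
    set b := sInf S with hb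
    have hbS : b ∈ S := Nat.sInf_mem hS
    have hbmin : ∀ j < b, ∀ l, PowerSeries.coeff j ((Polynomial.hasseDeriv l P).eval Ξ *
        PowerSeries.X ^ (l * M)) = 0 := by
      intro j hj l
      by_contra h
      exact absurd (Nat.sInf_le (show j ∈ S from ⟨l, h⟩)) (not_le.2 hj)
    have hbv : b < v := by
      -- order of the l-th term is `< v`
      have h1 : ((Polynomial.hasseDeriv l P).eval Ξ * PowerSeries.X ^ (l * M)).order < (v : ℕ∞) := by
        rw [PowerSeries.order_mul, PowerSeries.order_X_pow]; exact hcon
      by_contra hvb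
      push Not at hvb
      have h2 : (v : ℕ∞) ≤ ((Polynomial.hasseDeriv l P).eval Ξ * PowerSeries.X ^ (l * M)).order :=
        PowerSeries.nat_le_order _ _ fun j hj => hbmin j (lt_of_lt_of_le hj hvb) l
      exact absurd h1 (not_lt.2 h2)
    have hzero : PowerSeries.coeff b (P.eval u) = 0 := by
      apply PowerSeries.coeff_of_lt_order
      exact lt_of_lt_of_le (by exact_mod_cast hbv) hord
    -- compute the coefficient
    have hcoef : ∀ l, PowerSeries.coeff b ((Polynomial.hasseDeriv l P).eval Ξ *
        (PowerSeries.X ^ M * V) ^ l) = PowerSeries.coeff b ((Polynomial.hasseDeriv l P).eval Ξ *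
        PowerSeries.X ^ (l * M)) * (PowerSeries.coeff M u) ^ l := by
      intro l
      have e1 : (Polynomial.hasseDeriv l P).eval Ξ * (PowerSeries.X ^ M * V) ^ l =
          ((Polynomial.hasseDeriv l P).eval Ξ * PowerSeries.X ^ (l * M)) * V ^ l := by
        rw [mul_pow, ← pow_mul, mul_comm M l]; ring
      rw [e1, PowerSeries.coeff_mul, Finset.sum_eq_single (b, 0)]
      · rw [PowerSeries.coeff_zero_eq_constantCoeff_apply, map_pow, hV]
      · rintro ⟨i, j⟩ hij hne
        have hij' := Finset.HasAntidiagonal.mem_antidiagonal.1 hij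
        have : i < b := by
          rcases Nat.lt_or_ge i b with h | h
          · exact h
          · exfalso; apply hne
            simp only [Prod.mk.injEq]
            simp only at hij'
            omega
        rw [hbmin i this l, zero_mul]
      · intro h; exact absurd (Finset.HasAntidiagonal.mem_antidiagonal.2 (by simp)) h
    rw [hexp, map_sum, Finset.sum_congr rfl (fun l _ => hcoef l)] at hzero
    -- the polynomial
    have hA' : ∀ l, ∃ r : A, algebraMap A K r = PowerSeries.coeff b ((Polynomial.hasseDeriv l P).eval Ξ *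
        PowerSeries.X ^ (l * M)) := by
      intro l
      refine ⟨PowerSeries.coeff b ((Polynomial.taylor Ξ' P').coeff l * PowerSeries.X ^ (l * M)), ?_⟩
      rw [hQ l]
      have : f ((Polynomial.taylor Ξ' P').coeff l * PowerSeries.X ^ (l * M)) =
          f ((Polynomial.taylor Ξ' P').coeff l) * PowerSeries.X ^ (l * M) := by
        rw [map_mul, map_pow]; congr 2; exact PowerSeries.map_X _
      rw [← this]
      simp only [f, PowerSeries.coeff_map]
    choose r hr using hA'
    let R : Polynomial A := ∑ l ∈ Finset.range (P.natDegree + 1), Polynomial.C (r l) * Polynomial.X ^ l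
    have hRz : Polynomial.aeval (PowerSeries.coeff M u) R = 0 := by
      simp only [R, map_sum, map_mul, map_pow, Polynomial.aeval_C, Polynomial.aeval_X, hr]
      exact hzero
    have hRne : R ≠ 0 := by
      obtain ⟨l₀, hl₀⟩ := hbS
      have hl₀' : l₀ < P.natDegree + 1 := by
        by_contra h
        apply hl₀
        rw [Polynomial.hasseDeriv_eq_zero_of_lt_natDegree P l₀ (by omega)]
        simp
      intro h0
      have : R.coeff l₀ = r l₀ := by
        simp only [R, Polynomial.finsetSum_coeff, Polynomial.coeff_C_mul, Polynomial.coeff_X_pow]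
        rw [Finset.sum_eq_single l₀]
        · simp
        · intro b _ hb; rw [if_neg (Ne.symm hb), mul_zero]
        · intro h; exact absurd (Finset.mem_range.2 hl₀') h
      rw [h0, Polynomial.coeff_zero] at this
      apply hl₀
      rw [← hr l₀, ← this, map_zero]
    exact htr'.algebraicClosure ⟨R, hRne, hRz⟩
  · have hMe : M = n + 1 := by omega
    rcases Nat.eq_zero_or_pos l with rfl | hl
    · rw [Finset.sum_range_succ'] at hexp
      simp only [pow_zero, mul_one] at hexp
      rw [zero_mul, Nat.cast_zero, add_zero]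
      have e : (Polynomial.hasseDeriv 0 P).eval Ξ = P.eval u - ∑ l ∈ Finset.range P.natDegree,
          (Polynomial.hasseDeriv (l + 1) P).eval Ξ * (PowerSeries.X ^ M * V) ^ (l + 1) := by
        rw [hexp]; ring
      rw [e]
      refine PowerSeries.nat_le_order _ _ fun j hj => ?_
      rw [map_sub, PowerSeries.coeff_of_lt_order j (lt_of_lt_of_le (by exact_mod_cast hj) hord),
        zero_sub, neg_eq_zero, map_sum]
      refine Finset.sum_eq_zero fun i _ => ?_
      have e2 : (Polynomial.hasseDeriv (i + 1) P).eval Ξ * (PowerSeries.X ^ M * V) ^ (i + 1) =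
          PowerSeries.X ^ M * ((Polynomial.hasseDeriv (i + 1) P).eval Ξ * V *
            (PowerSeries.X ^ M * V) ^ i) := by ring
      rw [e2, PowerSeries.coeff_X_pow_mul', if_neg (by omega)]
    · calc (v : ℕ∞) ≤ ((l * M : ℕ) : ℕ∞) := by
            have : v ≤ l * M := by nlinarith
            exact_mod_cast this
        _ ≤ _ := le_add_self

end Pool.Agent.MNJ
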