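import Pool.Agent.Work.MP_6c38a7_ag.Defs

/-!
# Cell MN, module E: a ball can be replaced by `{ord X ≥ c}`
-/

namespace Pool.Agent.MNJ

open Polynomial

namespace XStep

variable {K : Type*} [Field K]

theorem le_order_add_iff (w : PowerSeries K) (v c : ℕ) :
    (v : ℕ∞) ≤ w.order + (c : ℕ∞) ↔ ∀ j, j + c < v → PowerSeries.coeff j w = 0 := by
  constructor
  · intro h j hj
    apply PowerSeries.coeff_of_lt_order
    by_contra hcon
    push Not at hcon
    have h1 : (v : ℕ∞) ≤ (j : ℕ∞) + c := h.trans (by gcongr)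
    have h2 : v ≤ j + c := by exact_mod_cast h1
    omega
  · intro h
    have h1 : ((v - c : ℕ) : ℕ∞) ≤ w.order := PowerSeries.nat_le_order _ _ fun j hj => h j (by omega)
    calc (v : ℕ∞) ≤ ((v - c + c : ℕ) : ℕ∞) := by exact_mod_cast (by omega : v ≤ v - c + c)
      _ = ((v - c : ℕ) : ℕ∞) + c := by push_cast; rfl
      _ ≤ _ := by gcongr

theorem le_sum {ι : Type*} (s : Finset ι) (t : ι → PowerSeries K) (v c : ℕ)
    (h : ∀ i ∈ s, (v : ℕ∞) ≤ (t i).order + (c : ℕ∞)) : (v : ℕ∞) ≤ (∑ i ∈ s, t i).order + (c : ℕ∞) := by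
  rw [le_order_add_iff]
  intro j hj
  rw [map_sum]
  exact Finset.sum_eq_zero fun i hi => (le_order_add_iff _ _ _).1 (h i hi) j hj

/-- recentering a ball of radius `r` -/
theorem recenter (P : (PowerSeries K)[X]) (Ξ Ξ' : PowerSeries K) (r : ℕ)
    (hr : (r : ℕ∞) ≤ (Ξ' - Ξ).order) (v : ℕ)
    (h : ∀ l, (v : ℕ∞) ≤ ((hasseDeriv l P).eval Ξ).order + ((l * r : ℕ) : ℕ∞)) (l : ℕ) :
    (v : ℕ∞) ≤ ((hasseDeriv l P).eval Ξ').order + ((l * r : ℕ) : ℕ∞) := by
  have e1 : (hasseDeriv l P).eval Ξ' = (hasseDeriv l (taylor Ξ P)).eval (Ξ' - Ξ) := by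
    rw [← taylor_coeff, ← taylor_coeff, taylor_taylor, sub_add_cancel]
  rw [e1, eval_eq_sum_range]
  refine le_sum _ _ _ _ fun j _ => ?_
  rw [hasseDeriv_coeff, taylor_coeff]
  have h1 := h (j + l)
  set w := (hasseDeriv (j + l) P).eval Ξ with hw
  have h2 : ((j * r : ℕ) : ℕ∞) ≤ ((Ξ' - Ξ) ^ j).order := by
    rw [PowerSeries.order_pow]
    calc ((j * r : ℕ) : ℕ∞) = j • (r : ℕ∞) := by rw [nsmul_eq_mul]; push_cast; rfl
      _ ≤ _ := by gcongr
  have h3 : (w.order : ℕ∞) ≤ (((j + l).choose l : PowerSeries K) * w).order := by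
    calc w.order ≤ (((j + l).choose l : PowerSeries K)).order + w.order := le_add_self
      _ = _ := (PowerSeries.order_mul _ _).symm
  rw [PowerSeries.order_mul]
  calc (v : ℕ∞) ≤ w.order + (((j + l) * r : ℕ) : ℕ∞) := h1
    _ = w.order + ((j * r : ℕ) : ℕ∞) + ((l * r : ℕ) : ℕ∞) := by
        rw [add_assoc, ← Nat.cast_add, ← Nat.add_mul]
    _ ≤ _ := by gcongr

/-- ball around `0` -/
theorem hasse_eval_zero (P : (PowerSeries K)[X]) (l : ℕ) : (hasseDeriv l P).eval 0 = P.coeff l := by
  rw [← taylor_coeff, taylor_zero]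

end XStep

open XStep

/-- E1 -/
theorem xstep {K : Type*} [Field K] {s : ℕ} (e : Fin s → ℝ) (he : ∀ i, 0 < e i) (μ : Fin s → ℕ)
    (i₀ : Fin s) (hsum : ∑ i, e i * (μ i : ℝ) ≤ 1 + e i₀) (hμ : (μ i₀ : K) ≠ 0)
    (Pl : Fin s → Set (Polynomial (PowerSeries K))) (M : ℕ) (hM : 1 ≤ M) (Ξ : PowerSeries K)
    (hΞ : PowerSeries.constantCoeff Ξ = 0) (m : Fin s → ℕ)
    (h1 : ∀ i, ∀ P ∈ Pl i, ∀ l, (m i : ℕ∞) ≤ ((Polynomial.hasseDeriv l P).eval Ξ).order +
      ((l * M : ℕ) : ℕ∞))
    (h2 : ∀ i, ∃ P ∈ Pl i, (P.coeff (μ i)).order = 0)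
    (h3 : ∃ P ∈ Pl i₀, (P.coeff (μ i₀)).order = 0 ∧ (M : ℕ∞) ≤ (P.coeff (μ i₀ - 1)).order) :
    ∃ (c : ℕ) (m' : Fin s → ℕ), 1 ≤ c ∧ c ≤ M ∧ (∀ i, m' i ≤ m i) ∧
      (∀ i, ∀ P ∈ Pl i, ∀ l, (m' i : ℕ∞) ≤ (P.coeff l).order + ((l * c : ℕ) : ℕ∞)) ∧
      (c : ℝ) - ∑ i, e i * (m' i : ℝ) ≤ M - ∑ i, e i * (m i : ℝ) := by
  classical
  have hμ1 : 1 ≤ μ i₀ := by
    rcases Nat.eq_zero_or_pos (μ i₀) with h | h
    · rw [h] at hμ; simp at hμ
    · exact h
  by_cases hh : (M : ℕ∞) ≤ Ξ.order
  · refine ⟨M, m, hM, le_rfl, fun _ => le_rfl, fun i P hP l => ?_, le_rfl⟩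
    have := recenter P Ξ 0 M (by rw [zero_sub, PowerSeries.order_neg]; exact hh) (m i) (h1 i P hP) l
    rwa [hasse_eval_zero] at this
  · push Not at hh
    -- the order of `Ξ`
    have hne : Ξ ≠ 0 := by
      rintro rfl
      rw [PowerSeries.order_zero] at hh
      exact absurd hh (not_lt.2 le_top)
    obtain ⟨h, hh0⟩ : ∃ h : ℕ, Ξ.order = h := ⟨_, (PowerSeries.coe_toNat_order hne).symm⟩
    have hhM : h < M := by rw [hh0] at hh; exact_mod_cast hh
    have hh1 : 1 ≤ h := by
      rcases Nat.eq_zero_or_pos h with h' | h'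
      · exfalso
        subst h'
        have hc := PowerSeries.coeff_order hne
        rw [hh0] at hc
        apply hc
        rw [ENat.toNat_natCast, PowerSeries.coeff_zero_eq_constantCoeff_apply, hΞ]
      · exact h'
    let pr : Fin s → ℕ → Prop := fun i v => ∀ P ∈ Pl i, ∀ l, (v : ℕ∞) ≤ (P.coeff l).order +
      ((l * h : ℕ) : ℕ∞)
    let m' : Fin s → ℕ := fun i => Nat.findGreatest (pr i) (m i)
    have hm'le : ∀ i, m' i ≤ m i := fun i => Nat.findGreatest_le _
    have hm'pr : ∀ i, pr i (m' i) := fun i =>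
      Nat.findGreatest_spec (P := pr i) (m := 0) (Nat.zero_le _) (by intro P _ l; simp)
    -- `m' i ≤ μ i * h`
    have hm'μ : ∀ i, m' i ≤ μ i * h := by
      intro i
      obtain ⟨P, hP, hu⟩ := h2 i
      have := hm'pr i P hP (μ i)
      rw [hu, zero_add] at this
      exact_mod_cast this
    -- if `m' i < m i` there is a small Hasse derivative
    have hsmall : ∀ i, m' i < m i → ∃ P ∈ Pl i, ∃ l, ((hasseDeriv l P).eval Ξ).order + ((l * h : ℕ) : ℕ∞) ≤ m' i := by
      intro i hi
      by_contra hcon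
      push Not at hcon
      have : pr i (m' i + 1) := by
        intro P hP l
        have := recenter P Ξ 0 h (by rw [zero_sub, PowerSeries.order_neg, hh0]) (m' i + 1)
          (fun l => by
            have := hcon P hP l
            have h5 := Order.add_one_le_of_lt this
            exact_mod_cast h5) l
        rwa [hasse_eval_zero] at this
      have h6 := Nat.le_findGreatest (P := pr i) (show m' i + 1 ≤ m i from hi) this
      change m' i + 1 ≤ m' i at h6
      omega
    -- the bound for all `i`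
    have hbd : ∀ i, m' i < m i → ∃ l, l ≤ μ i ∧ m i ≤ m' i + l * (M - h) ∧ l * h ≤ m' i := by
      intro i hi
      obtain ⟨P, hP, l, hl⟩ := hsmall i hi
      have h7 : l * h ≤ m' i := by
        have : ((l * h : ℕ) : ℕ∞) ≤ m' i := le_add_self.trans hl
        exact_mod_cast this
      refine ⟨l, ?_, ?_, h7⟩
      · have := h7.trans (hm'μ i)
        exact Nat.le_of_mul_le_mul_right this (by omega)
      · have h8 := h1 i P hP l
        have h9 : (m i : ℕ∞) ≤ ((m' i + l * (M - h) : ℕ) : ℕ∞) := by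
          calc (m i : ℕ∞) ≤ ((hasseDeriv l P).eval Ξ).order + ((l * M : ℕ) : ℕ∞) := h8
            _ = ((hasseDeriv l P).eval Ξ).order + ((l * h : ℕ) : ℕ∞) + ((l * (M - h) : ℕ) : ℕ∞) := by
                rw [add_assoc]; congr 1
                rw [← Nat.cast_add, ← mul_add, Nat.add_sub_cancel' hhM.le]
            _ ≤ (m' i : ℕ∞) + ((l * (M - h) : ℕ) : ℕ∞) := by gcongr
            _ = _ := by push_cast; rfl
        exact_mod_cast h9
    have hbd1 : ∀ i, m i ≤ m' i + μ i * (M - h) := by
      intro i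
      rcases lt_or_ge (m' i) (m i) with hi | hi
      · obtain ⟨l, hl, h8, _⟩ := hbd i hi
        exact h8.trans (by gcongr)
      · omega
    have hbd2 : m i₀ ≤ m' i₀ + (μ i₀ - 1) * (M - h) := by
      rcases lt_or_ge (m' i₀) (m i₀) with hi | hi
      · obtain ⟨l, hl, h8, h9⟩ := hbd i₀ hi
        rcases Nat.lt_or_ge l (μ i₀) with h10 | h10
        · exact h8.trans (by gcongr; omega)
        · have hlμ : l = μ i₀ := le_antisymm hl h10
          subst hlμ
          have hm'e : m' i₀ = μ i₀ * h := le_antisymm (hm'μ i₀) h9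
          obtain ⟨P, hP, hu, hM'⟩ := h3
          -- the `(μ-1)`-st Hasse derivative at `Ξ` has order `≤ h`
          have hord : ((hasseDeriv (μ i₀ - 1) P).eval Ξ).order ≤ h := by
            apply PowerSeries.order_le
            rw [eval_eq_sum_range, map_sum]
            have hterm : ∀ j ≠ 1, PowerSeries.coeff h ((hasseDeriv (μ i₀ - 1) P).coeff j * Ξ ^ j) = 0 := by
              intro j hj
              rcases Nat.lt_or_ge j 1 with h11 | h11
              · have : j = 0 := by omega
                subst this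
                rw [pow_zero, mul_one, hasseDeriv_coeff, zero_add]
                rw [Nat.choose_self, Nat.cast_one, one_mul]
                apply PowerSeries.coeff_of_lt_order
                exact lt_of_lt_of_le (by exact_mod_cast hhM) hM'
              · apply PowerSeries.coeff_of_lt_order
                rw [PowerSeries.order_mul, PowerSeries.order_pow, hh0]
                have h12 : (h : ℕ∞) < j • (h : ℕ∞) := by
                  rw [nsmul_eq_mul]
                  have : h < j * h := by nlinarith [show 2 ≤ j by omega]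
                  exact_mod_cast this
                exact lt_of_lt_of_le h12 le_add_self
            have hnz : PowerSeries.coeff h ((hasseDeriv (μ i₀ - 1) P).coeff 1 * Ξ ^ 1) ≠ 0 := by
              rw [pow_one, hasseDeriv_coeff, show 1 + (μ i₀ - 1) = μ i₀ by omega]
              have hch : (μ i₀).choose (μ i₀ - 1) = μ i₀ := by
                rw [Nat.choose_symm_of_eq_add (n := μ i₀) (a := μ i₀ - 1) (b := 1) (by omega),
                  Nat.choose_one_right]
              rw [hch, PowerSeries.coeff_mul, Finset.sum_eq_single (0, h)]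
              · rw [PowerSeries.coeff_zero_eq_constantCoeff_apply, map_mul, map_natCast]
                refine mul_ne_zero (mul_ne_zero hμ ?_) ?_
                · have hne' : P.coeff (μ i₀) ≠ 0 := by
                    intro h0; rw [h0, PowerSeries.order_zero] at hu; exact absurd hu (by simp)
                  have := PowerSeries.coeff_order hne'
                  rwa [hu, ENat.toNat_zero, PowerSeries.coeff_zero_eq_constantCoeff_apply] at this
                · have := PowerSeries.coeff_order hne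
                  rwa [hh0, ENat.toNat_natCast] at this
              · rintro ⟨a, b⟩ hab hne2
                have hab' := Finset.HasAntidiagonal.mem_antidiagonal.1 hab
                simp only at hab'
                have hb : b < h := by
                  rcases Nat.lt_or_ge b h with h13 | h13
                  · exact h13
                  · exfalso; apply hne2
                    simp only [Prod.mk.injEq]; omega
                rw [PowerSeries.coeff_of_lt_order b (by rw [hh0]; exact_mod_cast hb), mul_zero]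
              · intro h0; exact absurd (Finset.HasAntidiagonal.mem_antidiagonal.2 (by simp)) h0
            by_cases hdeg : 1 ∈ Finset.range ((hasseDeriv (μ i₀ - 1) P).natDegree + 1)
            · rw [Finset.sum_eq_single_of_mem 1 hdeg fun j _ hj => hterm j hj]
              exact hnz
            · exfalso
              apply hnz
              rw [coeff_eq_zero_of_natDegree_lt (by
                rw [Finset.mem_range] at hdeg; omega), zero_mul, map_zero]
          have h14 := h1 i₀ P hP (μ i₀ - 1)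
          have h15 : (m i₀ : ℕ∞) ≤ ((h + (μ i₀ - 1) * M : ℕ) : ℕ∞) := by
            calc (m i₀ : ℕ∞) ≤ _ := h14
              _ ≤ (h : ℕ∞) + (((μ i₀ - 1) * M : ℕ) : ℕ∞) := by gcongr
              _ = _ := by push_cast; rfl
          have h16 : m i₀ ≤ h + (μ i₀ - 1) * M := by exact_mod_cast h15
          rw [hm'e]
          obtain ⟨r, hr⟩ : ∃ r, μ i₀ = r + 1 := ⟨μ i₀ - 1, by omega⟩
          obtain ⟨t, ht⟩ : ∃ t, M = h + t := ⟨M - h, by omega⟩
          rw [hr, ht] at h16 ⊢
          rw [Nat.add_sub_cancel, Nat.add_sub_cancel_left]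
          rw [Nat.add_sub_cancel] at h16
          nlinarith
      · omega
    refine ⟨h, m', hh1, hhM.le, hm'le, hm'pr, ?_⟩
    -- the final inequality
    have hcast : ((M - h : ℕ) : ℝ) = (M : ℝ) - h := by
      rw [Nat.cast_sub hhM.le]
    have hpos : (0 : ℝ) < (M : ℝ) - h := by
      have : (h : ℝ) < M := by exact_mod_cast hhM
      linarith
    have key : ∑ i, e i * (m i : ℝ) ≤ ∑ i, e i * (m' i : ℝ) +
        ((M : ℝ) - h) * (∑ i, e i * (μ i : ℝ) - e i₀) := by
      have hb : ∀ i, e i * (m i : ℝ) ≤ e i * (m' i : ℝ) + ((M : ℝ) - h) * (e i * (μ i : ℝ)) -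
          (if i = i₀ then ((M : ℝ) - h) * e i₀ else 0) := by
        intro i
        by_cases hi : i = i₀
        · subst hi
          rw [if_pos rfl]
          have h17 : (m i : ℝ) ≤ (m' i : ℝ) + ((μ i : ℝ) - 1) * ((M : ℝ) - h) := by
            have h18 : ((m i : ℕ) : ℝ) ≤ ((m' i + (μ i - 1) * (M - h) : ℕ) : ℝ) := by exact_mod_cast hbd2
            rw [Nat.cast_add, Nat.cast_mul, hcast, Nat.cast_sub hμ1, Nat.cast_one] at h18
            exact h18
          nlinarith [he i]
        · rw [if_neg hi, sub_zero]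
          have h17 : (m i : ℝ) ≤ (m' i : ℝ) + (μ i : ℝ) * ((M : ℝ) - h) := by
            have h18 : ((m i : ℕ) : ℝ) ≤ ((m' i + μ i * (M - h) : ℕ) : ℝ) := by exact_mod_cast hbd1 i
            rw [Nat.cast_add, Nat.cast_mul, hcast] at h18
            exact h18
          nlinarith [he i]
      calc ∑ i, e i * (m i : ℝ) ≤ ∑ i, (e i * (m' i : ℝ) + ((M : ℝ) - h) * (e i * (μ i : ℝ)) -
          (if i = i₀ then ((M : ℝ) - h) * e i₀ else 0)) := Finset.sum_le_sum fun i _ => hb i
        _ = _ := by
          rw [Finset.sum_sub_distrib, Finset.sum_add_distrib, ← Finset.mul_sum, Finset.sum_ite_eq']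
          simp only [Finset.mem_univ, if_true]
          ring
    have h20 : ((M : ℝ) - h) * (∑ i, e i * (μ i : ℝ) - e i₀) ≤ (M : ℝ) - h := by
      calc ((M : ℝ) - h) * (∑ i, e i * (μ i : ℝ) - e i₀) ≤ ((M : ℝ) - h) * 1 :=
          mul_le_mul_of_nonneg_left (by linarith) hpos.le
        _ = _ := mul_one _
    linarith

end Pool.Agent.MNJ
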