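import Pool.Agent.Work.MP_6c38a7_ag.Prep
import Pool.Agent.Work.MP_6c38a7_ag.Gauss
import Pool.Agent.Work.MP_6c38a7_ag.XStep
import Pool.Agent.Work.MP_6c38a7_ag.Defs2

/-!
# Cell MN, stronger form: Hasse derivatives in a direction `v`
-/

namespace Pool.Agent.MNJ

open MvPolynomial

universe u

section

variable {k : Type*} [Field k]

/-- `f(X + t v)`; its coefficient of `t ^ l` is the `l`-th Hasse derivative in direction `v` -/
noncomputable def tau (v : Fin 3 → k) : MvPolynomial (Fin 3) k →ₐ[k] Polynomial (MvPolynomial (Fin 3) k) :=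
  aeval (fun i => Polynomial.C (X i) + Polynomial.C (C (v i)) * Polynomial.X)

theorem tau_X (v : Fin 3 → k) (i : Fin 3) :
    tau v (X i) = Polynomial.C (X i) + Polynomial.C (C (v i)) * Polynomial.X := by
  rw [tau, aeval_X]

theorem tau_C (v : Fin 3 → k) (r : k) : tau v (C r) = Polynomial.C (C r) := by
  rw [algHom_C]; rfl

/-- the directional derivative in direction `u` -/
noncomputable def Du (u : Fin 3 → k) (f : MvPolynomial (Fin 3) k) : MvPolynomial (Fin 3) k :=
  ∑ j, C (u j) * pderiv j f

/-- restriction to the line through `u` -/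
noncomputable def line (u : Fin 3 → k) : MvPolynomial (Fin 3) k →ₐ[k] Polynomial k :=
  aeval (fun i => Polynomial.C (u i) * Polynomial.X)

theorem line_X (u : Fin 3 → k) (i : Fin 3) : line u (X i) = Polynomial.C (u i) * Polynomial.X := by
  rw [line, aeval_X]

theorem line_C (u : Fin 3 → k) (r : k) : line u (C r) = Polynomial.C r := by
  rw [algHom_C]; rfl

theorem line_coeff_zero (u : Fin 3 → k) (g : MvPolynomial (Fin 3) k) :
    (line u g).coeff 0 = constantCoeff g := by
  induction g using MvPolynomial.induction_on with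
  | C a => rw [line_C, Polynomial.coeff_C_zero, constantCoeff_C]
  | add p q hp hq => rw [map_add, Polynomial.coeff_add, hp, hq, map_add]
  | mul_X p i hp =>
    rw [map_mul, line_X, Polynomial.mul_coeff_zero, Polynomial.coeff_C_mul, Polynomial.coeff_X_zero,
      mul_zero, mul_zero, map_mul, constantCoeff_X, mul_zero]

theorem tau_mul_X_coeff_zero (v : Fin 3 → k) (p : MvPolynomial (Fin 3) k) (i : Fin 3) :
    (tau v (p * X i)).coeff 0 = (tau v p).coeff 0 * X i := by
  rw [map_mul, tau_X, mul_add, Polynomial.coeff_add, Polynomial.coeff_mul_C, ← mul_assoc,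
    Polynomial.mul_coeff_zero, Polynomial.coeff_X_zero, mul_zero, add_zero]

theorem tau_mul_X_coeff_succ (v : Fin 3 → k) (p : MvPolynomial (Fin 3) k) (i : Fin 3) (l : ℕ) :
    (tau v (p * X i)).coeff (l + 1) = (tau v p).coeff (l + 1) * X i + (tau v p).coeff l * C (v i) := by
  rw [map_mul, tau_X, mul_add, Polynomial.coeff_add, Polynomial.coeff_mul_C, ← mul_assoc,
    Polynomial.coeff_mul_X, Polynomial.coeff_mul_C]

/-- the constant term of the Hasse derivative -/
theorem cc_tau (v : Fin 3 → k) (f : MvPolynomial (Fin 3) k) (l : ℕ) :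
    constantCoeff ((tau v f).coeff l) = (line v f).coeff l := by
  induction f using MvPolynomial.induction_on generalizing l with
  | C a =>
    rw [tau_C, line_C, Polynomial.coeff_C, Polynomial.coeff_C]
    split_ifs <;> simp
  | add p q hp hq =>
    rw [map_add, map_add, Polynomial.coeff_add, Polynomial.coeff_add, map_add, hp, hq]
  | mul_X p i hp =>
    have e1 : line v (p * X i) = Polynomial.C (v i) * (line v p * Polynomial.X) := by
      rw [map_mul, line_X]; ring
    cases l with
    | zero =>
      rw [tau_mul_X_coeff_zero, e1, Polynomial.coeff_C_mul, Polynomial.mul_coeff_zero,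
        Polynomial.coeff_X_zero, map_mul, constantCoeff_X, mul_zero, mul_zero, mul_zero]
    | succ l =>
      rw [tau_mul_X_coeff_succ, e1, Polynomial.coeff_C_mul, Polynomial.coeff_mul_X, map_add, map_mul,
        map_mul, constantCoeff_X, constantCoeff_C, hp l, mul_zero, zero_add, mul_comm]

theorem Du_mul_X (u : Fin 3 → k) (p : MvPolynomial (Fin 3) k) (i : Fin 3) :
    Du u (p * X i) = Du u p * X i + C (u i) * p := by
  unfold Du
  have h : ∀ j, C (u j) * pderiv j (p * X i) = C (u j) * pderiv j p * X i +
      (if j = i then C (u i) * p else 0) := by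
    intro j
    rw [Derivation.leibniz, smul_eq_mul, smul_eq_mul, pderiv_X]
    by_cases hj : j = i
    · subst hj
      rw [if_pos rfl, Pi.single_eq_same]; ring
    · rw [if_neg hj, Pi.single_eq_of_ne (Ne.symm hj)]; ring
  rw [Finset.sum_congr rfl fun j _ => h j, Finset.sum_add_distrib, ← Finset.sum_mul,
    Finset.sum_ite_eq' Finset.univ i, if_pos (Finset.mem_univ _)]

theorem Du_add (u : Fin 3 → k) (p q : MvPolynomial (Fin 3) k) : Du u (p + q) = Du u p + Du u q := by
  unfold Du
  rw [← Finset.sum_add_distrib]
  refine Finset.sum_congr rfl fun j _ => ?_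
  rw [map_add, mul_add]

theorem Du_C (u : Fin 3 → k) (r : k) : Du u (C r) = 0 := by
  unfold Du
  refine Finset.sum_eq_zero fun j _ => ?_
  rw [pderiv_C, mul_zero]

/-- the linear term of the Hasse derivative -/
theorem lin_tau (u v : Fin 3 → k) (f : MvPolynomial (Fin 3) k) (l : ℕ) :
    (line u ((tau v f).coeff l)).coeff 1 = (line v (Du u f)).coeff l := by
  induction f using MvPolynomial.induction_on generalizing l with
  | C a =>
    rw [tau_C, Du_C, map_zero, Polynomial.coeff_zero, Polynomial.coeff_C]
    split_ifs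
    · rw [line_C, Polynomial.coeff_C, if_neg one_ne_zero]
    · simp
  | add p q hp hq =>
    rw [map_add, Polynomial.coeff_add, map_add, Polynomial.coeff_add, hp, hq, Du_add, map_add,
      Polynomial.coeff_add]
  | mul_X p i hp =>
    have e1 : line v (Du u (p * X i)) = Polynomial.C (v i) * (line v (Du u p) * Polynomial.X) +
        Polynomial.C (u i) * line v p := by
      rw [Du_mul_X, map_add, map_mul, map_mul, line_X, line_C]; ring
    have e2 : ∀ g : MvPolynomial (Fin 3) k, (line u (g * X i)).coeff 1 = constantCoeff g * u i := by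
      intro g
      rw [map_mul, line_X, mul_left_comm, Polynomial.coeff_C_mul, Polynomial.coeff_mul_X,
        line_coeff_zero, mul_comm]
    have e3 : ∀ g : MvPolynomial (Fin 3) k, (line u (g * C (v i))).coeff 1 =
        (line u g).coeff 1 * v i := by
      intro g
      rw [map_mul, line_C, Polynomial.coeff_mul_C]
    cases l with
    | zero =>
      rw [tau_mul_X_coeff_zero, e2, cc_tau, e1, Polynomial.coeff_add, Polynomial.coeff_C_mul,
        Polynomial.coeff_C_mul, Polynomial.mul_coeff_zero, Polynomial.coeff_X_zero]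
      ring
    | succ l =>
      rw [tau_mul_X_coeff_succ, map_add, Polynomial.coeff_add, e2, e3, cc_tau, hp, e1,
        Polynomial.coeff_add, Polynomial.coeff_C_mul, Polynomial.coeff_C_mul, Polynomial.coeff_mul_X]
      ring

/-! ### arcs -/

variable {K : Type*} [Field K] [Algebra k K]

/-- the first coordinate in direction `v` -/
noncomputable def xdir (v : Fin 3 → k) (γ : Fin 3 → PowerSeries K) : PowerSeries K :=
  PowerSeries.C (algebraMap k K (v 0)⁻¹) * γ 0

/-- the projection along `v` -/
noncomputable def wdir (v : Fin 3 → k) (γ : Fin 3 → PowerSeries K) (i : Fin 3) : PowerSeries K :=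
  γ i - PowerSeries.C (algebraMap k K (v i)) * xdir v γ

theorem map_tau (v : Fin 3 → k) (γ : Fin 3 → PowerSeries K) (f : MvPolynomial (Fin 3) k) :
    (tau v f).map (aeval γ : MvPolynomial (Fin 3) k →ₐ[k] PowerSeries K).toRingHom =
      aeval (fun i => Polynomial.C (γ i) + Polynomial.C (PowerSeries.C (algebraMap k K (v i))) *
        Polynomial.X) f := by
  induction f using MvPolynomial.induction_on with
  | C a =>
    rw [tau_C, Polynomial.map_C, algHom_C]
    change Polynomial.C (aeval γ (C a) : PowerSeries K) = _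
    rw [algHom_C]; rfl
  | add p q hp hq => rw [map_add, Polynomial.map_add, hp, hq, map_add]
  | mul_X p i hp =>
    rw [map_mul, Polynomial.map_mul, hp, map_mul, aeval_X, tau_X, Polynomial.map_add, Polynomial.map_mul,
      Polynomial.map_C, Polynomial.map_C, Polynomial.map_X]
    congr 2
    · change Polynomial.C (aeval γ (X i) : PowerSeries K) = _
      rw [aeval_X]
    · change Polynomial.C (aeval γ (C (v i)) : PowerSeries K) * _ = _
      rw [algHom_C, PowerSeries.algebraMap_apply]

theorem taylor_tau (v : Fin 3 → k) (γ : Fin 3 → PowerSeries K) (f : MvPolynomial (Fin 3) k) :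
    Polynomial.taylor (xdir v γ) ((tau v f).map
      (aeval (wdir v γ) : MvPolynomial (Fin 3) k →ₐ[k] PowerSeries K).toRingHom) =
      (tau v f).map (aeval γ : MvPolynomial (Fin 3) k →ₐ[k] PowerSeries K).toRingHom := by
  rw [map_tau, map_tau]
  induction f using MvPolynomial.induction_on with
  | C a =>
    rw [algHom_C, algHom_C]
    change Polynomial.taylor _ (Polynomial.C _) = Polynomial.C _
    rw [Polynomial.taylor_C]
  | add p q hp hq => rw [map_add, map_add, hp, hq, map_add]
  | mul_X p i hp =>
    rw [map_mul, Polynomial.taylor_mul, hp, map_mul, aeval_X, aeval_X]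
    congr 1
    rw [map_add, Polynomial.taylor_C, Polynomial.taylor_mul, Polynomial.taylor_C, Polynomial.taylor_X,
      mul_add, ← add_assoc, add_right_comm, ← Polynomial.C_mul, ← Polynomial.C_add]
    unfold wdir
    congr 2
    ring

/-- first index of a coefficient which is transcendental over the projection along `v` -/
def IsFT (k : Type*) [Field k] {K : Type*} [Field K] [Algebra k K] (n : ℕ) (v : Fin 3 → k)
    (γ : Fin 3 → PowerSeries K) (M : ℕ) : Prop :=
  1 ≤ M ∧ M ≤ n + 1 ∧
    (∀ j < M, PowerSeries.coeff j (xdir v γ) ∈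
      (AlgebraicIndependent.matroid k K).closure (cs n (wdir v γ))) ∧
    (M ≤ n → PowerSeries.coeff M (xdir v γ) ∉
      (AlgebraicIndependent.matroid k K).closure (cs n (wdir v γ)))

theorem exists_FT (n : ℕ) (v : Fin 3 → k) (γ : Fin 3 → PowerSeries K)
    (h0 : PowerSeries.constantCoeff (γ 0) = 0) : ∃ M, IsFT k n v γ M := by
  classical
  have hx0 : PowerSeries.coeff 0 (xdir v γ) = 0 := by
    rw [PowerSeries.coeff_zero_eq_constantCoeff_apply, xdir, map_mul, h0, mul_zero]
  have hmem0 : (0 : K) ∈ (AlgebraicIndependent.matroid k K).closure (cs n (wdir v γ)) := by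
    rw [mem_closure_iff]; exact isAlgebraic_zero
  by_cases hex : ∃ j, j ≤ n ∧ PowerSeries.coeff j (xdir v γ) ∉
      (AlgebraicIndependent.matroid k K).closure (cs n (wdir v γ))
  · refine ⟨Nat.find hex, ?_, ?_, fun j hj => ?_, fun _ => (Nat.find_spec hex).2⟩
    · by_contra h
      have h1 : Nat.find hex = 0 := by omega
      have := (Nat.find_spec hex).2
      rw [h1, hx0] at this
      exact this hmem0
    · have := (Nat.find_spec hex).1; omega
    · by_contra h
      exact Nat.find_min hex hj ⟨by have := (Nat.find_spec hex).1; omega, h⟩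
  · push Not at hex
    exact ⟨n + 1, by omega, le_rfl, fun j hj => hex j (by omega), fun h => by omega⟩

/-- the order of a Hasse derivative in direction `v` along the arc -/
theorem dir_bound (n M : ℕ) (v : Fin 3 → k) (γ : Fin 3 → PowerSeries K)
    (htr : ∀ i j, n < j → PowerSeries.coeff j (γ i) = 0) (hM : IsFT k n v γ M)
    (f : MvPolynomial (Fin 3) k) (m : ℕ) (hm : m ≤ n) (hf : (m : ℕ∞) ≤ (aeval γ f : PowerSeries K).order)
    (l : ℕ) : (m : ℕ∞) ≤ (aeval γ ((tau v f).coeff l) : PowerSeries K).order + ((l * M : ℕ) : ℕ∞) := by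
  obtain ⟨hM1, hMn, hlow, htrn⟩ := hM
  set L := IntermediateField.adjoin k (cs n (wdir v γ)) with hL
  set P : Polynomial (PowerSeries K) := (tau v f).map
    (aeval (wdir v γ) : MvPolynomial (Fin 3) k →ₐ[k] PowerSeries K).toRingHom with hP
  have hLc : ∀ (i : Fin 3) (j : ℕ), PowerSeries.coeff j (wdir v γ i) ∈ L := by
    intro i j
    rcases Nat.lt_or_ge n j with h | h
    · have : PowerSeries.coeff j (wdir v γ i) = 0 := by
        rw [wdir, xdir, map_sub, PowerSeries.coeff_C_mul, PowerSeries.coeff_C_mul, htr i j h, htr 0 j h]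
        ring
      rw [this]; exact L.zero_mem
    · exact IntermediateField.subset_adjoin k _ ⟨i, j, h, rfl⟩
  have hcoef : ∀ l j, IsAlgebraic L (PowerSeries.coeff j (P.coeff l)) := by
    intro l j
    rw [hP, Polynomial.coeff_map]
    exact isAlgebraic_algebraMap (⟨_, coeff_aeval_mem L (wdir v γ) hLc ((tau v f).coeff l) j⟩ : L)
  have hT : ∀ l, (Polynomial.taylor (xdir v γ) P).coeff l = aeval γ ((tau v f).coeff l) := by
    intro l
    rw [hP, taylor_tau, Polynomial.coeff_map]; rfl
  have hev : P.eval (xdir v γ) = aeval γ f := by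
    rw [← Polynomial.taylor_coeff_zero, hT]
    congr 1
    clear_value P
    clear hf hP hcoef hT
    induction f using MvPolynomial.induction_on with
    | C a => rw [tau_C, Polynomial.coeff_C_zero]
    | add p q hp hq => rw [map_add, Polynomial.coeff_add, hp, hq]
    | mul_X p i hp => rw [tau_mul_X_coeff_zero, hp]
  have h1 : ∀ l, (m : ℕ∞) ≤ ((Polynomial.hasseDeriv l P).eval
      ((PowerSeries.trunc M (xdir v γ) : Polynomial K) : PowerSeries K)).order +
        ((l * M : ℕ) : ℕ∞) := fun l =>
    gauss (L := L) (xdir v γ) n M hMn (fun j hj => (mem_closure_iff _ _).1 (hlow j hj))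
      (fun h hc => htrn h ((mem_closure_iff _ _).2 hc)) P hcoef m (by omega) (by rw [hev]; exact hf) l
  have h2 : (M : ℕ∞) ≤ (xdir v γ - ((PowerSeries.trunc M (xdir v γ) : Polynomial K) :
      PowerSeries K)).order := by
    refine PowerSeries.nat_le_order _ _ fun j hj => ?_
    rw [map_sub, Polynomial.coeff_coe, PowerSeries.coeff_trunc, if_pos hj, sub_self]
  have h3 := XStep.recenter P _ (xdir v γ) M h2 m h1 l
  rwa [← Polynomial.taylor_coeff, hT] at h3

end

end Pool.Agent.MNJ
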