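import Pool.Agent.Work.MP_6c38a7_ag.Dim

/-!
# Cell MN, module B2: `s_m` is attained by an arc with values in an extension field
-/

namespace Pool.Agent.MNJ

open MvPolynomial

universe u

/-- the arc with coefficients `x (i, j)`, `j ≤ n` -/
noncomputable def jetArc {K : Type*} [Field K] {N n : ℕ} (x : Fin N × Fin (n + 1) → K) (i : Fin N) :
    PowerSeries K :=
  ((∑ j : Fin (n + 1), Polynomial.monomial (j : ℕ) (x (i, j)) : Polynomial K) : PowerSeries K)

theorem coeff_jetArc {K : Type*} [Field K] {N n : ℕ} (x : Fin N × Fin (n + 1) → K) (i : Fin N)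
    (j : Fin (n + 1)) : PowerSeries.coeff (j : ℕ) (jetArc x i) = x (i, j) := by
  unfold jetArc
  rw [Polynomial.coeff_coe, Polynomial.finsetSum_coeff, Finset.sum_eq_single j]
  · simp
  · intro b _ hb
    rw [Polynomial.coeff_monomial, if_neg]
    intro h
    exact hb (Fin.ext h)
  · intro h; exact absurd (Finset.mem_univ j) h

theorem jetArc_eq_map {k : Type u} [Field k] {K : Type*} [Field K] [Algebra k K] {N n : ℕ}
    (x : Fin N × Fin (n + 1) → K) (i : Fin N) :
    jetArc x i = (((univJet k N n i).map (aeval x : JetRing k N n →ₐ[k] K).toRingHom : Polynomial K) :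
      PowerSeries K) := by
  unfold jetArc univJet
  congr 1
  rw [Polynomial.map_sum]
  refine Finset.sum_congr rfl fun j _ => ?_
  rw [Polynomial.map_monomial]
  congr 1
  simp

theorem aeval_jetArc {k : Type u} [Field k] {K : Type*} [Field K] [Algebra k K] {N n : ℕ}
    (x : Fin N × Fin (n + 1) → K) (f : MvPolynomial (Fin N) k) :
    (aeval (jetArc x) f : PowerSeries K) =
      (((jetEval k N n f).map (aeval x : JetRing k N n →ₐ[k] K).toRingHom : Polynomial K) :
        PowerSeries K) := by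
  induction f using MvPolynomial.induction_on with
  | C b =>
    rw [algHom_C, algHom_C, Polynomial.algebraMap_apply, Polynomial.map_C, Polynomial.coe_C,
      PowerSeries.algebraMap_apply]
    congr 1
    simp
  | add p q hp hq => rw [map_add, map_add, Polynomial.map_add, Polynomial.coe_add, hp, hq]
  | mul_X p i hp =>
    rw [map_mul, map_mul, Polynomial.map_mul, Polynomial.coe_mul, hp, aeval_X,
      jetArc_eq_map (k := k)]
    congr 2
    unfold jetEval
    rw [aeval_X]

theorem toE_bot : toE ⊥ = ⊥ := rfl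

theorem toE_nat (r : ℕ) : toE (((r : ℕ∞)) : WithBot ℕ∞) = ((r : ℝ) : EReal) := by
  change (((r : ℕ∞) : ENNReal) : EReal) = _
  simp only [ENat.toENNReal_coe]
  rfl

/-- B2 -/
theorem exists_arc {k : Type u} [Field k] {N s : ℕ} (e : Fin s → ℝ)
    (a : Fin s → Ideal (MvPolynomial (Fin N) k)) (m : Fin s → ℕ) (h : sVal e a m ≠ ⊤) :
    ∃ (K : Type u) (_ : Field K) (_ : Algebra k K) (γ : Fin N → PowerSeries K) (r : ℕ),
      Contact a m γ ∧ rk k (cs (∑ i, m i) γ) = r ∧
      sVal e a m = ((((N * ((∑ i, m i) + 1) : ℕ) : ℝ) - r - ∑ i, e i * (m i : ℝ) : ℝ) : EReal) := by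
  set n := ∑ i, m i with hn
  have hne : contactIdeal a m n ≠ ⊤ := by
    intro htop
    refine h ?_
    have hsub : Subsingleton (JetRing k N n ⧸ contactIdeal a m n) := by
      rw [htop]
      exact Ideal.Quotient.subsingleton_iff.2 rfl
    unfold sVal codimCont
    rw [← hn, ringKrullDim_eq_bot_of_subsingleton, toE_bot, EReal.coe_sub_bot, EReal.top_sub_coe]
  obtain ⟨K, hK, hkK, x, hx, hdim⟩ := exists_point (contactIdeal a m n) hne
  have hfin : rk k (Set.range x) ≠ ⊤ := by
    refine ne_top_of_le_ne_top ?_ (Matroid.eRk_le_encard _ _)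
    exact (Set.encard_ne_top_iff).2 (Set.finite_range x)
  obtain ⟨r, hr⟩ := ENat.ne_top_iff_exists.1 hfin
  refine ⟨K, hK, hkK, jetArc x, r, ⟨fun i => ?_, fun i f hf => ?_⟩, ?_, ?_⟩
  · have h0 := hx (X (i, 0)) (Ideal.subset_span (Or.inl ⟨i, rfl⟩))
    rw [aeval_X] at h0
    rw [← PowerSeries.coeff_zero_eq_constantCoeff_apply]
    have := coeff_jetArc x i 0
    rw [← h0, ← this]
    rfl
  · refine PowerSeries.nat_le_order _ _ fun j hj => ?_
    rw [aeval_jetArc, Polynomial.coeff_coe, Polynomial.coeff_map]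
    exact hx _ (Ideal.subset_span (Or.inr ⟨i, f, hf, j, hj, rfl⟩))
  · rw [hr]
    congr 1
    ext c
    constructor
    · rintro ⟨i, j, hj, rfl⟩
      exact ⟨(i, ⟨j, Nat.lt_succ_of_le hj⟩), (coeff_jetArc x i ⟨j, Nat.lt_succ_of_le hj⟩).symm⟩
    · rintro ⟨⟨i, j⟩, rfl⟩
      exact ⟨i, j, Nat.le_of_lt_succ j.2, (coeff_jetArc x i j).symm⟩
  · unfold sVal codimCont
    rw [← hn, hdim, ← hr, toE_nat]
    rfl

end Pool.Agent.MNJ
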