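import Pool.Agent.Work.MP_6c38a7_ag.JetA
import Pool.Agent.Work.MP_6c38a7_ag.JetB

/-!
# Coordinate changes (module B, part C)
-/

namespace Pool.Agent.MNJ

open MvPolynomial

universe u

section JetC

variable {k : Type u} [Field k]

theorem rk_le_of_aeval {N N' : ℕ} {K : Type*} [Field K] [Algebra k K] (γ : Fin N → PowerSeries K)
    (P : Fin N' → MvPolynomial (Fin N) k) (n : ℕ) :
    rk k (cs n (fun i => (aeval γ (P i) : PowerSeries K))) ≤ rk k (cs n γ) := by
  refine rk_le_of_alg ?_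
  rintro c ⟨i, j, hj, rfl⟩
  have h1 : PowerSeries.coeff j (aeval γ (P i) : PowerSeries K) ∈
      IntermediateField.adjoin k (cs n γ) := by
    rw [coeff_aeval_congr γ (fun i => tr n (γ i)) n
      (fun i j hj => (coeff_tr_of_le hj (γ i)).symm) (P i) j hj]
    refine coeff_aeval_mem _ _ (fun i j => ?_) (P i) j
    rw [coeff_tr]
    split_ifs with h
    · exact IntermediateField.subset_adjoin k _ ⟨i, j, h, rfl⟩
    · exact zero_mem _
  exact isAlgebraic_algebraMap (⟨_, h1⟩ : IntermediateField.adjoin k (cs n γ))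

theorem aeval_aeval_symm {N : ℕ} (Φ : MvPolynomial (Fin N) k ≃ₐ[k] MvPolynomial (Fin N) k)
    {K : Type*} [Field K] [Algebra k K] (γ : Fin N → PowerSeries K) (g : MvPolynomial (Fin N) k) :
    (aeval (fun i => (aeval γ (Φ.symm (X i)) : PowerSeries K)) g : PowerSeries K) =
      aeval γ (Φ.symm g) := by
  have h : (aeval (fun i => (aeval γ (Φ.symm (X i)) : PowerSeries K)) :
      MvPolynomial (Fin N) k →ₐ[k] PowerSeries K) =
      (aeval γ : MvPolynomial (Fin N) k →ₐ[k] PowerSeries K).comp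
        (Φ.symm : MvPolynomial (Fin N) k →ₐ[k] MvPolynomial (Fin N) k) := by
    apply MvPolynomial.algHom_ext
    intro i
    simp
  exact congrArg (fun F : MvPolynomial (Fin N) k →ₐ[k] PowerSeries K => F g) h

theorem constantCoeff_aeval {N : ℕ} {K : Type*} [Field K] [Algebra k K]
    (γ : Fin N → PowerSeries K) (hγ : ∀ i, PowerSeries.constantCoeff (γ i) = 0)
    (P : MvPolynomial (Fin N) k) (hP : constantCoeff P = 0) :
    PowerSeries.constantCoeff (aeval γ P : PowerSeries K) = 0 := by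
  have h : ((PowerSeries.constantCoeff : PowerSeries K →+* K).comp
      (aeval γ : MvPolynomial (Fin N) k →ₐ[k] PowerSeries K).toRingHom) =
      (algebraMap k K).comp (constantCoeff : MvPolynomial (Fin N) k →+* k) := by
    apply MvPolynomial.ringHom_ext
    · intro r
      simp [PowerSeries.algebraMap_apply]
    · intro i
      simp [hγ i]
  have h2 := congrArg (fun F : MvPolynomial (Fin N) k →+* K => F P) h
  simp only [RingHom.comp_apply, hP, map_zero] at h2
  exact h2

/-- B3 : coordinate changes, on arcs -/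
theorem arc_inv {N s : ℕ}
    (Φ : MvPolynomial (Fin N) k ≃ₐ[k] MvPolynomial (Fin N) k)
    (hΦ : ∀ i, constantCoeff (Φ (X i)) = 0) (hΦ' : ∀ i, constantCoeff (Φ.symm (X i)) = 0)
    (a : Fin s → Ideal (MvPolynomial (Fin N) k)) (m : Fin s → ℕ) {K : Type*} [Field K] [Algebra k K]
    (γ : Fin N → PowerSeries K) (hγ : Contact a m γ) (n : ℕ) :
    Contact (fun i => (a i).map Φ) m (fun i => (aeval γ (Φ.symm (X i)) : PowerSeries K)) ∧
      rk k (cs n (fun i => (aeval γ (Φ.symm (X i)) : PowerSeries K))) = rk k (cs n γ) := by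
  refine ⟨⟨fun i => constantCoeff_aeval γ hγ.1 _ (hΦ' i), fun i f hf => ?_⟩, le_antisymm ?_ ?_⟩
  · obtain ⟨g, hg, rfl⟩ := (Ideal.mem_map_iff_of_surjective Φ Φ.surjective).1 hf
    rw [aeval_aeval_symm, AlgEquiv.symm_apply_apply]
    exact hγ.2 i g hg
  · exact rk_le_of_aeval γ _ n
  · have h1 := rk_le_of_aeval (k := k) (fun i => (aeval γ (Φ.symm (X i)) : PowerSeries K))
      (fun i => Φ (X i)) n
    have h2 : (fun i => (aeval (fun i => (aeval γ (Φ.symm (X i)) : PowerSeries K)) (Φ (X i)) :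
        PowerSeries K)) = γ := by
      funext i
      rw [aeval_aeval_symm, AlgEquiv.symm_apply_apply, aeval_X]
    rwa [h2] at h1

theorem sVal_map_le {N s : ℕ} (e : Fin s → ℝ)
    (Φ : MvPolynomial (Fin N) k ≃ₐ[k] MvPolynomial (Fin N) k)
    (hΦ : ∀ i, constantCoeff (Φ (X i)) = 0) (hΦ' : ∀ i, constantCoeff (Φ.symm (X i)) = 0)
    (a : Fin s → Ideal (MvPolynomial (Fin N) k)) (m : Fin s → ℕ) :
    sVal e (fun i => (a i).map Φ) m ≤ sVal e a m := by
  by_cases htop : sVal e a m = ⊤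
  · rw [htop]; exact le_top
  · obtain ⟨K, _, _, γ, r, hγ, hr, hs⟩ := exists_arc e a m htop
    obtain ⟨h1, h2⟩ := arc_inv Φ hΦ hΦ' a m γ hγ (∑ i, m i)
    rw [hs]
    exact sVal_le_of_arc e _ m _ h1 (∑ i, m i) r le_rfl (by rw [h2, hr])

/-- B4 : coordinate changes, on `s_m` -/
theorem sVal_map {N s : ℕ} (e : Fin s → ℝ)
    (Φ : MvPolynomial (Fin N) k ≃ₐ[k] MvPolynomial (Fin N) k)
    (hΦ : ∀ i, constantCoeff (Φ (X i)) = 0) (hΦ' : ∀ i, constantCoeff (Φ.symm (X i)) = 0)
    (a : Fin s → Ideal (MvPolynomial (Fin N) k)) (m : Fin s → ℕ) :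
    sVal e (fun i => (a i).map Φ) m = sVal e a m := by
  refine le_antisymm (sVal_map_le e Φ hΦ hΦ' a m) ?_
  have h1 := sVal_map_le e Φ.symm hΦ' (by rw [AlgEquiv.symm_symm]; exact hΦ)
    (fun i => (a i).map Φ) m
  have h2 : (fun i => ((a i).map Φ).map Φ.symm) = a := by
    funext i
    ext f
    constructor
    · intro hf
      obtain ⟨g, hg, rfl⟩ := (Ideal.mem_map_iff_of_surjective Φ.symm Φ.symm.surjective).1 hf
      obtain ⟨g', hg', rfl⟩ := (Ideal.mem_map_iff_of_surjective Φ Φ.surjective).1 hg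
      rw [AlgEquiv.symm_apply_apply]
      exact hg'
    · intro hf
      have := Ideal.mem_map_of_mem Φ.symm (Ideal.mem_map_of_mem Φ hf)
      rwa [AlgEquiv.symm_apply_apply] at this
  rwa [h2] at h1

end JetC

end Pool.Agent.MNJ
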