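import Pool.Agent.Work.MP_6c38a7_ag.CoordA
import Pool.Agent.Work.MP_6c38a7_ag.JetC

/-!
# Cell MN, stronger form: choice of the directions
-/

namespace Pool.Agent.MNJ

open MvPolynomial

universe u

section

variable {k : Type*} [Field k]

theorem line_coeff (v : Fin 3 → k) (f : MvPolynomial (Fin 3) k) (m : ℕ) :
    (line v f).coeff m = eval v (homogeneousComponent m f) := coeff_aeval_line v f m

/-- the polynomial in `u` whose value is a coefficient of the directional derivative -/
theorem exists_Du_ne [Infinite k] {f : MvPolynomial (Fin 3) k} {μ : ℕ}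
    (h : ∃ d ∈ f.support, d.degree = μ ∧ ∃ j, ((d j : ℕ) : k) ≠ 0) :
    1 ≤ μ ∧ ∃ Q : MvPolynomial (Fin 3) k, Q ≠ 0 ∧ ∀ u, eval u Q ≠ 0 →
      homogeneousComponent (μ - 1) (Du u f) ≠ 0 := by
  classical
  obtain ⟨d, hd, hdeg, j, hj⟩ := h
  have hdj : 1 ≤ d j := by
    rcases Nat.eq_zero_or_pos (d j) with h | h
    · rw [h] at hj; simp at hj
    · exact h
  have hle : Finsupp.single j 1 ≤ d := Finsupp.single_le_iff.2 hdj
  obtain ⟨d', hd'⟩ : ∃ d', d = d' + Finsupp.single j 1 := ⟨d - Finsupp.single j 1, by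
    rw [tsub_add_cancel_of_le hle]⟩
  have hdeg' : d'.degree + 1 = μ := by
    rw [← hdeg, hd', Finsupp.degree_eq_sum, Finsupp.degree_eq_sum]
    simp [Finset.sum_add_distrib, Finsupp.single_apply]
  refine ⟨by omega, ∑ l, C (coeff d' (pderiv l f)) * X l, ?_, ?_⟩
  · intro h0
    have h1 := congrArg (coeff (Finsupp.single j 1)) h0
    rw [coeff_sum, coeff_zero] at h1
    have h2 : ∀ l : Fin 3, coeff (Finsupp.single j 1) (C (coeff d' (pderiv l f)) * X l) =
        if l = j then coeff d' (pderiv l f) else 0 := by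
      intro l
      rw [coeff_C_mul, coeff_X]
      by_cases hl : l = j
      · rw [if_pos (by rw [hl]), if_pos hl, mul_one]
      · rw [if_neg, if_neg hl, mul_zero]
        intro hc
        exact hl (Finsupp.single_left_injective one_ne_zero hc)
    rw [Finset.sum_congr rfl fun l _ => h2 l, Finset.sum_ite_eq' Finset.univ j,
      if_pos (Finset.mem_univ _), coeff_pderiv] at h1
    have h3 : (d' j + 1 : ℕ) = d j := by rw [hd']; simp
    rw [← hd'] at h1
    rcases mul_eq_zero.1 h1 with h4 | h4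
    · exact (mem_support_iff.1 hd) h4
    · apply hj
      rw [← h3]
      push_cast
      exact h4
  · intro u hu h0
    apply hu
    have h1 := congrArg (coeff d') h0
    rw [coeff_homogeneousComponent, if_pos (by omega), coeff_zero, Du, coeff_sum] at h1
    rw [map_sum, ← h1]
    refine Finset.sum_congr rfl fun l _ => ?_
    rw [map_mul, eval_C, eval_X, coeff_C_mul, mul_comm]

/-- the directions -/
theorem exists_dirs [Infinite k] {s : ℕ} (a : Fin s → Ideal (MvPolynomial (Fin 3) k))
    (μ : Fin s → ℕ) (hμ : ∀ i, OrdAt0 (a i) (μ i)) (T : Finset (Fin s))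
    (hT : ∀ i ∈ T, GoodLead (a i) (μ i)) :
    (∀ i ∈ T, 1 ≤ μ i) ∧ ∃ (f g : Fin s → MvPolynomial (Fin 3) k) (U : Set (Fin 3 → k)),
      (∀ i, f i ∈ a i) ∧ (∀ i, g i ∈ a i) ∧ U.Nonempty ∧ (∀ u ∈ U, u 0 ≠ 0) ∧
      (∀ u ∈ U, ∀ i, (line u (f i)).coeff (μ i) ≠ 0) ∧
      (∀ u ∈ U, ∀ i ∈ T, ∃ v ∈ U, (line u ((tau v (g i)).coeff (μ i - 1))).coeff 1 ≠ 0) := by
  classical
  -- elements of order exactly `μ i`
  have hex : ∀ i, ∃ f ∈ a i, homogeneousComponent (μ i) f ≠ 0 := by
    intro i
    obtain ⟨h1, h2⟩ := hμ i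
    obtain ⟨f, hf, hf2⟩ := Set.not_subset.1 h2
    refine ⟨f, hf, fun h0 => hf2 ?_⟩
    change f ∈ idealOfVars (Fin 3) k ^ (μ i + 1)
    rw [mem_pow_idealOfVars_iff]
    intro d hd
    have h3 : μ i ≤ d.degree := (mem_pow_idealOfVars_iff (μ i) f).1 (h1 hf) d hd
    rcases h3.lt_or_eq with h4 | h4
    · exact h4
    · exfalso
      have h5 : coeff d (homogeneousComponent (μ i) f) = 0 := by rw [h0]; simp
      rw [coeff_homogeneousComponent, if_pos h4.symm] at h5
      exact (mem_support_iff.1 hd) h5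
  choose f hf hF using hex
  have hg : ∀ i, ∃ g ∈ a i, i ∈ T → ∃ d ∈ g.support, d.degree = μ i ∧ ∃ j, ((d j : ℕ) : k) ≠ 0 := by
    intro i
    by_cases hi : i ∈ T
    · obtain ⟨g, hg, h⟩ := hT i hi
      exact ⟨g, hg, fun _ => h⟩
    · exact ⟨0, (a i).zero_mem, fun h => absurd h hi⟩
  choose g hg hg2 using hg
  have hQ : ∀ i, ∃ Q : MvPolynomial (Fin 3) k, Q ≠ 0 ∧ ∀ u, eval u Q ≠ 0 → i ∈ T →
      homogeneousComponent (μ i - 1) (Du u (g i)) ≠ 0 := by
    intro i
    by_cases hi : i ∈ T
    · obtain ⟨_, Q, hQ, h⟩ := exists_Du_ne (hg2 i hi)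
      exact ⟨Q, hQ, fun u hu _ => h u hu⟩
    · exact ⟨1, one_ne_zero, fun u _ h => absurd h hi⟩
  choose Q hQ hQ2 using hQ
  refine ⟨fun i hi => (exists_Du_ne (hg2 i hi)).1, f, g,
    {u | u 0 ≠ 0 ∧ (∀ i, eval u (homogeneousComponent (μ i) (f i)) ≠ 0) ∧
      ∀ i ∈ T, homogeneousComponent (μ i - 1) (Du u (g i)) ≠ 0}, hf, hg, ?_, fun u hu => hu.1,
    fun u hu i => by rw [line_coeff]; exact hu.2.1 i, ?_⟩
  all_goals
    have key : ∀ R : MvPolynomial (Fin 3) k, R ≠ 0 → ∃ v : Fin 3 → k, eval v R ≠ 0 ∧ v 0 ≠ 0 ∧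
        (∀ i, eval v (homogeneousComponent (μ i) (f i)) ≠ 0) ∧
        ∀ i ∈ T, homogeneousComponent (μ i - 1) (Du v (g i)) ≠ 0 := by
      intro R hR
      have hG : R * X 0 * (∏ i, homogeneousComponent (μ i) (f i)) * (∏ i, Q i) ≠ 0 :=
        mul_ne_zero (mul_ne_zero (mul_ne_zero hR (X_ne_zero 0))
          (Finset.prod_ne_zero_iff.2 fun i _ => hF i)) (Finset.prod_ne_zero_iff.2 fun i _ => hQ i)
      obtain ⟨v, hv⟩ : ∃ v : Fin 3 → k,
          eval v (R * X 0 * (∏ i, homogeneousComponent (μ i) (f i)) * (∏ i, Q i)) ≠ 0 := by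
        by_contra hcon
        push Not at hcon
        exact hG (MvPolynomial.funext (fun v => by rw [hcon v, map_zero]))
      rw [map_mul, map_mul, map_mul, map_prod, map_prod, eval_X] at hv
      have h1 := left_ne_zero_of_mul hv
      have h2 := left_ne_zero_of_mul h1
      refine ⟨v, left_ne_zero_of_mul h2, right_ne_zero_of_mul h2, fun i =>
        Finset.prod_ne_zero_iff.1 (right_ne_zero_of_mul h1) i (Finset.mem_univ i), fun i hi =>
        hQ2 i v (Finset.prod_ne_zero_iff.1 (right_ne_zero_of_mul hv) i (Finset.mem_univ i)) hi⟩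
  · obtain ⟨v, _, h⟩ := key 1 one_ne_zero
    exact ⟨v, h⟩
  · intro u hu i hi
    obtain ⟨v, hv, h⟩ := key _ (hu.2.2 i hi)
    exact ⟨v, h, by rw [lin_tau, line_coeff]; exact hv⟩

/-- Newton form: the order of `g` along the arc is at most the order of `X_0 - ξ(X_1, X_2)` -/
theorem newton_order {K : Type*} [Field K] [Algebra k K] (G : Polynomial (MvPolynomial (Fin 2) k))
    (h1 : constantCoeff (G.coeff 1) ≠ 0) (ξ : MvPolynomial (Fin 2) k) (hξ : constantCoeff ξ = 0) (n : ℕ)
    (hG : G.eval ξ ∈ idealOfVars (Fin 2) k ^ (n + 1)) (x y z : PowerSeries K)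
    (hx : PowerSeries.constantCoeff x = 0) (hy : PowerSeries.constantCoeff y = 0)
    (hz : PowerSeries.constantCoeff z = 0) (h : ℕ) (hh : h ≤ n)
    (hord : (x - aeval ![y, z] ξ).order = h) :
    ((G.map (aeval ![y, z] : MvPolynomial (Fin 2) k →ₐ[k] PowerSeries K).toRingHom).eval x).order ≤ h := by
  set φ := (aeval ![y, z] : MvPolynomial (Fin 2) k →ₐ[k] PowerSeries K) with hφ
  set P := G.map φ.toRingHom with hP
  set η : PowerSeries K := φ ξ with hη
  have hyz0 : ∀ i : Fin 2, PowerSeries.constantCoeff ((![y, z] : Fin 2 → PowerSeries K) i) = 0 := by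
    intro i; fin_cases i
    · exact hy
    · exact hz
  have hcc : ∀ g : MvPolynomial (Fin 2) k, PowerSeries.constantCoeff (φ g) =
      algebraMap k K (constantCoeff g) := by
    intro g
    induction g using MvPolynomial.induction_on with
    | C a => rw [algHom_C, PowerSeries.algebraMap_apply, PowerSeries.constantCoeff_C, constantCoeff_C]
    | add p q hp hq => rw [map_add, map_add, map_add, map_add, hp, hq]
    | mul_X p i hp =>
      rw [map_mul φ, map_mul PowerSeries.constantCoeff, hφ, aeval_X, hyz0 i, mul_zero,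
        map_mul constantCoeff, constantCoeff_X, mul_zero, map_zero]
  have hη0 : PowerSeries.constantCoeff η = 0 := by rw [hη, hcc, hξ, map_zero]
  -- the value at `η`
  have hPη : P.eval η = φ (G.eval ξ) := by
    rw [hP, hη]
    exact Polynomial.eval_map_apply _ _
  have hPηord : ((n + 1 : ℕ) : ℕ∞) ≤ (P.eval η).order := by
    rw [hPη, hφ, aeval_def, eval₂_eq']
    refine PowerSeries.nat_le_order _ _ fun j hj => ?_
    rw [map_sum]
    refine Finset.sum_eq_zero fun d hd => ?_
    apply PowerSeries.coeff_of_lt_order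
    have h2 : ((d.degree : ℕ) : ℕ∞) ≤ (∏ i, (![y, z] : Fin 2 → PowerSeries K) i ^ d i).order := by
      rw [PowerSeries.order_prod, Finsupp.degree_eq_sum]
      push_cast
      refine Finset.sum_le_sum fun i _ => ?_
      rw [PowerSeries.order_pow, nsmul_eq_mul]
      calc (d i : ℕ∞) = d i * 1 := (mul_one _).symm
        _ ≤ _ := by
          gcongr
          exact PowerSeries.one_le_order_iff_constCoeff_eq_zero.2 (hyz0 i)
    have h3 := (mem_pow_idealOfVars_iff (n + 1) _).1 hG d hd
    calc (j : ℕ∞) < ((n + 1 : ℕ) : ℕ∞) := by exact_mod_cast hj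
      _ ≤ ((d.degree : ℕ) : ℕ∞) := by exact_mod_cast h3
      _ ≤ _ := h2
      _ ≤ _ := by rw [PowerSeries.order_mul]; exact le_add_self
  set δ : PowerSeries K := x - η with hδ
  have hδ0 : PowerSeries.constantCoeff δ = 0 := by rw [hδ, map_sub, hx, hη0, sub_zero]
  obtain ⟨r, hr⟩ := P.binomExpansion η δ
  have hx' : η + δ = x := by rw [hδ]; ring
  rw [hx'] at hr
  apply PowerSeries.order_le
  have hr' : P.eval x = P.eval η + δ * (P.derivative.eval η + δ * r) := by rw [hr]; ring
  have hδne : δ ≠ 0 := by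
    intro h0; rw [h0, PowerSeries.order_zero] at hord; exact absurd hord (ENat.top_ne_natCast _)
  rw [hr', map_add, PowerSeries.coeff_of_lt_order h (lt_of_lt_of_le (by exact_mod_cast (by omega)) hPηord),
    zero_add, PowerSeries.coeff_mul, Finset.sum_eq_single (h, 0)]
  · refine mul_ne_zero ?_ ?_
    · have := PowerSeries.coeff_order hδne
      rwa [hord, ENat.toNat_natCast] at this
    · rw [PowerSeries.coeff_zero_eq_constantCoeff_apply, map_add, map_mul, hδ0, zero_mul, add_zero]
      have h4 : PowerSeries.constantCoeff (P.derivative.eval η) =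
          PowerSeries.constantCoeff (P.coeff 1) := by
        have h5 : PowerSeries.constantCoeff (P.derivative.eval η) =
            PowerSeries.constantCoeff (P.derivative.eval 0) := by
          rw [Polynomial.eval, Polynomial.eval, Polynomial.hom_eval₂, Polynomial.hom_eval₂, hη0, map_zero]
        rw [h5, ← Polynomial.coeff_zero_eq_eval_zero, Polynomial.coeff_derivative]
        simp
      rw [h4, hP, Polynomial.coeff_map]
      change PowerSeries.constantCoeff (φ (G.coeff 1)) ≠ 0
      rw [hcc]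
      exact fun h => h1 ((map_eq_zero (algebraMap k K)).1 h)
  · rintro ⟨a, b⟩ hab hne
    have hab' := Finset.HasAntidiagonal.mem_antidiagonal.1 hab
    simp only at hab'
    have ha : a < h := by
      rcases Nat.lt_or_ge a h with h6 | h6
      · exact h6
      · exfalso; apply hne
        simp only [Prod.mk.injEq]; omega
    rw [PowerSeries.coeff_of_lt_order a (by rw [hord]; exact_mod_cast ha), zero_mul]
  · intro h0; exact absurd (Finset.HasAntidiagonal.mem_antidiagonal.2 (by simp)) h0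

end

end Pool.Agent.MNJ
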