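import Pool.Agent.Work.MP_6c38a7_ag.CoordB

/-!
# Cell MN, stronger form: good coordinates for an arc
-/

namespace Pool.Agent.MNJ

open MvPolynomial

universe u

section

variable {k : Type u} [Field k]

/-- the linear coordinate change which takes the `X_0`-axis to the line through `v` -/
theorem exists_linear' (v : Fin 3 → k) (hv : v 0 ≠ 0) :
    ∃ Λ : MvPolynomial (Fin 3) k ≃ₐ[k] MvPolynomial (Fin 3) k,
      Λ.symm (X 0) = C (v 0)⁻¹ * X 0 ∧ Λ.symm (X 1) = X 1 - C (v 1) * (C (v 0)⁻¹ * X 0) ∧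
      Λ.symm (X 2) = X 2 - C (v 2) * (C (v 0)⁻¹ * X 0) ∧
      (∀ i, constantCoeff (Λ (X i)) = 0) ∧
      ∀ f, (finSuccEquiv k 2 (Λ f)).map (constantCoeff : MvPolynomial (Fin 2) k →+* k) =
        aeval (fun i => Polynomial.C (v i) * Polynomial.X) f := by
  let l₁ : MvPolynomial (Fin 3) k →ₐ[k] MvPolynomial (Fin 3) k :=
    aeval ![C (v 0) * X 0, C (v 1) * X 0 + X 1, C (v 2) * X 0 + X 2]
  let l₂ : MvPolynomial (Fin 3) k →ₐ[k] MvPolynomial (Fin 3) k :=
    aeval ![C (v 0)⁻¹ * X 0, X 1 - C (v 1) * (C (v 0)⁻¹ * X 0), X 2 - C (v 2) * (C (v 0)⁻¹ * X 0)]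
  have a0 : l₁ (X 0) = C (v 0) * X 0 := by simp [l₁]
  have a1 : l₁ (X 1) = C (v 1) * X 0 + X 1 := by simp [l₁]
  have a2 : l₁ (X 2) = C (v 2) * X 0 + X 2 := by simp [l₁]
  have b0 : l₂ (X 0) = C (v 0)⁻¹ * X 0 := by simp [l₂]
  have b1 : l₂ (X 1) = X 1 - C (v 1) * (C (v 0)⁻¹ * X 0) := by simp [l₂]
  have b2 : l₂ (X 2) = X 2 - C (v 2) * (C (v 0)⁻¹ * X 0) := by simp [l₂]
  have c1 : ∀ r : k, l₁ (C r) = C r := fun r => l₁.commutes r
  have c2 : ∀ r : k, l₂ (C r) = C r := fun r => l₂.commutes r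
  have hv1 : (C (v 0)⁻¹ : MvPolynomial (Fin 3) k) * C (v 0) = 1 := by
    rw [← C_mul, inv_mul_cancel₀ hv, C_1]
  let Λ : MvPolynomial (Fin 3) k ≃ₐ[k] MvPolynomial (Fin 3) k := AlgEquiv.ofAlgHom l₁ l₂
    (by
      apply MvPolynomial.algHom_ext
      intro i
      fin_cases i
      · change l₁ (l₂ (X 0)) = X 0
        rw [b0, map_mul, c1, a0]
        linear_combination (X 0) * hv1
      · change l₁ (l₂ (X 1)) = X 1
        rw [b1]
        simp only [map_sub, map_mul, c1, a0, a1]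
        linear_combination (-C (v 1) * X 0) * hv1
      · change l₁ (l₂ (X 2)) = X 2
        rw [b2]
        simp only [map_sub, map_mul, c1, a0, a2]
        linear_combination (-C (v 2) * X 0) * hv1)
    (by
      apply MvPolynomial.algHom_ext
      intro i
      fin_cases i
      · change l₂ (l₁ (X 0)) = X 0
        rw [a0, map_mul, c2, b0]
        linear_combination (X 0) * hv1
      · change l₂ (l₁ (X 1)) = X 1
        rw [a1]
        simp only [map_add, map_mul, c2, b0, b1]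
        ring
      · change l₂ (l₁ (X 2)) = X 2
        rw [a2]
        simp only [map_add, map_mul, c2, b0, b2]
        ring)
  have hΛ : ∀ f, Λ f = l₁ f := fun f => rfl
  refine ⟨Λ, b0, b1, b2, ?_, ?_⟩
  · intro i
    rw [hΛ]
    fin_cases i
    · change constantCoeff (l₁ (X 0)) = 0
      rw [a0]; simp
    · change constantCoeff (l₁ (X 1)) = 0
      rw [a1]; simp
    · change constantCoeff (l₁ (X 2)) = 0
      rw [a2]; simp
  · intro f
    have h : ((Polynomial.mapRingHom (constantCoeff : MvPolynomial (Fin 2) k →+* k)).comp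
        ((finSuccEquiv k 2 : MvPolynomial (Fin 3) k →+* _).comp (l₁ : MvPolynomial (Fin 3) k →+* _))) =
        (aeval (fun i => Polynomial.C (v i) * Polynomial.X) :
          MvPolynomial (Fin 3) k →ₐ[k] Polynomial k).toRingHom := by
      apply MvPolynomial.ringHom_ext
      · intro r
        have e : finSuccEquiv k 2 (C r) = Polynomial.C (C r) := by
          simp [finSuccEquiv_apply]
        simp only [RingHom.comp_apply]
        change Polynomial.map constantCoeff (finSuccEquiv k 2 (l₁ (C r))) =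
          aeval (fun i => Polynomial.C (v i) * Polynomial.X) (C r)
        rw [c1, e]
        simp
      · intro i
        have f0 : finSuccEquiv k 2 (X 0) = Polynomial.X := finSuccEquiv_X_zero
        have f1 : finSuccEquiv k 2 (X 1) = Polynomial.C (X 0) := finSuccEquiv_X_succ (j := 0)
        have f2 : finSuccEquiv k 2 (X 2) = Polynomial.C (X 1) := finSuccEquiv_X_succ (j := 1)
        have e : ∀ r, finSuccEquiv k 2 (C r) = Polynomial.C (C r) := by
          intro r
          simp [finSuccEquiv_apply]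
        fin_cases i
        · change Polynomial.map constantCoeff (finSuccEquiv k 2 (l₁ (X 0))) =
            aeval (fun i => Polynomial.C (v i) * Polynomial.X) (X 0)
          rw [a0]
          simp [f0, e]
        · change Polynomial.map constantCoeff (finSuccEquiv k 2 (l₁ (X 1))) =
            aeval (fun i => Polynomial.C (v i) * Polynomial.X) (X 1)
          rw [a1]
          simp [f0, f1, e]
        · change Polynomial.map constantCoeff (finSuccEquiv k 2 (l₁ (X 2))) =
            aeval (fun i => Polynomial.C (v i) * Polynomial.X) (X 2)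
          rw [a2]
          simp [f0, f2, e]
    exact congrArg (fun F : MvPolynomial (Fin 3) k →+* Polynomial k => F f) h


theorem tschEquiv_symm_zero (ξ : MvPolynomial (Fin 2) k) :
    (tschEquiv ξ).symm (X 0) = X 0 - rename Fin.succ ξ := by
  rw [AlgEquiv.symm_apply_eq]
  apply (finSuccEquiv k 2).injective
  rw [finSuccEquiv_tschEquiv, map_sub, rename_succ_eq, finSuccEquiv_X_zero, map_sub,
    Polynomial.taylor_X, Polynomial.taylor_C]
  ring

theorem tschEquiv_symm_succ (ξ : MvPolynomial (Fin 2) k) (j : Fin 2) :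
    (tschEquiv ξ).symm (X j.succ) = X j.succ := by
  rw [AlgEquiv.symm_apply_eq]
  apply (finSuccEquiv k 2).injective
  rw [finSuccEquiv_tschEquiv, finSuccEquiv_X_succ, Polynomial.taylor_C]

theorem line_coeff_lt {f : MvPolynomial (Fin 3) k} {μ l : ℕ} (hf : f ∈ idealOfVars (Fin 3) k ^ μ)
    (hl : l < μ) (v : Fin 3 → k) : (line v f).coeff l = 0 := by
  rw [line_coeff]
  have : homogeneousComponent l f = 0 := by
    ext d
    rw [coeff_homogeneousComponent, coeff_zero]
    split_ifs with h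
    · by_contra hc
      have := (mem_pow_idealOfVars_iff μ f).1 hf d (mem_support_iff.2 hc)
      omega
    · rfl
  rw [this, map_zero]

/-- good coordinates for an arc -/
theorem good_coords [Infinite k] {s : ℕ} (a : Fin s → Ideal (MvPolynomial (Fin 3) k))
    (μ m : Fin s → ℕ) (hμ : ∀ i, OrdAt0 (a i) (μ i)) (T : Finset (Fin s))
    (hT : ∀ i ∈ T, GoodLead (a i) (μ i)) (n : ℕ) (hmn : ∀ i, m i ≤ n) {K : Type*} [Field K] [Algebra k K]
    (γ : Fin 3 → PowerSeries K) (hγ : Contact a m γ)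
    (htr : ∀ i j, n < j → PowerSeries.coeff j (γ i) = 0) :
    ∃ Φ : MvPolynomial (Fin 3) k ≃ₐ[k] MvPolynomial (Fin 3) k,
      (∀ i, constantCoeff (Φ (X i)) = 0) ∧ (∀ i, constantCoeff (Φ.symm (X i)) = 0) ∧
      Prep2 (fun i => (a i).map Φ) μ ∧
      CI k n T μ m (fun i => (aeval γ (Φ.symm (X i)) : PowerSeries K)) := by
  classical
  obtain ⟨hμ1, f, g, U, hf, hg, hUne, hU0, hUf, hUg⟩ := exists_dirs a μ hμ T hT
  -- the direction with the largest index
  obtain ⟨u, M, hu, hM, hMmax⟩ : ∃ (u : Fin 3 → k) (M : ℕ), u ∈ U ∧ IsFT k n u γ M ∧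
      ∀ v ∈ U, ∀ M', IsFT k n v γ M' → M' ≤ M := by
    let Q : ℕ → Prop := fun M => ∃ v ∈ U, IsFT k n v γ M
    obtain ⟨v₀, hv₀⟩ := hUne
    obtain ⟨M₀, hM₀⟩ := exists_FT (k := k) n v₀ γ (hγ.1 0)
    have h1 : Q (Nat.findGreatest Q (n + 1)) :=
      Nat.findGreatest_spec (P := Q) hM₀.2.1 ⟨v₀, hv₀, hM₀⟩
    obtain ⟨u, hu, hM⟩ := h1
    exact ⟨u, _, hu, hM, fun v hv M' hM' => Nat.le_findGreatest hM'.2.1 ⟨v, hv, hM'⟩⟩
  obtain ⟨Λ, hΛ0, hΛ1, hΛ2, hΛcc, hΛ⟩ := exists_linear' u (hU0 u hu)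
  have hu0 := hU0 u hu
  set x := xdir u γ with hx
  set y := wdir u γ 1 with hy
  set z := wdir u γ 2 with hz
  have hx0 : PowerSeries.constantCoeff x = 0 := by rw [hx, xdir, map_mul, hγ.1 0, mul_zero]
  have hy0 : PowerSeries.constantCoeff y = 0 := by
    rw [hy, wdir, map_sub, map_mul, ← hx, hx0, hγ.1 1, mul_zero, sub_zero]
  have hz0 : PowerSeries.constantCoeff z = 0 := by
    rw [hz, wdir, map_sub, map_mul, ← hx, hx0, hγ.1 2, mul_zero, sub_zero]
  -- the arc in the coordinates given by `Λ`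
  have hγ' : (fun i => (aeval γ (Λ.symm (X i)) : PowerSeries K)) = ![x, y, z] := by
    funext i
    fin_cases i
    · change aeval γ (Λ.symm (X 0)) = x
      rw [hΛ0, map_mul, aeval_X, algHom_C, hx, xdir, PowerSeries.algebraMap_apply]
    · change aeval γ (Λ.symm (X 1)) = y
      rw [hΛ1, map_sub, map_mul, map_mul, aeval_X, aeval_X, algHom_C, algHom_C, hy, wdir, xdir,
        PowerSeries.algebraMap_apply, PowerSeries.algebraMap_apply]
    · change aeval γ (Λ.symm (X 2)) = z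
      rw [hΛ2, map_sub, map_mul, map_mul, aeval_X, aeval_X, algHom_C, algHom_C, hz, wdir, xdir,
        PowerSeries.algebraMap_apply, PowerSeries.algebraMap_apply]
  have hev : ∀ q : MvPolynomial (Fin 3) k, (aeval γ q : PowerSeries K) =
      (((finSuccEquiv k 2 (Λ q)).map
        (aeval ![y, z] : MvPolynomial (Fin 2) k →ₐ[k] PowerSeries K).toRingHom).eval x) := by
    intro q
    have h1 : (aeval γ q : PowerSeries K) = aeval ![x, y, z] (Λ q) := by
      rw [← hγ', aeval_aeval_symm, AlgEquiv.symm_apply_apply]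
    have h2 := slice_eval (k := k) ![x, y, z] (Λ q)
    have h3 : slice (k := k) y z (Λ q) = (finSuccEquiv k 2 (Λ q)).map
        (aeval ![y, z] : MvPolynomial (Fin 2) k →ₐ[k] PowerSeries K).toRingHom := by
      ext1 l
      rw [slice_coeff, Polynomial.coeff_map]
      rfl
    rw [h1, ← h2, ← h3]
    rfl
  -- the surfaces
  have hξ : ∀ i, ∃ ξ : MvPolynomial (Fin 2) k, constantCoeff ξ = 0 ∧ (i ∈ T → ∀ h : ℕ, h ≤ n →
      (x - aeval ![y, z] ξ).order = h → m i ≤ h + (μ i - 1) * M) := by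
    intro i
    by_cases hi : i ∈ T
    · obtain ⟨v, hv, hlin⟩ := hUg u hu i hi
      obtain ⟨M', hM'⟩ := exists_FT (k := k) n v γ (hγ.1 0)
      have hMM := hMmax v hv M' hM'
      set q := (tau v (g i)).coeff (μ i - 1) with hq
      have hq0 : constantCoeff q = 0 := by
        rw [hq, cc_tau]
        exact line_coeff_lt ((hμ i).1 (hg i)) (by have := hμ1 i hi; omega) v
      have hG0 : constantCoeff ((finSuccEquiv k 2 (Λ q)).coeff 0) = 0 := by
        rw [← coeff_single_zero, Finsupp.single_zero, ← constantCoeff_eq]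
        rw [← hq0]
        exact cc_of_X (Λ : MvPolynomial (Fin 3) k →ₐ[k] MvPolynomial (Fin 3) k) hΛcc q
      have hG1 : constantCoeff ((finSuccEquiv k 2 (Λ q)).coeff 1) ≠ 0 := by
        have h1 := congrArg (fun P : Polynomial k => P.coeff 1) (hΛ q)
        simp only [Polynomial.coeff_map] at h1
        rw [h1]
        exact hlin
      obtain ⟨ξ, hξ0, hξn⟩ := newton _ hG0 hG1 n
      refine ⟨ξ, hξ0, fun _ h hh hord => ?_⟩
      have h1 := newton_order (K := K) _ hG1 ξ hξ0 n hξn x y z hx0 hy0 hz0 h hh hord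
      rw [← hev] at h1
      have h2 := dir_bound n M' v γ htr hM' (g i) (m i) (hmn i) (hγ.2 i _ (hg i)) (μ i - 1)
      have h3 : (m i : ℕ∞) ≤ ((h + (μ i - 1) * M : ℕ) : ℕ∞) := by
        calc (m i : ℕ∞) ≤ _ := h2
          _ ≤ (h : ℕ∞) + (((μ i - 1) * M : ℕ) : ℕ∞) := by gcongr
          _ = _ := by push_cast; rfl
      exact_mod_cast h3
    · exact ⟨0, by simp, fun h => absurd h hi⟩
  choose ξ hξ0 hξ using hξ
  obtain ⟨ξ', hξ'0, hξ'⟩ : ∃ ξ' : MvPolynomial (Fin 2) k, constantCoeff ξ' = 0 ∧ ∀ i ∈ T,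
      (x - aeval ![y, z] (ξ i)).order ≤ (x - aeval ![y, z] ξ').order := by
    rcases T.eq_empty_or_nonempty with h | h
    · exact ⟨0, by simp, fun i hi => by rw [h] at hi; exact absurd hi (Finset.notMem_empty i)⟩
    · obtain ⟨i, hi, hmax⟩ := Finset.exists_max_image T
        (fun i => (x - aeval ![y, z] (ξ i) : PowerSeries K).order) h
      exact ⟨ξ i, hξ0 i, hmax⟩
  have hTcc : ∀ g, constantCoeff (tschEquiv ξ' g) = constantCoeff g := tschEquiv_cc ξ' hξ'0
  have hΦX : ∀ i, constantCoeff ((Λ.trans (tschEquiv ξ')) (X i)) = 0 := by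
    intro i
    rw [AlgEquiv.trans_apply, hTcc]
    exact hΛcc i
  have hmem : ∀ i, (a i).map Λ ≤ idealOfVars (Fin 3) k ^ μ i := by
    intro i
    refine (Ideal.map_mono (hμ i).1).trans ?_
    exact map_pow_idealOfVars_le (Λ : MvPolynomial (Fin 3) k →ₐ[k] MvPolynomial (Fin 3) k) hΛcc (μ i)
  have hlead : ∀ (g : MvPolynomial (Fin 3) k) (m : ℕ),
      constantCoeff ((finSuccEquiv k 2 (tschEquiv ξ' g)).coeff m) =
        constantCoeff ((finSuccEquiv k 2 g).coeff m) := by
    intro g m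
    rw [finSuccEquiv_tschEquiv, Polynomial.taylor_coeff, cc_eval _ _ hξ'0,
      Polynomial.hasseDeriv_coeff, zero_add, Nat.choose_self, Nat.cast_one, one_mul]
  have hsym : ∀ i, (Λ.trans (tschEquiv ξ')).symm (X i) = Λ.symm ((tschEquiv ξ').symm (X i)) :=
    fun i => rfl
  have e0 : (aeval γ ((Λ.trans (tschEquiv ξ')).symm (X 0)) : PowerSeries K) =
      x - aeval ![y, z] ξ' := by
    rw [hsym, ← aeval_aeval_symm, hγ', tschEquiv_symm_zero, map_sub, aeval_X, aeval_rename]
    rfl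
  have e1 : (aeval γ ((Λ.trans (tschEquiv ξ')).symm (X 1)) : PowerSeries K) = y := by
    rw [hsym, ← aeval_aeval_symm, hγ', show (1 : Fin 3) = Fin.succ 0 from rfl, tschEquiv_symm_succ,
      aeval_X]
    rfl
  have e2 : (aeval γ ((Λ.trans (tschEquiv ξ')).symm (X 2)) : PowerSeries K) = z := by
    rw [hsym, ← aeval_aeval_symm, hγ', show (2 : Fin 3) = Fin.succ 1 from rfl, tschEquiv_symm_succ,
      aeval_X]
    rfl
  refine ⟨Λ.trans (tschEquiv ξ'), hΦX, cc_symm _ hΦX, ⟨fun i => ?_, fun i => ?_⟩, ?_⟩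
  · refine (prep_deg_iff _ _).2 ((Ideal.map_mono (hμ i).1).trans ?_)
    exact map_pow_idealOfVars_le
      ((Λ.trans (tschEquiv ξ') : MvPolynomial (Fin 3) k ≃ₐ[k] MvPolynomial (Fin 3) k) :
        MvPolynomial (Fin 3) k →ₐ[k] MvPolynomial (Fin 3) k) hΦX (μ i)
  · refine ⟨(Λ.trans (tschEquiv ξ')) (f i), Ideal.mem_map_of_mem _ (hf i), ?_⟩
    rw [coeff_single_zero, AlgEquiv.trans_apply, hlead]
    have h1 := congrArg (fun P : Polynomial k => P.coeff (μ i)) (hΛ (f i))
    simp only [Polynomial.coeff_map] at h1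
    rw [h1]
    exact hUf u hu i
  · -- the closures
    have c1 : (AlgebraicIndependent.matroid k K).closure (cs n ![y, z]) ⊆
        (AlgebraicIndependent.matroid k K).closure (cs n (wdir u γ)) := by
      refine closure_mono' (cs_subset_closure _ _ n fun i => ⟨X i.succ, ?_⟩)
      rw [aeval_X]
      fin_cases i <;> rfl
    have c2 : (AlgebraicIndependent.matroid k K).closure (cs n (wdir u γ)) ⊆
        (AlgebraicIndependent.matroid k K).closure (cs n ![y, z]) := by
      refine closure_mono' (cs_subset_closure _ _ n fun i => ?_)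
      refine Fin.cases ?_ (fun j => ?_) i
      · refine ⟨0, ?_⟩
        rw [map_zero, wdir, xdir, ← mul_assoc, ← map_mul, ← map_mul, mul_inv_cancel₀ hu0, map_one,
          map_one, one_mul, sub_self]
      · refine ⟨X j, ?_⟩
        rw [aeval_X]
        fin_cases j <;> rfl
    have hξc : ∀ j ≤ n, PowerSeries.coeff j (aeval ![y, z] ξ' : PowerSeries K) ∈
        (AlgebraicIndependent.matroid k K).closure (cs n ![y, z]) := fun j hj =>
      coeff_mem_closure _ n ξ' hj
    obtain ⟨hM1, hMn, hlow, htrM⟩ := hM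
    refine ⟨M, hM1, hMn, fun j hj => ?_, fun h hc => ?_, fun i hi h hh hhM => ?_⟩
    · simp only [e0, e1, e2]
      rw [map_sub]
      exact closure_sub (c2 (hlow j hj)) (hξc j (by omega))
    · simp only [e0, e1, e2] at hc
      apply htrM h
      have h1 := closure_add hc (hξc M h)
      rw [← map_add, sub_add_cancel] at h1
      exact c1 h1
    · simp only [e0] at hh
      have h1 := hξ' i hi
      rw [hh] at h1
      obtain ⟨h', hh'⟩ : ∃ h' : ℕ, (x - aeval ![y, z] (ξ i) : PowerSeries K).order = h' := by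
        have : (x - aeval ![y, z] (ξ i) : PowerSeries K).order ≠ ⊤ :=
          ne_top_of_le_ne_top (ENat.natCast_ne_top _) h1
        exact ⟨_, (ENat.natCast_toNat this).symm⟩
      rw [hh'] at h1
      have h2 : h' ≤ h := by exact_mod_cast h1
      have h3 := hξ i hi h' (by omega) hh'
      omega

/-! ### plane coordinate changes -/

theorem Prep2.plane {s : ℕ} {a : Fin s → Ideal (MvPolynomial (Fin 3) k)} {μ : Fin s → ℕ}
    (h : Prep2 a μ) (φ : MvPolynomial (Fin 2) k ≃ₐ[k] MvPolynomial (Fin 2) k)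
    (hφ : ∀ i, constantCoeff (φ (X i)) = 0) :
    Prep2 (fun i => (a i).map (planeEquiv φ)) μ := by
  have hcc : ∀ g : MvPolynomial (Fin 2) k, constantCoeff (φ g) = constantCoeff g :=
    fun g => cc_of_X (φ : MvPolynomial (Fin 2) k →ₐ[k] MvPolynomial (Fin 2) k) hφ g
  refine ⟨fun i => ?_, fun i => ?_⟩
  · refine (prep_deg_iff _ _).2 ((Ideal.map_mono ((prep_deg_iff _ _).1 (h.deg i))).trans ?_)
    exact map_pow_idealOfVars_le (planeEquiv φ : MvPolynomial (Fin 3) k →ₐ[k] MvPolynomial (Fin 3) k)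
      (planeEquiv_cc φ hφ) (μ i)
  · obtain ⟨f, hf, hc⟩ := h.pure i
    refine ⟨planeEquiv φ f, Ideal.mem_map_of_mem _ hf, ?_⟩
    rw [coeff_single_zero] at hc ⊢
    rw [finSuccEquiv_planeEquiv, Polynomial.coeff_map]
    change constantCoeff (φ _) ≠ 0
    rwa [hcc]

/-- plane coordinate changes: `X_1 ↦ X_1 + ζ(X_2)`, `ζ(0) = 0` -/
theorem Prep2.shear {s : ℕ} {a : Fin s → Ideal (MvPolynomial (Fin 3) k)}
    {μ : Fin s → ℕ} (h : Prep2 a μ) (ζ : Polynomial k) (hζ : ζ.coeff 0 = 0) :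
    ∃ Φ : MvPolynomial (Fin 3) k ≃ₐ[k] MvPolynomial (Fin 3) k,
      (∀ i, constantCoeff (Φ (X i)) = 0) ∧ (∀ i, constantCoeff (Φ.symm (X i)) = 0) ∧
      Prep2 (fun i => (a i).map Φ) μ ∧ Φ.symm (X 0) = X 0 ∧ Φ.symm (X 2) = X 2 ∧
      Φ.symm (X 1) = X 1 - Polynomial.aeval (X 2) ζ := by
  let φ₁ : MvPolynomial (Fin 2) k →ₐ[k] MvPolynomial (Fin 2) k :=
    aeval ![X 0 + Polynomial.aeval (X 1) ζ, X 1]
  let φ₂ : MvPolynomial (Fin 2) k →ₐ[k] MvPolynomial (Fin 2) k :=
    aeval ![X 0 - Polynomial.aeval (X 1) ζ, X 1]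
  have e1 : φ₁ (X 1) = X 1 := by simp [φ₁]
  have e2 : φ₂ (X 1) = X 1 := by simp [φ₂]
  have e3 : φ₁ (X 0) = X 0 + Polynomial.aeval (X 1) ζ := by simp [φ₁]
  have e4 : φ₂ (X 0) = X 0 - Polynomial.aeval (X 1) ζ := by simp [φ₂]
  have hcc : constantCoeff (Polynomial.aeval (X 1 : MvPolynomial (Fin 2) k) ζ) = 0 := by
    rw [← hζ, Polynomial.coeff_zero_eq_eval_zero, Polynomial.aeval_def, Polynomial.hom_eval₂]
    simp [Polynomial.eval₂_eq_eval_map]
  let φ : MvPolynomial (Fin 2) k ≃ₐ[k] MvPolynomial (Fin 2) k := AlgEquiv.ofAlgHom φ₁ φ₂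
    (by
      apply MvPolynomial.algHom_ext
      intro i
      fin_cases i
      · change φ₁ (φ₂ (X 0)) = X 0
        rw [e4, map_sub, e3, ← Polynomial.aeval_algHom_apply, e1]; ring
      · change φ₁ (φ₂ (X 1)) = X 1
        rw [e2, e1])
    (by
      apply MvPolynomial.algHom_ext
      intro i
      fin_cases i
      · change φ₂ (φ₁ (X 0)) = X 0
        rw [e3, map_add, e4, ← Polynomial.aeval_algHom_apply, e2]; ring
      · change φ₂ (φ₁ (X 1)) = X 1
        rw [e1, e2])
  have hφ : ∀ i, constantCoeff (φ (X i)) = 0 := by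
    intro i
    fin_cases i
    · change constantCoeff (φ₁ (X 0)) = 0
      rw [e3, map_add, hcc]; simp
    · change constantCoeff (φ₁ (X 1)) = 0
      rw [e1]; simp
  refine ⟨planeEquiv φ, planeEquiv_cc φ hφ, cc_symm _ (planeEquiv_cc φ hφ), h.plane φ hφ,
    ?_, ?_, ?_⟩
  · rw [planeEquiv_symm, planeEquiv_X_zero]
  · rw [planeEquiv_symm]
    change planeEquiv φ.symm (X (Fin.succ 1)) = _
    rw [planeEquiv_X_succ]
    change rename Fin.succ (φ₂ (X 1)) = _
    rw [e2, rename_X]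
    rfl
  · rw [planeEquiv_symm]
    change planeEquiv φ.symm (X (Fin.succ 0)) = _
    rw [planeEquiv_X_succ]
    change rename Fin.succ (φ₂ (X 0)) = _
    rw [e4, map_sub, rename_X, ← Polynomial.aeval_algHom_apply, rename_X]
    rfl

/-- swap of `X_1` and `X_2` -/
theorem Prep2.swap {s : ℕ} {a : Fin s → Ideal (MvPolynomial (Fin 3) k)}
    {μ : Fin s → ℕ} (h : Prep2 a μ) :
    ∃ Φ : MvPolynomial (Fin 3) k ≃ₐ[k] MvPolynomial (Fin 3) k,
      (∀ i, constantCoeff (Φ (X i)) = 0) ∧ (∀ i, constantCoeff (Φ.symm (X i)) = 0) ∧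
      Prep2 (fun i => (a i).map Φ) μ ∧ Φ.symm (X 0) = X 0 ∧ Φ.symm (X 1) = X 2 ∧
      Φ.symm (X 2) = X 1 := by
  let φ : MvPolynomial (Fin 2) k ≃ₐ[k] MvPolynomial (Fin 2) k := renameEquiv k (Equiv.swap 0 1)
  have hs : ∀ i, φ.symm (X i) = X (Equiv.swap 0 1 i) := by
    intro i
    simp [φ]
  have hφ : ∀ i, constantCoeff (φ (X i)) = 0 := by
    intro i
    simp [φ]
  refine ⟨planeEquiv φ, planeEquiv_cc φ hφ, cc_symm _ (planeEquiv_cc φ hφ), h.plane φ hφ,
    ?_, ?_, ?_⟩
  · rw [planeEquiv_symm, planeEquiv_X_zero]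
  · rw [planeEquiv_symm]
    change planeEquiv φ.symm (X (Fin.succ 0)) = _
    rw [planeEquiv_X_succ, hs, rename_X]
    rfl
  · rw [planeEquiv_symm]
    change planeEquiv φ.symm (X (Fin.succ 1)) = _
    rw [planeEquiv_X_succ, hs, rename_X]
    rfl

end

end Pool.Agent.MNJ
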