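import Pool.Agent.Work.MP_6c38a7_ag.CuspB
import Pool.Agent.Work.MP_6c38a7_ag.Gauss

/-!
# Arcs tangent to a cusp
-/

namespace Pool.Agent.MNJ

open PowerSeries

universe u

/-- if the coefficients of `y` are in `L`, then those of `g(U, y)` are in `L` -/
theorem isAlgebraic_coeff_aeval {k : Type*} [Field k] {K : Type*} [Field K] [Algebra k K]
    (L : IntermediateField k K) (y : K⟦X⟧) (hy : ∀ i, coeff i y ∈ L) (f : MvPolynomial (Fin 2) k)
    (l j : ℕ) : IsAlgebraic L (coeff j ((MvPolynomial.aeval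
      ![(Polynomial.X : Polynomial K⟦X⟧), Polynomial.C y] f).coeff l)) := by
  set y'' : L⟦X⟧ := PowerSeries.mk (fun i => (⟨coeff i y, hy i⟩ : L)) with hy''
  have hmap : PowerSeries.map (algebraMap L K) y'' = y := by
    ext i
    rw [coeff_map, hy'', coeff_mk]
    rfl
  have hQ : Polynomial.mapRingHom (PowerSeries.map (algebraMap L K)) (MvPolynomial.aeval
      ![(Polynomial.X : Polynomial L⟦X⟧), Polynomial.C y''] f) = MvPolynomial.aeval
      ![(Polynomial.X : Polynomial K⟦X⟧), Polynomial.C y] f := by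
    induction f using MvPolynomial.induction_on with
    | C a =>
      rw [MvPolynomial.algHom_C, MvPolynomial.algHom_C, Polynomial.algebraMap_apply,
        Polynomial.algebraMap_apply, PowerSeries.algebraMap_apply, PowerSeries.algebraMap_apply,
        Polynomial.coe_mapRingHom, Polynomial.map_C, PowerSeries.map_C,
        ← IsScalarTower.algebraMap_apply]
    | add p q hp hq => rw [map_add, map_add, map_add, hp, hq]
    | mul_X p i hp =>
      rw [map_mul, map_mul, map_mul, hp, MvPolynomial.aeval_X, MvPolynomial.aeval_X]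
      congr 1
      fin_cases i
      · simp
      · simp [hmap]
  rw [← hQ, Polynomial.coe_mapRingHom, Polynomial.coeff_map, coeff_map]
  exact isAlgebraic_algebraMap _

theorem eval_aeval {k : Type*} [Field k] {K : Type*} [Field K] [Algebra k K] (x y : K⟦X⟧)
    (f : MvPolynomial (Fin 2) k) : (MvPolynomial.aeval
      ![(Polynomial.X : Polynomial K⟦X⟧), Polynomial.C y] f).eval x = MvPolynomial.aeval ![x, y] f := by
  induction f using MvPolynomial.induction_on with
  | C a =>
    rw [MvPolynomial.algHom_C, MvPolynomial.algHom_C, Polynomial.algebraMap_apply, Polynomial.eval_C]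
  | add p q hp hq => rw [map_add, map_add, Polynomial.eval_add, hp, hq]
  | mul_X p i hp =>
    rw [map_mul, map_mul, Polynomial.eval_mul, hp, MvPolynomial.aeval_X, MvPolynomial.aeval_X]
    congr 1
    fin_cases i
    · simp
    · simp

/-- G1 -/
theorem cusp {k : Type u} [Field k] {K : Type*} [Field K] [Algebra k K] (x y : PowerSeries K)
    (n g α β : ℕ) (hg : 1 ≤ g) (hα : 1 ≤ α) (hβ : 1 ≤ β) (hco : Nat.Coprime α β) (hβk : (β : k) ≠ 0)
    (hx : x.order = ((g * α : ℕ) : ℕ∞)) (hy : y.order = ((g * β : ℕ) : ℕ∞)) (hxn : g * α ≤ n)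
    (hyn : g * β ≤ n) (τ : k)
    (hτ : PowerSeries.coeff (g * α) x ^ β = algebraMap k K τ * PowerSeries.coeff (g * β) y ^ α) :
    ∃ j : ℕ, 1 ≤ j ∧ (rk k (cs n ![x, y]) + ((g * α + g * β + j : ℕ) : ℕ∞) ≤ ((2 * (n + 1) : ℕ) : ℕ∞)) ∧
      RB k n x y (g * α) (g * β) (g * α * β) (g * α * β + j) := by
  classical
  obtain ⟨hx0, hxlow⟩ := (order_eq_nat).1 hx
  obtain ⟨hy0, hylow⟩ := (order_eq_nat).1 hy
  set A : Set K := (fun i => coeff i y) '' (Set.Icc (g * β) n) with hA
  set L := IntermediateField.adjoin k A with hL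
  have hyL : ∀ i ≤ n, coeff i y ∈ L := by
    intro i hi
    by_cases h : i < g * β
    · rw [hylow i h]; exact zero_mem _
    · exact IntermediateField.subset_adjoin _ _ ⟨i, ⟨not_lt.1 h, hi⟩, rfl⟩
  have hxα : IsAlgebraic L (coeff (g * α) x) := by
    refine IsAlgebraic.of_pow (n := β) hβ ?_
    have hmem : coeff (g * α) x ^ β ∈ L := by
      rw [hτ]
      exact mul_mem (L.algebraMap_mem τ) (pow_mem (hyL _ hyn) _)
    exact isAlgebraic_algebraMap (⟨_, hmem⟩ : L)
  -- the first transcendental coefficient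
  have hexp : ∃ m, n + 1 ≤ m ∨ Transcendental L (coeff m x) := ⟨n + 1, Or.inl le_rfl⟩
  obtain ⟨M, hM1, hMlow, hMtr⟩ : ∃ M, M ≤ n + 1 ∧ (∀ j < M, IsAlgebraic L (coeff j x)) ∧
      (M ≤ n → Transcendental L (coeff M x)) := by
    refine ⟨Nat.find hexp, Nat.find_min' hexp (Or.inl le_rfl), fun j hj => ?_, fun h => ?_⟩
    · have := Nat.find_min hexp hj
      push Not at this
      exact not_not.1 this.2
    · rcases Nat.find_spec hexp with h1 | h1
      · omega
      · exact h1
  have hMα : g * α < M := by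
    by_contra hcon
    push Not at hcon
    have htr := hMtr (hcon.trans hxn)
    rcases hcon.lt_or_eq with h | h
    · rw [hxlow M h] at htr
      exact htr isAlgebraic_zero
    · rw [h] at htr
      exact htr hxα
  obtain ⟨j, hj⟩ := Nat.exists_eq_add_of_lt hMα
  refine ⟨j + 1, by omega, ?_, ?_⟩
  · -- rank
    set B : Set K := (fun i => coeff i x) '' (Set.Icc M n) with hB
    have h1 : rk k (cs n ![x, y]) ≤ rk k (A ∪ B) := by
      refine rk_le_of_closure _ _ ?_
      have hAc : (AlgebraicIndependent.matroid k K).closure A ⊆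
          (AlgebraicIndependent.matroid k K).closure (A ∪ B) :=
        Matroid.closure_subset_closure _ Set.subset_union_left
      rintro c ⟨i, m, hm, rfl⟩
      fin_cases i
      · change coeff m x ∈ _
        by_cases h : m < M
        · exact hAc ((mem_closure_iff_isAlgebraic _ _).2 (hMlow m h))
        · rw [mem_closure_iff_isAlgebraic]
          have : coeff m x ∈ IntermediateField.adjoin k (A ∪ B) :=
            IntermediateField.subset_adjoin _ _ (Or.inr ⟨m, ⟨not_lt.1 h, hm⟩, rfl⟩)
          exact isAlgebraic_algebraMap (⟨_, this⟩ : IntermediateField.adjoin k (A ∪ B))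
      · change coeff m y ∈ _
        refine hAc ((mem_closure_iff_isAlgebraic _ _).2 ?_)
        exact isAlgebraic_algebraMap (⟨_, hyL m hm⟩ : L)
    have hcard : ∀ (a : ℕ) (φ : ℕ → K), (φ '' (Set.Icc a n)).encard ≤ ((n + 1 - a : ℕ) : ℕ∞) := by
      intro a φ
      refine (Set.encard_image_le _ _).trans ?_
      rw [← Finset.coe_Icc, Set.encard_coe_eq_coe_finsetCard, Nat.card_Icc]
    have h2 : rk k (cs n ![x, y]) ≤ ((n + 1 - g * β + (n + 1 - M) : ℕ) : ℕ∞) := by
      refine (h1.trans (rk_le_encard _)).trans ((Set.encard_union_le _ _).trans ?_)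
      push_cast
      exact add_le_add (by exact_mod_cast hcard _ _) (by exact_mod_cast hcard _ _)
    calc rk k (cs n ![x, y]) + ((g * α + g * β + (j + 1) : ℕ) : ℕ∞)
        ≤ ((n + 1 - g * β + (n + 1 - M) : ℕ) : ℕ∞) + ((g * α + g * β + (j + 1) : ℕ) : ℕ∞) := by gcongr
      _ = ((n + 1 - g * β + (n + 1 - M) + (g * α + g * β + (j + 1)) : ℕ) : ℕ∞) := by push_cast; rfl
      _ ≤ ((2 * (n + 1) : ℕ) : ℕ∞) := by
        have : n + 1 - g * β + (n + 1 - M) + (g * α + g * β + (j + 1)) ≤ 2 * (n + 1) := by omega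
        exact_mod_cast this
  · -- orders
    intro f v hvn hord d hd
    set y' : K⟦X⟧ := ((trunc (n + 1) y : Polynomial K) : K⟦X⟧) with hy'
    have hy'c : ∀ i ≤ n, coeff i y' = coeff i y := by
      intro i hi
      rw [hy', Polynomial.coeff_coe, coeff_trunc, if_pos (by omega)]
    have hy'0 : ∀ i, n < i → coeff i y' = 0 := by
      intro i hi
      rw [hy', Polynomial.coeff_coe, coeff_trunc, if_neg (by omega)]
    have hy'L : ∀ i, coeff i y' ∈ L := by
      intro i
      by_cases h : i ≤ n
      · rw [hy'c i h]; exact hyL i h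
      · rw [hy'0 i (not_le.1 h)]; exact zero_mem _
    have h1 : (v : ℕ∞) ≤ (MvPolynomial.aeval ![x, y'] f : K⟦X⟧).order := by
      refine le_order_aeval_congr f ![x, y] ![x, y'] n (fun i => ?_) v (by omega) hord
      fin_cases i
      · simp
      · change X ^ (n + 1) ∣ y - y'
        rw [X_pow_dvd_iff]
        intro m hm
        rw [map_sub, hy'c m (by omega), sub_self]
    set P := MvPolynomial.aeval ![(Polynomial.X : Polynomial K⟦X⟧), Polynomial.C y'] f with hP
    have hgauss := fun l => gauss (L := L) x n M hM1 hMlow hMtr P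
      (fun l j => isAlgebraic_coeff_aeval L y' hy'L f l j) v (by omega)
      (by rw [hP, eval_aeval]; exact h1) l
    set Ξ : K⟦X⟧ := ((trunc M x : Polynomial K) : K⟦X⟧) with hΞ
    have hΞc : ∀ i < M, coeff i Ξ = coeff i x := by
      intro i hi
      rw [hΞ, Polynomial.coeff_coe, coeff_trunc, if_pos hi]
    obtain ⟨Ξ₁, hΞ₁⟩ : X ^ (g * α) ∣ Ξ := by
      rw [X_pow_dvd_iff]
      intro m hm
      rw [hΞc m (hm.trans hMα), hxlow m hm]
    obtain ⟨y₁, hy₁⟩ : X ^ (g * β) ∣ y' := by
      rw [X_pow_dvd_iff]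
      intro m hm
      rw [hy'c m (by omega), hylow m hm]
    have hc1 : constantCoeff Ξ₁ = coeff (g * α) x := by
      rw [← hΞc _ hMα, hΞ₁, coeff_X_pow_mul', if_pos le_rfl, Nat.sub_self,
        coeff_zero_eq_constantCoeff_apply]
    have hc2 : constantCoeff y₁ = coeff (g * β) y := by
      rw [← hy'c _ hyn, hy₁, coeff_X_pow_mul', if_pos le_rfl, Nat.sub_self,
        coeff_zero_eq_constantCoeff_apply]
    obtain ⟨d₀, hd₀, hmin⟩ := Finset.exists_min_image f.support (fun d => α * d 0 + β * d 1) ⟨d, hd⟩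
    set w := α * d₀ 0 + β * d₀ 1 with hw
    have hβK : (β : K) ≠ 0 := by
      have := (map_ne_zero (algebraMap k K)).2 hβk
      rwa [map_natCast] at this
    obtain ⟨l, hl, hne⟩ := exists_hasse_ne_face (f.support.filter (fun d => α * d 0 + β * d 1 = w))
      ⟨d₀, Finset.mem_filter.2 ⟨hd₀, rfl⟩⟩ (fun d => algebraMap k K (f.coeff d))
      (fun d hd => (map_ne_zero _).2 (MvPolynomial.mem_support_iff.1 (Finset.mem_filter.1 hd).1))
      α β w hα hβ hco (fun d hd => (Finset.mem_filter.1 hd).2) hβK (constantCoeff Ξ₁)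
      (constantCoeff y₁) (by rw [hc1]; exact hx0) (by rw [hc2]; exact hy0)
    have hαl : α * l ≤ w := by
      refine le_trans ?_ hl
      exact Nat.mul_le_mul_right _ (Nat.le_mul_of_pos_right _ hβ)
    obtain ⟨N, hN⟩ : ∃ N, N + g * α * l = g * w := by
      refine ⟨g * w - g * α * l, Nat.sub_add_cancel ?_⟩
      rw [mul_assoc]
      exact Nat.mul_le_mul_left _ hαl
    have hcoef := coeff_hasse_face f y' Ξ y₁ Ξ₁ g α β w l hg hΞ₁ hy₁ (fun d hd => hmin d hd) N hN
    rw [← hP] at hcoef
    have hordN : ((Polynomial.hasseDeriv l P).eval Ξ).order ≤ (N : ℕ∞) := by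
      refine order_le N ?_
      rw [hcoef]
      exact hne
    have hv : v ≤ N + l * M := by
      have := (hgauss l).trans (add_le_add_left hordN _)
      exact_mod_cast this
    have hwd : w ≤ α * d 0 + β * d 1 := hmin d hd
    have hv2 : v ≤ g * w + l * (j + 1) := by
      have : N + l * M = g * w + l * (j + 1) := by
        rw [← hN, hj]; ring
      omega
    calc g * α * β * v ≤ g * α * β * (g * w + l * (j + 1)) := Nat.mul_le_mul_left _ hv2
      _ = g * α * β * (g * w) + g * (α * β * l) * (j + 1) := by ring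
      _ ≤ g * α * β * (g * w) + g * w * (j + 1) := by gcongr
      _ = (g * α * β + (j + 1)) * (g * w) := by ring
      _ ≤ (g * α * β + (j + 1)) * (g * (α * d 0 + β * d 1)) := by gcongr
      _ = (g * α * β + (j + 1)) * (g * α * d 0 + g * β * d 1) := by ring

end Pool.Agent.MNJ
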