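import Pool.Agent.Work.MP_6c38a7_ag.Defs

/-!
# Arcs tangent to a cusp: polynomial part (initial forms and multiplicities)
-/

namespace Pool.Agent.MNJ

open Polynomial

/-- The multiplicity of a nonzero root of `U ^ r * H (U ^ β)`, with `β` invertible, is at most `deg H`. -/
theorem exists_hasse_ne {K : Type*} [Field K] (H : K[X]) (hH : H ≠ 0) (r β : ℕ) (hβ : (β : K) ≠ 0)
    (x0 : K) (hx0 : x0 ≠ 0) :
    ∃ l ≤ H.natDegree, (hasseDeriv l (X ^ r * expand K β H)).eval x0 ≠ 0 := by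
  obtain ⟨q, hq, hnd⟩ := exists_eq_pow_rootMultiplicity_mul_and_not_dvd H hH (x0 ^ β)
  set l := rootMultiplicity (x0 ^ β) H with hl
  have hlH : l ≤ H.natDegree := by
    have hq0 : q ≠ 0 := by
      rintro rfl
      exact hnd (dvd_zero _)
    rw [hq, natDegree_mul (pow_ne_zero _ (X_sub_C_ne_zero _)) hq0, natDegree_pow, natDegree_X_sub_C,
      mul_one]
    exact Nat.le_add_right _ _
  refine ⟨l, hlH, ?_⟩
  have hqe : q.eval (x0 ^ β) ≠ 0 := fun h => hnd (dvd_iff_isRoot.2 h)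
  have hexp : expand K β H = (X ^ β - C (x0 ^ β)) ^ l * expand K β q := by
    conv_lhs => rw [hq]
    simp only [map_mul, map_pow, map_sub, expand_X, expand_C]
  set R : K[X] := taylor x0 (X ^ β - C (x0 ^ β)) with hR
  have hR0 : R.coeff 0 = 0 := by
    rw [hR, taylor_coeff_zero]; simp
  obtain ⟨S, hS⟩ := X_dvd_iff.2 hR0
  have hS0 : S.coeff 0 = (β : K) * x0 ^ (β - 1) := by
    have h1 : R.coeff 1 = S.coeff 0 := by rw [hS]; simp [coeff_X_mul]
    rw [← h1, hR, taylor_coeff_one, derivative_sub, derivative_C, sub_zero, derivative_X_pow]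
    simp
  have hS0' : S.coeff 0 ≠ 0 := by
    rw [hS0]; exact mul_ne_zero hβ (pow_ne_zero _ hx0)
  rw [← taylor_coeff, hexp, taylor_mul, taylor_mul]
  have hp : taylor x0 ((X ^ β - C (x0 ^ β)) ^ l) = X ^ l * S ^ l := by
    have : taylor x0 ((X ^ β - C (x0 ^ β)) ^ l) = (taylor x0 (X ^ β - C (x0 ^ β))) ^ l := by
      exact map_pow (taylorAlgHom x0) _ _
    rw [this, ← hR, hS, mul_pow]
  rw [hp, show taylor x0 (X ^ r) * (X ^ l * S ^ l * taylor x0 (expand K β q)) =
    X ^ l * (taylor x0 (X ^ r) * (S ^ l * taylor x0 (expand K β q))) by ring,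
    coeff_X_pow_mul', if_pos le_rfl, Nat.sub_self, mul_coeff_zero, mul_coeff_zero, taylor_coeff_zero,
    taylor_coeff_zero, expand_eval]
  refine mul_ne_zero (by simpa using pow_ne_zero r hx0) (mul_ne_zero ?_ hqe)
  rw [coeff_zero_eq_eval_zero, eval_pow, ← coeff_zero_eq_eval_zero]
  exact pow_ne_zero _ hS0'

/-- the same for a quasihomogeneous polynomial in two variables: multiplicity of the nonzero root `x0` of
`∑ c_d y0 ^ d1 U ^ d0`, the sum over exponents on the line `α d0 + β d1 = w` -/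
theorem exists_hasse_ne_face {K : Type*} [Field K] (F : Finset (Fin 2 →₀ ℕ)) (hF : F.Nonempty)
    (c : (Fin 2 →₀ ℕ) → K) (hc : ∀ d ∈ F, c d ≠ 0) (α β w : ℕ) (hα : 1 ≤ α) (hβ : 1 ≤ β)
    (hco : Nat.Coprime α β) (hw : ∀ d ∈ F, α * d 0 + β * d 1 = w) (hβK : (β : K) ≠ 0)
    (x0 y0 : K) (hx0 : x0 ≠ 0) (hy0 : y0 ≠ 0) :
    ∃ l : ℕ, α * β * l ≤ w ∧
      ∑ d ∈ F, c d * y0 ^ (d 1) * (((d 0).choose l : ℕ) : K) * x0 ^ (d 0 - l) ≠ 0 := by
  classical
  obtain ⟨d₀, hd₀⟩ := hF
  have hmod : ∀ d ∈ F, d 0 % β = d₀ 0 % β := by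
    intro d hd
    have h1 : α * d 0 + β * d 1 = α * d₀ 0 + β * d₀ 1 := by rw [hw d hd, hw d₀ hd₀]
    have h2 : α * d 0 ≡ α * d₀ 0 [MOD β] := by
      have : (α * d 0 + β * d 1) % β = (α * d₀ 0 + β * d₀ 1) % β := by rw [h1]
      simpa [Nat.ModEq, Nat.add_mul_mod_self_left] using this
    exact Nat.ModEq.cancel_left_of_coprime (by simpa [Nat.coprime_comm] using hco) h2
  set r := d₀ 0 % β with hr
  set H : K[X] := ∑ d ∈ F, monomial (d 0 / β) (c d * y0 ^ (d 1)) with hHdef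
  have hinj : ∀ d ∈ F, ∀ d' ∈ F, d 0 / β = d' 0 / β → d = d' := by
    intro d hd d' hd' h
    have h0 : d 0 = d' 0 := by
      rw [← Nat.mod_add_div (d 0) β, ← Nat.mod_add_div (d' 0) β, hmod d hd, hmod d' hd', h]
    have h1 : d 1 = d' 1 := by
      have := (hw d hd).trans (hw d' hd').symm
      rw [h0] at this
      exact Nat.eq_of_mul_eq_mul_left hβ (Nat.add_left_cancel this)
    ext i
    fin_cases i
    · exact h0
    · exact h1
  have hH : H ≠ 0 := by
    intro h
    have h1 : H.coeff (d₀ 0 / β) = c d₀ * y0 ^ (d₀ 1) := by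
      rw [hHdef, finsetSum_coeff, Finset.sum_eq_single d₀]
      · simp
      · intro d hd hne
        rw [coeff_monomial, if_neg]
        intro h
        exact hne (hinj d hd d₀ hd₀ h)
      · intro h; exact absurd hd₀ h
    rw [h, coeff_zero] at h1
    exact mul_ne_zero (hc d₀ hd₀) (pow_ne_zero _ hy0) h1.symm
  obtain ⟨l, hl, hne⟩ := exists_hasse_ne H hH r β hβK x0 hx0
  refine ⟨l, ?_, ?_⟩
  · have hdeg : H.natDegree ≤ w / (α * β) := by
      refine natDegree_sum_le_of_forall_le F _ fun d hd => ?_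
      refine (natDegree_monomial_le _).trans ?_
      rw [← Nat.div_div_eq_div_mul]
      refine Nat.div_le_div_right ?_
      rw [Nat.le_div_iff_mul_le hα]
      have := hw d hd
      nlinarith
    calc α * β * l ≤ α * β * (w / (α * β)) := Nat.mul_le_mul_left _ (hl.trans hdeg)
      _ ≤ w := Nat.mul_div_le _ _
  · convert hne using 1
    have hG : X ^ r * expand K β H = ∑ d ∈ F, monomial (d 0) (c d * y0 ^ (d 1)) := by
      rw [hHdef, map_sum, Finset.mul_sum]
      refine Finset.sum_congr rfl fun d hd => ?_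
      rw [expand_monomial, X_pow_mul_monomial]
      congr 1
      rw [← hmod d hd, Nat.mul_comm, Nat.add_comm, Nat.mod_add_div]
    rw [hG, map_sum, eval_finsetSum]
    refine Finset.sum_congr rfl fun d _ => ?_
    rw [hasseDeriv_monomial, eval_monomial]
    ring

end Pool.Agent.MNJ
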