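import Pool.Agent.Work.MP_6c38a7_ag.CuspA

/-!
# Arcs tangent to a cusp: orders of Hasse derivatives, truncation, ranks
-/

namespace Pool.Agent.MNJ

open PowerSeries

/-- `g(U, y)` as a sum of monomials -/
theorem aeval_eq_sum_monomial {k : Type*} [Field k] {K : Type*} [Field K] [Algebra k K]
    (g : MvPolynomial (Fin 2) k) (y : K⟦X⟧) :
    MvPolynomial.aeval ![(Polynomial.X : Polynomial K⟦X⟧), Polynomial.C y] g =
      ∑ d ∈ g.support, Polynomial.monomial (d 0) (algebraMap k K⟦X⟧ (g.coeff d) * y ^ (d 1)) := by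
  rw [MvPolynomial.aeval_def, MvPolynomial.eval₂_eq']
  refine Finset.sum_congr rfl fun d _ => ?_
  rw [Fin.prod_univ_two, ← Polynomial.C_mul_X_pow_eq_monomial]
  simp only [Matrix.cons_val_zero, Matrix.cons_val_one]
  rw [Polynomial.C_mul, Polynomial.C_pow, Polynomial.algebraMap_apply]
  ring

theorem hasse_eval_eq {k : Type*} [Field k] {K : Type*} [Field K] [Algebra k K]
    (g : MvPolynomial (Fin 2) k) (y Ξ : K⟦X⟧) (l : ℕ) :
    (Polynomial.hasseDeriv l (MvPolynomial.aeval ![(Polynomial.X : Polynomial K⟦X⟧), Polynomial.C y]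
      g)).eval Ξ = ∑ d ∈ g.support, C (algebraMap k K (g.coeff d) * (((d 0).choose l : ℕ) : K)) *
        (y ^ (d 1) * Ξ ^ (d 0 - l)) := by
  rw [aeval_eq_sum_monomial, map_sum, Polynomial.eval_finsetSum]
  refine Finset.sum_congr rfl fun d _ => ?_
  rw [Polynomial.hasseDeriv_monomial, Polynomial.eval_monomial, map_mul, map_natCast,
    PowerSeries.algebraMap_apply]
  ring

/-- the coefficient of the initial form -/
theorem coeff_hasse_face {k : Type*} [Field k] {K : Type*} [Field K] [Algebra k K]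
    (f : MvPolynomial (Fin 2) k) (y Ξ y₁ Ξ₁ : K⟦X⟧) (g α β w l : ℕ) (hg : 1 ≤ g)
    (hΞ : Ξ = X ^ (g * α) * Ξ₁) (hy : y = X ^ (g * β) * y₁)
    (hw : ∀ d ∈ f.support, w ≤ α * d 0 + β * d 1) (N : ℕ) (hN : N + g * α * l = g * w) :
    coeff N ((Polynomial.hasseDeriv l (MvPolynomial.aeval
      ![(Polynomial.X : Polynomial K⟦X⟧), Polynomial.C y] f)).eval Ξ) =
      ∑ d ∈ f.support.filter (fun d => α * d 0 + β * d 1 = w),
        algebraMap k K (f.coeff d) * (constantCoeff y₁) ^ (d 1) * (((d 0).choose l : ℕ) : K) *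
          (constantCoeff Ξ₁) ^ (d 0 - l) := by
  rw [hasse_eval_eq, map_sum, Finset.sum_filter]
  refine Finset.sum_congr rfl fun d hd => ?_
  by_cases hl : d 0 < l
  · rw [Nat.choose_eq_zero_of_lt hl]
    simp
  push Not at hl
  have hexp : y ^ (d 1) * Ξ ^ (d 0 - l) = X ^ (g * β * d 1 + g * α * (d 0 - l)) *
      (y₁ ^ (d 1) * Ξ₁ ^ (d 0 - l)) := by
    rw [hy, hΞ, mul_pow, mul_pow, ← pow_mul, ← pow_mul, pow_add]
    ring
  obtain ⟨m, hm⟩ := Nat.exists_eq_add_of_le hl
  have hdl : d 0 - l = m := by omega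
  rw [hexp, coeff_C_mul, coeff_X_pow_mul']
  have key : g * β * d 1 + g * α * (d 0 - l) + g * α * l = g * (α * d 0 + β * d 1) := by
    rw [hdl, hm]; ring
  by_cases hface : α * d 0 + β * d 1 = w
  · have hNe : N = g * β * d 1 + g * α * (d 0 - l) := by
      rw [hface] at key; omega
    rw [if_pos hNe.symm.le, if_pos hface, hNe, Nat.sub_self, coeff_zero_eq_constantCoeff_apply,
      map_mul, map_pow, map_pow]
    ring
  · have hlt : w < α * d 0 + β * d 1 := lt_of_le_of_ne (hw d hd) (Ne.symm hface)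
    have : N < g * β * d 1 + g * α * (d 0 - l) := by
      have : g * w < g * (α * d 0 + β * d 1) := Nat.mul_lt_mul_of_pos_left hlt hg
      omega
    rw [if_neg (by omega), if_neg hface, mul_zero]

/-- truncation of the second coordinate does not change low coefficients -/
theorem le_order_aeval_congr {k : Type*} [Field k] {K : Type*} [Field K] [Algebra k K]
    {N : ℕ} (f : MvPolynomial (Fin N) k) (γ γ' : Fin N → K⟦X⟧) (n : ℕ)
    (h : ∀ i, X ^ (n + 1) ∣ γ i - γ' i) (v : ℕ) (hv : v ≤ n + 1)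
    (hf : (v : ℕ∞) ≤ (MvPolynomial.aeval γ f : K⟦X⟧).order) :
    (v : ℕ∞) ≤ (MvPolynomial.aeval γ' f : K⟦X⟧).order := by
  have hdiv : ∀ f : MvPolynomial (Fin N) k,
      X ^ (n + 1) ∣ (MvPolynomial.aeval γ f : K⟦X⟧) - MvPolynomial.aeval γ' f := by
    intro f
    induction f using MvPolynomial.induction_on with
    | C a => simp
    | add p q hp hq =>
      rw [map_add, map_add, add_sub_add_comm]
      exact dvd_add hp hq
    | mul_X p i hp =>
      rw [map_mul, map_mul, MvPolynomial.aeval_X, MvPolynomial.aeval_X]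
      have : (MvPolynomial.aeval γ p : K⟦X⟧) * γ i - MvPolynomial.aeval γ' p * γ' i =
          (MvPolynomial.aeval γ p - MvPolynomial.aeval γ' p) * γ i +
            MvPolynomial.aeval γ' p * (γ i - γ' i) := by ring
      rw [this]
      exact dvd_add (Dvd.dvd.mul_right hp _) (Dvd.dvd.mul_left (h i) _)
  refine nat_le_order _ _ fun i hi => ?_
  have h1 := X_pow_dvd_iff.1 (hdiv f) i (by omega)
  have h2 : coeff i (MvPolynomial.aeval γ f : K⟦X⟧) = 0 :=
    coeff_of_lt_order i (lt_of_lt_of_le (by exact_mod_cast hi) hf)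
  rw [map_sub, h2, zero_sub, neg_eq_zero] at h1
  exact h1

theorem mem_closure_iff_isAlgebraic {k : Type*} [Field k] {K : Type*} [Field K] [Algebra k K]
    (A : Set K) (x : K) : x ∈ (AlgebraicIndependent.matroid k K).closure A ↔
      IsAlgebraic (IntermediateField.adjoin k A) x := by
  rw [AlgebraicIndependent.matroid_closure_eq, SetLike.mem_coe, Subalgebra.mem_algebraicClosure]
  exact IntermediateField.isAlgebraic_adjoin_iff.symm

/-- elements algebraic over the field generated by `A` do not increase the rank -/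
theorem rk_le_of_closure {k : Type*} [Field k] {K : Type*} [Field K] [Algebra k K] (S A : Set K)
    (h : S ⊆ (AlgebraicIndependent.matroid k K).closure A) : rk k S ≤ rk k A := by
  unfold rk
  rw [← Matroid.eRk_closure_eq _ A]
  exact Matroid.eRk_mono _ h

theorem rk_le_encard {k : Type*} [Field k] {K : Type*} [Field K] [Algebra k K] (A : Set K) :
    rk k A ≤ A.encard := Matroid.eRk_le_encard _ _

end Pool.Agent.MNJ
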