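import Mathlib

/-!
# Jet levels computing minimal log discrepancies: definitions

`k` a field, `A = A^N_k = Spec k[X_1, …, X_N]`, `𝔞_1, …, 𝔞_s` ideals of `k[X_1, …, X_N]`, `e_1, …, e_s > 0`.
-/

namespace Pool.Agent.MNJ

open MvPolynomial

universe u

/-- The coordinate ring of the space `A_n` of `n`-jets of `A = A^N`: the variable `(i, j)` is the
coefficient of `t ^ j` in the `i`-th coordinate of the jet. -/
abbrev JetRing (k : Type u) [Field k] (N n : ℕ) := MvPolynomial (Fin N × Fin (n + 1)) k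

/-- The `i`-th coordinate `∑_{j ≤ n} x_{i,j} t ^ j` of the universal `n`-jet. -/
noncomputable def univJet (k : Type u) [Field k] (N n : ℕ) (i : Fin N) : Polynomial (JetRing k N n) :=
  ∑ j : Fin (n + 1), Polynomial.monomial (j : ℕ) (X (i, j))

/-- Pull-back of functions along the universal `n`-jet: `f ↦ f(X_1(t), …, X_N(t))`. -/
noncomputable def jetEval (k : Type u) [Field k] (N n : ℕ) :
    MvPolynomial (Fin N) k →ₐ[k] Polynomial (JetRing k N n) :=
  aeval (univJet k N n)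

/-- The ideal of `k[A_n]` which defines the closed set of `n`-jets `γ` with `γ(0) = 0` and
`ord_t γ^*(𝔞_i) ≥ m_i` for all `i` (for `n + 1 ≥ m_i`): it is generated by the coordinates `x_{i,0}` and by
the coefficients of `t ^ j`, `j < m_i`, of `f(γ(t))`, `f ∈ 𝔞_i`. -/
noncomputable def contactIdeal {k : Type u} [Field k] {N s : ℕ}
    (a : Fin s → Ideal (MvPolynomial (Fin N) k)) (m : Fin s → ℕ) (n : ℕ) : Ideal (JetRing k N n) :=
  Ideal.span ({g | ∃ i : Fin N, g = X (i, 0)} ∪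
    {g | ∃ i : Fin s, ∃ f ∈ a i, ∃ j < m i, g = (jetEval k N n f).coeff j})

/-- a Krull dimension as an extended real number -/
noncomputable def toE : WithBot ℕ∞ → EReal :=
  WithBot.recBotCoe ⊥ (fun d : ℕ∞ => ((d : ENNReal) : EReal))

/-- Codimension in `A_∞` of `⋂_i Cont^{≥ m_i}(𝔞_i) ∩ π^{-1}(0)`, computed in the space of `n`-jets (for
`n + 1 ≥ m_i`): `N (n + 1)` minus the dimension of the closed subset of `A_n` defined by `contactIdeal`; it is
`⊤ = +∞` if this set is empty. -/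
noncomputable def codimCont {k : Type u} [Field k] {N s : ℕ}
    (a : Fin s → Ideal (MvPolynomial (Fin N) k)) (m : Fin s → ℕ) (n : ℕ) : EReal :=
  (((N * (n + 1) : ℕ) : ℝ) : EReal) - toE (ringKrullDim (JetRing k N n ⧸ contactIdeal a m n))

/-- `s_m(0; A, 𝔞^e)` (the codimension is computed at the jet level `n = |m|`). -/
noncomputable def sVal {k : Type u} [Field k] {N s : ℕ} (e : Fin s → ℝ)
    (a : Fin s → Ideal (MvPolynomial (Fin N) k)) (m : Fin s → ℕ) : EReal :=
  codimCont a m (∑ i, m i) - ((∑ i, e i * (m i : ℝ) : ℝ) : EReal)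

/-- the minimal log discrepancy `mld(0; A, 𝔞^e) = inf_m s_m(0; A, 𝔞^e)` -/
noncomputable def mld {k : Type u} [Field k] {N s : ℕ} (e : Fin s → ℝ)
    (a : Fin s → Ideal (MvPolynomial (Fin N) k)) : EReal :=
  ⨅ m : Fin s → ℕ, sVal e a m

/-- `m` computes `mld(0; A, 𝔞^e)` -/
def Computes {k : Type u} [Field k] {N s : ℕ} (e : Fin s → ℝ)
    (a : Fin s → Ideal (MvPolynomial (Fin N) k)) (m : Fin s → ℕ) : Prop :=
  (0 ≤ mld e a ∧ sVal e a m = mld e a) ∨ (mld e a < 0 ∧ sVal e a m < 0)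

/-- the order of an ideal at the origin is `μ` -/
def OrdAt0 {k : Type u} [Field k] {N : ℕ} (I : Ideal (MvPolynomial (Fin N) k)) (μ : ℕ) : Prop :=
  I ≤ (Ideal.span (Set.range X)) ^ μ ∧ ¬ I ≤ (Ideal.span (Set.range X)) ^ (μ + 1)

/-! ### Auxiliary notions for the proof -/

/-- transcendence degree over `k` of the field generated by `S` -/
noncomputable def rk (k : Type*) {K : Type*} [Field k] [Field K] [Algebra k K] (S : Set K) : ℕ∞ :=
  (AlgebraicIndependent.matroid k K).eRk S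

/-- the coefficients of `t ^ 0, …, t ^ n` in a family of power series -/
def cs {K ι : Type*} [Field K] (n : ℕ) (γ : ι → PowerSeries K) : Set K :=
  {c | ∃ i, ∃ j ≤ n, c = PowerSeries.coeff j (γ i)}

/-- the `K`-arc `γ` is centered at the origin and has contact order `≥ m_i` with `𝔞_i` -/
def Contact {k : Type u} [Field k] {N s : ℕ} {K : Type*} [Field K] [Algebra k K]
    (a : Fin s → Ideal (MvPolynomial (Fin N) k)) (m : Fin s → ℕ) (γ : Fin N → PowerSeries K) : Prop :=
  (∀ i, PowerSeries.constantCoeff (γ i) = 0) ∧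
    ∀ i, ∀ f ∈ a i, (m i : ℕ∞) ≤ (aeval γ f : PowerSeries K).order

/-- `f(U, y, z)` as a polynomial in `U` -/
noncomputable def slice {k : Type u} [Field k] {K : Type*} [Field K] [Algebra k K]
    (y z : PowerSeries K) : MvPolynomial (Fin 3) k →ₐ[k] Polynomial (PowerSeries K) :=
  aeval ![Polynomial.X, Polynomial.C y, Polynomial.C z]

/-- ideals in good coordinates up to level `n`: pure power of `X_0` of degree `μ_i` in `𝔞_i`, and `X_0 = 0` is a
surface of maximal contact for an element of `𝔞_{i₀}` up to order `n` -/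
structure Prepared {k : Type u} [Field k] {s : ℕ} (a : Fin s → Ideal (MvPolynomial (Fin 3) k))
    (μ : Fin s → ℕ) (i₀ : Fin s) (n : ℕ) : Prop where
  deg : ∀ i, ∀ f ∈ a i, ∀ d ∈ f.support, μ i ≤ d 0 + d 1 + d 2
  pure : ∀ i, ∃ f ∈ a i, f.coeff (Finsupp.single 0 (μ i)) ≠ 0
  contact : ∃ f ∈ a i₀, f.coeff (Finsupp.single 0 (μ i₀)) ≠ 0 ∧
    ∀ d ∈ f.support, d 0 + 1 = μ i₀ → n < d 1 + d 2

/-- bound with ratio `D / E` for the orders along the arc `(y, z)`, up to level `n`, in terms of the weights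
`(p, q)` -/
def RB (k : Type u) [Field k] {K : Type*} [Field K] [Algebra k K] (n : ℕ) (y z : PowerSeries K)
    (p q E D : ℕ) : Prop :=
  ∀ g : MvPolynomial (Fin 2) k, ∀ v ≤ n, (v : ℕ∞) ≤ (aeval ![y, z] g : PowerSeries K).order →
    ∀ d ∈ g.support, E * v ≤ D * (p * d 0 + q * d 1)

/-- the weight functional `|w| - ∑ e_i min_{d ∈ Γ_i} ⟨w, d⟩` -/
noncomputable def Fw {N s : ℕ} (e : Fin s → ℝ) (Γ : Fin s → Set (Fin N → ℕ)) (w : Fin N → ℕ) : ℝ :=
  ((∑ j, w j : ℕ) : ℝ) - ∑ i, e i * ((sInf {v | ∃ d ∈ Γ i, v = ∑ j, w j * d j} : ℕ) : ℝ)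

end Pool.Agent.MNJ
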