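import Pool.Agent.Work.MP_6c38a7_ag.Defs

/-!
# Bounded minimiser of a discrete convex function
-/

namespace Pool.Agent.MNJ

/-- negative values of a function on a finite type are bounded away from zero -/
lemma desc_exists_gap {ι : Type*} [Finite ι] (f : ι → ℝ) :
    ∃ ε : ℝ, 0 < ε ∧ ∀ b, f b < 0 → f b ≤ -ε := by
  classical
  cases nonempty_fintype ι
  by_cases h : (Finset.univ.filter fun b => f b < 0).Nonempty
  · obtain ⟨b, hb, hmax⟩ := Finset.exists_max_image _ f h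
    refine ⟨-f b, by linarith [(Finset.mem_filter.1 hb).2], fun c hc => ?_⟩
    have := hmax c (Finset.mem_filter.2 ⟨Finset.mem_univ _, hc⟩)
    linarith
  · refine ⟨1, one_pos, fun b hb => absurd ⟨b, ?_⟩ h⟩
    exact Finset.mem_filter.2 ⟨Finset.mem_univ _, hb⟩

/-- K1 -/
theorem desc {s : ℕ} (e : Fin s → ℝ) (he : ∀ i, 0 < e i) (B Q : ℕ) :
    ∃ C : ℕ, ∀ G : Fin s → ℕ → ℕ, (∀ i c, 1 ≤ c → G i c ≤ G i (c + 1)) →
      (∀ i c, 1 ≤ c → G i (c + 1) ≤ G i c + B) →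
      (∀ i c, 1 ≤ c → G i (c + 2) + G i c ≤ 2 * G i (c + 1)) →
      (∀ c : ℕ, 1 ≤ c → -(Q : ℝ) ≤ (c : ℝ) - ∑ i, e i * (G i c : ℝ)) →
      ∀ c : ℕ, 1 ≤ c → ∃ c' : ℕ, 1 ≤ c' ∧ c' ≤ c ∧ c' ≤ C ∧
        (c' : ℝ) - ∑ i, e i * (G i c' : ℝ) ≤ (c : ℝ) - ∑ i, e i * (G i c : ℝ) := by
  classical
  obtain ⟨ε, hε, hgap⟩ := desc_exists_gap (ι := Fin s → Fin (B + 1))
    (fun b => 1 - ∑ i, e i * (((b i : Fin (B + 1)) : ℕ) : ℝ))
  refine ⟨⌈((Q : ℝ) + 1) / ε⌉₊ + 2, fun G hmono hB hconc hQ => ?_⟩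
  set φ : ℕ → ℝ := fun c => (c : ℝ) - ∑ i, e i * (G i c : ℝ) with hφ
  -- the increments
  have hinc : ∀ c, 1 ≤ c → φ (c + 1) - φ c =
      1 - ∑ i, e i * (((G i (c + 1) - G i c : ℕ)) : ℝ) := by
    intro c hc
    have : ∀ i, e i * (((G i (c + 1) - G i c : ℕ)) : ℝ) =
        e i * (G i (c + 1) : ℝ) - e i * (G i c : ℝ) := by
      intro i
      rw [Nat.cast_sub (hmono i c hc)]
      ring
    simp only [hφ, this, Finset.sum_sub_distrib]
    push_cast
    ring
  have hneg : ∀ c, 1 ≤ c → φ (c + 1) < φ c → φ (c + 1) ≤ φ c - ε := by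
    intro c hc hlt
    have h1 := hgap (fun i => ⟨G i (c + 1) - G i c, by have := hB i c hc; omega⟩)
    have h2 : 1 - ∑ i, e i * (((G i (c + 1) - G i c : ℕ)) : ℝ) < 0 := by
      rw [← hinc c hc]; linarith
    have h3 := h1 h2
    have h4 := hinc c hc
    simp only at h3
    linarith
  have hstep : ∀ c, 1 ≤ c → φ c ≤ φ (c + 1) → φ (c + 1) ≤ φ (c + 2) := by
    intro c hc hle
    have h1 := hinc c hc
    have h2 := hinc (c + 1) (by omega)
    have h3 : ∑ i, e i * (((G i (c + 1 + 1) - G i (c + 1) : ℕ)) : ℝ) ≤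
        ∑ i, e i * (((G i (c + 1) - G i c : ℕ)) : ℝ) := by
      refine Finset.sum_le_sum fun i _ => mul_le_mul_of_nonneg_left ?_ (he i).le
      have h4 := hconc i c hc
      have h5 : G i (c + 1 + 1) - G i (c + 1) ≤ G i (c + 1) - G i c := by
        show G i (c + 2) - G i (c + 1) ≤ _
        omega
      exact_mod_cast h5
    have h6 : φ (c + 1 + 1) - φ (c + 1) ≥ 0 := by rw [h2]; linarith
    have h7 : φ (c + 1 + 1) = φ (c + 2) := rfl
    linarith
  have hφ1 : φ 1 ≤ 1 := by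
    have : 0 ≤ ∑ i, e i * (G i 1 : ℝ) := Finset.sum_nonneg fun i _ =>
      mul_nonneg (he i).le (Nat.cast_nonneg _)
    simp only [hφ]
    push_cast
    linarith
  -- descending phase
  have hdesc : ∀ n, (∀ c, 1 ≤ c → c ≤ n → φ (c + 1) < φ c) → φ (n + 1) ≤ 1 - n * ε := by
    intro n
    induction n with
    | zero => intro _; simpa using hφ1
    | succ n ih =>
      intro h
      have h1 := ih fun c hc hcn => h c hc (by omega)
      have h2 := hneg (n + 1) (by omega) (h (n + 1) (by omega) le_rfl)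
      push_cast
      linarith
  have hbound : ∀ n, (∀ c, 1 ≤ c → c ≤ n → φ (c + 1) < φ c) → n ≤ ⌈((Q : ℝ) + 1) / ε⌉₊ := by
    intro n h
    have h1 := hdesc n h
    have h2 := hQ (n + 1) (by omega)
    have h3 : (n : ℝ) ≤ ((Q : ℝ) + 1) / ε := by
      rw [le_div_iff₀ hε]
      have : -(Q : ℝ) ≤ φ (n + 1) := h2
      linarith
    exact_mod_cast h3.trans (Nat.le_ceil _)
  -- the first ascent
  have hex : ∃ c, 1 ≤ c ∧ φ c ≤ φ (c + 1) := by
    by_contra hcon
    push Not at hcon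
    have := hbound (⌈((Q : ℝ) + 1) / ε⌉₊ + 1) fun c hc _ => hcon c hc
    omega
  set c₀ := Nat.find hex with hc₀
  obtain ⟨h1, h2⟩ := Nat.find_spec hex
  have h3 : c₀ ≤ ⌈((Q : ℝ) + 1) / ε⌉₊ + 1 := by
    have := hbound (c₀ - 1) (fun c hc hcn => by
      have h4 := Nat.find_min hex (m := c) (by omega)
      push Not at h4
      exact h4 hc)
    omega
  have hasc : ∀ n, φ (c₀ + n) ≤ φ (c₀ + n + 1) := by
    intro n
    induction n with
    | zero => exact h2
    | succ n ih => exact hstep (c₀ + n) (by omega) ih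
  have hasc' : ∀ n, φ c₀ ≤ φ (c₀ + n) := by
    intro n
    induction n with
    | zero => exact le_rfl
    | succ n ih => exact ih.trans (hasc n)
  intro c hc
  by_cases hcc : c ≤ c₀
  · exact ⟨c, hc, le_rfl, by omega, le_rfl⟩
  · refine ⟨c₀, h1, by omega, by omega, ?_⟩
    have := hasc' (c - c₀)
    rwa [Nat.add_sub_cancel' (by omega)] at this

end Pool.Agent.MNJ
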