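import Mathlib

/-! Krull dimension and transcendence degree for finitely generated algebras over a field. -/

namespace MN

universe u v w

open Order

/-- An integral injective extension keeps the Krull dimension. -/
theorem ringKrullDim_eq_of_integral {A : Type*} {B : Type*} [CommRing A] [CommRing B]
    [Algebra A B] [Algebra.IsIntegral A B] (hinj : Function.Injective (algebraMap A B)) :
    ringKrullDim B = ringKrullDim A := by
  apply le_antisymm
  · apply krullDim_le_of_strictMono (PrimeSpectrum.comap (algebraMap A B))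
    intro P Q hPQ
    have h : P.asIdeal < Q.asIdeal := hPQ
    exact Ideal.IsIntegral.comap_lt_comap h
  · rw [ringKrullDim, krullDim]
    apply iSup_le
    intro l
    have h1 : Ideal.comap (algebraMap A B) ⊥ ≤ l.head.asIdeal := by
      intro x hx
      have : algebraMap A B x = 0 := by simpa using hx
      have hx0 : x = 0 := hinj (by rw [this, map_zero])
      rw [hx0]; exact Ideal.zero_mem _
    obtain ⟨P, -, hP, hPl⟩ := Ideal.exists_ideal_over_prime_of_isIntegral l.head.asIdeal (⊥ : Ideal B) h1
    have : P.LiesOver l.head.asIdeal := ⟨hPl.symm⟩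
    obtain ⟨L, hL, -, -⟩ := Ideal.exists_ltSeries_of_hasGoingUp l P
    rw [← hL]
    exact L.length_le_krullDim

/-- Noether normalization with dimension: `s` is both the Krull dimension and the
transcendence degree. -/
theorem exists_noether (k : Type u) [Field k] (A : Type v) [CommRing A] [IsDomain A] [Algebra k A]
    [Algebra.FiniteType k A] : ∃ s : ℕ, ringKrullDim A = (s : ℕ) ∧
      Algebra.trdeg k A = (s : ℕ) ∧ ∃ t : Fin s → A, AlgebraicIndependent k t := by
  obtain ⟨s, g, hg, hint⟩ := exists_integral_inj_algHom_of_fg k A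
  let _ : Algebra (MvPolynomial (Fin s) k) A := g.toRingHom.toAlgebra
  have _ : Algebra.IsIntegral (MvPolynomial (Fin s) k) A := ⟨hint⟩
  have _ : IsScalarTower k (MvPolynomial (Fin s) k) A :=
    IsScalarTower.of_algebraMap_eq' g.comp_algebraMap.symm
  have _ : FaithfulSMul (MvPolynomial (Fin s) k) A :=
    (faithfulSMul_iff_algebraMap_injective _ _).2 hg
  have hb := (IsTranscendenceBasis.mvPolynomial (Fin s) k).algebraMap_comp (A := A)
  refine ⟨s, ?_, ?_, _, hb.1⟩
  · rw [ringKrullDim_eq_of_integral (A := MvPolynomial (Fin s) k) hg]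
    simp
  · have := hb.lift_cardinalMk_eq_trdeg
    simpa using this.symm

/-- The Krull dimension of a domain of finite type over a field is its transcendence degree. -/
theorem ringKrullDim_eq_trdeg (k : Type u) [Field k] (A : Type v) [CommRing A] [IsDomain A]
    [Algebra k A] [Algebra.FiniteType k A] :
    ringKrullDim A = ((Cardinal.toNat (Algebra.trdeg k A) : ℕ) : WithBot ℕ∞) := by
  obtain ⟨s, h1, h2, -⟩ := exists_noether k A
  rw [h1, h2, Cardinal.toNat_natCast]

/-- `n ≤ dim R / I` in terms of points with values in fields. -/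
theorem le_ringKrullDim_of_point {k : Type u} [Field k] {R : Type v} [CommRing R] [Algebra k R]
    [Algebra.FiniteType k R] (I : Ideal R) (n : ℕ) {K : Type w} [Field K] [Algebra k K]
    (φ : R →ₐ[k] K) (hφ : ∀ x ∈ I, φ x = 0) (t : Fin n → R)
    (ht : AlgebraicIndependent k (fun i => φ (t i))) :
    (n : WithBot ℕ∞) ≤ ringKrullDim (R ⧸ I) := by
  set P : Ideal R := RingHom.ker φ with hP
  have hIP : I ≤ P := fun x hx => hφ x hx
  have hPp : P.IsPrime := RingHom.ker_isPrime φ
  have h1 : ringKrullDim (R ⧸ P) ≤ ringKrullDim (R ⧸ I) :=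
    ringKrullDim_le_of_surjective (Ideal.Quotient.factor hIP) (Ideal.Quotient.factor_surjective hIP)
  refine le_trans ?_ h1
  obtain ⟨s, h2, h3, -⟩ := exists_noether k (R ⧸ P)
  have h4 : AlgebraicIndependent k (fun i => Ideal.Quotient.mkₐ k P (t i)) := by
    have h5 : (fun i => φ (t i)) =
        (Ideal.kerLiftAlg φ) ∘ (fun i => Ideal.Quotient.mkₐ k P (t i)) := by
      funext i
      simp [Function.comp]
      rfl
    rw [h5] at ht
    exact AlgebraicIndependent.of_comp (Ideal.kerLiftAlg φ) ht
  have h6 := h4.lift_cardinalMk_le_trdeg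
  rw [h3] at h6
  have h7 : n ≤ s := by simpa using h6
  rw [h2]
  exact_mod_cast h7

theorem exists_point_of_le_ringKrullDim {k : Type u} [Field k] {R : Type v} [CommRing R]
    [Algebra k R] [Algebra.FiniteType k R] (I : Ideal R) (n : ℕ)
    (h : (n : WithBot ℕ∞) ≤ ringKrullDim (R ⧸ I)) :
    ∃ (K : Type v) (_ : Field K) (_ : Algebra k K) (φ : R →ₐ[k] K), (∀ x ∈ I, φ x = 0) ∧
      ∃ t : Fin n → R, AlgebraicIndependent k (fun i => φ (t i)) := by
  rw [ringKrullDim_quotient] at h
  obtain ⟨l, hl⟩ := Order.le_krullDim_iff.1 h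
  set P : Ideal R := l.head.1.asIdeal with hP
  have hPp : P.IsPrime := l.head.1.isPrime
  have hIP : I ≤ P := l.head.2
  have h1 : (n : WithBot ℕ∞) ≤ ringKrullDim (R ⧸ P) := by
    rw [ringKrullDim_quotient]
    have hmem : ∀ i, (l i).1 ∈ PrimeSpectrum.zeroLocus (P : Set R) := fun i => by
      have : l.head ≤ l i := l.head_le i
      exact this
    rw [← hl]
    exact LTSeries.length_le_krullDim
      ⟨l.length, fun i => ⟨(l i).1, hmem i⟩, fun i => l.step i⟩
  obtain ⟨s, h2, h3, t, ht⟩ := exists_noether k (R ⧸ P)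
  rw [h2] at h1
  have hns : n ≤ s := by exact_mod_cast h1
  refine ⟨FractionRing (R ⧸ P), inferInstance, inferInstance,
    (IsScalarTower.toAlgHom k (R ⧸ P) (FractionRing (R ⧸ P))).comp (Ideal.Quotient.mkₐ k P),
    ?_, ?_⟩
  · intro x hx
    have : Ideal.Quotient.mk P x = 0 := Ideal.Quotient.eq_zero_iff_mem.2 (hIP hx)
    simp [this]
  · choose r hr using fun i => Ideal.Quotient.mk_surjective (I := P) (t i)
    refine ⟨fun i => r (Fin.castLE hns i), ?_⟩
    have h5 : AlgebraicIndependent k (fun i => (IsScalarTower.toAlgHom k (R ⧸ P)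
        (FractionRing (R ⧸ P))) (t i)) :=
      ht.map' (f := IsScalarTower.toAlgHom k (R ⧸ P) (FractionRing (R ⧸ P)))
        (IsFractionRing.injective (R ⧸ P) (FractionRing (R ⧸ P)))
    have h6 := h5.comp (Fin.castLE hns) (Fin.castLE_injective hns)
    have h7 : (fun i : Fin n => ((IsScalarTower.toAlgHom k (R ⧸ P) (FractionRing (R ⧸ P))).comp
        (Ideal.Quotient.mkₐ k P)) (r (Fin.castLE hns i))) =
        ((fun i => (IsScalarTower.toAlgHom k (R ⧸ P) (FractionRing (R ⧸ P))) (t i)) ∘
          Fin.castLE hns) := by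
      funext i
      simp [hr]
    rw [← h7] at h6
    exact h6

theorem le_ringKrullDim_iff {k : Type u} [Field k] {R : Type v} [CommRing R]
    [Algebra k R] [Algebra.FiniteType k R] (I : Ideal R) (n : ℕ) :
    (n : WithBot ℕ∞) ≤ ringKrullDim (R ⧸ I) ↔
    ∃ (K : Type v) (_ : Field K) (_ : Algebra k K) (φ : R →ₐ[k] K), (∀ x ∈ I, φ x = 0) ∧
      ∃ t : Fin n → R, AlgebraicIndependent k (fun i => φ (t i)) :=
  ⟨exists_point_of_le_ringKrullDim I n, fun ⟨_, _, _, φ, h1, t, h2⟩ =>
    le_ringKrullDim_of_point I n φ h1 t h2⟩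

end MN
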