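import Pool.Agent.Work.MP_6c38a7_ag.Defs

/-!
# Construction of arcs: orders and ranks (no use of jet spaces)
-/

namespace Pool.Agent.MNJ

open PowerSeries

universe u

theorem X_pow_dvd_iff_le {K : Type*} [Field K] (φ : K⟦X⟧) (m : ℕ) :
    X ^ m ∣ φ ↔ (m : ℕ∞) ≤ φ.order := by
  rw [X_pow_dvd_iff]
  constructor
  · intro h
    exact nat_le_order _ _ h
  · intro h i hi
    exact coeff_of_lt_order i (lt_of_lt_of_le (by exact_mod_cast hi) h)

/-- lower bound for the rank -/
theorem card_le_rk {k : Type*} [Field k] {K : Type*} [Field K] [Algebra k K] {ι : Type*} [Finite ι]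
    (T : ι → K) (hT : AlgebraicIndependent k T) (S : Set K) (hS : ∀ i, T i ∈ S) :
    ((Nat.card ι : ℕ) : ℕ∞) ≤ rk k S := by
  have h1 : (AlgebraicIndependent.matroid k K).Indep (Set.range T) := by
    rw [AlgebraicIndependent.matroid_indep_iff]
    exact hT.coe_range
  have h2 : ((Nat.card ι : ℕ) : ℕ∞) ≤ (Set.range T).encard := by
    rw [← ENat.card_eq_coe_natCard]
    exact hT.injective.encard_range
  refine h2.trans ?_
  exact h1.encard_le_eRk_of_subset (by rintro _ ⟨i, rfl⟩; exact hS i)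

/-- an independent subset of full rank -/
theorem exists_indep_of_le_rk {k : Type*} [Field k] {K : Type*} [Field K] [Algebra k K] (S : Set K)
    (r : ℕ) (hr : (r : ℕ∞) ≤ rk k S) : ∃ T : Fin r → K, AlgebraicIndependent k T ∧ ∀ i, T i ∈ S := by
  obtain ⟨I, hI⟩ := (AlgebraicIndependent.matroid k K).exists_isBasis S
    (by rw [AlgebraicIndependent.matroid_e]; exact Set.subset_univ _)
  have hc : (r : ℕ∞) ≤ I.encard := by
    rw [hI.encard_eq_eRk]; exact hr
  obtain ⟨J, hJI, hJ⟩ := Set.exists_subset_encard_eq hc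
  have hfin : J.Finite := Set.finite_of_encard_eq_coe hJ
  have hJf : Finite J := hfin
  have hcard : Nat.card J = r := by
    have h1 : J.encard = ((Nat.card J : ℕ) : ℕ∞) := by
      rw [Set.encard, ENat.card_eq_coe_natCard]
    rw [h1] at hJ
    exact_mod_cast hJ
  let e : Fin r ≃ J := (Finite.equivFinOfCardEq hcard).symm
  refine ⟨fun i => (e i : K), ?_, fun i => hI.subset (hJI (e i).2)⟩
  have h1 : AlgebraicIndependent k ((↑) : J → K) := by
    have := (hI.indep.subset hJI)
    rw [AlgebraicIndependent.matroid_indep_iff] at this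
    exact this
  exact h1.comp _ e.injective

/-- `f(γ)` is divisible by `X ^ m` if all monomials are -/
theorem dvd_aeval {k : Type*} [Field k] {K : Type*} [Field K] [Algebra k K] {N : ℕ}
    (γ : Fin N → K⟦X⟧) (w : Fin N → ℕ) (hγ : ∀ i, X ^ w i ∣ γ i) (f : MvPolynomial (Fin N) k) (m : ℕ)
    (h : ∀ d ∈ f.support, m ≤ ∑ j, w j * d j) : X ^ m ∣ (MvPolynomial.aeval γ f : K⟦X⟧) := by
  rw [MvPolynomial.aeval_def, MvPolynomial.eval₂_eq']
  refine Finset.dvd_sum fun d hd => Dvd.dvd.mul_left ?_ _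
  refine (pow_dvd_pow X (h d hd)).trans ?_
  rw [← Finset.prod_pow_eq_pow_sum]
  refine Finset.prod_dvd_prod_of_dvd _ _ fun i _ => ?_
  rw [pow_mul]
  exact pow_dvd_pow_of_dvd (hγ i) _

/-- number of pairs above the weights -/
theorem card_pairs (N n : ℕ) (w : Fin N → ℕ) :
    N * (n + 1) ≤ Nat.card {p : Fin N × Fin (n + 1) // w p.1 ≤ p.2} + ∑ j, w j := by
  classical
  have h1 : Nat.card {p : Fin N × Fin (n + 1) // w p.1 ≤ p.2} =
      (Finset.univ.filter (fun p : Fin N × Fin (n + 1) => w p.1 ≤ p.2)).card := by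
    rw [Nat.card_eq_fintype_card, Fintype.card_subtype]
  have h2 : (Finset.univ.filter (fun p : Fin N × Fin (n + 1) => ¬ w p.1 ≤ p.2)).card ≤ ∑ j, w j := by
    have : ∑ j, w j = (Finset.univ.sigma fun j : Fin N => Finset.range (w j)).card := by
      rw [Finset.card_sigma]; simp
    rw [this]
    refine Finset.card_le_card_of_injOn (fun p => ⟨p.1, (p.2 : ℕ)⟩) ?_ ?_
    · intro p hp
      have := (Finset.mem_filter.1 hp).2
      simpa using this
    · rintro ⟨a, b⟩ _ ⟨a', b'⟩ _ h
      simp only [Sigma.mk.injEq] at h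
      obtain ⟨rfl, h2⟩ := h
      have := eq_of_heq h2
      rw [Prod.mk.injEq]
      exact ⟨rfl, Fin.ext this⟩
  have h3 := Finset.card_filter_add_card_filter_not (s := (Finset.univ : Finset (Fin N × Fin (n + 1))))
    (fun p : Fin N × Fin (n + 1) => w p.1 ≤ p.2)
  have h4 : (Finset.univ : Finset (Fin N × Fin (n + 1))).card = N * (n + 1) := by simp
  omega

end Pool.Agent.MNJ
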