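import Pool.Agent.Work.MP_6c38a7_ag.Defs

/-!
# Cell MN: supporting lemmas (rank, truncation of arcs, slices)
-/

namespace Pool.Agent.MNJ

open MvPolynomial

universe u

section rank

variable {k K : Type*} [Field k] [Field K] [Algebra k K]

open IntermediateField.algebraAdjoinAdjoin in
theorem mem_closure_iff (S : Set K) (a : K) : a ∈ (AlgebraicIndependent.matroid k K).closure S ↔
    IsAlgebraic (IntermediateField.adjoin k S) a := by
  rw [AlgebraicIndependent.matroid_closure_eq]
  rw [SetLike.mem_coe, Subalgebra.mem_algebraicClosure]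
  exact IsFractionRing.isAlgebraic_iff (Algebra.adjoin k S) (IntermediateField.adjoin k S) K

theorem rk_mono {S T : Set K} (h : S ⊆ T) : rk k S ≤ rk k T :=
  (AlgebraicIndependent.matroid k K).eRk_mono h

theorem rk_le_of_alg {S T : Set K} (h : ∀ a ∈ S, IsAlgebraic (IntermediateField.adjoin k T) a) :
    rk k S ≤ rk k T := by
  unfold rk
  rw [← (AlgebraicIndependent.matroid k K).eRk_closure_eq T]
  exact (AlgebraicIndependent.matroid k K).eRk_mono fun a ha => (mem_closure_iff T a).2 (h a ha)

theorem rk_le_encard9 (S : Set K) : rk k S ≤ S.encard :=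
  (AlgebraicIndependent.matroid k K).eRk_le_encard S

theorem rk_union_le (S T : Set K) : rk k (S ∪ T) ≤ rk k S + T.encard :=
  ((AlgebraicIndependent.matroid k K).eRk_union_le_eRk_add_eRk S T).trans
    (add_le_add le_rfl (rk_le_encard9 (k := k) T))

end rank

section trunc

variable {k K : Type*} [Field k] [Field K] [Algebra k K]

theorem coeff_aeval_congr {σ : Type*} (γ γ' : σ → PowerSeries K) (n : ℕ)
    (h : ∀ i, ∀ j ≤ n, PowerSeries.coeff j (γ i) = PowerSeries.coeff j (γ' i)) (f : MvPolynomial σ k) :
    ∀ j ≤ n, PowerSeries.coeff j (aeval γ f : PowerSeries K) =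
      PowerSeries.coeff j (aeval γ' f : PowerSeries K) := by
  induction f using MvPolynomial.induction_on with
  | C a => intro j _; rw [algHom_C, algHom_C]
  | add p q hp hq => intro j hj; rw [map_add, map_add, map_add, map_add, hp j hj, hq j hj]
  | mul_X p i hp =>
    intro j hj
    rw [map_mul (aeval γ), map_mul (aeval γ'), aeval_X, aeval_X, PowerSeries.coeff_mul,
      PowerSeries.coeff_mul]
    refine Finset.sum_congr rfl fun x hx => ?_
    have := Finset.HasAntidiagonal.mem_antidiagonal.1 hx
    rw [hp x.1 (by omega), h i x.2 (by omega)]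

theorem le_order_congr {w w' : PowerSeries K} {n v : ℕ} (hv : v ≤ n + 1)
    (h : ∀ j ≤ n, PowerSeries.coeff j w = PowerSeries.coeff j w') (hw : (v : ℕ∞) ≤ w.order) :
    (v : ℕ∞) ≤ w'.order := by
  refine PowerSeries.nat_le_order _ _ fun j hj => ?_
  rw [← h j (by omega)]
  exact PowerSeries.coeff_of_lt_order j (lt_of_lt_of_le (by exact_mod_cast hj) hw)

/-- truncation at degree `n` -/
noncomputable def tr (n : ℕ) (w : PowerSeries K) : PowerSeries K :=
  ((PowerSeries.trunc (n + 1) w : Polynomial K) : PowerSeries K)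

theorem coeff_tr (n j : ℕ) (w : PowerSeries K) :
    PowerSeries.coeff j (tr n w) = if j ≤ n then PowerSeries.coeff j w else 0 := by
  unfold tr
  rw [Polynomial.coeff_coe, PowerSeries.coeff_trunc]
  simp only [Nat.lt_succ_iff]

theorem coeff_tr_of_le {n j : ℕ} (h : j ≤ n) (w : PowerSeries K) :
    PowerSeries.coeff j (tr n w) = PowerSeries.coeff j w := by rw [coeff_tr, if_pos h]

theorem constantCoeff_tr (n : ℕ) (w : PowerSeries K) :
    PowerSeries.constantCoeff (tr n w) = PowerSeries.constantCoeff w := by
  rw [← PowerSeries.coeff_zero_eq_constantCoeff_apply, coeff_tr_of_le (Nat.zero_le _),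
    PowerSeries.coeff_zero_eq_constantCoeff_apply]

theorem cs_congr {ι : Type*} {n : ℕ} {γ γ' : ι → PowerSeries K}
    (h : ∀ i, ∀ j ≤ n, PowerSeries.coeff j (γ i) = PowerSeries.coeff j (γ' i)) : cs n γ = cs n γ' := by
  ext c
  constructor
  · rintro ⟨i, j, hj, rfl⟩; exact ⟨i, j, hj, h i j hj⟩
  · rintro ⟨i, j, hj, rfl⟩; exact ⟨i, j, hj, (h i j hj).symm⟩

end trunc

section

variable {k : Type u} [Field k] {K : Type*} [Field K] [Algebra k K]

theorem RB.congr {n : ℕ} {y z y' z' : PowerSeries K} {p q E D : ℕ} (h : RB k n y z p q E D)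
    (hy : ∀ j ≤ n, PowerSeries.coeff j y = PowerSeries.coeff j y')
    (hz : ∀ j ≤ n, PowerSeries.coeff j z = PowerSeries.coeff j z') : RB k n y' z' p q E D := by
  intro g v hv hord d hd
  refine h g v hv ?_ d hd
  refine le_order_congr (by omega) (coeff_aeval_congr ![y', z'] ![y, z] n ?_ g) hord
  intro i j hj
  fin_cases i
  · exact (hy j hj).symm
  · exact (hz j hj).symm

theorem RB.swap {n : ℕ} {y z : PowerSeries K} {p q E D : ℕ} (h : RB k n y z p q E D) :
    RB k n z y q p E D := by
  intro g v hv hord d hd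
  have h1 := h (rename ![1, 0] g) v hv (by
    rw [aeval_rename]
    have : (![y, z] ∘ ![1, 0] : Fin 2 → PowerSeries K) = ![z, y] := by
      funext i; fin_cases i <;> rfl
    rw [this]; exact hord) (Finsupp.mapDomain ![1, 0] d) (by
      rw [support_rename_of_injective (by decide)]
      exact Finset.mem_image_of_mem _ hd)
  have e0 : Finsupp.mapDomain (![1, 0] : Fin 2 → Fin 2) d 0 = d 1 := by
    have := Finsupp.mapDomain_apply (f := (![1, 0] : Fin 2 → Fin 2)) (by decide) d 1
    simpa using this
  have e1 : Finsupp.mapDomain (![1, 0] : Fin 2 → Fin 2) d 1 = d 0 := by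
    have := Finsupp.mapDomain_apply (f := (![1, 0] : Fin 2 → Fin 2)) (by decide) d 0
    simpa using this
  rw [e0, e1] at h1
  rw [add_comm (q * d 0)]; exact h1

theorem slice_coeff (y z : PowerSeries K) (f : MvPolynomial (Fin 3) k) (l : ℕ) :
    (slice y z f).coeff l = aeval ![y, z] ((finSuccEquiv k 2 f).coeff l) := by
  have h : slice y z = (Polynomial.mapAlgHom (aeval ![y, z] : MvPolynomial (Fin 2) k →ₐ[k]
      PowerSeries K)).comp (finSuccEquiv k 2).toAlgHom := by
    apply algHom_ext
    intro i
    rw [slice, aeval_X]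
    fin_cases i
    · simp [finSuccEquiv_X_zero]
    · have : (⟨1, by decide⟩ : Fin 3) = (0 : Fin 2).succ := rfl
      simp only [this, AlgHom.comp_apply]
      change _ = Polynomial.mapAlgHom _ (finSuccEquiv k 2 (X (0 : Fin 2).succ))
      rw [finSuccEquiv_X_succ]
      simp
    · have : (⟨2, by decide⟩ : Fin 3) = (1 : Fin 2).succ := rfl
      simp only [this, AlgHom.comp_apply]
      change _ = Polynomial.mapAlgHom _ (finSuccEquiv k 2 (X (1 : Fin 2).succ))
      rw [finSuccEquiv_X_succ]
      simp
  rw [h]
  change (Polynomial.map _ (finSuccEquiv k 2 f)).coeff l = _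
  rw [Polynomial.coeff_map]
  rfl

theorem slice_eval (γ : Fin 3 → PowerSeries K) (f : MvPolynomial (Fin 3) k) :
    (slice (k := k) (γ 1) (γ 2) f).eval (γ 0) = aeval γ f := by
  induction f using MvPolynomial.induction_on with
  | C a =>
    rw [algHom_C, algHom_C]
    change ((algebraMap k (Polynomial (PowerSeries K))) a).eval (γ 0) = _
    rw [Polynomial.algebraMap_apply, Polynomial.eval_C]
  | add p q hp hq => rw [map_add, map_add, Polynomial.eval_add, hp, hq]
  | mul_X p i hp =>
    rw [map_mul, map_mul, Polynomial.eval_mul, hp, aeval_X, slice, aeval_X]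
    congr 1
    fin_cases i
    · simp
    · simp
    · simp

/-- coefficients of `g(y, z)` lie in the field generated by the coefficients of `y, z` -/
theorem coeff_aeval_mem {σ : Type*} (L : IntermediateField k K) (γ : σ → PowerSeries K)
    (h : ∀ i j, PowerSeries.coeff j (γ i) ∈ L) (g : MvPolynomial σ k) (j : ℕ) :
    PowerSeries.coeff j (aeval γ g : PowerSeries K) ∈ L := by
  induction g using MvPolynomial.induction_on generalizing j with
  | C a =>
    rw [algHom_C, PowerSeries.algebraMap_apply, PowerSeries.coeff_C]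
    split_ifs
    · exact L.algebraMap_mem a
    · exact L.zero_mem
  | add p q hp hq => rw [map_add, map_add]; exact L.add_mem (hp j) (hq j)
  | mul_X p i hp =>
    rw [map_mul (aeval γ), aeval_X, PowerSeries.coeff_mul]
    exact sum_mem fun x _ => L.mul_mem (hp x.1) (h i x.2)

end

end Pool.Agent.MNJ
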