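import Pool.Agent.Work.MP_6c38a7_ag.Defs
import Pool.Agent.Work.MP_6c38a7_ag.KrullTrdeg
import Pool.Agent.Work.MP_6c38a7_ag.PointsA
import Pool.Agent.Work.MP_6c38a7_ag.Support

/-!
# Cell MN, module A: Krull dimension through points with values in extension fields
-/

namespace Pool.Agent.MNJ

open MvPolynomial

universe u

/-- A1 : a `K`-valued point of `V(J)` bounds the dimension from below. -/
theorem rk_le_dim {k : Type u} [Field k] {ι : Type} [Finite ι] {K : Type u} [Field K] [Algebra k K]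
    (J : Ideal (MvPolynomial ι k)) (x : ι → K) (hx : ∀ g ∈ J, aeval x g = 0) :
    ((rk k (Set.range x) : ℕ∞) : WithBot ℕ∞) ≤ ringKrullDim (MvPolynomial ι k ⧸ J) := by
  have hfin : rk k (Set.range x) ≠ ⊤ := by
    refine ne_top_of_le_ne_top ?_ (Matroid.eRk_le_encard _ _)
    exact (Set.encard_ne_top_iff).2 (Set.finite_range x)
  obtain ⟨r, hr⟩ := ENat.ne_top_iff_exists.1 hfin
  obtain ⟨T, hT, hTS⟩ := exists_indep_of_le_rk (Set.range x) r hr.le
  choose f hf using hTS
  rw [← hr]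
  have ht : AlgebraicIndependent k (fun i => (aeval x : MvPolynomial ι k →ₐ[k] K) (X (f i))) := by
    have : (fun i => (aeval x : MvPolynomial ι k →ₐ[k] K) (X (f i))) = T := by
      funext i
      rw [aeval_X, hf i]
    rw [this]
    exact hT
  exact MN.le_ringKrullDim_of_point J r (aeval x) hx (fun i => X (f i)) ht

/-- A2 : the dimension is attained. -/
theorem exists_point {k : Type u} [Field k] {ι : Type} [Finite ι] (J : Ideal (MvPolynomial ι k))
    (hJ : J ≠ ⊤) : ∃ (K : Type u) (_ : Field K) (_ : Algebra k K) (x : ι → K),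
      (∀ g ∈ J, aeval x g = 0) ∧
      ringKrullDim (MvPolynomial ι k ⧸ J) = ((rk k (Set.range x) : ℕ∞) : WithBot ℕ∞) := by
  have hnt : Nontrivial (MvPolynomial ι k ⧸ J) := Ideal.Quotient.nontrivial_iff.2 hJ
  have h1 : ringKrullDim (MvPolynomial ι k ⧸ J) ≤ (Nat.card ι : ℕ) := by
    refine (ringKrullDim_quotient_le J).trans ?_
    rw [MvPolynomial.ringKrullDim_of_isNoetherianRing, ringKrullDim_eq_zero_of_field, zero_add]
  obtain ⟨d, hd⟩ : ∃ d : ℕ, ringKrullDim (MvPolynomial ι k ⧸ J) = ((d : ℕ∞) : WithBot ℕ∞) := by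
    have h0 : ringKrullDim (MvPolynomial ι k ⧸ J) ≠ ⊥ := by
      intro h
      have h2 : (0 : WithBot ℕ∞) ≤ ringKrullDim (MvPolynomial ι k ⧸ J) :=
        ringKrullDim_nonneg_of_nontrivial
      rw [h] at h2
      exact absurd h2 (by simp)
    obtain ⟨e, he⟩ := WithBot.ne_bot_iff_exists.1 h0
    rw [← he] at h1 ⊢
    have h2 : e ≤ (Nat.card ι : ℕ) := by exact_mod_cast h1
    obtain ⟨d, hd⟩ := ENat.ne_top_iff_exists.1 (ne_top_of_le_ne_top (ENat.natCast_ne_top _) h2)
    exact ⟨d, by rw [hd]⟩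
  obtain ⟨K, hK, hkK, φ, hφ, t, ht⟩ := MN.exists_point_of_le_ringKrullDim (k := k) J d
    (by rw [hd]; rfl)
  have hφx : ∀ g, aeval (fun i => φ (X i)) g = φ g := by
    intro g
    exact (DFunLike.congr_fun (aeval_unique φ) g).symm
  have hx : ∀ g ∈ J, aeval (fun i => φ (X i)) g = 0 := by
    intro g hg
    rw [hφx, hφ g hg]
  refine ⟨K, hK, hkK, fun i => φ (X i), hx, le_antisymm ?_ (rk_le_dim J _ hx)⟩
  rw [hd]
  have h3 : ((Nat.card (Fin d) : ℕ) : ℕ∞) ≤ rk k (Set.range fun i => φ (t i)) :=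
    card_le_rk _ ht _ fun i => ⟨i, rfl⟩
  rw [Nat.card_fin] at h3
  have h4 : rk k (Set.range fun i => φ (t i)) ≤ rk k (Set.range fun i => φ (X i)) := by
    refine rk_le_of_alg ?_
    rintro _ ⟨i, rfl⟩
    have h5 : φ (t i) ∈ IntermediateField.adjoin k (Set.range fun i => φ (X i)) := by
      refine IntermediateField.algebra_adjoin_le_adjoin k _ ?_
      rw [Algebra.adjoin_range_eq_range_aeval]
      exact ⟨t i, hφx (t i)⟩
    exact isAlgebraic_algebraMap (⟨φ (t i), h5⟩ :
      IntermediateField.adjoin k (Set.range fun i => φ (X i)))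
  exact WithBot.coe_le_coe.2 (h3.trans h4)

end Pool.Agent.MNJ
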