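import Pool.Agent.Work.MP_6c38a7_ag.JetA
import Pool.Agent.Work.MP_6c38a7_ag.JetB
import Pool.Agent.Work.MP_6c38a7_ag.JetC
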