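import Pool.Agent.Work.MP_6c38a7_ag.JetB

/-!
# Cell MN, module B1: an arc with values in an extension field bounds `s_m` from above
-/

namespace Pool.Agent.MNJ

open MvPolynomial

universe u

namespace JetAAux

theorem toE_mono {r : ℕ} {D : WithBot ℕ∞} (h : ((r : ℕ∞) : WithBot ℕ∞) ≤ D) :
    ((r : ℝ) : EReal) ≤ toE D := by
  rw [← toE_nat]
  induction D with
  | bot => exact absurd (le_bot_iff.1 h) (WithBot.coe_ne_bot)
  | coe D =>
    have h1 : (r : ℕ∞) ≤ D := WithBot.coe_le_coe.1 h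
    change (((r : ℕ∞) : ENNReal) : EReal) ≤ ((D : ENNReal) : EReal)
    exact EReal.coe_ennreal_le_coe_ennreal_iff.2 (by exact_mod_cast h1)

/-- the coefficients up to level `n` in terms of those up to level `n₀` -/
theorem rk_cs_le {k : Type*} [Field k] {K : Type*} [Field K] [Algebra k K] {N : ℕ}
    (γ : Fin N → PowerSeries K) {n₀ n : ℕ} (h : n₀ ≤ n) :
    rk k (cs n γ) ≤ rk k (cs n₀ γ) + ((N * (n - n₀) : ℕ) : ℕ∞) := by
  set T : Set K := Set.range fun p : Fin N × Fin (n - n₀) =>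
    PowerSeries.coeff (n₀ + 1 + (p.2 : ℕ)) (γ p.1) with hT
  have h1 : cs n γ ⊆ cs n₀ γ ∪ T := by
    rintro _ ⟨i, j, hj, rfl⟩
    by_cases hj0 : j ≤ n₀
    · exact Or.inl ⟨i, j, hj0, rfl⟩
    · refine Or.inr ⟨(i, ⟨j - (n₀ + 1), by omega⟩), ?_⟩
      have : n₀ + 1 + (j - (n₀ + 1)) = j := by omega
      simp only [this]
  have h2 : T.encard ≤ ((N * (n - n₀) : ℕ) : ℕ∞) := by
    rw [hT, ← Set.image_univ]
    refine (Set.encard_image_le _ _).trans ?_
    rw [Set.encard_univ, ENat.card_eq_coe_fintype_card]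
    simp
  exact (rk_mono h1).trans ((rk_union_le _ _).trans (add_le_add le_rfl h2))

end JetAAux

/-- B1 -/
theorem sVal_le_of_arc {k : Type u} [Field k] {N s : ℕ} (e : Fin s → ℝ)
    (a : Fin s → Ideal (MvPolynomial (Fin N) k)) (m : Fin s → ℕ) {K : Type u} [Field K] [Algebra k K]
    (γ : Fin N → PowerSeries K) (hγ : Contact a m γ) (n r : ℕ) (hn : ∑ i, m i ≤ n)
    (hr : (r : ℕ∞) ≤ rk k (cs n γ)) :
    sVal e a m ≤ ((((N * (n + 1) : ℕ) : ℝ) - r - ∑ i, e i * (m i : ℝ) : ℝ) : EReal) := by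
  set n₀ := ∑ i, m i with hn₀
  let x : Fin N × Fin (n₀ + 1) → K := fun p => PowerSeries.coeff (p.2 : ℕ) (γ p.1)
  have hxγ : ∀ i, ∀ j ≤ n₀, PowerSeries.coeff j (jetArc x i) = PowerSeries.coeff j (γ i) := by
    intro i j hj
    exact coeff_jetArc x i ⟨j, Nat.lt_succ_of_le hj⟩
  have hx : ∀ g ∈ contactIdeal a m n₀, aeval x g = 0 := by
    have hle : contactIdeal a m n₀ ≤ RingHom.ker (aeval x : JetRing k N n₀ →ₐ[k] K) := by
      refine Ideal.span_le.2 ?_
      rintro g (⟨i, rfl⟩ | ⟨i, f, hf, j, hj, rfl⟩)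
      · change aeval x (X (i, 0)) = 0
        rw [aeval_X]
        have := hγ.1 i
        rw [← PowerSeries.coeff_zero_eq_constantCoeff_apply] at this
        exact this
      · change aeval x ((jetEval k N n₀ f).coeff j) = 0
        have h1 : j ≤ n₀ := hj.le.trans (by
          rw [hn₀]
          exact Finset.single_le_sum (f := m) (fun _ _ => Nat.zero_le _) (Finset.mem_univ i))
        have h2 := aeval_jetArc (k := k) x f
        have h3 := coeff_aeval_congr (k := k) (jetArc x) γ n₀ hxγ f j h1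
        rw [h2, Polynomial.coeff_coe, Polynomial.coeff_map] at h3
        refine h3.trans ?_
        exact PowerSeries.coeff_of_lt_order j (lt_of_lt_of_le (by exact_mod_cast hj) (hγ.2 i f hf))
    intro g hg
    exact hle hg
  have hrange : Set.range x = cs n₀ γ := by
    ext c
    constructor
    · rintro ⟨⟨i, j⟩, rfl⟩
      exact ⟨i, j, Nat.le_of_lt_succ j.2, rfl⟩
    · rintro ⟨i, j, hj, rfl⟩
      exact ⟨(i, ⟨j, Nat.lt_succ_of_le hj⟩), rfl⟩
  have hfin : rk k (Set.range x) ≠ ⊤ := by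
    refine ne_top_of_le_ne_top ?_ (Matroid.eRk_le_encard _ _)
    exact (Set.encard_ne_top_iff).2 (Set.finite_range x)
  obtain ⟨r₀, hr₀⟩ := ENat.ne_top_iff_exists.1 hfin
  have hdim := rk_le_dim (contactIdeal a m n₀) x hx
  rw [← hr₀] at hdim
  have h1 := JetAAux.toE_mono hdim
  have h2 : r ≤ r₀ + N * (n - n₀) := by
    have := hr.trans (JetAAux.rk_cs_le (k := k) γ hn)
    rw [← hrange, ← hr₀] at this
    exact_mod_cast this
  have h3 : (((N * (n₀ + 1) : ℕ) : ℝ) - r₀ : ℝ) ≤ ((N * (n + 1) : ℕ) : ℝ) - r := by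
    have h4 : ((r : ℕ) : ℝ) ≤ ((r₀ + N * (n - n₀) : ℕ) : ℝ) := by exact_mod_cast h2
    have h5 : N * (n₀ + 1) + N * (n - n₀) = N * (n + 1) := by
      rw [← Nat.mul_add]
      congr 1
      omega
    have h6 : ((N * (n₀ + 1) : ℕ) : ℝ) + ((N * (n - n₀) : ℕ) : ℝ) = ((N * (n + 1) : ℕ) : ℝ) := by
      exact_mod_cast h5
    rw [Nat.cast_add] at h4
    linarith
  unfold sVal codimCont
  rw [← hn₀, EReal.coe_sub]
  refine EReal.sub_le_sub ?_ le_rfl
  refine (EReal.sub_le_sub le_rfl h1).trans ?_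
  rw [← EReal.coe_sub]
  exact EReal.coe_le_coe_iff.2 h3

end Pool.Agent.MNJ
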