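import Pool.Agent.Work.MP_6c38a7_ag.Main2D
import Pool.Agent.Work.MP_6c38a7_ag.Arith2

/-!
# Cell MN: the stronger form of the main theorem
-/

namespace Pool.Agent.MNJ

open MvPolynomial

universe u

theorem main2 {s : ℕ} (e : Fin s → ℝ) (he : ∀ i, 0 < e i) :
    ∃ ℓ : ℕ, ∀ (k : Type u) [Field k] [IsAlgClosed k] (a : Fin s → Ideal (MvPolynomial (Fin 3) k)),
      (∀ μ : Fin s → ℕ, (∀ i, OrdAt0 (a i) (μ i)) → ∑ i, e i * (μ i : ℝ) ≤ 3 →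
        ∃ T : Finset (Fin s), (∀ i ∈ T, GoodLead (a i) (μ i)) ∧
          ∑ i, e i * (μ i : ℝ) ≤ 1 + ∑ i ∈ T, e i) →
      ∃ m : Fin s → ℕ, ∑ i, m i ≤ ℓ ∧ Computes e a m :=
  main2_aux e he (arith2 e he)

end Pool.Agent.MNJ
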