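import Pool.Agent.Work.MP_6c38a7_ag.XStep

/-!
# Cell MN, stronger form: a ball can be replaced by `{ord X ≥ c}`
-/

namespace Pool.Agent.MNJ

open Polynomial XStep

/-- as `xstep`, with several indices which satisfy a contact inequality -/
theorem xstep2 {K : Type*} [Field K] {s : ℕ} (e : Fin s → ℝ) (he : ∀ i, 0 < e i) (μ : Fin s → ℕ)
    (T : Finset (Fin s)) (hsum : ∑ i, e i * (μ i : ℝ) ≤ 1 + ∑ i ∈ T, e i) (hμT : ∀ i ∈ T, 1 ≤ μ i)
    (Pl : Fin s → Set (Polynomial (PowerSeries K))) (M : ℕ) (hM : 1 ≤ M) (Ξ : PowerSeries K)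
    (hΞ : PowerSeries.constantCoeff Ξ = 0) (m : Fin s → ℕ)
    (h1 : ∀ i, ∀ P ∈ Pl i, ∀ l, (m i : ℕ∞) ≤ ((Polynomial.hasseDeriv l P).eval Ξ).order +
      ((l * M : ℕ) : ℕ∞))
    (h2 : ∀ i, ∃ P ∈ Pl i, (P.coeff (μ i)).order = 0)
    (h3 : ∀ i ∈ T, ∀ h : ℕ, Ξ.order = h → h < M → m i ≤ h + (μ i - 1) * M) :
    ∃ (c : ℕ) (m' : Fin s → ℕ), 1 ≤ c ∧ c ≤ M ∧ (∀ i, m' i ≤ m i) ∧
      (∀ i, ∀ P ∈ Pl i, ∀ l, (m' i : ℕ∞) ≤ (P.coeff l).order + ((l * c : ℕ) : ℕ∞)) ∧
      (c : ℝ) - ∑ i, e i * (m' i : ℝ) ≤ M - ∑ i, e i * (m i : ℝ) := by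
  classical
  by_cases hh : (M : ℕ∞) ≤ Ξ.order
  · refine ⟨M, m, hM, le_rfl, fun _ => le_rfl, fun i P hP l => ?_, le_rfl⟩
    have := recenter P Ξ 0 M (by rw [zero_sub, PowerSeries.order_neg]; exact hh) (m i) (h1 i P hP) l
    rwa [hasse_eval_zero] at this
  · push Not at hh
    -- the order of `Ξ`
    have hne : Ξ ≠ 0 := by
      rintro rfl
      rw [PowerSeries.order_zero] at hh
      exact absurd hh (not_lt.2 le_top)
    obtain ⟨h, hh0⟩ : ∃ h : ℕ, Ξ.order = h := ⟨_, (PowerSeries.coe_toNat_order hne).symm⟩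
    have hhM : h < M := by rw [hh0] at hh; exact_mod_cast hh
    have hh1 : 1 ≤ h := by
      rcases Nat.eq_zero_or_pos h with h' | h'
      · exfalso
        subst h'
        have hc := PowerSeries.coeff_order hne
        rw [hh0] at hc
        apply hc
        rw [ENat.toNat_natCast, PowerSeries.coeff_zero_eq_constantCoeff_apply, hΞ]
      · exact h'
    let pr : Fin s → ℕ → Prop := fun i v => ∀ P ∈ Pl i, ∀ l, (v : ℕ∞) ≤ (P.coeff l).order +
      ((l * h : ℕ) : ℕ∞)
    let m' : Fin s → ℕ := fun i => Nat.findGreatest (pr i) (m i)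
    have hm'le : ∀ i, m' i ≤ m i := fun i => Nat.findGreatest_le _
    have hm'pr : ∀ i, pr i (m' i) := fun i =>
      Nat.findGreatest_spec (P := pr i) (m := 0) (Nat.zero_le _) (by intro P _ l; simp)
    -- `m' i ≤ μ i * h`
    have hm'μ : ∀ i, m' i ≤ μ i * h := by
      intro i
      obtain ⟨P, hP, hu⟩ := h2 i
      have := hm'pr i P hP (μ i)
      rw [hu, zero_add] at this
      exact_mod_cast this
    -- if `m' i < m i` there is a small Hasse derivative
    have hsmall : ∀ i, m' i < m i → ∃ P ∈ Pl i, ∃ l, ((hasseDeriv l P).eval Ξ).order + ((l * h : ℕ) : ℕ∞) ≤ m' i := by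
      intro i hi
      by_contra hcon
      push Not at hcon
      have : pr i (m' i + 1) := by
        intro P hP l
        have := recenter P Ξ 0 h (by rw [zero_sub, PowerSeries.order_neg, hh0]) (m' i + 1)
          (fun l => by
            have := hcon P hP l
            have h5 := Order.add_one_le_of_lt this
            exact_mod_cast h5) l
        rwa [hasse_eval_zero] at this
      have h6 := Nat.le_findGreatest (P := pr i) (show m' i + 1 ≤ m i from hi) this
      change m' i + 1 ≤ m' i at h6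
      omega
    -- the bound for all `i`
    have hbd : ∀ i, m' i < m i → ∃ l, l ≤ μ i ∧ m i ≤ m' i + l * (M - h) ∧ l * h ≤ m' i := by
      intro i hi
      obtain ⟨P, hP, l, hl⟩ := hsmall i hi
      have h7 : l * h ≤ m' i := by
        have : ((l * h : ℕ) : ℕ∞) ≤ m' i := le_add_self.trans hl
        exact_mod_cast this
      refine ⟨l, ?_, ?_, h7⟩
      · have := h7.trans (hm'μ i)
        exact Nat.le_of_mul_le_mul_right this (by omega)
      · have h8 := h1 i P hP l
        have h9 : (m i : ℕ∞) ≤ ((m' i + l * (M - h) : ℕ) : ℕ∞) := by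
          calc (m i : ℕ∞) ≤ ((hasseDeriv l P).eval Ξ).order + ((l * M : ℕ) : ℕ∞) := h8
            _ = ((hasseDeriv l P).eval Ξ).order + ((l * h : ℕ) : ℕ∞) + ((l * (M - h) : ℕ) : ℕ∞) := by
                rw [add_assoc]; congr 1
                rw [← Nat.cast_add, ← mul_add, Nat.add_sub_cancel' hhM.le]
            _ ≤ (m' i : ℕ∞) + ((l * (M - h) : ℕ) : ℕ∞) := by gcongr
            _ = _ := by push_cast; rfl
        exact_mod_cast h9
    have hbd1 : ∀ i, m i ≤ m' i + μ i * (M - h) := by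
      intro i
      rcases lt_or_ge (m' i) (m i) with hi | hi
      · obtain ⟨l, hl, h8, _⟩ := hbd i hi
        exact h8.trans (by gcongr)
      · omega
    have hbd2 : ∀ i ∈ T, m i ≤ m' i + (μ i - 1) * (M - h) := by
      intro i hiT
      have hμ1 := hμT i hiT
      rcases lt_or_ge (m' i) (m i) with hi | hi
      · obtain ⟨l, hl, h8, h9⟩ := hbd i hi
        rcases Nat.lt_or_ge l (μ i) with h10 | h10
        · exact h8.trans (by gcongr; omega)
        · have hlμ : l = μ i := le_antisymm hl h10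
          subst hlμ
          have hm'e : m' i = μ i * h := le_antisymm (hm'μ i) h9
          have h16 : m i ≤ h + (μ i - 1) * M := h3 i hiT h hh0 hhM
          rw [hm'e]
          obtain ⟨r, hr⟩ : ∃ r, μ i = r + 1 := ⟨μ i - 1, by omega⟩
          obtain ⟨t, ht⟩ : ∃ t, M = h + t := ⟨M - h, by omega⟩
          rw [hr, ht] at h16 ⊢
          rw [Nat.add_sub_cancel, Nat.add_sub_cancel_left]
          rw [Nat.add_sub_cancel] at h16
          nlinarith
      · omega
    refine ⟨h, m', hh1, hhM.le, hm'le, hm'pr, ?_⟩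
    -- the final inequality
    have hcast : ((M - h : ℕ) : ℝ) = (M : ℝ) - h := by
      rw [Nat.cast_sub hhM.le]
    have hpos : (0 : ℝ) < (M : ℝ) - h := by
      have : (h : ℝ) < M := by exact_mod_cast hhM
      linarith
    have key : ∑ i, e i * (m i : ℝ) ≤ ∑ i, e i * (m' i : ℝ) +
        ((M : ℝ) - h) * (∑ i, e i * (μ i : ℝ) - ∑ i ∈ T, e i) := by
      have hb : ∀ i, e i * (m i : ℝ) ≤ e i * (m' i : ℝ) + ((M : ℝ) - h) * (e i * (μ i : ℝ)) -
          ((M : ℝ) - h) * (if i ∈ T then e i else 0) := by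
        intro i
        by_cases hi : i ∈ T
        · rw [if_pos hi]
          have h17 : (m i : ℝ) ≤ (m' i : ℝ) + ((μ i : ℝ) - 1) * ((M : ℝ) - h) := by
            have h18 : ((m i : ℕ) : ℝ) ≤ ((m' i + (μ i - 1) * (M - h) : ℕ) : ℝ) := by
              exact_mod_cast hbd2 i hi
            rw [Nat.cast_add, Nat.cast_mul, hcast, Nat.cast_sub (hμT i hi), Nat.cast_one] at h18
            exact h18
          nlinarith [he i]
        · rw [if_neg hi, mul_zero, sub_zero]
          have h17 : (m i : ℝ) ≤ (m' i : ℝ) + (μ i : ℝ) * ((M : ℝ) - h) := by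
            have h18 : ((m i : ℕ) : ℝ) ≤ ((m' i + μ i * (M - h) : ℕ) : ℝ) := by exact_mod_cast hbd1 i
            rw [Nat.cast_add, Nat.cast_mul, hcast] at h18
            exact h18
          nlinarith [he i]
      calc ∑ i, e i * (m i : ℝ) ≤ ∑ i, (e i * (m' i : ℝ) + ((M : ℝ) - h) * (e i * (μ i : ℝ)) -
          ((M : ℝ) - h) * (if i ∈ T then e i else 0)) := Finset.sum_le_sum fun i _ => hb i
        _ = _ := by
          rw [Finset.sum_sub_distrib, Finset.sum_add_distrib, ← Finset.mul_sum, ← Finset.mul_sum,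
            Finset.sum_ite_mem, Finset.univ_inter]
          ring
    have h20 : ((M : ℝ) - h) * (∑ i, e i * (μ i : ℝ) - ∑ i ∈ T, e i) ≤ (M : ℝ) - h := by
      calc ((M : ℝ) - h) * (∑ i, e i * (μ i : ℝ) - ∑ i ∈ T, e i) ≤ ((M : ℝ) - h) * 1 :=
          mul_le_mul_of_nonneg_left (by linarith) hpos.le
        _ = _ := mul_one _
    linarith

end Pool.Agent.MNJ
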