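import Pool.Agent.Work.MP_6c38a7_ag.MainB
import Pool.Agent.Work.MP_6c38a7_ag.XStep2
import Pool.Agent.Work.MP_6c38a7_ag.Defs2

/-!
# Cell MN, stronger form: reduction to arcs which are monomial in `X`
-/

namespace Pool.Agent.MNJ

open MvPolynomial

universe u

section

variable {k : Type u} [Field k] {K : Type*} [Field K] [Algebra k K]

/-- the reduction to arcs which are monomial in `X` -/
theorem xred2 {s : ℕ} (e : Fin s → ℝ) (he : ∀ i, 0 < e i) (μ : Fin s → ℕ)
    (T : Finset (Fin s)) (hsum : ∑ i, e i * (μ i : ℝ) ≤ 1 + ∑ i ∈ T, e i) (hμT : ∀ i ∈ T, 1 ≤ μ i)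
    (a : Fin s → Ideal (MvPolynomial (Fin 3) k)) (m : Fin s → ℕ) (n : ℕ) (hmn : ∀ i, m i ≤ n)
    (hprep : Prep2 a μ) (γ : Fin 3 → PowerSeries K) (hγ : Contact a m γ)
    (hci : CI k n T μ m γ) (r : ℕ)
    (hr : rk k (cs n γ) = r) :
    ∃ (c r₂ : ℕ) (m' : Fin s → ℕ), 1 ≤ c ∧ c ≤ n + 1 ∧ (∀ i, m' i ≤ m i) ∧
      rk k (cs n ![γ 1, γ 2]) = r₂ ∧ r₂ ≤ 2 * (n + 1) ∧
      (∀ i, ∀ f ∈ a i, ∀ l, (m' i : ℕ∞) ≤ ((slice (k := k) (tr n (γ 1)) (tr n (γ 2)) f).coeff l).order +
        ((l * c : ℕ) : ℕ∞)) ∧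
      2 * ((n : ℝ) + 1) - r₂ + c - ∑ i, e i * (m' i : ℝ) ≤
        ((3 * (n + 1) : ℕ) : ℝ) - r - ∑ i, e i * (m i : ℝ) := by
  classical
  set S : Set K := cs n ![γ 1, γ 2] with hS
  set L := IntermediateField.adjoin k S with hL
  set x := γ 0 with hx
  set y := tr n (γ 1) with hy
  set z := tr n (γ 2) with hz
  have hx0 : PowerSeries.constantCoeff x = 0 := hγ.1 0
  have hy0 : PowerSeries.constantCoeff y = 0 := by rw [hy, constantCoeff_tr]; exact hγ.1 1
  have hz0 : PowerSeries.constantCoeff z = 0 := by rw [hz, constantCoeff_tr]; exact hγ.1 2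
  have hyz0 : ∀ i : Fin 2, PowerSeries.constantCoeff ((![y, z] : Fin 2 → PowerSeries K) i) = 0 := by
    intro i; fin_cases i
    · exact hy0
    · exact hz0
  have hSL : S ⊆ L := IntermediateField.subset_adjoin k S
  have hLc : ∀ (i : Fin 2) (j : ℕ), PowerSeries.coeff j ((![y, z] : Fin 2 → PowerSeries K) i) ∈ L := by
    intro i j
    fin_cases i
    · change PowerSeries.coeff j y ∈ L
      rw [hy, coeff_tr]
      split_ifs with h
      · exact hSL ⟨0, j, h, rfl⟩
      · exact L.zero_mem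
    · change PowerSeries.coeff j z ∈ L
      rw [hz, coeff_tr]
      split_ifs with h
      · exact hSL ⟨1, j, h, rfl⟩
      · exact L.zero_mem
  -- rank of the plane part
  have hSfin : S.encard ≤ ((2 * (n + 1) : ℕ) : ℕ∞) := by
    have : S ⊆ (((Finset.univ : Finset (Fin 2)) ×ˢ Finset.range (n + 1)).image
        (fun x : Fin 2 × ℕ => PowerSeries.coeff x.2 ((![γ 1, γ 2] : Fin 2 → PowerSeries K) x.1)) : Set K) := by
      rintro _ ⟨i, j, hj, rfl⟩
      rw [Finset.mem_coe, Finset.mem_image]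
      exact ⟨(i, j), by simp; omega, rfl⟩
    refine (Set.encard_le_encard this).trans ?_
    rw [Set.encard_coe_eq_coe_finsetCard]
    have h2 := Finset.card_image_le (s := (Finset.univ : Finset (Fin 2)) ×ˢ Finset.range (n + 1))
      (f := fun x : Fin 2 × ℕ => PowerSeries.coeff x.2 ((![γ 1, γ 2] : Fin 2 → PowerSeries K) x.1))
    rw [Finset.card_product, Finset.card_univ, Fintype.card_fin, Finset.card_range] at h2
    exact_mod_cast h2
  have hr2le : rk k S ≤ ((2 * (n + 1) : ℕ) : ℕ∞) := (rk_le_encard9 S).trans hSfin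
  obtain ⟨r₂, hr2⟩ : ∃ r₂ : ℕ, rk k S = r₂ := by
    have : rk k S ≠ ⊤ := ne_top_of_le_ne_top (ENat.natCast_ne_top _) hr2le
    exact ⟨_, (ENat.natCast_toNat this).symm⟩
  have hr2n : r₂ ≤ 2 * (n + 1) := by rw [hr2] at hr2le; exact_mod_cast hr2le
  -- the first transcendental index
  obtain ⟨M, hM1, hMn, hlow, htr, hcon⟩ : ∃ M : ℕ, 1 ≤ M ∧ M ≤ n + 1 ∧
      (∀ j < M, IsAlgebraic L (PowerSeries.coeff j x)) ∧
      (M ≤ n → Transcendental L (PowerSeries.coeff M x)) ∧
      ∀ i ∈ T, ∀ h : ℕ, x.order = h → h < M → m i ≤ h + (μ i - 1) * M := by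
    obtain ⟨M, hM1, hMn, hlow, htr, hcon⟩ := hci
    exact ⟨M, hM1, hMn, fun j hj => (mem_closure_iff _ _).1 (hlow j hj),
      fun h hc => htr h ((mem_closure_iff _ _).2 hc), hcon⟩
  -- rank inequality
  have hrank : r ≤ r₂ + (n + 1 - M) := by
    set T : Set K := (((Finset.Icc M n).image (fun j => PowerSeries.coeff j x) : Finset K) : Set K) with hT
    have hTc : T.encard ≤ ((n + 1 - M : ℕ) : ℕ∞) := by
      rw [hT, Set.encard_coe_eq_coe_finsetCard]
      have := Finset.card_image_le (s := Finset.Icc M n) (f := fun j => PowerSeries.coeff j x)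
      rw [Nat.card_Icc] at this
      exact_mod_cast this
    have h1 : rk k (cs n γ) ≤ rk k (S ∪ T) := by
      refine rk_le_of_alg fun b hb => ?_
      rw [← mem_closure_iff]
      obtain ⟨i, j, hj, rfl⟩ := hb
      have hsub : S ∪ T ⊆ (AlgebraicIndependent.matroid k K).closure (S ∪ T) :=
        (AlgebraicIndependent.matroid k K).subset_closure _ (by simp)
      fin_cases i
      · change PowerSeries.coeff j x ∈ _
        rcases Nat.lt_or_ge j M with h | h
        · refine (AlgebraicIndependent.matroid k K).closure_subset_closure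
            (Set.subset_union_left (s := S) (t := T)) ?_
          rw [mem_closure_iff]
          exact hlow j h
        · apply hsub; right
          rw [hT, Finset.mem_coe, Finset.mem_image]
          exact ⟨j, Finset.mem_Icc.2 ⟨h, hj⟩, rfl⟩
      · apply hsub; left
        exact ⟨0, j, hj, rfl⟩
      · apply hsub; left
        exact ⟨1, j, hj, rfl⟩
    have h2 : (r : ℕ∞) ≤ ((r₂ + (n + 1 - M) : ℕ) : ℕ∞) := by
      calc (r : ℕ∞) = rk k (cs n γ) := hr.symm
        _ ≤ rk k (S ∪ T) := h1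
        _ ≤ rk k S + T.encard := rk_union_le S T
        _ ≤ (r₂ : ℕ∞) + ((n + 1 - M : ℕ) : ℕ∞) := by rw [hr2]; gcongr
        _ = _ := by push_cast; rfl
    exact_mod_cast h2
  -- Gauss
  set Ξ : PowerSeries K := ((PowerSeries.trunc M x : Polynomial K) : PowerSeries K) with hΞ
  have hΞ0 : PowerSeries.constantCoeff Ξ = 0 := by
    rw [← PowerSeries.coeff_zero_eq_constantCoeff_apply, hΞ, Polynomial.coeff_coe,
      PowerSeries.coeff_trunc]
    split_ifs
    · rw [PowerSeries.coeff_zero_eq_constantCoeff_apply, hx0]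
    · rfl
  let Pl : Fin s → Set (Polynomial (PowerSeries K)) := fun i => {P | ∃ f ∈ a i, P = slice (k := k) y z f}
  have h1 : ∀ i, ∀ P ∈ Pl i, ∀ l, (m i : ℕ∞) ≤ ((Polynomial.hasseDeriv l P).eval Ξ).order +
      ((l * M : ℕ) : ℕ∞) := by
    rintro i P ⟨f, hf, rfl⟩ l
    refine gauss (L := L) x n M hMn hlow htr _ (fun l j => ?_) (m i) (by have := hmn i; omega) ?_ l
    · rw [slice_coeff]
      exact isAlgebraic_algebraMap (⟨_, coeff_aeval_mem L ![y, z] hLc _ j⟩ : L)
    · have e1 := slice_eval (k := k) ![x, y, z] f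
      have e2 : (slice (k := k) y z f).eval x = aeval ![x, y, z] f := e1
      rw [e2]
      refine le_order_congr (n := n) (by have := hmn i; omega) (coeff_aeval_congr γ ![x, y, z] n ?_ f)
        (hγ.2 i f hf)
      intro i j hj
      fin_cases i
      · rfl
      · exact (coeff_tr_of_le hj _).symm
      · exact (coeff_tr_of_le hj _).symm
  have hord0 : ∀ (i : Fin s) (f : MvPolynomial (Fin 3) k), f.coeff (Finsupp.single 0 (μ i)) ≠ 0 →
      ((slice (k := k) y z f).coeff (μ i)).order = 0 := by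
    intro i f hf
    have h4 : PowerSeries.constantCoeff ((slice (k := k) y z f).coeff (μ i)) ≠ 0 := by
      rw [slice_coeff, constantCoeff_aeval9 _ hyz0, constantCoeff_eq, finSuccEquiv_coeff_coeff]
      have e3 : Finsupp.cons (μ i) (0 : Fin 2 →₀ ℕ) = Finsupp.single 0 (μ i) := by
        ext j
        refine Fin.cases ?_ (fun j => ?_) j
        · simp
        · rw [Finsupp.cons_succ, Finsupp.single_apply, if_neg (Fin.succ_ne_zero j).symm]; rfl
      rw [e3]
      simpa using hf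
    have h5 := PowerSeries.order_le (φ := (slice (k := k) y z f).coeff (μ i)) 0 (by
      rwa [PowerSeries.coeff_zero_eq_constantCoeff_apply])
    exact le_antisymm (by simpa using h5) (by simp)
  have h2 : ∀ i, ∃ P ∈ Pl i, (P.coeff (μ i)).order = 0 := by
    intro i
    obtain ⟨f, hf, hfc⟩ := hprep.pure i
    exact ⟨_, ⟨f, hf, rfl⟩, hord0 i f hfc⟩
  have h3 : ∀ i ∈ T, ∀ h : ℕ, Ξ.order = h → h < M → m i ≤ h + (μ i - 1) * M := by
    intro i hi h hh hhM
    refine hcon i hi h ?_ hhM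
    have hc : ∀ j, j ≤ h → PowerSeries.coeff j Ξ = PowerSeries.coeff j x := by
      intro j hj
      rw [hΞ, Polynomial.coeff_coe, PowerSeries.coeff_trunc, if_pos (by omega)]
    rw [PowerSeries.order_eq_nat] at hh ⊢
    exact ⟨by rw [← hc h le_rfl]; exact hh.1, fun j hj => by rw [← hc j hj.le]; exact hh.2 j hj⟩
  obtain ⟨c, m', hc1, hcM, hm', hP', hfin⟩ := xstep2 e he μ T hsum hμT Pl M hM1 Ξ hΞ0 m h1 h2 h3
  refine ⟨c, r₂, m', hc1, by omega, hm', hr2, hr2n, fun i f hf l => hP' i _ ⟨f, hf, rfl⟩ l, ?_⟩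
  have h8 : (r : ℝ) ≤ (r₂ : ℝ) + ((n : ℝ) + 1 - M) := by
    have : ((r : ℕ) : ℝ) ≤ ((r₂ + (n + 1 - M) : ℕ) : ℝ) := by exact_mod_cast hrank
    rw [Nat.cast_add, Nat.cast_sub hMn] at this
    push_cast at this
    exact this
  push_cast
  linarith

end

end Pool.Agent.MNJ
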