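import Pool.Agent.Work.MP_6c38a7_ag.Defs

/-!
# The uniform bound for monomial ideals
-/

namespace Pool.Agent.MNJ

namespace MonoAux

/-- the minimal weight -/
noncomputable def mn {N : ℕ} (Γ : Set (Fin N → ℕ)) (w : Fin N → ℕ) : ℕ :=
  sInf {v | ∃ d ∈ Γ, v = ∑ j, w j * d j}

lemma Fw_eq {N s : ℕ} (e : Fin s → ℝ) (Γ : Fin s → Set (Fin N → ℕ)) (w : Fin N → ℕ) :
    Fw e Γ w = ((∑ j, w j : ℕ) : ℝ) - ∑ i, e i * (mn (Γ i) w : ℝ) := rfl

lemma mn_le {N : ℕ} {Γ : Set (Fin N → ℕ)} (w : Fin N → ℕ) {d : Fin N → ℕ} (hd : d ∈ Γ) :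
    mn Γ w ≤ ∑ j, w j * d j := Nat.sInf_le ⟨d, hd, rfl⟩

lemma exists_mn {N : ℕ} {Γ : Set (Fin N → ℕ)} (hΓ : Γ.Nonempty) (w : Fin N → ℕ) :
    ∃ d ∈ Γ, mn Γ w = ∑ j, w j * d j := by
  obtain ⟨d, hd⟩ := hΓ
  exact Nat.sInf_mem (s := {v | ∃ d ∈ Γ, v = ∑ j, w j * d j}) ⟨_, d, hd, rfl⟩

lemma le_mn {N : ℕ} {Γ : Set (Fin N → ℕ)} (hΓ : Γ.Nonempty) {w : Fin N → ℕ} {v : ℕ}
    (h : ∀ d ∈ Γ, v ≤ ∑ j, w j * d j) : v ≤ mn Γ w := by
  obtain ⟨d, hd, h1⟩ := exists_mn hΓ w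
  rw [h1]
  exact h d hd

lemma dot_mono {N : ℕ} (w : Fin N → ℕ) {d d' : Fin N → ℕ} (h : d ≤ d') :
    ∑ j, w j * d j ≤ ∑ j, w j * d' j :=
  Finset.sum_le_sum fun j _ => Nat.mul_le_mul_left _ (h j)

/-- the up-set generated by `Γ` -/
def up {N : ℕ} (Γ : Set (Fin N → ℕ)) : Set (Fin N → ℕ) := {d | ∃ g ∈ Γ, g ≤ d}

lemma subset_up {N : ℕ} (Γ : Set (Fin N → ℕ)) : Γ ⊆ up Γ := fun d hd => ⟨d, hd, le_rfl⟩

lemma mn_up {N : ℕ} {Γ : Set (Fin N → ℕ)} (hΓ : Γ.Nonempty) (w : Fin N → ℕ) :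
    mn (up Γ) w = mn Γ w := by
  apply le_antisymm
  · exact le_mn hΓ fun d hd => mn_le w (subset_up Γ hd)
  · refine le_mn (hΓ.mono (subset_up Γ)) fun d hd => ?_
    obtain ⟨g, hg, hgd⟩ := hd
    exact (mn_le w hg).trans (dot_mono w hgd)

/-- the finite set of minimal elements -/
lemma exists_gens {N : ℕ} (V : Set (Fin N → ℕ)) :
    ∃ A : Finset (Fin N → ℕ), (∀ a ∈ A, a ∈ V) ∧ ∀ d ∈ V, ∃ a ∈ A, a ≤ d := by
  have hfin : {d | Minimal (· ∈ V) d}.Finite :=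
    WellQuasiOrderedLE.finite_of_isAntichain (setOfPred_minimal_antichain _)
  refine ⟨hfin.toFinset, fun a ha => ((hfin.mem_toFinset).1 ha).prop, fun d hd => ?_⟩
  obtain ⟨a, ha, hmin⟩ := exists_minimal_le_of_wellFoundedLT (· ∈ V) d hd
  exact ⟨a, hfin.mem_toFinset.2 hmin, ha⟩

/-- the minimum over the generators -/
lemma le_mn_of_gens {N : ℕ} {V : Set (Fin N → ℕ)} (hV : V.Nonempty) {A : Finset (Fin N → ℕ)}
    (hA : ∀ d ∈ V, ∃ a ∈ A, a ≤ d) {w : Fin N → ℕ} {v : ℕ}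
    (h : ∀ a ∈ A, v ≤ ∑ j, w j * a j) : v ≤ mn V w := by
  refine le_mn hV fun d hd => ?_
  obtain ⟨a, ha, had⟩ := hA d hd
  exact (h a ha).trans (dot_mono w had)

lemma exists_mn_gen {N : ℕ} {V : Set (Fin N → ℕ)} (hV : V.Nonempty) {A : Finset (Fin N → ℕ)}
    (hAV : ∀ a ∈ A, a ∈ V) (hA : ∀ d ∈ V, ∃ a ∈ A, a ≤ d) (w : Fin N → ℕ) :
    ∃ a ∈ A, mn V w = ∑ j, w j * a j := by
  obtain ⟨d, hd, h1⟩ := exists_mn hV w
  obtain ⟨a, ha, had⟩ := hA d hd
  refine ⟨a, ha, le_antisymm (mn_le w (hAV a ha)) ?_⟩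
  rw [h1]
  exact dot_mono w had

/-- for a single tuple the minimum is attained -/
theorem exists_minimiser {N s : ℕ} (e : Fin s → ℝ) (V : Fin s → Set (Fin N → ℕ))
    (hV : ∀ i, (V i).Nonempty) (hpos : ∀ w : Fin N → ℕ, (∀ j, 1 ≤ w j) → 0 ≤ Fw e V w) :
    ∃ w : Fin N → ℕ, (∀ j, 1 ≤ w j) ∧ ∀ w' : Fin N → ℕ, (∀ j, 1 ≤ w' j) → Fw e V w ≤ Fw e V w' := by
  classical
  by_contra hcon
  push Not at hcon
  choose A hAV hA using fun i => exists_gens (V i)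
  -- a sequence with strictly decreasing values
  let S := {w : Fin N → ℕ // ∀ j, 1 ≤ w j}
  choose nx hnx hnx' using hcon
  let step : S → S := fun w => ⟨nx w.1 w.2, hnx w.1 w.2⟩
  let W : ℕ → S := fun n => step^[n] ⟨fun _ => 1, fun _ => le_rfl⟩
  have hW : ∀ n, Fw e V (W (n + 1)).1 < Fw e V (W n).1 := by
    intro n
    have : W (n + 1) = step (W n) := Function.iterate_succ_apply' _ _ _
    rw [this]
    exact hnx' (W n).1 (W n).2
  have hanti : StrictAnti fun n => Fw e V (W n).1 := strictAnti_nat_of_succ_lt hW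
  -- Dickson
  let ι := Fin N ⊕ (Σ i : Fin s, A i)
  let g : ℕ → ι → ℕ := fun n => Sum.elim (W n).1
    (fun p => ∑ j, (W n).1 j * p.2.1 j - mn (V p.1) (W n).1)
  obtain ⟨m, n, hmn, hg⟩ := wellQuasiOrdered_le g
  have h1 : (W m).1 ≤ (W n).1 := fun j => hg (Sum.inl j)
  have h2 : ∀ i, ∀ b ∈ A i, ∑ j, (W m).1 j * b j - mn (V i) (W m).1 ≤
      ∑ j, (W n).1 j * b j - mn (V i) (W n).1 := fun i b hb => hg (Sum.inr ⟨i, b, hb⟩)
  choose a haA ha using fun i => exists_mn_gen (hV i) (hAV i) (hA i) (W n).1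
  have ha' : ∀ i, mn (V i) (W m).1 = ∑ j, (W m).1 j * a i j := by
    intro i
    have h3 := h2 i (a i) (haA i)
    have h4 := mn_le (W m).1 (hAV i _ (haA i))
    rw [ha i, Nat.sub_self] at h3
    omega
  -- the difference
  set δ : Fin N → ℕ := (W n).1 - (W m).1 with hδ
  have hδ' : ∀ j, (W n).1 j = (W m).1 j + δ j := fun j => by
    rw [hδ, Pi.sub_apply]; exact (Nat.add_sub_cancel' (h1 j)).symm
  have hdot : ∀ d : Fin N → ℕ, ∑ j, (W n).1 j * d j = ∑ j, (W m).1 j * d j + ∑ j, δ j * d j := by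
    intro d
    rw [← Finset.sum_add_distrib]
    exact Finset.sum_congr rfl fun j _ => by rw [hδ' j]; ring
  have hmin : ∀ i, ∀ b ∈ A i, ∑ j, δ j * a i j ≤ ∑ j, δ j * b j := by
    intro i b hb
    have h3 := h2 i b hb
    have h4 := mn_le (W m).1 (hAV i _ hb)
    have h5 := mn_le (W n).1 (hAV i _ hb)
    have h6 := hdot b
    have h7 := hdot (a i)
    rw [ha i, ha' i] at h3
    rw [ha' i] at h4
    rw [ha i] at h5
    omega
  -- the points `w_m + t δ`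
  have hval : ∀ t : ℕ, Fw e V (fun j => (W m).1 j + t * δ j) =
      Fw e V (W m).1 + t * (Fw e V (W n).1 - Fw e V (W m).1) := by
    intro t
    have h3 : ∀ i, mn (V i) (fun j => (W m).1 j + t * δ j) =
        ∑ j, (W m).1 j * a i j + t * ∑ j, δ j * a i j := by
      intro i
      have hd : ∀ d : Fin N → ℕ, ∑ j, ((W m).1 j + t * δ j) * d j =
          ∑ j, (W m).1 j * d j + t * ∑ j, δ j * d j := by
        intro d
        rw [Finset.mul_sum, ← Finset.sum_add_distrib]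
        exact Finset.sum_congr rfl fun j _ => by ring
      apply le_antisymm
      · exact (mn_le _ (hAV i _ (haA i))).trans (hd (a i)).le
      · refine le_mn_of_gens (hV i) (hA i) fun b hb => ?_
        rw [hd b]
        have h4 := mn_le (W m).1 (hAV i _ hb)
        rw [ha' i] at h4
        exact Nat.add_le_add h4 (Nat.mul_le_mul_left _ (hmin i b hb))
    rw [Fw_eq, Fw_eq, Fw_eq]
    simp only [h3, ha, ha', hdot]
    have h5 : (∑ j, ((W m).1 j + t * δ j)) = ∑ j, (W m).1 j + t * ∑ j, δ j := by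
      rw [Finset.mul_sum, ← Finset.sum_add_distrib]
    have h6 : (∑ j, (W n).1 j) = ∑ j, (W m).1 j + ∑ j, δ j := by
      rw [← Finset.sum_add_distrib]
      exact Finset.sum_congr rfl fun j _ => hδ' j
    rw [h5, h6]
    push_cast
    simp only [mul_add, Finset.sum_add_distrib]
    have h7 : ∑ i, e i * ((t : ℝ) * ∑ j, (δ j : ℝ) * (a i j : ℝ)) =
        (t : ℝ) * ∑ i, e i * ∑ j, (δ j : ℝ) * (a i j : ℝ) := by
      rw [Finset.mul_sum]
      exact Finset.sum_congr rfl fun i _ => by ring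
    rw [h7]
    ring
  have hlt : Fw e V (W n).1 - Fw e V (W m).1 < 0 := by
    have := hanti hmn
    simp only at this
    linarith
  obtain ⟨t, ht⟩ := exists_nat_gt (Fw e V (W m).1 / -(Fw e V (W n).1 - Fw e V (W m).1))
  have h8 : 0 ≤ Fw e V (fun j => (W m).1 j + t * δ j) :=
    hpos _ fun j => le_trans ((W m).2 j) (Nat.le_add_right _ _)
  rw [hval t] at h8
  rw [div_lt_iff₀ (by linarith)] at ht
  linarith

/-- finitely many vectors have bounded weight -/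
lemma finite_dot_lt {N : ℕ} {w : Fin N → ℕ} (hw : ∀ j, 1 ≤ w j) (T : ℕ) :
    {d : Fin N → ℕ | ∑ j, w j * d j < T}.Finite := by
  refine (Set.finite_Iic (fun _ : Fin N => T)).subset fun d hd j => ?_
  have h1 : w j * d j ≤ ∑ j, w j * d j :=
    Finset.single_le_sum (f := fun j => w j * d j) (fun _ _ => Nat.zero_le _) (Finset.mem_univ j)
  have h2 : d j ≤ w j * d j := Nat.le_mul_of_pos_left _ (hw j)
  have h3 : ∑ j, w j * d j < T := hd
  exact (h2.trans h1).trans h3.le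

end MonoAux

open MonoAux in
/-- H1 -/
theorem mono {N s : ℕ} (e : Fin s → ℝ) (he : ∀ i, 0 < e i) :
    ∃ L : ℕ, ∀ Γ : Fin s → Set (Fin N → ℕ), (∀ i, (Γ i).Nonempty) →
      ∃ w : Fin N → ℕ, (∀ j, 1 ≤ w j) ∧ ∑ j, w j ≤ L ∧
        (Fw e Γ w < 0 ∨ ∀ w' : Fin N → ℕ, (∀ j, 1 ≤ w' j) → Fw e Γ w ≤ Fw e Γ w') := by
  classical
  by_contra hcon
  push Not at hcon
  choose Γ hΓ hbad using hcon
  have hpos : ∀ L, ∀ w : Fin N → ℕ, (∀ j, 1 ≤ w j) → ∑ j, w j ≤ L → 0 ≤ Fw e (Γ L) w :=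
    fun L w hw hL => (hbad L w hw hL).1
  have hno : ∀ L, ∀ w : Fin N → ℕ, (∀ j, 1 ≤ w j) → ∑ j, w j ≤ L →
      ∃ w' : Fin N → ℕ, (∀ j, 1 ≤ w' j) ∧ Fw e (Γ L) w' < Fw e (Γ L) w :=
    fun L w hw hL => (hbad L w hw hL).2
  -- the ultrafilter
  let 𝒰 : Ultrafilter ℕ := Filter.hyperfilter ℕ
  have hlarge : ∀ n : ℕ, ∀ᶠ L in (𝒰 : Filter ℕ), n ≤ L := by
    intro n
    have h1 : (𝒰 : Filter ℕ) ≤ Filter.atTop := by
      rw [← Nat.cofinite_eq_atTop]
      exact Filter.hyperfilter_le_cofinite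
    exact h1 (Filter.eventually_ge_atTop n)
  let U : ℕ → Fin s → Set (Fin N → ℕ) := fun L i => up (Γ L i)
  let V : Fin s → Set (Fin N → ℕ) := fun i => {d | ∀ᶠ L in (𝒰 : Filter ℕ), d ∈ U L i}
  have hnot : ∀ i d, d ∉ V i → ∀ᶠ L in (𝒰 : Filter ℕ), d ∉ U L i := by
    intro i d hd
    exact Ultrafilter.eventually_not.2 hd
  -- lower bound for the minimal weights
  have hlow : ∀ i (w : Fin N → ℕ), (∀ j, 1 ≤ w j) → ∀ T : ℕ, (∀ d ∈ V i, T ≤ ∑ j, w j * d j) →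
      ∀ᶠ L in (𝒰 : Filter ℕ), T ≤ mn (Γ L i) w := by
    intro i w hw T hT
    have h1 : ∀ᶠ L in (𝒰 : Filter ℕ), ∀ d ∈ {d : Fin N → ℕ | ∑ j, w j * d j < T}, d ∉ U L i := by
      refine (Filter.eventually_all_finite (finite_dot_lt hw T)).2 fun d hd => hnot i d fun hdV => ?_
      exact absurd (hT d hdV) (not_le.2 hd)
    filter_upwards [h1] with L hL
    rw [← mn_up (hΓ L i)]
    refine le_mn ((hΓ L i).mono (subset_up _)) fun d hd => ?_
    by_contra hlt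
    exact hL d (not_le.1 hlt) hd
  -- the limit is nonempty
  have hVne : ∀ i, (V i).Nonempty := by
    intro i
    by_contra hempty
    rw [Set.not_nonempty_iff_eq_empty] at hempty
    obtain ⟨T, hT⟩ := exists_nat_gt ((N : ℝ) / e i)
    have h1 := hlow i (fun _ => 1) (fun _ => le_rfl) T (by rw [hempty]; simp)
    obtain ⟨L, hL1, hL2⟩ := (h1.and (hlarge N)).exists
    have h2 := hpos L (fun _ => 1) (fun _ => le_rfl) (by simpa using hL2)
    rw [Fw_eq] at h2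
    have h3 : e i * (mn (Γ L i) (fun _ => 1) : ℝ) ≤ ∑ i, e i * (mn (Γ L i) (fun _ => 1) : ℝ) :=
      Finset.single_le_sum (f := fun i => e i * (mn (Γ L i) (fun _ => 1) : ℝ))
        (fun i _ => mul_nonneg (he i).le (Nat.cast_nonneg _)) (Finset.mem_univ i)
    have h4 : (N : ℝ) < e i * T := by
      rw [div_lt_iff₀ (he i)] at hT
      linarith
    have h5 : e i * (T : ℝ) ≤ e i * (mn (Γ L i) (fun _ => 1) : ℝ) :=
      mul_le_mul_of_nonneg_left (by exact_mod_cast hL1) (he i).le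
    simp only [Finset.sum_const, Finset.card_univ, Fintype.card_fin, smul_eq_mul, mul_one] at h2
    linarith
  -- the limit is contained in the up-sets
  have hsub : ∀ᶠ L in (𝒰 : Filter ℕ), ∀ i, V i ⊆ U L i := by
    refine Filter.eventually_all.2 fun i => ?_
    obtain ⟨A, hAV, hA⟩ := exists_gens (V i)
    have h1 : ∀ᶠ L in (𝒰 : Filter ℕ), ∀ a ∈ A, a ∈ U L i :=
      (Filter.eventually_all_finset A).2 fun a ha => hAV a ha
    filter_upwards [h1] with L hL d hd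
    obtain ⟨a, ha, had⟩ := hA d hd
    obtain ⟨g, hg, hga⟩ := hL a ha
    exact ⟨g, hg, hga.trans had⟩
  have hmnle : ∀ L, (∀ i, V i ⊆ U L i) → ∀ w, Fw e V w ≤ Fw e (Γ L) w := by
    intro L hL w
    rw [Fw_eq, Fw_eq]
    refine sub_le_sub_left (Finset.sum_le_sum fun i _ => mul_le_mul_of_nonneg_left ?_ (he i).le) _
    have : mn (Γ L i) w ≤ mn (V i) w := by
      rw [← mn_up (hΓ L i)]
      exact le_mn (hVne i) fun d hd => mn_le w (hL i hd)
    exact_mod_cast this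
  have heq : ∀ w : Fin N → ℕ, (∀ j, 1 ≤ w j) →
      ∀ᶠ L in (𝒰 : Filter ℕ), Fw e (Γ L) w ≤ Fw e V w := by
    intro w hw
    have h1 : ∀ᶠ L in (𝒰 : Filter ℕ), ∀ i, mn (V i) w ≤ mn (Γ L i) w :=
      Filter.eventually_all.2 fun i => hlow i w hw _ fun d hd => mn_le w hd
    filter_upwards [h1] with L hL
    rw [Fw_eq, Fw_eq]
    refine sub_le_sub_left (Finset.sum_le_sum fun i _ => mul_le_mul_of_nonneg_left ?_ (he i).le) _
    exact_mod_cast hL i
  -- the limit is nonnegative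
  have hVpos : ∀ w : Fin N → ℕ, (∀ j, 1 ≤ w j) → 0 ≤ Fw e V w := by
    intro w hw
    obtain ⟨L, hL1, hL2⟩ := ((heq w hw).and (hlarge (∑ j, w j))).exists
    exact (hpos L w hw hL2).trans hL1
  obtain ⟨w, hw, hmin⟩ := exists_minimiser e V hVne hVpos
  obtain ⟨L, hL1, hL2, hL3⟩ := ((heq w hw).and (hsub.and (hlarge (∑ j, w j)))).exists
  obtain ⟨w', hw', hlt⟩ := hno L w hw hL3
  have h1 := hmin w' hw'
  have h2 := hmnle L hL2 w'
  linarith

end Pool.Agent.MNJ
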