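import Pool.Agent.Work.MP_6c38a7_ag.PointsA
import Pool.Agent.Work.MP_6c38a7_ag.Jet

/-!
# Construction of arcs
-/

namespace Pool.Agent.MNJ

open MvPolynomial

universe u

/-- I1 : generic monomial arcs -/
theorem mon_arc {k : Type u} [Field k] {s N : ℕ} (e : Fin s → ℝ)
    (a : Fin s → Ideal (MvPolynomial (Fin N) k)) (w : Fin N → ℕ) (hw : ∀ j, 1 ≤ w j) (m : Fin s → ℕ)
    (h : ∀ i, ∀ f ∈ a i, ∀ d ∈ f.support, m i ≤ ∑ j, w j * d j) :
    sVal e a m ≤ ((((∑ j, w j : ℕ) : ℝ) - ∑ i, e i * (m i : ℝ) : ℝ) : EReal) := by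
  classical
  set n := ∑ i, m i with hn
  let K : Type u := FractionRing (MvPolynomial (Fin N × Fin (n + 1)) k)
  let T : Fin N × Fin (n + 1) → K := fun p =>
    algebraMap (MvPolynomial (Fin N × Fin (n + 1)) k) K (X p)
  have hT : AlgebraicIndependent k T :=
    (MvPolynomial.algebraicIndependent_X (Fin N × Fin (n + 1)) k).map'
      (f := IsScalarTower.toAlgHom k (MvPolynomial (Fin N × Fin (n + 1)) k) K)
      (IsFractionRing.injective _ _)
  let γ : Fin N → PowerSeries K := fun i => PowerSeries.mk fun j =>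
    if h : j < n + 1 then (if w i ≤ j then T (i, ⟨j, h⟩) else 0) else 0
  have hγX : ∀ i, PowerSeries.X ^ w i ∣ γ i := by
    intro i
    rw [PowerSeries.X_pow_dvd_iff]
    intro j hj
    simp only [γ, PowerSeries.coeff_mk]
    split_ifs with h1 h2
    · omega
    · rfl
    · rfl
  have hγ : Contact a m γ := by
    refine ⟨fun i => ?_, fun i f hf => ?_⟩
    · rw [← PowerSeries.coeff_zero_eq_constantCoeff_apply]
      exact PowerSeries.X_pow_dvd_iff.1 (hγX i) 0 (hw i)
    · rw [← X_pow_dvd_iff_le]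
      exact dvd_aeval γ w hγX f (m i) (h i f hf)
  have hr := card_le_rk (fun p : {p : Fin N × Fin (n + 1) // w p.1 ≤ p.2} => T p.1)
    (hT.comp _ Subtype.val_injective) (cs n γ) (by
      rintro ⟨⟨i, j⟩, hij⟩
      refine ⟨i, j, by omega, ?_⟩
      simp only [γ, PowerSeries.coeff_mk]
      rw [dif_pos j.2, if_pos hij])
  refine (sVal_le_of_arc e a m γ hγ n _ le_rfl hr).trans ?_
  have hc := card_pairs N n w
  have hc' : ((N * (n + 1) : ℕ) : ℝ) ≤
      (Nat.card {p : Fin N × Fin (n + 1) // w p.1 ≤ p.2} : ℝ) + ((∑ j, w j : ℕ) : ℝ) := by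
    exact_mod_cast hc
  refine EReal.coe_le_coe_iff.2 ?_
  linarith

/-- I2 : the arc `(t ^ c · generic, y, z)` -/
theorem slice_arc {k : Type u} [Field k] {s : ℕ} (e : Fin s → ℝ)
    (a : Fin s → Ideal (MvPolynomial (Fin 3) k)) {K : Type u} [Field K] [Algebra k K]
    (y z : PowerSeries K) (hy : PowerSeries.constantCoeff y = 0) (hz : PowerSeries.constantCoeff z = 0)
    (n c r : ℕ) (hc : 1 ≤ c) (hcn : c ≤ n + 1) (hr : (r : ℕ∞) ≤ rk k (cs n ![y, z])) (m : Fin s → ℕ)
    (hm : ∑ i, m i ≤ n)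
    (h : ∀ i, ∀ f ∈ a i, ∀ l, (m i : ℕ∞) ≤ ((slice (k := k) y z f).coeff l).order + ((l * c : ℕ) : ℕ∞)) :
    sVal e a m ≤ (((2 * ((n : ℝ) + 1) - r + c - ∑ i, e i * (m i : ℝ) : ℝ)) : EReal) := by
  classical
  let K' : Type u := FractionRing (MvPolynomial (Fin (n + 1)) K)
  let T : Fin (n + 1) → K' := fun p => algebraMap (MvPolynomial (Fin (n + 1)) K) K' (X p)
  have hT : AlgebraicIndependent K T :=
    (MvPolynomial.algebraicIndependent_X (Fin (n + 1)) K).map'
      (f := IsScalarTower.toAlgHom K (MvPolynomial (Fin (n + 1)) K) K')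
      (IsFractionRing.injective _ _)
  let φ : K →+* K' := algebraMap K K'
  let ξ : PowerSeries K' := PowerSeries.mk fun j =>
    if h : j < n + 1 then (if c ≤ j then T ⟨j, h⟩ else 0) else 0
  have hξ : PowerSeries.X ^ c ∣ ξ := by
    rw [PowerSeries.X_pow_dvd_iff]
    intro j hj
    simp only [ξ, PowerSeries.coeff_mk]
    split_ifs with h1 h2
    · omega
    · rfl
    · rfl
  let γ : Fin 3 → PowerSeries K' := ![ξ, PowerSeries.map φ y, PowerSeries.map φ z]
  have haev : ∀ f : MvPolynomial (Fin 3) k, (aeval γ f : PowerSeries K') =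
      ((slice (k := k) y z f).map (PowerSeries.map φ)).eval ξ := by
    intro f
    induction f using MvPolynomial.induction_on with
    | C b =>
      rw [algHom_C, algHom_C, Polynomial.algebraMap_apply, Polynomial.map_C, Polynomial.eval_C,
        PowerSeries.algebraMap_apply, PowerSeries.algebraMap_apply, PowerSeries.map_C]
      congr 1
    | add p q hp hq => rw [map_add, map_add, Polynomial.map_add, Polynomial.eval_add, hp, hq]
    | mul_X p i hp =>
      rw [map_mul, map_mul, Polynomial.map_mul, Polynomial.eval_mul, hp, aeval_X]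
      congr 1
      unfold slice
      rw [aeval_X]
      fin_cases i
      · simp [γ]
      · simp [γ]
      · simp [γ]
  have hγ : Contact a m γ := by
    refine ⟨fun i => ?_, fun i f hf => ?_⟩
    · fin_cases i
      · change PowerSeries.constantCoeff ξ = 0
        rw [← PowerSeries.coeff_zero_eq_constantCoeff_apply]
        exact PowerSeries.X_pow_dvd_iff.1 hξ 0 hc
      · change PowerSeries.constantCoeff (PowerSeries.map φ y) = 0
        rw [← PowerSeries.coeff_zero_eq_constantCoeff_apply, PowerSeries.coeff_map,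
          PowerSeries.coeff_zero_eq_constantCoeff_apply, hy, map_zero]
      · change PowerSeries.constantCoeff (PowerSeries.map φ z) = 0
        rw [← PowerSeries.coeff_zero_eq_constantCoeff_apply, PowerSeries.coeff_map,
          PowerSeries.coeff_zero_eq_constantCoeff_apply, hz, map_zero]
    · rw [haev, ← X_pow_dvd_iff_le, Polynomial.eval_eq_sum_range]
      refine Finset.dvd_sum fun l _ => ?_
      rw [X_pow_dvd_iff_le, Polynomial.coeff_map]
      refine (h i f hf l).trans ?_
      refine le_trans ?_ (PowerSeries.le_order_mul _ _)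
      refine add_le_add (PowerSeries.le_order_map _) ?_
      rw [← X_pow_dvd_iff_le, mul_comm, pow_mul]
      exact pow_dvd_pow_of_dvd hξ _
  obtain ⟨S, hS, hSm⟩ := exists_indep_of_le_rk (cs n ![y, z]) r hr
  have hT' : AlgebraicIndependent K (fun p : {p : Fin (n + 1) // c ≤ p} => T p.1) :=
    hT.comp _ Subtype.val_injective
  have hsum := hS.sumElim_comp hT'
  have hcard : ((Nat.card ({p : Fin (n + 1) // c ≤ p} ⊕ Fin r) : ℕ) : ℕ∞) ≤ rk k (cs n γ) := by
    refine card_le_rk _ hsum _ ?_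
    rintro (⟨p, hp⟩ | i)
    · refine ⟨0, p, by omega, ?_⟩
      simp only [Sum.elim_inl]
      change T p = PowerSeries.coeff p ξ
      simp only [ξ, PowerSeries.coeff_mk]
      rw [dif_pos p.2, if_pos hp]
    · simp only [Sum.elim_inr, Function.comp_apply]
      obtain ⟨i', j, hj, hij⟩ := hSm i
      rw [hij]
      fin_cases i'
      · refine ⟨1, j, hj, ?_⟩
        change algebraMap K K' (PowerSeries.coeff j y) = PowerSeries.coeff j (PowerSeries.map φ y)
        rw [PowerSeries.coeff_map]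
      · refine ⟨2, j, hj, ?_⟩
        change algebraMap K K' (PowerSeries.coeff j z) = PowerSeries.coeff j (PowerSeries.map φ z)
        rw [PowerSeries.coeff_map]
  have hc1 := card_pairs 1 n (fun _ => c)
  have hc2 : Nat.card {p : Fin 1 × Fin (n + 1) // c ≤ p.2} = Nat.card {p : Fin (n + 1) // c ≤ p} := by
    refine Nat.card_congr ⟨fun p => ⟨p.1.2, p.2⟩, fun p => ⟨(0, p.1), p.2⟩, ?_, ?_⟩
    · rintro ⟨⟨a, b⟩, h⟩
      simp [Subsingleton.elim (0 : Fin 1) a]
    · rintro ⟨p, h⟩; rfl
  rw [Nat.card_sum, Nat.card_fin] at hcard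
  refine (sVal_le_of_arc e a m γ hγ n _ hm hcard).trans ?_
  refine EReal.coe_le_coe_iff.2 ?_
  have hc3 : n + 1 ≤ Nat.card {p : Fin (n + 1) // c ≤ p} + c := by
    rw [← hc2]
    simpa using hc1
  have hc4 : (n : ℝ) + 1 ≤ (Nat.card {p : Fin (n + 1) // c ≤ p} : ℝ) + c := by exact_mod_cast hc3
  push_cast
  linarith

end Pool.Agent.MNJ
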