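import Pool.Agent.Work.MP_6c38a7_ag.MainB
import Pool.Agent.Work.MP_6c38a7_ag.Mono
import Pool.Agent.Work.MP_6c38a7_ag.Desc
import Pool.Agent.Work.MP_6c38a7_ag.Arith
import Pool.Agent.Work.MP_6c38a7_ag.Points

/-!
# Cell MN: the core step
-/

namespace Pool.Agent.MNJ

open MvPolynomial

universe u

/-- exponents occurring in the elements of `𝔞_i` -/
def Gam {k : Type u} [Field k] {N s : ℕ} (a : Fin s → Ideal (MvPolynomial (Fin N) k)) (i : Fin s) :
    Set (Fin N → ℕ) := {d | ∃ f ∈ a i, ∃ d' ∈ f.support, d = ⇑d'}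

/-- the property of the constant `L` of `mono` -/
def MonoBd {s : ℕ} (N : ℕ) (e : Fin s → ℝ) (L : ℕ) : Prop :=
  ∀ Γ : Fin s → Set (Fin N → ℕ), (∀ i, (Γ i).Nonempty) →
    ∃ w : Fin N → ℕ, (∀ j, 1 ≤ w j) ∧ ∑ j, w j ≤ L ∧
      (Fw e Γ w < 0 ∨ ∀ w' : Fin N → ℕ, (∀ j, 1 ≤ w' j) → Fw e Γ w ≤ Fw e Γ w')

/-- the property of the constant `C` of `arith` -/
def ArithBd {s : ℕ} (e : Fin s → ℝ) (C : ℕ) : Prop :=
  ∀ (Γ : Fin s → Set (Fin 3 → ℕ)) (μ : Fin s → ℕ) (i₀ : Fin s), 1 ≤ μ i₀ →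
      ∑ i, e i * (μ i : ℝ) ≤ 1 + e i₀ → (∀ i, ![μ i, 0, 0] ∈ Γ i) →
      (∀ i, ∀ d ∈ Γ i, μ i ≤ d 0 + d 1 + d 2) →
      (∀ w : Fin 3 → ℕ, (∀ j, 1 ≤ w j) → 0 ≤ Fw e Γ w) →
      ∀ (g p q j c κ : ℕ) (m : Fin s → ℕ), 1 ≤ g → 2 ≤ q → q < p → 1 ≤ j → 1 ≤ c →
        g * (p + q) + j ≤ κ →
        (∀ i, ∀ d ∈ Γ i, g * p * q * m i ≤ g * p * q * c * d 0 +
          (g * p * q + j) * (g * p * d 1 + g * q * d 2)) →
        (∃ w : Fin 3 → ℕ, (∀ j, 1 ≤ w j) ∧ Fw e Γ w ≤ (κ : ℝ) + c - ∑ i, e i * (m i : ℝ)) ∨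
        (g ≤ C ∧ p ≤ C ∧ j ≤ C ∧ 0 ≤ (g * (p + q) + j : ℝ) + c - ∑ i, e i * (m i : ℝ))

/-- the property of the constant `C` of `desc` -/
def DescBd {s : ℕ} (e : Fin s → ℝ) (B Q C : ℕ) : Prop :=
  ∀ G : Fin s → ℕ → ℕ, (∀ i c, 1 ≤ c → G i c ≤ G i (c + 1)) →
      (∀ i c, 1 ≤ c → G i (c + 1) ≤ G i c + B) →
      (∀ i c, 1 ≤ c → G i (c + 2) + G i c ≤ 2 * G i (c + 1)) →
      (∀ c : ℕ, 1 ≤ c → -(Q : ℝ) ≤ (c : ℝ) - ∑ i, e i * (G i c : ℝ)) →
      ∀ c : ℕ, 1 ≤ c → ∃ c' : ℕ, 1 ≤ c' ∧ c' ≤ c ∧ c' ≤ C ∧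
        (c' : ℝ) - ∑ i, e i * (G i c' : ℝ) ≤ (c : ℝ) - ∑ i, e i * (G i c : ℝ)

section

variable {k : Type u} [Field k]

theorem pure_mem_Gam {s : ℕ} {a : Fin s → Ideal (MvPolynomial (Fin 3) k)} {μ : Fin s → ℕ}
    (hpure : ∀ i, ∃ f ∈ a i, f.coeff (Finsupp.single 0 (μ i)) ≠ 0) (i : Fin s) :
    ![μ i, 0, 0] ∈ Gam a i := by
  obtain ⟨f, hf, hc⟩ := hpure i
  refine ⟨f, hf, Finsupp.single 0 (μ i), mem_support_iff.2 hc, ?_⟩
  funext j
  fin_cases j
  · simp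
  · simp
  · simp

theorem mono_finish {s : ℕ} (e : Fin s → ℝ) (he : ∀ i, 0 < e i)
    (a : Fin s → Ideal (MvPolynomial (Fin 3) k)) (μ : Fin s → ℕ)
    (hpure : ∀ i, ![μ i, 0, 0] ∈ Gam a i) (Mx L : ℕ) (hMx : ∀ i, μ i ≤ Mx) (hL : MonoBd 3 e L) (V : ℝ)
    (hw : ∃ w : Fin 3 → ℕ, (∀ j, 1 ≤ w j) ∧ (Fw e (Gam a) w < 0 ∨ Fw e (Gam a) w ≤ V)) :
    ∃ m' : Fin s → ℕ, ∑ i, m' i ≤ s * (Mx * L) ∧ (sVal e a m' < 0 ∨ sVal e a m' ≤ (V : EReal)) := by
  obtain ⟨w, hw1, hw2⟩ := hw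
  obtain ⟨w', hw'1, hw'2, hw'3⟩ := hL (Gam a) (fun i => ⟨_, hpure i⟩)
  let m' : Fin s → ℕ := fun i => sInf {v | ∃ d ∈ Gam a i, v = ∑ j, w' j * d j}
  have hs : sVal e a m' ≤ ((Fw e (Gam a) w' : ℝ) : EReal) :=
    mon_arc e a w' hw'1 m' fun i f hf d hd => Nat.sInf_le ⟨⇑d, ⟨f, hf, d, hd, rfl⟩, rfl⟩
  refine ⟨m', ?_, ?_⟩
  · calc ∑ i, m' i ≤ ∑ _i : Fin s, Mx * L := by
          refine Finset.sum_le_sum fun i _ => ?_
          have h1 : m' i ≤ ∑ j, w' j * (![μ i, 0, 0] : Fin 3 → ℕ) j :=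
            Nat.sInf_le ⟨_, hpure i, rfl⟩
          have h2 : ∑ j, w' j * (![μ i, 0, 0] : Fin 3 → ℕ) j = w' 0 * μ i := by
            rw [Fin.sum_univ_three]; simp
          have h3 : w' 0 ≤ L := by
            rw [Fin.sum_univ_three] at hw'2; omega
          rw [h2] at h1
          calc m' i ≤ w' 0 * μ i := h1
            _ ≤ L * Mx := Nat.mul_le_mul h3 (hMx i)
            _ = Mx * L := mul_comm _ _
      _ = s * (Mx * L) := by simp
  · rcases hw'3 with h | h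
    · left
      exact lt_of_le_of_lt hs (by exact_mod_cast h)
    · have h1 := h w hw1
      rcases hw2 with h2 | h2
      · left
        exact lt_of_le_of_lt hs (by exact_mod_cast lt_of_le_of_lt h1 h2)
      · right
        exact hs.trans (by exact_mod_cast h1.trans h2)

/-- the core step -/
theorem core {s : ℕ} (e : Fin s → ℝ) (he : ∀ i, 0 < e i) (μ : Fin s → ℕ)
    (i₀ : Fin s) (hsum : ∑ i, e i * (μ i : ℝ) ≤ 1 + e i₀) (hμk : (μ i₀ : k) ≠ 0)
    (Mx L C Q C₂ : ℕ) (hMx : ∀ i, μ i ≤ Mx) (hL : MonoBd 3 e L) (hC : ArithBd e C)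
    (hQ : C * (C + C) + C ≤ Q) (hC₂ : DescBd e Mx Q C₂)
    (a : Fin s → Ideal (MvPolynomial (Fin 3) k)) (m : Fin s → ℕ)
    (hprep : Prepared a μ i₀ (∑ i, m i)) {K : Type u} [Field K] [Algebra k K]
    (γ : Fin 3 → PowerSeries K) (hγ : Contact a m γ) (r : ℕ) (hr : rk k (cs (∑ i, m i) γ) = r)
    (halt : (∃ p q : ℕ, 1 ≤ p ∧ 1 ≤ q ∧
          (rk k (cs (∑ i, m i) ![γ 1, γ 2]) + ((p + q : ℕ) : ℕ∞) ≤ ((2 * (∑ i, m i + 1) : ℕ) : ℕ∞)) ∧
          RB k (∑ i, m i) (γ 1) (γ 2) p q 1 1) ∨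
       (∃ g p q j : ℕ, 1 ≤ g ∧ 2 ≤ q ∧ q < p ∧ 1 ≤ j ∧
          (rk k (cs (∑ i, m i) ![γ 1, γ 2]) + ((g * p + g * q + j : ℕ) : ℕ∞) ≤
            ((2 * (∑ i, m i + 1) : ℕ) : ℕ∞)) ∧
          RB k (∑ i, m i) (γ 1) (γ 2) (g * p) (g * q) (g * p * q) (g * p * q + j))) :
    ∃ m' : Fin s → ℕ, ∑ i, m' i ≤ s * (Mx * L) + s * (Mx * C₂) ∧
      (sVal e a m' < 0 ∨ sVal e a m' ≤
        ((((3 * (∑ i, m i + 1) : ℕ) : ℝ) - r - ∑ i, e i * (m i : ℝ) : ℝ) : EReal)) := by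
  classical
  set n := ∑ i, m i with hn
  have hmn : ∀ i, m i ≤ n := fun i => Finset.single_le_sum (fun j _ => Nat.zero_le (m j)) (Finset.mem_univ i)
  obtain ⟨c, r₂, m', hc1, hcn, hm', hr2, hr2n, hord, hval⟩ :=
    xred e he μ i₀ hsum hμk a m n hmn hprep γ hγ r hr
  set y := tr n (γ 1) with hy
  set z := tr n (γ 2) with hz
  have hμ1 : 1 ≤ μ i₀ := by
    rcases Nat.eq_zero_or_pos (μ i₀) with h | h
    · rw [h] at hμk; simp at hμk
    · exact h
  have hy0 : PowerSeries.constantCoeff y = 0 := by rw [hy, constantCoeff_tr]; exact hγ.1 1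
  have hz0 : PowerSeries.constantCoeff z = 0 := by rw [hz, constantCoeff_tr]; exact hγ.1 2
  have hycs : cs n ![γ 1, γ 2] = cs n ![y, z] := by
    refine cs_congr fun i j hj => ?_
    fin_cases i
    · exact (coeff_tr_of_le hj _).symm
    · exact (coeff_tr_of_le hj _).symm
  have hpure := pure_mem_Gam hprep.pure
  set V : ℝ := ((3 * (n + 1) : ℕ) : ℝ) - r - ∑ i, e i * (m i : ℝ) with hV
  -- `κ`
  obtain ⟨κ, hκ⟩ : ∃ κ : ℕ, r₂ + κ = 2 * (n + 1) := ⟨2 * (n + 1) - r₂, by omega⟩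
  have hκr : 2 * ((n : ℝ) + 1) - r₂ = κ := by
    have : ((r₂ + κ : ℕ) : ℝ) = ((2 * (n + 1) : ℕ) : ℝ) := by rw [hκ]
    push_cast at this
    linarith
  rw [hκr] at hval
  have hVκ : (κ : ℝ) + c - ∑ i, e i * (m' i : ℝ) ≤ V := hval
  have hmonoF : (∃ w : Fin 3 → ℕ, (∀ j, 1 ≤ w j) ∧ (Fw e (Gam a) w < 0 ∨ Fw e (Gam a) w ≤ V)) →
      ∃ m' : Fin s → ℕ, ∑ i, m' i ≤ s * (Mx * L) + s * (Mx * C₂) ∧
      (sVal e a m' < 0 ∨ sVal e a m' ≤ (V : EReal)) := by
    intro h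
    obtain ⟨m', h1, h2⟩ := mono_finish e he a μ hpure Mx L hMx hL V h
    exact ⟨m', by omega, h2⟩
  rcases halt with ⟨p, q, hp, hq, hrk, hRB⟩ | ⟨g, p, q, j, hg, hq2, hqp, hj1, hrk, hRB⟩
  · -- monomial case
    apply hmonoF
    refine ⟨![c, p, q], ?_, Or.inr ?_⟩
    · intro j; fin_cases j
      · exact hc1
      · exact hp
      · exact hq
    · have hRB' : RB k n y z p q 1 1 := hRB.congr (fun j hj => (coeff_tr_of_le hj _).symm)
        (fun j hj => (coeff_tr_of_le hj _).symm)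
      have h1 : ∀ i, (m' i : ℝ) ≤ ((sInf {v | ∃ d ∈ Gam a i, v = ∑ j, (![c, p, q] : Fin 3 → ℕ) j * d j} :
          ℕ) : ℝ) := by
        intro i
        have : m' i ≤ sInf {v | ∃ d ∈ Gam a i, v = ∑ j, (![c, p, q] : Fin 3 → ℕ) j * d j} := by
          refine le_csInf ⟨_, _, hpure i, rfl⟩ ?_
          rintro v ⟨_, ⟨f, hf, d, hd, rfl⟩, rfl⟩
          have := rb_bound hRB' (m' i) c ((hm' i).trans (hmn i)) f (hord i f hf) d hd
          rw [Fin.sum_univ_three]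
          simp only [Matrix.cons_val_zero, Matrix.cons_val_one, Matrix.cons_val]
          simp only [one_mul] at this
          omega
        exact_mod_cast this
      have h2 : p + q ≤ κ := by
        rw [hr2] at hrk
        have : r₂ + (p + q) ≤ 2 * (n + 1) := by exact_mod_cast hrk
        omega
      have h3 : ((p : ℝ) + q) ≤ κ := by exact_mod_cast h2
      have h4 : ∑ i, e i * (m' i : ℝ) ≤ ∑ i, e i * ((sInf {v | ∃ d ∈ Gam a i, v =
          ∑ j, (![c, p, q] : Fin 3 → ℕ) j * d j} : ℕ) : ℝ) :=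
        Finset.sum_le_sum fun i _ => mul_le_mul_of_nonneg_left (h1 i) (he i).le
      unfold Fw
      have h5 : ((∑ j, (![c, p, q] : Fin 3 → ℕ) j : ℕ) : ℝ) = (c : ℝ) + p + q := by
        rw [Fin.sum_univ_three]; simp
      rw [h5]
      linarith
  · -- cuspidal case
    by_cases hneg : ∃ w : Fin 3 → ℕ, (∀ j, 1 ≤ w j) ∧ Fw e (Gam a) w < 0
    · obtain ⟨w, hw1, hw2⟩ := hneg
      exact hmonoF ⟨w, hw1, Or.inl hw2⟩
    · push Not at hneg
      have hRB' : RB k n y z (g * p) (g * q) (g * p * q) (g * p * q + j) :=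
        hRB.congr (fun j hj => (coeff_tr_of_le hj _).symm) (fun j hj => (coeff_tr_of_le hj _).symm)
      have hdegG : ∀ i, ∀ d ∈ Gam a i, μ i ≤ d 0 + d 1 + d 2 := by
        rintro i _ ⟨f, hf, d, hd, rfl⟩
        exact hprep.deg i f hf d hd
      have hκ2 : g * (p + q) + j ≤ κ := by
        rw [hr2] at hrk
        have : r₂ + (g * p + g * q + j) ≤ 2 * (n + 1) := by exact_mod_cast hrk
        have e1 : g * (p + q) = g * p + g * q := by ring
        omega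
      have hbound : ∀ (c : ℕ) (v : Fin s → ℕ), (∀ i, v i ≤ n) →
          (∀ i, ∀ f ∈ a i, ∀ l, (v i : ℕ∞) ≤ ((slice (k := k) y z f).coeff l).order +
            ((l * c : ℕ) : ℕ∞)) →
          (∀ i, ∀ d ∈ Gam a i, g * p * q * v i ≤ g * p * q * c * d 0 +
            (g * p * q + j) * (g * p * d 1 + g * q * d 2)) := by
        rintro c v hv hv2 i _ ⟨f, hf, d, hd, rfl⟩
        exact rb_bound hRB' (v i) c (hv i) f (hv2 i f hf) d hd
      rcases hC (Gam a) μ i₀ hμ1 hsum hpure hdegG hneg g p q j c κ m' hg hq2 hqp hj1 hc1 hκ2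
        (hbound c m' (fun i => (hm' i).trans (hmn i)) hord) with ⟨w, hw1, hw2⟩ | ⟨hgC, hpC, hjC, _⟩
      · exact hmonoF ⟨w, hw1, Or.inr (hw2.trans hVκ)⟩
      · -- bounded case
        let Pl : Fin s → Set (Polynomial (PowerSeries K)) :=
          fun i => {P | ∃ f ∈ a i, P = slice (k := k) y z f}
        have h2 : ∀ i, ∃ P ∈ Pl i, (P.coeff (μ i)).order = 0 := by
          intro i
          obtain ⟨f, hf, hfc⟩ := hprep.pure i
          refine ⟨_, ⟨f, hf, rfl⟩, ?_⟩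
          have hyz0 : ∀ i : Fin 2, PowerSeries.constantCoeff ((![y, z] : Fin 2 → PowerSeries K) i) = 0 := by
            intro i; fin_cases i
            · exact hy0
            · exact hz0
          have h4 : PowerSeries.constantCoeff ((slice (k := k) y z f).coeff (μ i)) ≠ 0 := by
            rw [slice_coeff, constantCoeff_aeval9 _ hyz0, constantCoeff_eq, finSuccEquiv_coeff_coeff]
            have e3 : Finsupp.cons (μ i) (0 : Fin 2 →₀ ℕ) = Finsupp.single 0 (μ i) := by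
              ext j
              refine Fin.cases ?_ (fun j => ?_) j
              · simp
              · rw [Finsupp.cons_succ, Finsupp.single_apply, if_neg (Fin.succ_ne_zero j).symm]; rfl
            rw [e3]
            simpa using hfc
          have h5 := PowerSeries.order_le (φ := (slice (k := k) y z f).coeff (μ i)) 0 (by
            rwa [PowerSeries.coeff_zero_eq_constantCoeff_apply])
          exact le_antisymm (by simpa using h5) (by simp)
        have hprd : ∀ (i : Fin s) (c : ℕ), ∀ f ∈ a i, ∀ l, ((GG.G Pl m i c : ℕ) : ℕ∞) ≤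
            ((slice (k := k) y z f).coeff l).order + ((l * c : ℕ) : ℕ∞) :=
          fun i c f hf l => GG.G_prd (Pl := Pl) m i c (slice (k := k) y z f) ⟨f, hf, rfl⟩ l
        have hlow : ∀ c : ℕ, 1 ≤ c → -(Q : ℝ) ≤ (c : ℝ) - ∑ i, e i * (GG.G Pl m i c : ℝ) := by
          intro c hc
          have hQr : ((g * (p + q) + j : ℕ) : ℝ) ≤ Q := by
            have h6 : g * (p + q) + j ≤ C * (C + C) + C := by
              gcongr; omega
            exact_mod_cast h6.trans hQ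
          have h7 : (0 : ℝ) ≤ ((g * (p + q) + j : ℕ) : ℝ) + c - ∑ i, e i * (GG.G Pl m i c : ℝ) := by
            rcases hC (Gam a) μ i₀ hμ1 hsum hpure hdegG hneg g p q j c (g * (p + q) + j)
              (fun i => GG.G Pl m i c) hg hq2 hqp hj1 hc le_rfl
              (hbound c _ (fun i => (GG.G_le m i c).trans (hmn i)) (fun i f hf l => hprd i c f hf l)) with
              ⟨w, hw1, hw2⟩ | ⟨_, _, _, h8⟩
            · exact (hneg w hw1).trans hw2
            · push_cast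
              exact h8
          linarith
        obtain ⟨c', hc'1, hc'c, hc'C, hc'v⟩ := hC₂ (GG.G Pl m) (fun i c _ => GG.G_mono m i (by omega))
          (fun i c hc => (GG.G_inc m h2 i hc).trans (by gcongr; exact hMx i))
          (fun i c _ => GG.G_conc m i c) hlow c hc1
        refine ⟨fun i => GG.G Pl m i c', ?_, Or.inr ?_⟩
        · calc ∑ i, GG.G Pl m i c' ≤ ∑ _i : Fin s, Mx * C₂ := by
                refine Finset.sum_le_sum fun i _ => ?_
                calc GG.G Pl m i c' ≤ μ i * c' := GG.G_le_mu m h2 i c'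
                  _ ≤ Mx * C₂ := Nat.mul_le_mul (hMx i) hc'C
            _ = s * (Mx * C₂) := by simp
            _ ≤ _ := Nat.le_add_left _ _
        · have h9 := slice_arc e a y z hy0 hz0 n c' r₂ hc'1 (by omega) (by rw [← hycs, hr2])
            (fun i => GG.G Pl m i c') (by
              rw [hn]; exact Finset.sum_le_sum fun i _ => GG.G_le m i c')
            (fun i f hf l => hprd i c' f hf l)
          refine h9.trans ?_
          have h10 : (2 * ((n : ℝ) + 1) - r₂ + c' - ∑ i, e i * ((GG.G Pl m i c' : ℕ) : ℝ)) ≤ V := by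
            rw [hκr]
            have h11 : ∑ i, e i * (m' i : ℝ) ≤ ∑ i, e i * (GG.G Pl m i c : ℝ) := by
              refine Finset.sum_le_sum fun i _ => mul_le_mul_of_nonneg_left ?_ (he i).le
              have : m' i ≤ GG.G Pl m i c := GG.le_G m (hm' i) (by
                rintro P ⟨f, hf, rfl⟩ l; exact hord i f hf l)
              exact_mod_cast this
            linarith
          exact_mod_cast h10

end

end Pool.Agent.MNJ
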