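import Pool.Agent.Work.MP_6c38a7_ag.Defs

/-!
# Good coordinates (module C)
-/

namespace Pool.Agent.MNJ

open MvPolynomial

universe u

section Prep

variable {k : Type u} [Field k]

/-! ### powers of the ideal of the origin -/

theorem mem_idealOfVars_iff_cc {σ : Type*} (f : MvPolynomial σ k) :
    f ∈ idealOfVars σ k ↔ constantCoeff f = 0 := by
  have h := mem_pow_idealOfVars_iff' (σ := σ) (R := k) 1 f
  rw [pow_one] at h
  rw [h]
  constructor
  · intro h1
    exact h1 0 (by simp)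
  · intro h1 x hx
    have hx0 : x = 0 := by
      rw [Nat.lt_one_iff] at hx
      exact (Finsupp.degree_eq_zero_iff x).1 hx
    rw [hx0]; exact h1

theorem map_pow_idealOfVars_le {σ τ : Type*} (φ : MvPolynomial σ k →ₐ[k] MvPolynomial τ k)
    (hφ : ∀ i, constantCoeff (φ (X i)) = 0) (μ : ℕ) :
    (idealOfVars σ k ^ μ).map φ ≤ idealOfVars τ k ^ μ := by
  rw [Ideal.map_pow]
  refine Ideal.pow_right_mono ?_ μ
  rw [Ideal.map_span, Ideal.span_le]
  rintro _ ⟨_, ⟨i, rfl⟩, rfl⟩
  exact (mem_idealOfVars_iff_cc _).2 (hφ i)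

theorem mem_pow_of_cc {σ τ : Type*} (φ : MvPolynomial σ k →ₐ[k] MvPolynomial τ k)
    (hφ : ∀ i, constantCoeff (φ (X i)) = 0) (μ : ℕ) {f : MvPolynomial σ k}
    (hf : f ∈ idealOfVars σ k ^ μ) : φ f ∈ idealOfVars τ k ^ μ :=
  map_pow_idealOfVars_le φ hφ μ (Ideal.mem_map_of_mem φ hf)

theorem cc_of_X {σ τ : Type*} (φ : MvPolynomial σ k →ₐ[k] MvPolynomial τ k)
    (hφ : ∀ i, constantCoeff (φ (X i)) = 0) (f : MvPolynomial σ k) :
    constantCoeff (φ f) = constantCoeff f := by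
  have h : ((constantCoeff : MvPolynomial τ k →+* k).comp (φ : MvPolynomial σ k →+* MvPolynomial τ k)) =
      (constantCoeff : MvPolynomial σ k →+* k) := by
    apply MvPolynomial.ringHom_ext
    · intro r
      simp
    · intro i
      simpa using hφ i
  exact congrArg (fun g : MvPolynomial σ k →+* k => g f) h

theorem cc_symm {σ : Type*} (Φ : MvPolynomial σ k ≃ₐ[k] MvPolynomial σ k)
    (hΦ : ∀ i, constantCoeff (Φ (X i)) = 0) (i : σ) : constantCoeff (Φ.symm (X i)) = 0 := by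
  have h := cc_of_X (Φ : MvPolynomial σ k →ₐ[k] MvPolynomial σ k) hΦ (Φ.symm (X i))
  rw [← h]
  simp

/-! ### `Prepared` in terms of polynomials in `X_0` -/

theorem coeff_single_zero (f : MvPolynomial (Fin 3) k) (μ : ℕ) :
    f.coeff (Finsupp.single 0 μ) = constantCoeff ((finSuccEquiv k 2 f).coeff μ) := by
  have h := finSuccEquiv_coeff_coeff (R := k) (n := 2) 0 f μ
  rw [constantCoeff_eq, h]
  congr 1
  ext i
  refine Fin.cases ?_ ?_ i
  · simp
  · intro j
    simp [Fin.succ_ne_zero]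

theorem prep_deg_iff (I : Ideal (MvPolynomial (Fin 3) k)) (μ : ℕ) :
    (∀ f ∈ I, ∀ d ∈ f.support, μ ≤ d 0 + d 1 + d 2) ↔ I ≤ idealOfVars (Fin 3) k ^ μ := by
  constructor
  · intro h f hf
    rw [mem_pow_idealOfVars_iff]
    intro d hd
    rw [Finsupp.degree_eq_sum, Fin.sum_univ_three]
    exact h f hf d hd
  · intro h f hf d hd
    have := (mem_pow_idealOfVars_iff μ f).1 (h hf) d hd
    rwa [Finsupp.degree_eq_sum, Fin.sum_univ_three] at this

theorem prep_contact_iff (f : MvPolynomial (Fin 3) k) (μ n : ℕ) :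
    (∀ d ∈ f.support, d 0 + 1 = μ → n < d 1 + d 2) ↔
      ∀ l, l + 1 = μ → (finSuccEquiv k 2 f).coeff l ∈ idealOfVars (Fin 2) k ^ (n + 1) := by
  constructor
  · intro h l hl
    rw [mem_pow_idealOfVars_iff]
    intro m hm
    rw [mem_support_coeff_finSuccEquiv] at hm
    have h1 := h _ hm (by simpa using hl)
    rw [Finsupp.degree_eq_sum, Fin.sum_univ_two]
    have e1 : (Finsupp.cons l m : Fin 3 →₀ ℕ) 1 = m 0 := Finsupp.cons_succ (0 : Fin 2) l m
    have e2 : (Finsupp.cons l m : Fin 3 →₀ ℕ) 2 = m 1 := Finsupp.cons_succ (1 : Fin 2) l m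
    rw [e1, e2] at h1
    exact h1
  · intro h d hd hd0
    have h1 := h (d 0) hd0
    rw [mem_pow_idealOfVars_iff] at h1
    have h2 := h1 d.tail (by
      rw [mem_support_coeff_finSuccEquiv, Finsupp.cons_tail]; exact hd)
    rw [Finsupp.degree_eq_sum, Fin.sum_univ_two] at h2
    have e1 : (Finsupp.tail d : Fin 2 →₀ ℕ) 0 = d 1 := rfl
    have e2 : (Finsupp.tail d : Fin 2 →₀ ℕ) 1 = d 2 := rfl
    rw [e1, e2] at h2
    exact h2

theorem prepared_iff {s : ℕ} (a : Fin s → Ideal (MvPolynomial (Fin 3) k)) (μ : Fin s → ℕ) (i₀ : Fin s)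
    (n : ℕ) : Prepared a μ i₀ n ↔
      (∀ i, a i ≤ idealOfVars (Fin 3) k ^ μ i) ∧
      (∀ i, ∃ f ∈ a i, constantCoeff ((finSuccEquiv k 2 f).coeff (μ i)) ≠ 0) ∧
      (∃ f ∈ a i₀, constantCoeff ((finSuccEquiv k 2 f).coeff (μ i₀)) ≠ 0 ∧
        ∀ l, l + 1 = μ i₀ → (finSuccEquiv k 2 f).coeff l ∈ idealOfVars (Fin 2) k ^ (n + 1)) := by
  constructor
  · intro h
    refine ⟨fun i => (prep_deg_iff _ _).1 (h.deg i), fun i => ?_, ?_⟩
    · obtain ⟨f, hf, hc⟩ := h.pure i
      exact ⟨f, hf, by rwa [← coeff_single_zero]⟩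
    · obtain ⟨f, hf, hc, hd⟩ := h.contact
      exact ⟨f, hf, by rwa [← coeff_single_zero], (prep_contact_iff _ _ _).1 hd⟩
  · rintro ⟨h1, h2, f, hf, hc, hd⟩
    refine ⟨fun i => (prep_deg_iff _ _).2 (h1 i), fun i => ?_, f, hf, ?_, ?_⟩
    · obtain ⟨f, hf, hc⟩ := h2 i
      exact ⟨f, hf, by rwa [coeff_single_zero]⟩
    · rwa [coeff_single_zero]
    · exact (prep_contact_iff _ _ _).2 hd

/-! ### plane coordinate changes -/

/-- a plane coordinate change, acting on `k[X_0, X_1, X_2]` -/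
noncomputable def planeEquiv (φ : MvPolynomial (Fin 2) k ≃ₐ[k] MvPolynomial (Fin 2) k) :
    MvPolynomial (Fin 3) k ≃ₐ[k] MvPolynomial (Fin 3) k :=
  (finSuccEquiv k 2).trans ((Polynomial.mapAlgEquiv φ).trans (finSuccEquiv k 2).symm)

theorem finSuccEquiv_planeEquiv (φ : MvPolynomial (Fin 2) k ≃ₐ[k] MvPolynomial (Fin 2) k)
    (f : MvPolynomial (Fin 3) k) : finSuccEquiv k 2 (planeEquiv φ f) =
      (finSuccEquiv k 2 f).map (φ : MvPolynomial (Fin 2) k →+* MvPolynomial (Fin 2) k) := by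
  simp [planeEquiv]

theorem planeEquiv_symm (φ : MvPolynomial (Fin 2) k ≃ₐ[k] MvPolynomial (Fin 2) k) :
    (planeEquiv φ).symm = planeEquiv φ.symm := by
  rfl

theorem planeEquiv_X_zero (φ : MvPolynomial (Fin 2) k ≃ₐ[k] MvPolynomial (Fin 2) k) :
    planeEquiv φ (X 0) = X 0 := by
  apply (finSuccEquiv k 2).injective
  rw [finSuccEquiv_planeEquiv, finSuccEquiv_X_zero]
  simp

theorem rename_succ_eq (g : MvPolynomial (Fin 2) k) :
    finSuccEquiv k 2 (rename Fin.succ g) = Polynomial.C g := by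
  have h : ((finSuccEquiv k 2 : MvPolynomial (Fin 3) k →ₐ[k] _).comp (rename Fin.succ)) =
      (Polynomial.CAlgHom : MvPolynomial (Fin 2) k →ₐ[MvPolynomial (Fin 2) k] _).restrictScalars k := by
    apply MvPolynomial.algHom_ext
    intro i
    simp [finSuccEquiv_X_succ]
  exact congrArg (fun F : MvPolynomial (Fin 2) k →ₐ[k] Polynomial (MvPolynomial (Fin 2) k) => F g) h

theorem planeEquiv_X_succ (φ : MvPolynomial (Fin 2) k ≃ₐ[k] MvPolynomial (Fin 2) k) (j : Fin 2) :
    planeEquiv φ (X j.succ) = rename Fin.succ (φ (X j)) := by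
  apply (finSuccEquiv k 2).injective
  rw [finSuccEquiv_planeEquiv, finSuccEquiv_X_succ, rename_succ_eq]
  simp

theorem planeEquiv_cc (φ : MvPolynomial (Fin 2) k ≃ₐ[k] MvPolynomial (Fin 2) k)
    (hφ : ∀ i, constantCoeff (φ (X i)) = 0) (i : Fin 3) : constantCoeff (planeEquiv φ (X i)) = 0 := by
  refine Fin.cases ?_ ?_ i
  · rw [planeEquiv_X_zero]; simp
  · intro j
    rw [planeEquiv_X_succ, constantCoeff_rename]
    exact hφ j

theorem prepared_plane {s : ℕ} {a : Fin s → Ideal (MvPolynomial (Fin 3) k)} {μ : Fin s → ℕ}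
    {i₀ : Fin s} {n : ℕ} (h : Prepared a μ i₀ n)
    (φ : MvPolynomial (Fin 2) k ≃ₐ[k] MvPolynomial (Fin 2) k)
    (hφ : ∀ i, constantCoeff (φ (X i)) = 0) :
    Prepared (fun i => (a i).map (planeEquiv φ)) μ i₀ n := by
  rw [prepared_iff] at h ⊢
  obtain ⟨h1, h2, f, hf, hc, hd⟩ := h
  have hcc : ∀ g : MvPolynomial (Fin 2) k, constantCoeff (φ g) = constantCoeff g :=
    fun g => cc_of_X (φ : MvPolynomial (Fin 2) k →ₐ[k] MvPolynomial (Fin 2) k) hφ g
  refine ⟨fun i => ?_, fun i => ?_, planeEquiv φ f, Ideal.mem_map_of_mem _ hf, ?_, ?_⟩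
  · refine (Ideal.map_mono (h1 i)).trans ?_
    exact map_pow_idealOfVars_le (planeEquiv φ : MvPolynomial (Fin 3) k →ₐ[k] MvPolynomial (Fin 3) k)
      (planeEquiv_cc φ hφ) (μ i)
  · obtain ⟨f, hf, hc⟩ := h2 i
    refine ⟨planeEquiv φ f, Ideal.mem_map_of_mem _ hf, ?_⟩
    rw [finSuccEquiv_planeEquiv, Polynomial.coeff_map]
    change constantCoeff (φ _) ≠ 0
    rwa [hcc]
  · rw [finSuccEquiv_planeEquiv, Polynomial.coeff_map]
    change constantCoeff (φ _) ≠ 0
    rwa [hcc]
  · intro l hl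
    rw [finSuccEquiv_planeEquiv, Polynomial.coeff_map]
    exact mem_pow_of_cc (φ : MvPolynomial (Fin 2) k →ₐ[k] MvPolynomial (Fin 2) k) hφ (n + 1) (hd l hl)

/-- C2 : plane coordinate changes keep `Prepared`: `X_1 ↦ X_1 + ζ(X_2)`, `ζ(0) = 0` -/
theorem Prepared.shear {s : ℕ} {a : Fin s → Ideal (MvPolynomial (Fin 3) k)}
    {μ : Fin s → ℕ} {i₀ : Fin s} {n : ℕ} (h : Prepared a μ i₀ n) (ζ : Polynomial k)
    (hζ : ζ.coeff 0 = 0) :
    ∃ Φ : MvPolynomial (Fin 3) k ≃ₐ[k] MvPolynomial (Fin 3) k,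
      (∀ i, constantCoeff (Φ (X i)) = 0) ∧ (∀ i, constantCoeff (Φ.symm (X i)) = 0) ∧
      Prepared (fun i => (a i).map Φ) μ i₀ n ∧ Φ.symm (X 0) = X 0 ∧ Φ.symm (X 2) = X 2 ∧
      Φ.symm (X 1) = X 1 - Polynomial.aeval (X 2) ζ := by
  let φ₁ : MvPolynomial (Fin 2) k →ₐ[k] MvPolynomial (Fin 2) k :=
    aeval ![X 0 + Polynomial.aeval (X 1) ζ, X 1]
  let φ₂ : MvPolynomial (Fin 2) k →ₐ[k] MvPolynomial (Fin 2) k :=
    aeval ![X 0 - Polynomial.aeval (X 1) ζ, X 1]
  have e1 : φ₁ (X 1) = X 1 := by simp [φ₁]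
  have e2 : φ₂ (X 1) = X 1 := by simp [φ₂]
  have e3 : φ₁ (X 0) = X 0 + Polynomial.aeval (X 1) ζ := by simp [φ₁]
  have e4 : φ₂ (X 0) = X 0 - Polynomial.aeval (X 1) ζ := by simp [φ₂]
  have hcc : constantCoeff (Polynomial.aeval (X 1 : MvPolynomial (Fin 2) k) ζ) = 0 := by
    rw [← hζ, Polynomial.coeff_zero_eq_eval_zero, Polynomial.aeval_def, Polynomial.hom_eval₂]
    simp [Polynomial.eval₂_eq_eval_map]
  let φ : MvPolynomial (Fin 2) k ≃ₐ[k] MvPolynomial (Fin 2) k := AlgEquiv.ofAlgHom φ₁ φ₂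
    (by
      apply MvPolynomial.algHom_ext
      intro i
      fin_cases i
      · change φ₁ (φ₂ (X 0)) = X 0
        rw [e4, map_sub, e3, ← Polynomial.aeval_algHom_apply, e1]; ring
      · change φ₁ (φ₂ (X 1)) = X 1
        rw [e2, e1])
    (by
      apply MvPolynomial.algHom_ext
      intro i
      fin_cases i
      · change φ₂ (φ₁ (X 0)) = X 0
        rw [e3, map_add, e4, ← Polynomial.aeval_algHom_apply, e2]; ring
      · change φ₂ (φ₁ (X 1)) = X 1
        rw [e1, e2])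
  have hφ : ∀ i, constantCoeff (φ (X i)) = 0 := by
    intro i
    fin_cases i
    · change constantCoeff (φ₁ (X 0)) = 0
      rw [e3, map_add, hcc]; simp
    · change constantCoeff (φ₁ (X 1)) = 0
      rw [e1]; simp
  refine ⟨planeEquiv φ, planeEquiv_cc φ hφ, cc_symm _ (planeEquiv_cc φ hφ), prepared_plane h φ hφ,
    ?_, ?_, ?_⟩
  · rw [planeEquiv_symm, planeEquiv_X_zero]
  · rw [planeEquiv_symm]
    change planeEquiv φ.symm (X (Fin.succ 1)) = _
    rw [planeEquiv_X_succ]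
    change rename Fin.succ (φ₂ (X 1)) = _
    rw [e2, rename_X]
    rfl
  · rw [planeEquiv_symm]
    change planeEquiv φ.symm (X (Fin.succ 0)) = _
    rw [planeEquiv_X_succ]
    change rename Fin.succ (φ₂ (X 0)) = _
    rw [e4, map_sub, rename_X, ← Polynomial.aeval_algHom_apply, rename_X]
    rfl

/-- C3 : swap of `X_1` and `X_2` -/
theorem Prepared.swap {s : ℕ} {a : Fin s → Ideal (MvPolynomial (Fin 3) k)}
    {μ : Fin s → ℕ} {i₀ : Fin s} {n : ℕ} (h : Prepared a μ i₀ n) :
    ∃ Φ : MvPolynomial (Fin 3) k ≃ₐ[k] MvPolynomial (Fin 3) k,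
      (∀ i, constantCoeff (Φ (X i)) = 0) ∧ (∀ i, constantCoeff (Φ.symm (X i)) = 0) ∧
      Prepared (fun i => (a i).map Φ) μ i₀ n ∧ Φ.symm (X 0) = X 0 ∧ Φ.symm (X 1) = X 2 ∧
      Φ.symm (X 2) = X 1 := by
  let φ : MvPolynomial (Fin 2) k ≃ₐ[k] MvPolynomial (Fin 2) k := renameEquiv k (Equiv.swap 0 1)
  have hs : ∀ i, φ.symm (X i) = X (Equiv.swap 0 1 i) := by
    intro i
    simp [φ]
  have hφ : ∀ i, constantCoeff (φ (X i)) = 0 := by
    intro i
    simp [φ]
  refine ⟨planeEquiv φ, planeEquiv_cc φ hφ, cc_symm _ (planeEquiv_cc φ hφ), prepared_plane h φ hφ,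
    ?_, ?_, ?_⟩
  · rw [planeEquiv_symm, planeEquiv_X_zero]
  · rw [planeEquiv_symm]
    change planeEquiv φ.symm (X (Fin.succ 0)) = _
    rw [planeEquiv_X_succ, hs, rename_X]
    rfl
  · rw [planeEquiv_symm]
    change planeEquiv φ.symm (X (Fin.succ 1)) = _
    rw [planeEquiv_X_succ, hs, rename_X]
    rfl

/-! ### the coordinate change `X_0 ↦ X_0 + ξ(X_1, X_2)` -/

/-- the coordinate change `X_0 ↦ X_0 + ξ(X_1, X_2)` -/
noncomputable def tschEquiv (ξ : MvPolynomial (Fin 2) k) :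
    MvPolynomial (Fin 3) k ≃ₐ[k] MvPolynomial (Fin 3) k :=
  (finSuccEquiv k 2).trans (((Polynomial.taylorEquiv ξ).restrictScalars k).trans
    (finSuccEquiv k 2).symm)

theorem finSuccEquiv_tschEquiv (ξ : MvPolynomial (Fin 2) k) (f : MvPolynomial (Fin 3) k) :
    finSuccEquiv k 2 (tschEquiv ξ f) = Polynomial.taylor ξ (finSuccEquiv k 2 f) := by
  simp [tschEquiv]
  rfl

theorem cc_eval (P : Polynomial (MvPolynomial (Fin 2) k)) (ξ : MvPolynomial (Fin 2) k)
    (hξ : constantCoeff ξ = 0) : constantCoeff (P.eval ξ) = constantCoeff (P.coeff 0) := by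
  rw [Polynomial.coeff_zero_eq_eval_zero, Polynomial.eval, Polynomial.eval, Polynomial.hom_eval₂,
    Polynomial.hom_eval₂, hξ, map_zero]

theorem tschEquiv_cc (ξ : MvPolynomial (Fin 2) k) (hξ : constantCoeff ξ = 0) (f : MvPolynomial (Fin 3) k) :
    constantCoeff (tschEquiv ξ f) = constantCoeff f := by
  have h : ∀ g : MvPolynomial (Fin 3) k,
      constantCoeff g = constantCoeff ((finSuccEquiv k 2 g).coeff 0) := by
    intro g
    rw [← coeff_single_zero, constantCoeff_eq, Finsupp.single_zero]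
  rw [h, finSuccEquiv_tschEquiv, Polynomial.taylor_coeff, Polynomial.hasseDeriv_zero,
    LinearMap.id_apply, cc_eval _ _ hξ, ← h]

/-- Newton iteration -/
theorem newton (G : Polynomial (MvPolynomial (Fin 2) k)) (h0 : constantCoeff (G.coeff 0) = 0)
    (h1 : constantCoeff (G.coeff 1) ≠ 0) (n : ℕ) :
    ∃ ξ : MvPolynomial (Fin 2) k, constantCoeff ξ = 0 ∧ G.eval ξ ∈ idealOfVars (Fin 2) k ^ (n + 1) := by
  induction n with
  | zero =>
    refine ⟨0, by simp, ?_⟩
    rw [zero_add, pow_one, mem_idealOfVars_iff_cc, cc_eval _ _ (by simp), h0]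
  | succ n ih =>
    obtain ⟨ξ, hξ, hG⟩ := ih
    set c : k := constantCoeff (G.coeff 1) with hc
    set y : MvPolynomial (Fin 2) k := -(C c⁻¹ * G.eval ξ) with hy
    have hG1 : G.eval ξ ∈ idealOfVars (Fin 2) k := by
      have := Ideal.pow_le_self (I := idealOfVars (Fin 2) k) (Nat.succ_ne_zero n) hG
      exact this
    have hG0 : constantCoeff (G.eval ξ) = 0 := (mem_idealOfVars_iff_cc _).1 hG1
    obtain ⟨r, hr⟩ := G.binomExpansion ξ y
    refine ⟨ξ + y, ?_, ?_⟩
    · rw [map_add, hξ, hy, map_neg, map_mul, hG0]; ring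
    · have hr' : Polynomial.eval (ξ + y) G =
          (1 - C c⁻¹ * G.derivative.eval ξ) * G.eval ξ + (r * C c⁻¹ ^ 2) * (G.eval ξ * G.eval ξ) := by
        rw [hr, hy]; ring
      rw [hr']
      refine Ideal.add_mem _ ?_ ?_
      · rw [pow_succ']
        refine Ideal.mul_mem_mul ?_ hG
        rw [mem_idealOfVars_iff_cc, map_sub, map_mul, cc_eval _ _ hξ, Polynomial.coeff_derivative]
        simp [← hc, inv_mul_cancel₀ h1]
      · refine Ideal.mul_mem_left _ _ ?_
        have h2 := Ideal.mul_mem_mul hG hG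
        rw [← pow_add] at h2
        exact Ideal.pow_le_pow_right (by omega) h2

/-! ### linear coordinate changes -/

/-- the linear coordinate change which takes the `X_0`-axis to the line through `v` -/
theorem exists_linear (v : Fin 3 → k) (hv : v 0 ≠ 0) :
    ∃ Λ : MvPolynomial (Fin 3) k ≃ₐ[k] MvPolynomial (Fin 3) k,
      (∀ i, constantCoeff (Λ (X i)) = 0) ∧
      ∀ f, (finSuccEquiv k 2 (Λ f)).map (constantCoeff : MvPolynomial (Fin 2) k →+* k) =
        aeval (fun i => Polynomial.C (v i) * Polynomial.X) f := by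
  let l₁ : MvPolynomial (Fin 3) k →ₐ[k] MvPolynomial (Fin 3) k :=
    aeval ![C (v 0) * X 0, C (v 1) * X 0 + X 1, C (v 2) * X 0 + X 2]
  let l₂ : MvPolynomial (Fin 3) k →ₐ[k] MvPolynomial (Fin 3) k :=
    aeval ![C (v 0)⁻¹ * X 0, X 1 - C (v 1) * (C (v 0)⁻¹ * X 0), X 2 - C (v 2) * (C (v 0)⁻¹ * X 0)]
  have a0 : l₁ (X 0) = C (v 0) * X 0 := by simp [l₁]
  have a1 : l₁ (X 1) = C (v 1) * X 0 + X 1 := by simp [l₁]
  have a2 : l₁ (X 2) = C (v 2) * X 0 + X 2 := by simp [l₁]
  have b0 : l₂ (X 0) = C (v 0)⁻¹ * X 0 := by simp [l₂]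
  have b1 : l₂ (X 1) = X 1 - C (v 1) * (C (v 0)⁻¹ * X 0) := by simp [l₂]
  have b2 : l₂ (X 2) = X 2 - C (v 2) * (C (v 0)⁻¹ * X 0) := by simp [l₂]
  have c1 : ∀ r : k, l₁ (C r) = C r := fun r => l₁.commutes r
  have c2 : ∀ r : k, l₂ (C r) = C r := fun r => l₂.commutes r
  have hv1 : (C (v 0)⁻¹ : MvPolynomial (Fin 3) k) * C (v 0) = 1 := by
    rw [← C_mul, inv_mul_cancel₀ hv, C_1]
  let Λ : MvPolynomial (Fin 3) k ≃ₐ[k] MvPolynomial (Fin 3) k := AlgEquiv.ofAlgHom l₁ l₂
    (by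
      apply MvPolynomial.algHom_ext
      intro i
      fin_cases i
      · change l₁ (l₂ (X 0)) = X 0
        rw [b0, map_mul, c1, a0]
        linear_combination (X 0) * hv1
      · change l₁ (l₂ (X 1)) = X 1
        rw [b1]
        simp only [map_sub, map_mul, c1, a0, a1]
        linear_combination (-C (v 1) * X 0) * hv1
      · change l₁ (l₂ (X 2)) = X 2
        rw [b2]
        simp only [map_sub, map_mul, c1, a0, a2]
        linear_combination (-C (v 2) * X 0) * hv1)
    (by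
      apply MvPolynomial.algHom_ext
      intro i
      fin_cases i
      · change l₂ (l₁ (X 0)) = X 0
        rw [a0, map_mul, c2, b0]
        linear_combination (X 0) * hv1
      · change l₂ (l₁ (X 1)) = X 1
        rw [a1]
        simp only [map_add, map_mul, c2, b0, b1]
        ring
      · change l₂ (l₁ (X 2)) = X 2
        rw [a2]
        simp only [map_add, map_mul, c2, b0, b2]
        ring)
  have hΛ : ∀ f, Λ f = l₁ f := fun f => rfl
  refine ⟨Λ, ?_, ?_⟩
  · intro i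
    rw [hΛ]
    fin_cases i
    · change constantCoeff (l₁ (X 0)) = 0
      rw [a0]; simp
    · change constantCoeff (l₁ (X 1)) = 0
      rw [a1]; simp
    · change constantCoeff (l₁ (X 2)) = 0
      rw [a2]; simp
  · intro f
    have h : ((Polynomial.mapRingHom (constantCoeff : MvPolynomial (Fin 2) k →+* k)).comp
        ((finSuccEquiv k 2 : MvPolynomial (Fin 3) k →+* _).comp (l₁ : MvPolynomial (Fin 3) k →+* _))) =
        (aeval (fun i => Polynomial.C (v i) * Polynomial.X) :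
          MvPolynomial (Fin 3) k →ₐ[k] Polynomial k).toRingHom := by
      apply MvPolynomial.ringHom_ext
      · intro r
        have e : finSuccEquiv k 2 (C r) = Polynomial.C (C r) := by
          simp [finSuccEquiv_apply]
        simp only [RingHom.comp_apply]
        change Polynomial.map constantCoeff (finSuccEquiv k 2 (l₁ (C r))) =
          aeval (fun i => Polynomial.C (v i) * Polynomial.X) (C r)
        rw [c1, e]
        simp
      · intro i
        have f0 : finSuccEquiv k 2 (X 0) = Polynomial.X := finSuccEquiv_X_zero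
        have f1 : finSuccEquiv k 2 (X 1) = Polynomial.C (X 0) := finSuccEquiv_X_succ (j := 0)
        have f2 : finSuccEquiv k 2 (X 2) = Polynomial.C (X 1) := finSuccEquiv_X_succ (j := 1)
        have e : ∀ r, finSuccEquiv k 2 (C r) = Polynomial.C (C r) := by
          intro r
          simp [finSuccEquiv_apply]
        fin_cases i
        · change Polynomial.map constantCoeff (finSuccEquiv k 2 (l₁ (X 0))) =
            aeval (fun i => Polynomial.C (v i) * Polynomial.X) (X 0)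
          rw [a0]
          simp [f0, e]
        · change Polynomial.map constantCoeff (finSuccEquiv k 2 (l₁ (X 1))) =
            aeval (fun i => Polynomial.C (v i) * Polynomial.X) (X 1)
          rw [a1]
          simp [f0, f1, e]
        · change Polynomial.map constantCoeff (finSuccEquiv k 2 (l₁ (X 2))) =
            aeval (fun i => Polynomial.C (v i) * Polynomial.X) (X 2)
          rw [a2]
          simp [f0, f2, e]
    exact congrArg (fun F : MvPolynomial (Fin 3) k →+* Polynomial k => F f) h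

theorem coeff_aeval_line (v : Fin 3 → k) (f : MvPolynomial (Fin 3) k) (m : ℕ) :
    (aeval (fun i => Polynomial.C (v i) * Polynomial.X) f : Polynomial k).coeff m =
      eval v (homogeneousComponent m f) := by
  induction f using MvPolynomial.induction_on' with
  | monomial d c =>
    have h1 : (aeval (fun i => Polynomial.C (v i) * Polynomial.X) (monomial d c) : Polynomial k) =
        Polynomial.C (eval v (monomial d c)) * Polynomial.X ^ d.degree := by
      rw [aeval_monomial, eval_monomial, Finsupp.prod_fintype _ _ (by simp),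
        Finsupp.prod_fintype _ _ (by simp), Finsupp.degree_eq_sum, ← Finset.prod_pow_eq_pow_sum,
        map_mul, map_prod, mul_assoc, ← Finset.prod_mul_distrib]
      simp [mul_pow]
    rw [h1, Polynomial.coeff_C_mul, Polynomial.coeff_X_pow]
    by_cases hm : m = d.degree
    · rw [if_pos hm, mul_one, homogeneousComponent_of_mem (n := d.degree)
        (isHomogeneous_monomial c rfl), if_pos hm]
    · rw [if_neg hm, mul_zero, homogeneousComponent_of_mem (n := d.degree)
        (isHomogeneous_monomial c rfl), if_neg hm, map_zero]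
  | add p q hp hq =>
    rw [map_add, Polynomial.coeff_add, hp, hq, map_add, map_add]

/-- C1 : linear change of coordinates and a polynomial approximation of the surface of maximal contact -/
theorem prep [Infinite k] {s : ℕ} (a : Fin s → Ideal (MvPolynomial (Fin 3) k))
    (μ : Fin s → ℕ) (hμ : ∀ i, OrdAt0 (a i) (μ i)) (i₀ : Fin s) (hi₀ : (μ i₀ : k) ≠ 0) (n : ℕ) :
    ∃ Φ : MvPolynomial (Fin 3) k ≃ₐ[k] MvPolynomial (Fin 3) k,
      (∀ i, constantCoeff (Φ (X i)) = 0) ∧ (∀ i, constantCoeff (Φ.symm (X i)) = 0) ∧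
      Prepared (fun i => (a i).map Φ) μ i₀ n := by
  classical
  -- elements of order exactly `μ i`
  have hex : ∀ i, ∃ f ∈ a i, homogeneousComponent (μ i) f ≠ 0 := by
    intro i
    obtain ⟨h1, h2⟩ := hμ i
    obtain ⟨f, hf, hf2⟩ := Set.not_subset.1 h2
    refine ⟨f, hf, fun h0 => hf2 ?_⟩
    change f ∈ idealOfVars (Fin 3) k ^ (μ i + 1)
    rw [mem_pow_idealOfVars_iff]
    intro d hd
    have h3 : μ i ≤ d.degree := (mem_pow_idealOfVars_iff (μ i) f).1 (h1 hf) d hd
    rcases h3.lt_or_eq with h4 | h4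
    · exact h4
    · exfalso
      have h5 : coeff d (homogeneousComponent (μ i) f) = 0 := by rw [h0]; simp
      rw [coeff_homogeneousComponent, if_pos h4.symm] at h5
      exact (mem_support_iff.1 hd) h5
  choose f hf hF using hex
  -- the direction `v`
  have hG : (∏ i, homogeneousComponent (μ i) (f i)) * X 0 ≠ 0 :=
    mul_ne_zero (Finset.prod_ne_zero_iff.2 fun i _ => hF i) (X_ne_zero 0)
  obtain ⟨v, hv⟩ : ∃ v : Fin 3 → k, eval v ((∏ i, homogeneousComponent (μ i) (f i)) * X 0) ≠ 0 := by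
    by_contra hcon
    push Not at hcon
    exact hG (MvPolynomial.funext (fun v => by rw [hcon v, map_zero]))
  rw [map_mul, map_prod, eval_X] at hv
  have hv0 : v 0 ≠ 0 := right_ne_zero_of_mul hv
  have hvi : ∀ i, eval v (homogeneousComponent (μ i) (f i)) ≠ 0 := fun i =>
    Finset.prod_ne_zero_iff.1 (left_ne_zero_of_mul hv) i (Finset.mem_univ i)
  obtain ⟨Λ, hΛcc, hΛ⟩ := exists_linear v hv0
  have hpure : ∀ i, constantCoeff ((finSuccEquiv k 2 (Λ (f i))).coeff (μ i)) ≠ 0 := by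
    intro i
    have h1 := congrArg (fun P : Polynomial k => P.coeff (μ i)) (hΛ (f i))
    simp only [Polynomial.coeff_map] at h1
    rw [h1, coeff_aeval_line]
    exact hvi i
  have hmem : ∀ i, (a i).map Λ ≤ idealOfVars (Fin 3) k ^ μ i := by
    intro i
    refine (Ideal.map_mono (hμ i).1).trans ?_
    exact map_pow_idealOfVars_le (Λ : MvPolynomial (Fin 3) k →ₐ[k] MvPolynomial (Fin 3) k) hΛcc (μ i)
  -- the maximal contact surface
  obtain ⟨ν, hν⟩ : ∃ ν, μ i₀ = ν + 1 := by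
    refine Nat.exists_eq_succ_of_ne_zero ?_
    rintro h0
    rw [h0] at hi₀
    simp at hi₀
  set P : Polynomial (MvPolynomial (Fin 2) k) := finSuccEquiv k 2 (Λ (f i₀)) with hP
  have hG0 : constantCoeff ((Polynomial.hasseDeriv ν P).coeff 0) = 0 := by
    rw [Polynomial.hasseDeriv_coeff, zero_add, Nat.choose_self, Nat.cast_one, one_mul, hP,
      ← coeff_single_zero]
    have h1 : Λ (f i₀) ∈ idealOfVars (Fin 3) k ^ μ i₀ := hmem i₀ (Ideal.mem_map_of_mem _ (hf i₀))
    rw [mem_pow_idealOfVars_iff'] at h1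
    exact h1 _ (by rw [Finsupp.degree_single]; omega)
  have hG1 : constantCoeff ((Polynomial.hasseDeriv ν P).coeff 1) ≠ 0 := by
    rw [Polynomial.hasseDeriv_coeff, map_mul, map_natCast]
    refine mul_ne_zero ?_ ?_
    · have : (1 + ν).choose ν = μ i₀ := by rw [hν, add_comm, Nat.choose_succ_self_right]
      rw [this]; exact hi₀
    · have := hpure i₀
      rw [hν] at this
      rwa [add_comm 1 ν]
  obtain ⟨ξ, hξ, hξn⟩ := newton _ hG0 hG1 n
  have hTcc : ∀ g, constantCoeff (tschEquiv ξ g) = constantCoeff g := tschEquiv_cc ξ hξ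
  have hTX : ∀ i, constantCoeff (tschEquiv ξ (X i)) = 0 := fun i => by rw [hTcc]; simp
  have hlead : ∀ (g : MvPolynomial (Fin 3) k) (m : ℕ), g ∈ idealOfVars (Fin 3) k ^ m →
      constantCoeff ((finSuccEquiv k 2 (tschEquiv ξ g)).coeff m) =
        constantCoeff ((finSuccEquiv k 2 g).coeff m) := by
    intro g m hg
    rw [finSuccEquiv_tschEquiv, Polynomial.taylor_coeff, cc_eval _ _ hξ,
      Polynomial.hasseDeriv_coeff, zero_add, Nat.choose_self, Nat.cast_one, one_mul]
  have hΦX : ∀ i, constantCoeff ((Λ.trans (tschEquiv ξ)) (X i)) = 0 := by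
    intro i
    rw [AlgEquiv.trans_apply, hTcc]
    exact hΛcc i
  refine ⟨Λ.trans (tschEquiv ξ), hΦX, cc_symm _ hΦX, ?_⟩
  rw [prepared_iff]
  refine ⟨fun i => ?_, fun i => ?_, (Λ.trans (tschEquiv ξ)) (f i₀), Ideal.mem_map_of_mem _ (hf i₀),
    ?_, ?_⟩
  · refine (Ideal.map_mono (hμ i).1).trans ?_
    exact map_pow_idealOfVars_le
      ((Λ.trans (tschEquiv ξ) : MvPolynomial (Fin 3) k ≃ₐ[k] MvPolynomial (Fin 3) k) :
        MvPolynomial (Fin 3) k →ₐ[k] MvPolynomial (Fin 3) k) hΦX (μ i)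
  · refine ⟨(Λ.trans (tschEquiv ξ)) (f i), Ideal.mem_map_of_mem _ (hf i), ?_⟩
    rw [AlgEquiv.trans_apply, hlead _ _ (hmem i (Ideal.mem_map_of_mem _ (hf i)))]
    exact hpure i
  · rw [AlgEquiv.trans_apply, hlead _ _ (hmem i₀ (Ideal.mem_map_of_mem _ (hf i₀)))]
    exact hpure i₀
  · intro l hl
    have hl' : l = ν := by omega
    rw [AlgEquiv.trans_apply, finSuccEquiv_tschEquiv, Polynomial.taylor_coeff, hl']
    exact hξn

end Prep

end Pool.Agent.MNJ
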