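import Pool.Agent.Work.MP_6c38a7_ag.MainC
import Pool.Agent.Work.MP_6c38a7_ag.Cusp
import Pool.Agent.Work.MP_6c38a7_ag.Prep
import Pool.Agent.Work.MP_6c38a7_ag.Jet
import Pool.Agent.Work.MP_6c38a7_ag.Adapt

/-!
# Cell MN: the main theorem
-/

namespace Pool.Agent.MNJ

open MvPolynomial

universe u

section

variable {k : Type u} [Field k]

/-- `core` with the output of `adapt` -/
theorem core' {s : ℕ} (e : Fin s → ℝ) (he : ∀ i, 0 < e i) (μ : Fin s → ℕ)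
    (i₀ : Fin s) (hsum : ∑ i, e i * (μ i : ℝ) ≤ 1 + e i₀) (hμk : (μ i₀ : k) ≠ 0)
    (Mx L C Q C₂ : ℕ) (hMx : ∀ i, μ i ≤ Mx) (hL : MonoBd 3 e L) (hC : ArithBd e C)
    (hQ : C * (C + C) + C ≤ Q) (hC₂ : DescBd e Mx Q C₂)
    (a : Fin s → Ideal (MvPolynomial (Fin 3) k)) (m : Fin s → ℕ)
    (hprep : Prepared a μ i₀ (∑ i, m i)) {K : Type u} [Field K] [Algebra k K]
    (γ : Fin 3 → PowerSeries K) (hγ : Contact a m γ) (r : ℕ) (hr : rk k (cs (∑ i, m i) γ) = r)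
    (halt : (∃ p q : ℕ, 1 ≤ p ∧ 1 ≤ q ∧
          (rk k (cs (∑ i, m i) ![γ 1, γ 2]) + ((p + q : ℕ) : ℕ∞) ≤ ((2 * (∑ i, m i + 1) : ℕ) : ℕ∞)) ∧
          RB k (∑ i, m i) (γ 1) (γ 2) p q 1 1) ∨
       (∃ g p' q' : ℕ, 1 ≤ g ∧ 2 ≤ q' ∧ q' < p' ∧ Nat.Coprime p' q' ∧ g * p' ≤ (∑ i, m i) ∧
          (γ 1).order = ((g * p' : ℕ) : ℕ∞) ∧ (γ 2).order = ((g * q' : ℕ) : ℕ∞) ∧
          ∃ τ : k, PowerSeries.coeff (g * p') (γ 1) ^ q' =
            algebraMap k K τ * PowerSeries.coeff (g * q') (γ 2) ^ p')) :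
    ∃ m' : Fin s → ℕ, ∑ i, m' i ≤ s * (Mx * L) + s * (Mx * C₂) ∧
      (sVal e a m' < 0 ∨ sVal e a m' ≤
        ((((3 * (∑ i, m i + 1) : ℕ) : ℝ) - r - ∑ i, e i * (m i : ℝ) : ℝ) : EReal)) := by
  refine core e he μ i₀ hsum hμk Mx L C Q C₂ hMx hL hC hQ hC₂ a m hprep γ hγ r hr ?_
  rcases halt with h | ⟨g, p, q, hg, hq, hqp, hco, hn, ho1, ho2, τ, hτ⟩
  · exact Or.inl h
  · right
    by_cases hqk : (q : k) ≠ 0
    · obtain ⟨j, hj, hrk, hRB⟩ := cusp (γ 1) (γ 2) (∑ i, m i) g p q hg (by omega) (by omega) hco hqk ho1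
        ho2 hn ((Nat.mul_le_mul_left g hqp.le).trans hn) τ hτ
      exact ⟨g, p, q, j, hg, hq, hqp, hj, hrk, hRB⟩
    · push Not at hqk
      have hpk : (p : k) ≠ 0 := by
        intro hpk
        have hb := Nat.isCoprime_iff_coprime.2 hco
        obtain ⟨u, v, huv⟩ := hb
        have h1 : ((u * p + v * q : ℤ) : k) = ((1 : ℤ) : k) := by rw [huv]
        push_cast at h1
        rw [hpk, hqk] at h1
        simp at h1
      have hτ0 : τ ≠ 0 := by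
        rintro rfl
        rw [map_zero, zero_mul] at hτ
        have h1 : PowerSeries.coeff (g * p) (γ 1) = 0 := pow_eq_zero_iff (by omega) |>.1 hτ
        have hne : γ 1 ≠ 0 := by
          intro h0; rw [h0, PowerSeries.order_zero] at ho1; exact absurd ho1 (ENat.top_ne_natCast _)
        have h2 := PowerSeries.coeff_order hne
        rw [ho1, ENat.toNat_natCast] at h2
        exact h2 h1
      have hτ' : PowerSeries.coeff (g * q) (γ 2) ^ p =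
          algebraMap k K τ⁻¹ * PowerSeries.coeff (g * p) (γ 1) ^ q := by
        rw [hτ, ← mul_assoc, ← map_mul, inv_mul_cancel₀ hτ0, map_one, one_mul]
      obtain ⟨j, hj, hrk, hRB⟩ := cusp (γ 2) (γ 1) (∑ i, m i) g q p hg (by omega) (by omega) hco.symm hpk
        ho2 ho1 ((Nat.mul_le_mul_left g hqp.le).trans hn) hn τ⁻¹ hτ'
      refine ⟨g, p, q, j, hg, hq, hqp, hj, ?_, ?_⟩
      · have e1 : cs (∑ i, m i) ![γ 1, γ 2] = cs (∑ i, m i) ![γ 2, γ 1] := by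
          ext c
          constructor
          · rintro ⟨i, l, hl, rfl⟩
            fin_cases i
            · exact ⟨1, l, hl, rfl⟩
            · exact ⟨0, l, hl, rfl⟩
          · rintro ⟨i, l, hl, rfl⟩
            fin_cases i
            · exact ⟨1, l, hl, rfl⟩
            · exact ⟨0, l, hl, rfl⟩
        rw [e1, show g * p + g * q + j = g * q + g * p + j by ring]
        exact hrk
      · have h1 := hRB.swap
        have e2 : g * q * p = g * p * q := by ring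
        rw [e2] at h1
        exact h1

end

/-- the main step -/
theorem main_step {s : ℕ} (e : Fin s → ℝ) (he : ∀ i, 0 < e i) :
    ∃ ℓ : ℕ, ∀ (k : Type u) [Field k] [IsAlgClosed k] (a : Fin s → Ideal (MvPolynomial (Fin 3) k))
      (μ : Fin s → ℕ) (i₀ : Fin s), (∀ i, OrdAt0 (a i) (μ i)) → (μ i₀ : k) ≠ 0 →
      ∑ i, e i * (μ i : ℝ) ≤ 1 + e i₀ → ∀ m : Fin s → ℕ, sVal e a m ≠ ⊤ →
      ∃ m' : Fin s → ℕ, ∑ i, m' i ≤ ℓ ∧ (sVal e a m' < 0 ∨ sVal e a m' ≤ sVal e a m) := by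
  classical
  obtain ⟨L, hL⟩ := mono (N := 3) e he
  obtain ⟨C, hC⟩ := arith e he
  set Mx : ℕ := ⌈∑ i, ∑ l, (1 + e i) / e l⌉₊ with hMxd
  set Q : ℕ := C * (C + C) + C with hQ
  obtain ⟨C₂, hC₂⟩ := desc e he Mx Q
  refine ⟨s * (Mx * L) + s * (Mx * C₂), ?_⟩
  intro k _ _ a μ i₀ hμ hμk hsum m hm
  have hMx : ∀ i, μ i ≤ Mx := by
    intro i
    have h1 : e i * (μ i : ℝ) ≤ 1 + e i₀ := by
      refine le_trans ?_ hsum
      exact Finset.single_le_sum (f := fun i => e i * (μ i : ℝ))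
        (fun j _ => mul_nonneg (he j).le (Nat.cast_nonneg _)) (Finset.mem_univ i)
    have h2 : (μ i : ℝ) ≤ (1 + e i₀) / e i := by
      rw [le_div_iff₀ (he i)]; linarith
    have h3 : (1 + e i₀) / e i ≤ ∑ i, ∑ l, (1 + e i) / e l := by
      have hpos : ∀ i l, 0 ≤ (1 + e i) / e l := fun i l =>
        div_nonneg (by have := he i; linarith) (he l).le
      calc (1 + e i₀) / e i ≤ ∑ l, (1 + e i₀) / e l :=
            Finset.single_le_sum (f := fun l => (1 + e i₀) / e l) (fun l _ => hpos i₀ l) (Finset.mem_univ i)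
        _ ≤ _ := Finset.single_le_sum (f := fun i => ∑ l, (1 + e i) / e l)
            (fun i _ => Finset.sum_nonneg fun l _ => hpos i l) (Finset.mem_univ i₀)
    have h4 : (μ i : ℝ) ≤ (Mx : ℝ) := h2.trans (h3.trans (Nat.le_ceil _))
    exact_mod_cast h4
  -- good coordinates
  obtain ⟨Φ₁, hΦ₁, hΦ₁', hprep₁⟩ := prep a μ hμ i₀ hμk (∑ i, m i)
  set a₁ : Fin s → Ideal (MvPolynomial (Fin 3) k) := fun i => (a i).map Φ₁ with ha₁
  have hs₁ : ∀ m', sVal e a₁ m' = sVal e a m' := fun m' => sVal_map e Φ₁ hΦ₁ hΦ₁' a m'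
  have hm₁ : sVal e a₁ m ≠ ⊤ := by rw [hs₁]; exact hm
  obtain ⟨K, _, _, γ, r, hγ, hr, hval⟩ := exists_arc e a₁ m hm₁
  -- plane coordinates
  obtain ⟨y₁, z₁, ζ, h12, hζ, halt⟩ := adapt (k := k) (γ 1) (γ 2) (hγ.1 1) (hγ.1 2) (∑ i, m i)
  -- reduction to the case without exchange
  obtain ⟨a₂, γ₂, hprep₂, hγ₂, hr₂, hs₂, hy₂, hz₂⟩ : ∃ (a₂ : Fin s → Ideal (MvPolynomial (Fin 3) k))
      (γ₂ : Fin 3 → PowerSeries K), Prepared a₂ μ i₀ (∑ i, m i) ∧ Contact a₂ m γ₂ ∧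
      rk k (cs (∑ i, m i) γ₂) = r ∧ (∀ m', sVal e a₂ m' = sVal e a₁ m') ∧ γ₂ 1 = y₁ ∧ γ₂ 2 = z₁ := by
    rcases h12 with ⟨rfl, rfl⟩ | ⟨rfl, rfl⟩
    · exact ⟨a₁, γ, hprep₁, hγ, hr, fun _ => rfl, rfl, rfl⟩
    · obtain ⟨Φ, hΦ, hΦ', hp, h0, h1, h2⟩ := hprep₁.swap
      obtain ⟨hc, hrk⟩ := arc_inv Φ hΦ hΦ' a₁ m γ hγ (∑ i, m i)
      refine ⟨_, _, hp, hc, hrk.trans hr, fun m' => sVal_map e Φ hΦ hΦ' a₁ m', ?_, ?_⟩
      · change aeval γ (Φ.symm (X 1)) = _; rw [h1, aeval_X]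
      · change aeval γ (Φ.symm (X 2)) = _; rw [h2, aeval_X]
  obtain ⟨Φ, hΦ, hΦ', hp, h0, h2, h1⟩ := hprep₂.shear ζ hζ
  obtain ⟨hc, hrk⟩ := arc_inv Φ hΦ hΦ' a₂ m γ₂ hγ₂ (∑ i, m i)
  set γ₃ : Fin 3 → PowerSeries K := fun i => (aeval γ₂ (Φ.symm (X i)) : PowerSeries K) with hγ₃
  have e1 : γ₃ 1 = y₁ - Polynomial.aeval z₁ ζ := by
    rw [hγ₃]
    change aeval γ₂ (Φ.symm (X 1)) = _
    rw [h1, map_sub, aeval_X, hy₂]
    congr 1
    rw [← Polynomial.aeval_algHom_apply, aeval_X, hz₂]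
  have e2 : γ₃ 2 = z₁ := by
    rw [hγ₃]
    change aeval γ₂ (Φ.symm (X 2)) = _
    rw [h2, aeval_X, hz₂]
  obtain ⟨m', hm', hfin⟩ := core' e he μ i₀ hsum hμk Mx L C Q C₂ hMx hL hC le_rfl hC₂
    (fun i => (a₂ i).map Φ) m hp γ₃ hc r (hrk.trans hr₂) (by rw [e1, e2]; exact halt)
  have hs : ∀ m', sVal e (fun i => (a₂ i).map Φ) m' = sVal e a m' := fun m' => by
    rw [sVal_map e Φ hΦ hΦ' a₂ m', hs₂, hs₁]
  refine ⟨m', hm', ?_⟩
  rw [hs] at hfin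
  rw [hs₁] at hval
  rw [hval]
  exact hfin

/-- from `main_step` to `Computes` -/
theorem computes_of_step {k : Type u} [Field k] {s : ℕ} (e : Fin s → ℝ) {N : ℕ}
    (a : Fin s → Ideal (MvPolynomial (Fin N) k)) (ℓ : ℕ)
    (h : ∀ m : Fin s → ℕ, sVal e a m ≠ ⊤ →
      ∃ m' : Fin s → ℕ, ∑ i, m' i ≤ ℓ ∧ (sVal e a m' < 0 ∨ sVal e a m' ≤ sVal e a m)) :
    ∃ m : Fin s → ℕ, ∑ i, m i ≤ ℓ ∧ Computes e a m := by
  classical
  by_cases hneg : ∃ m : Fin s → ℕ, ∑ i, m i ≤ ℓ ∧ sVal e a m < 0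
  · obtain ⟨m, hm, hlt⟩ := hneg
    exact ⟨m, hm, Or.inr ⟨lt_of_le_of_lt (iInf_le _ m) hlt, hlt⟩⟩
  · push Not at hneg
    have hfin : {m : Fin s → ℕ | ∑ i, m i ≤ ℓ}.Finite := by
      refine (Set.finite_Iic (fun _ : Fin s => ℓ)).subset fun m hm i => ?_
      exact (Finset.single_le_sum (fun j _ => Nat.zero_le (m j)) (Finset.mem_univ i)).trans hm
    obtain ⟨m₀, hm₀, hmin⟩ := Set.exists_min_image {m : Fin s → ℕ | ∑ i, m i ≤ ℓ} (sVal e a) hfin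
      ⟨0, by simp⟩
    have hall : ∀ m, sVal e a m₀ ≤ sVal e a m := by
      intro m
      by_cases hm : sVal e a m = ⊤
      · rw [hm]; exact le_top
      · obtain ⟨m', hm', hlt | hle⟩ := h m hm
        · exact absurd hlt (not_lt.2 (hneg m' hm'))
        · exact (hmin m' hm').trans hle
    have hmld : mld e a = sVal e a m₀ := le_antisymm (iInf_le _ m₀) (le_iInf hall)
    refine ⟨m₀, hm₀, Or.inl ⟨?_, hmld.symm⟩⟩
    rw [hmld]; exact hneg m₀ hm₀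

theorem main {s : ℕ} (e : Fin s → ℝ) (he : ∀ i, 0 < e i) :
    ∃ ℓ : ℕ, ∀ (k : Type u) [Field k] [IsAlgClosed k] (a : Fin s → Ideal (MvPolynomial (Fin 3) k))
      (μ : Fin s → ℕ) (i₀ : Fin s), (∀ i, OrdAt0 (a i) (μ i)) → (μ i₀ : k) ≠ 0 →
      ∑ i, e i * (μ i : ℝ) ≤ 1 + e i₀ → ∃ m : Fin s → ℕ, ∑ i, m i ≤ ℓ ∧ Computes e a m := by
  obtain ⟨ℓ, hℓ⟩ := main_step.{u} e he
  exact ⟨ℓ, fun k _ _ a μ i₀ h1 h2 h3 => computes_of_step e a ℓ (hℓ k a μ i₀ h1 h2 h3)⟩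

end Pool.Agent.MNJ
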