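import Pool.Agent.Work.MP_6c38a7_ag.Main2C
import Pool.Agent.Work.MP_6c38a7_ag.MainD
import Pool.Agent.Work.MP_6c38a7_ag.CoordC

/-!
# Cell MN: the stronger form of the main theorem
-/

namespace Pool.Agent.MNJ

open MvPolynomial

universe u

section

variable {k : Type u} [Field k]

/-- `core2` with the output of `adapt` -/
theorem core2' {s : ℕ} (e : Fin s → ℝ) (he : ∀ i, 0 < e i) (μ : Fin s → ℕ)
    (T : Finset (Fin s)) (hsum : ∑ i, e i * (μ i : ℝ) ≤ 1 + ∑ i ∈ T, e i) (hμ1 : ∀ i ∈ T, 1 ≤ μ i)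
    (Mx L C Q C₂ : ℕ) (hMx : ∀ i, μ i ≤ Mx) (hL : MonoBd 3 e L) (hC : ArithBd2 e C)
    (hQ : C * (C + C) + C ≤ Q) (hC₂ : DescBd e Mx Q C₂)
    (a : Fin s → Ideal (MvPolynomial (Fin 3) k)) (m : Fin s → ℕ)
    (hprep : Prep2 a μ) {K : Type u} [Field K] [Algebra k K]
    (γ : Fin 3 → PowerSeries K) (hγ : Contact a m γ) (hci : CI k (∑ i, m i) T μ m γ) (r : ℕ) (hr : rk k (cs (∑ i, m i) γ) = r)
    (halt : (∃ p q : ℕ, 1 ≤ p ∧ 1 ≤ q ∧
          (rk k (cs (∑ i, m i) ![γ 1, γ 2]) + ((p + q : ℕ) : ℕ∞) ≤ ((2 * (∑ i, m i + 1) : ℕ) : ℕ∞)) ∧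
          RB k (∑ i, m i) (γ 1) (γ 2) p q 1 1) ∨
       (∃ g p' q' : ℕ, 1 ≤ g ∧ 2 ≤ q' ∧ q' < p' ∧ Nat.Coprime p' q' ∧ g * p' ≤ (∑ i, m i) ∧
          (γ 1).order = ((g * p' : ℕ) : ℕ∞) ∧ (γ 2).order = ((g * q' : ℕ) : ℕ∞) ∧
          ∃ τ : k, PowerSeries.coeff (g * p') (γ 1) ^ q' =
            algebraMap k K τ * PowerSeries.coeff (g * q') (γ 2) ^ p')) :
    ∃ m' : Fin s → ℕ, ∑ i, m' i ≤ s * (Mx * L) + s * (Mx * C₂) ∧
      (sVal e a m' < 0 ∨ sVal e a m' ≤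
        ((((3 * (∑ i, m i + 1) : ℕ) : ℝ) - r - ∑ i, e i * (m i : ℝ) : ℝ) : EReal)) := by
  refine core2 e he μ T hsum hμ1 Mx L C Q C₂ hMx hL hC hQ hC₂ a m hprep γ hγ hci r hr ?_
  rcases halt with h | ⟨g, p, q, hg, hq, hqp, hco, hn, ho1, ho2, τ, hτ⟩
  · exact Or.inl h
  · right
    by_cases hqk : (q : k) ≠ 0
    · obtain ⟨j, hj, hrk, hRB⟩ := cusp (γ 1) (γ 2) (∑ i, m i) g p q hg (by omega) (by omega) hco hqk ho1
        ho2 hn ((Nat.mul_le_mul_left g hqp.le).trans hn) τ hτ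
      exact ⟨g, p, q, j, hg, hq, hqp, hj, hrk, hRB⟩
    · push Not at hqk
      have hpk : (p : k) ≠ 0 := by
        intro hpk
        have hb := Nat.isCoprime_iff_coprime.2 hco
        obtain ⟨u, v, huv⟩ := hb
        have h1 : ((u * p + v * q : ℤ) : k) = ((1 : ℤ) : k) := by rw [huv]
        push_cast at h1
        rw [hpk, hqk] at h1
        simp at h1
      have hτ0 : τ ≠ 0 := by
        rintro rfl
        rw [map_zero, zero_mul] at hτ
        have h1 : PowerSeries.coeff (g * p) (γ 1) = 0 := pow_eq_zero_iff (by omega) |>.1 hτ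
        have hne : γ 1 ≠ 0 := by
          intro h0; rw [h0, PowerSeries.order_zero] at ho1; exact absurd ho1 (ENat.top_ne_natCast _)
        have h2 := PowerSeries.coeff_order hne
        rw [ho1, ENat.toNat_natCast] at h2
        exact h2 h1
      have hτ' : PowerSeries.coeff (g * q) (γ 2) ^ p =
          algebraMap k K τ⁻¹ * PowerSeries.coeff (g * p) (γ 1) ^ q := by
        rw [hτ, ← mul_assoc, ← map_mul, inv_mul_cancel₀ hτ0, map_one, one_mul]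
      obtain ⟨j, hj, hrk, hRB⟩ := cusp (γ 2) (γ 1) (∑ i, m i) g q p hg (by omega) (by omega) hco.symm hpk
        ho2 ho1 ((Nat.mul_le_mul_left g hqp.le).trans hn) hn τ⁻¹ hτ'
      refine ⟨g, p, q, j, hg, hq, hqp, hj, ?_, ?_⟩
      · have e1 : cs (∑ i, m i) ![γ 1, γ 2] = cs (∑ i, m i) ![γ 2, γ 1] := by
          ext c
          constructor
          · rintro ⟨i, l, hl, rfl⟩
            fin_cases i
            · exact ⟨1, l, hl, rfl⟩
            · exact ⟨0, l, hl, rfl⟩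
          · rintro ⟨i, l, hl, rfl⟩
            fin_cases i
            · exact ⟨1, l, hl, rfl⟩
            · exact ⟨0, l, hl, rfl⟩
        rw [e1, show g * p + g * q + j = g * q + g * p + j by ring]
        exact hrk
      · have h1 := hRB.swap
        have e2 : g * q * p = g * p * q := by ring
        rw [e2] at h1
        exact h1


end

/-- the main step -/
theorem main_step2 {s : ℕ} (e : Fin s → ℝ) (he : ∀ i, 0 < e i) (harith : ∃ C, ArithBd2 e C) :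
    ∃ ℓ : ℕ, ∀ (k : Type u) [Field k] [IsAlgClosed k] (a : Fin s → Ideal (MvPolynomial (Fin 3) k))
      (μ : Fin s → ℕ) (T : Finset (Fin s)), (∀ i, OrdAt0 (a i) (μ i)) →
      (∀ i ∈ T, GoodLead (a i) (μ i)) →
      ∑ i, e i * (μ i : ℝ) ≤ 1 + ∑ i ∈ T, e i → ∀ m : Fin s → ℕ, sVal e a m ≠ ⊤ →
      ∃ m' : Fin s → ℕ, ∑ i, m' i ≤ ℓ ∧ (sVal e a m' < 0 ∨ sVal e a m' ≤ sVal e a m) := by
  classical
  obtain ⟨L, hL⟩ := mono (N := 3) e he
  obtain ⟨C, hC⟩ := harith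
  set Mx : ℕ := ⌈∑ l, (1 + ∑ i, e i) / e l⌉₊ with hMxd
  set Q : ℕ := C * (C + C) + C with hQ
  obtain ⟨C₂, hC₂⟩ := desc e he Mx Q
  refine ⟨s * (Mx * L) + s * (Mx * C₂), ?_⟩
  intro k _ _ a μ T hμ hT hsum m hm
  have hμ1 : ∀ i ∈ T, 1 ≤ μ i := (exists_dirs a μ hμ T hT).1
  have hTs : ∑ i ∈ T, e i ≤ ∑ i, e i :=
    Finset.sum_le_sum_of_subset_of_nonneg (Finset.subset_univ _) fun i _ _ => (he i).le
  have hMx : ∀ i, μ i ≤ Mx := by
    intro i
    have h1 : e i * (μ i : ℝ) ≤ 1 + ∑ i, e i := by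
      refine le_trans ?_ (hsum.trans (by linarith))
      exact Finset.single_le_sum (f := fun i => e i * (μ i : ℝ))
        (fun j _ => mul_nonneg (he j).le (Nat.cast_nonneg _)) (Finset.mem_univ i)
    have h2 : (μ i : ℝ) ≤ (1 + ∑ i, e i) / e i := by
      rw [le_div_iff₀ (he i)]; linarith
    have hs0 : 0 ≤ ∑ i, e i := Finset.sum_nonneg fun i _ => (he i).le
    have h3 : (1 + ∑ i, e i) / e i ≤ ∑ l, (1 + ∑ i, e i) / e l :=
      Finset.single_le_sum (f := fun l => (1 + ∑ i, e i) / e l)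
        (fun l _ => div_nonneg (by linarith) (he l).le) (Finset.mem_univ i)
    have h4 : (μ i : ℝ) ≤ (Mx : ℝ) := h2.trans (h3.trans (Nat.le_ceil _))
    exact_mod_cast h4
  set n := ∑ i, m i with hn
  have hmn : ∀ i, m i ≤ n := fun i => Finset.single_le_sum (fun j _ => Nat.zero_le (m j)) (Finset.mem_univ i)
  -- the arc, truncated
  obtain ⟨K, _, _, γ₀, r, hγ₀, hr₀, hval⟩ := exists_arc e a m hm
  set γ : Fin 3 → PowerSeries K := fun i => tr n (γ₀ i) with hγd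
  have hγ : Contact a m γ := by
    refine ⟨fun i => by rw [hγd]; change PowerSeries.constantCoeff (tr n (γ₀ i)) = 0; rw [constantCoeff_tr]; exact hγ₀.1 i, fun i f hf => ?_⟩
    refine le_order_congr (n := n) (by have := hmn i; omega) (coeff_aeval_congr γ₀ γ n ?_ f)
      (hγ₀.2 i f hf)
    intro i j hj
    exact (coeff_tr_of_le hj _).symm
  have hr : rk k (cs n γ) = r := by
    rw [← hr₀]
    congr 1
    exact cs_congr fun i j hj => coeff_tr_of_le hj _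
  have htr : ∀ i j, n < j → PowerSeries.coeff j (γ i) = 0 := by
    intro i j hj
    rw [hγd]
    change PowerSeries.coeff j (tr n (γ₀ i)) = 0
    rw [coeff_tr, if_neg (by omega)]
  -- good coordinates
  obtain ⟨Φ₁, hΦ₁, hΦ₁', hprep₁, hci₁⟩ := good_coords a μ m hμ T hT n hmn γ hγ htr
  obtain ⟨hc₁, hrk₁⟩ := arc_inv Φ₁ hΦ₁ hΦ₁' a m γ hγ n
  set a₁ : Fin s → Ideal (MvPolynomial (Fin 3) k) := fun i => (a i).map Φ₁ with ha₁
  have hs₁ : ∀ m', sVal e a₁ m' = sVal e a m' := fun m' => sVal_map e Φ₁ hΦ₁ hΦ₁' a m'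
  set γ₁ : Fin 3 → PowerSeries K := fun i => (aeval γ (Φ₁.symm (X i)) : PowerSeries K) with hγ₁
  -- plane coordinates
  obtain ⟨y₁, z₁, ζ, h12, hζ, halt⟩ := adapt (k := k) (γ₁ 1) (γ₁ 2) (hc₁.1 1) (hc₁.1 2) n
  -- reduction to the case without exchange
  obtain ⟨a₂, γ₂, hprep₂, hγ₂, hci₂, hr₂, hs₂, hy₂, hz₂⟩ :
      ∃ (a₂ : Fin s → Ideal (MvPolynomial (Fin 3) k))
      (γ₂ : Fin 3 → PowerSeries K), Prep2 a₂ μ ∧ Contact a₂ m γ₂ ∧ CI k n T μ m γ₂ ∧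
      rk k (cs n γ₂) = r ∧ (∀ m', sVal e a₂ m' = sVal e a₁ m') ∧ γ₂ 1 = y₁ ∧ γ₂ 2 = z₁ := by
    rcases h12 with ⟨rfl, rfl⟩ | ⟨rfl, rfl⟩
    · exact ⟨a₁, γ₁, hprep₁, hc₁, hci₁, hrk₁.trans hr, fun _ => rfl, rfl, rfl⟩
    · obtain ⟨Φ, hΦ, hΦ', hp, h0, h1, h2⟩ := hprep₁.swap
      obtain ⟨hc, hrk⟩ := arc_inv Φ hΦ hΦ' a₁ m γ₁ hc₁ n
      have g0 : (aeval γ₁ (Φ.symm (X 0)) : PowerSeries K) = γ₁ 0 := by rw [h0, aeval_X]
      have g1 : (aeval γ₁ (Φ.symm (X 1)) : PowerSeries K) = γ₁ 2 := by rw [h1, aeval_X]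
      have g2 : (aeval γ₁ (Φ.symm (X 2)) : PowerSeries K) = γ₁ 1 := by rw [h2, aeval_X]
      refine ⟨_, _, hp, hc, ?_, hrk.trans (hrk₁.trans hr), fun m' => sVal_map e Φ hΦ hΦ' a₁ m', ?_, ?_⟩
      · refine hci₁.congr g0 (fun i => ⟨X (Equiv.swap 0 1 i), ?_⟩) (fun i => ⟨X (Equiv.swap 0 1 i), ?_⟩)
        · rw [aeval_X]
          fin_cases i
          · exact g1
          · exact g2
        · rw [aeval_X]
          fin_cases i
          · exact g2.symm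
          · exact g1.symm
      · exact g1
      · exact g2
  obtain ⟨Φ, hΦ, hΦ', hp, h0, h2, h1⟩ := hprep₂.shear ζ hζ
  obtain ⟨hc, hrk⟩ := arc_inv Φ hΦ hΦ' a₂ m γ₂ hγ₂ n
  set γ₃ : Fin 3 → PowerSeries K := fun i => (aeval γ₂ (Φ.symm (X i)) : PowerSeries K) with hγ₃
  have e0 : γ₃ 0 = γ₂ 0 := by
    rw [hγ₃]
    change aeval γ₂ (Φ.symm (X 0)) = _
    rw [h0, aeval_X]
  have e1 : γ₃ 1 = y₁ - Polynomial.aeval z₁ ζ := by
    rw [hγ₃]
    change aeval γ₂ (Φ.symm (X 1)) = _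
    rw [h1, map_sub, aeval_X, hy₂]
    congr 1
    rw [← Polynomial.aeval_algHom_apply, aeval_X, hz₂]
  have e2 : γ₃ 2 = z₁ := by
    rw [hγ₃]
    change aeval γ₂ (Φ.symm (X 2)) = _
    rw [h2, aeval_X, hz₂]
  have hci₃ : CI k n T μ m γ₃ := by
    refine hci₂.congr e0 ?_ ?_
    · intro i
      fin_cases i
      · refine ⟨X 0 - Polynomial.aeval (X 1) ζ, ?_⟩
        change γ₃ 1 = _
        rw [e1, map_sub, aeval_X, ← Polynomial.aeval_algHom_apply, aeval_X]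
        change _ = γ₂ 1 - Polynomial.aeval (γ₂ 2) ζ
        rw [hy₂, hz₂]
      · refine ⟨X 1, ?_⟩
        change γ₃ 2 = _
        rw [e2, aeval_X]
        exact hz₂.symm
    · intro i
      fin_cases i
      · refine ⟨X 0 + Polynomial.aeval (X 1) ζ, ?_⟩
        change γ₂ 1 = _
        rw [map_add, aeval_X, ← Polynomial.aeval_algHom_apply, aeval_X]
        change _ = γ₃ 1 + Polynomial.aeval (γ₃ 2) ζ
        rw [e1, e2, hy₂]
        ring
      · refine ⟨X 1, ?_⟩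
        change γ₂ 2 = _
        rw [aeval_X]
        change _ = γ₃ 2
        rw [e2, hz₂]
  obtain ⟨m', hm', hfin⟩ := core2' e he μ T hsum hμ1 Mx L C Q C₂ hMx hL hC le_rfl hC₂
    (fun i => (a₂ i).map Φ) m hp γ₃ hc hci₃ r (hrk.trans hr₂) (by rw [e1, e2]; exact halt)
  have hs : ∀ m', sVal e (fun i => (a₂ i).map Φ) m' = sVal e a m' := fun m' => by
    rw [sVal_map e Φ hΦ hΦ' a₂ m', hs₂, hs₁]
  refine ⟨m', hm', ?_⟩
  rw [hs] at hfin
  rw [hval]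
  exact hfin

/-- the trivial cases: one of the ideals is `0`, or `∑ e_i ord_0(𝔞_i) > 3` -/
theorem small_or_neg {k : Type u} [Field k] {s : ℕ} (e : Fin s → ℝ) (he : ∀ i, 0 < e i)
    (a : Fin s → Ideal (MvPolynomial (Fin 3) k)) :
    (∃ μ : Fin s → ℕ, (∀ i, OrdAt0 (a i) (μ i)) ∧ ∑ i, e i * (μ i : ℝ) ≤ 3) ∨
      ∃ m : Fin s → ℕ, ∑ i, m i ≤ ∑ i, (⌊3 / e i⌋₊ + 1) ∧ sVal e a m < 0 := by
  classical
  let Kb : Fin s → ℕ := fun i => ⌊3 / e i⌋₊ + 1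
  have hKb : ∀ i, 3 < e i * (Kb i : ℝ) := by
    intro i
    have h1 := Nat.lt_floor_add_one (3 / e i)
    rw [div_lt_iff₀ (he i)] at h1
    change 3 < e i * ((⌊3 / e i⌋₊ + 1 : ℕ) : ℝ)
    push_cast
    linarith
  let m : Fin s → ℕ := fun i => Nat.findGreatest
    (fun v => a i ≤ (Ideal.span (Set.range X) : Ideal (MvPolynomial (Fin 3) k)) ^ v) (Kb i)
  have hmle : ∀ i, m i ≤ Kb i := fun i => Nat.findGreatest_le _
  have hmpr : ∀ i, a i ≤ (Ideal.span (Set.range X) : Ideal (MvPolynomial (Fin 3) k)) ^ (m i) :=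
    fun i => Nat.findGreatest_spec (P := fun v => a i ≤
      (Ideal.span (Set.range X) : Ideal (MvPolynomial (Fin 3) k)) ^ v) (m := 0) (Nat.zero_le _) (by simp)
  by_cases hcase : (∀ i, m i < Kb i) ∧ ∑ i, e i * (m i : ℝ) ≤ 3
  · left
    refine ⟨m, fun i => ⟨hmpr i, fun hc => ?_⟩, hcase.2⟩
    have h1 := Nat.le_findGreatest (P := fun v => a i ≤
      (Ideal.span (Set.range X) : Ideal (MvPolynomial (Fin 3) k)) ^ v) (n := Kb i)
      (show m i + 1 ≤ Kb i from hcase.1 i) hc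
    change m i + 1 ≤ m i at h1
    omega
  · right
    refine ⟨m, Finset.sum_le_sum fun i _ => hmle i, ?_⟩
    have h3 : 3 < ∑ i, e i * (m i : ℝ) := by
      by_contra hle
      push Not at hle
      apply hcase
      refine ⟨fun i => ?_, hle⟩
      by_contra hc
      have h4 : m i = Kb i := le_antisymm (hmle i) (by omega)
      have h5 : e i * (m i : ℝ) ≤ ∑ i, e i * (m i : ℝ) :=
        Finset.single_le_sum (f := fun i => e i * (m i : ℝ))
          (fun j _ => mul_nonneg (he j).le (Nat.cast_nonneg _)) (Finset.mem_univ i)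
      rw [h4] at h5
      have := hKb i
      linarith
    have h6 := mon_arc e a (fun _ => 1) (fun _ => le_rfl) m (by
      intro i f hf d hd
      have h7 := (mem_pow_idealOfVars_iff (m i) f).1 (hmpr i hf) d hd
      rw [Finsupp.degree_eq_sum] at h7
      simpa using h7)
    refine lt_of_le_of_lt h6 ?_
    have h8 : (((∑ _j : Fin 3, 1 : ℕ) : ℝ) - ∑ i, e i * (m i : ℝ) : ℝ) < 0 := by
      simp only [Finset.sum_const, Finset.card_univ, Fintype.card_fin]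
      norm_num
      exact h3
    exact_mod_cast h8

theorem main2_aux {s : ℕ} (e : Fin s → ℝ) (he : ∀ i, 0 < e i) (harith : ∃ C, ArithBd2 e C) :
    ∃ ℓ : ℕ, ∀ (k : Type u) [Field k] [IsAlgClosed k] (a : Fin s → Ideal (MvPolynomial (Fin 3) k)),
      (∀ μ : Fin s → ℕ, (∀ i, OrdAt0 (a i) (μ i)) → ∑ i, e i * (μ i : ℝ) ≤ 3 →
        ∃ T : Finset (Fin s), (∀ i ∈ T, GoodLead (a i) (μ i)) ∧
          ∑ i, e i * (μ i : ℝ) ≤ 1 + ∑ i ∈ T, e i) →
      ∃ m : Fin s → ℕ, ∑ i, m i ≤ ℓ ∧ Computes e a m := by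
  obtain ⟨ℓ, hℓ⟩ := main_step2.{u} e he harith
  refine ⟨ℓ + ∑ i, (⌊3 / e i⌋₊ + 1), fun k _ _ a h => ?_⟩
  rcases small_or_neg e he a with ⟨μ, hμ, h3⟩ | ⟨m, hm, hneg⟩
  · obtain ⟨T, hT, hsum⟩ := h μ hμ h3
    obtain ⟨m, hm, hc⟩ := computes_of_step e a ℓ (hℓ k a μ T hμ hT hsum)
    exact ⟨m, by omega, hc⟩
  · exact ⟨m, by omega, Or.inr ⟨lt_of_le_of_lt (iInf_le _ m) hneg, hneg⟩⟩

end Pool.Agent.MNJ
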