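import Pool.Agent.Work.MP_6c38a7_ag.Support

/-!
# Cell MN: the function `G_i(c)` (contact order of `(t ^ c · generic, y, z)`, truncated at `m_i`)
-/

namespace Pool.Agent.MNJ

open Polynomial

namespace GG

variable {K : Type*} [Field K] {s : ℕ} (Pl : Fin s → Set (Polynomial (PowerSeries K)))

/-- all terms have order `≥ v` -/
def prd (i : Fin s) (c v : ℕ) : Prop :=
  ∀ P ∈ Pl i, ∀ l, (v : ℕ∞) ≤ (P.coeff l).order + ((l * c : ℕ) : ℕ∞)

/-- the contact order -/
noncomputable def G (m : Fin s → ℕ) (i : Fin s) (c : ℕ) : ℕ :=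
  @Nat.findGreatest (prd Pl i c) (Classical.decPred _) (m i)

variable {Pl} (m : Fin s → ℕ)

theorem G_le (i : Fin s) (c : ℕ) : G Pl m i c ≤ m i :=
  @Nat.findGreatest_le (prd Pl i c) (Classical.decPred _) _

theorem G_prd (i : Fin s) (c : ℕ) : prd Pl i c (G Pl m i c) :=
  @Nat.findGreatest_spec 0 (prd Pl i c) (Classical.decPred _) _ (Nat.zero_le _)
    (by intro P _ l; simp)

theorem le_G {i : Fin s} {c v : ℕ} (hv : v ≤ m i) (h : prd Pl i c v) : v ≤ G Pl m i c :=
  @Nat.le_findGreatest _ (prd Pl i c) (Classical.decPred _) _ hv h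

theorem G_wit {i : Fin s} {c : ℕ} (h : G Pl m i c < m i) : ∃ P ∈ Pl i, ∃ l o : ℕ,
    (P.coeff l).order = o ∧ o + l * c ≤ G Pl m i c := by
  by_contra hcon
  push Not at hcon
  have : prd Pl i c (G Pl m i c + 1) := by
    intro P hP l
    rcases eq_or_ne (P.coeff l) 0 with h0 | h0
    · rw [h0, PowerSeries.order_zero, top_add]; exact le_top
    · obtain ⟨o, ho⟩ : ∃ o : ℕ, (P.coeff l).order = o := ⟨_, (PowerSeries.coe_toNat_order h0).symm⟩
      have h1 := hcon P hP l o ho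
      rw [ho]
      exact_mod_cast h1
  have := le_G m h this
  omega

theorem G_le_mu {μ : Fin s → ℕ} (h2 : ∀ i, ∃ P ∈ Pl i, (P.coeff (μ i)).order = 0) (i : Fin s) (c : ℕ) :
    G Pl m i c ≤ μ i * c := by
  obtain ⟨P, hP, hu⟩ := h2 i
  have := G_prd (Pl := Pl) m i c P hP (μ i)
  rw [hu, zero_add] at this
  exact_mod_cast this

theorem prd_mono {i : Fin s} {c c' v : ℕ} (hc : c ≤ c') (h : prd Pl i c v) : prd Pl i c' v := by
  intro P hP l
  refine (h P hP l).trans ?_
  gcongr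

theorem G_mono (i : Fin s) {c c' : ℕ} (hc : c ≤ c') : G Pl m i c ≤ G Pl m i c' :=
  le_G m (G_le m i c) (prd_mono hc (G_prd m i c))

theorem G_le_of_wit {i : Fin s} {c : ℕ} {P : Polynomial (PowerSeries K)} (hP : P ∈ Pl i) {l o : ℕ}
    (ho : (P.coeff l).order = o) : G Pl m i c ≤ o + l * c := by
  have := G_prd (Pl := Pl) m i c P hP l
  rw [ho] at this
  exact_mod_cast this

theorem G_inc {μ : Fin s → ℕ} (h2 : ∀ i, ∃ P ∈ Pl i, (P.coeff (μ i)).order = 0) (i : Fin s) {c : ℕ}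
    (hc : 1 ≤ c) : G Pl m i (c + 1) ≤ G Pl m i c + μ i := by
  rcases lt_or_ge (G Pl m i c) (m i) with h | h
  · obtain ⟨P, hP, l, o, ho, h1⟩ := G_wit m h
    have h3 := G_le_of_wit (c := c + 1) m hP ho
    have h4 : l * c ≤ μ i * c := by
      have := G_le_mu m h2 i c
      omega
    have h5 : l ≤ μ i := Nat.le_of_mul_le_mul_right h4 (by omega)
    rw [mul_add, mul_one] at h3
    omega
  · have := G_le (Pl := Pl) m i (c + 1)
    omega

theorem G_conc (i : Fin s) (c : ℕ) : G Pl m i (c + 2) + G Pl m i c ≤ 2 * G Pl m i (c + 1) := by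
  rcases lt_or_ge (G Pl m i (c + 1)) (m i) with h | h
  · obtain ⟨P, hP, l, o, ho, h1⟩ := G_wit m h
    have h3 := G_le_of_wit (c := c + 2) m hP ho
    have h4 := G_le_of_wit (c := c) m hP ho
    have e1 : l * (c + 2) = l * c + 2 * l := by ring
    have e2 : l * (c + 1) = l * c + l := by ring
    rw [e1] at h3
    rw [e2] at h1
    omega
  · have h1 := G_le (Pl := Pl) m i (c + 2)
    have h2 := G_le (Pl := Pl) m i c
    omega

end GG

end Pool.Agent.MNJ
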